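import Pool.Agent.H18.UP.THK

/-!
# THEOREM UP: `Geo` in the plane

PROOF. `rt, Jc, Ji, ni` from `NS`; `back`; `hδ`. `inf`: `NS.bd` with `x = ∞`. `fc`: `US0.fc`; the critical points in `J` have `b ≠ 0` (`NS.Jn`). `sim`. `rep`: `(rat a b)^[p] x = x`, `x ∈ J`: `(gg a b)^[p] x = x` (`bdo` of H3/NC/BRN with `u = x`, or the orbit of `x ∈ J` stays in `J`).
`ring`: `θ', r1'` from `thk`; `θ = θ' / 2`, `r1 = min r1' 1`. For `c ∈ J`, `ρ`: `w ∈ J` with `θ' ρ ≤ ‖w - c‖ ≤ ρ / 8`; `US0.per` at `w` with the radius `min (θ' ρ / 2) (ρ / 8)`: `x ∈ J` periodic, `θ' ρ / 2 ≤ ‖x - c‖ ≤ ρ / 4`; `x ∈ pre^p {x}` by `mem_pre` (`NS.Jn`, `itJ`).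
-/

set_option autoImplicit false

open Filter Topology Polynomial Metric Set MeasureTheory

namespace Pool.Agent.H18.UP

open Pool.Agent.H44.Fatou (rat rat_continuous)
open Pool.Agent.H80.AJ (Br KK one_le_KK KK_pos distort distort_lip deriv_ne univ_cover)
open Pool.Agent.H32.BT (IsCrit)
open Pool.Agent.H61.TT Pool.Agent.H57.CP Pool.Agent.H3.NC

variable {d : ℕ} {a b : Polynomial ℂ} {J : Set ℂ} {δ0 : ℝ}

theorem plg {D : ℕ} {R0 : ℝ} (h : US d D a b J δ0 R0) : Geo d a b J δ0 := by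
  have hs := h.toUS0
  have hn := hs.ns
  refine { rt := hn.rt, Jc := hn.Jc, Ji := fun z hz _ => hn.Ji z hz, back := hs.back, hδ := hn.hδ0,
           inf := ?_, fc := ?_, sim := fun c hc hcr => h.sim c hc hcr.2, ni := hn.ni, rep := ?_, ring := ?_ }
  · rintro n w ⟨y, hy, hw⟩ he
    obtain ⟨z, hz, -⟩ := hn.bd n OnePoint.infty ⟨y, hy, w, hw, he⟩
    exact OnePoint.infty_ne_coe _ hz
  · intro c hc
    rcases hs.fc c hc with ⟨z, hz, h1, h2⟩ | h1
    · exact Or.inl ⟨z, hz, h1, hn.Jn z hz, h2⟩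
    · exact Or.inr fun n _ w hw => h1 n w hw
  · intro x hx p hp he
    have h1 := bdo hn (n := p) (y := x) (u := x) (z := x) hx (mem_ball_self hn.hδ0) he
    exact hn.rep x hx p hp h1.1
  · obtain ⟨θ, r1, hθ, hr1, hthk⟩ := thk hs
    refine ⟨θ / 2, r1, by positivity, hr1, fun c hc _ ρ hρ hρ1 => ?_⟩
    obtain ⟨w, hw, hw1, hw2⟩ := hthk c hc ρ hρ hρ1
    have hm : 0 < min (θ * ρ / 2) (ρ / 8) := lt_min (by positivity) (by positivity)
    obtain ⟨x, hx, hxw, p, hp, hpx⟩ := hs.per w hw _ hm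
    have hx1 : ‖x - w‖ < θ * ρ / 2 := lt_of_lt_of_le hxw (min_le_left _ _)
    have hx2 : ‖x - w‖ < ρ / 8 := lt_of_lt_of_le hxw (min_le_right _ _)
    refine ⟨x, hx, ?_, ?_, p, hp, ?_⟩
    · have h1 : ‖w - c‖ ≤ ‖x - c‖ + ‖x - w‖ := by
        have e : w - c = (x - c) - (x - w) := by ring
        rw [e]; exact norm_sub_le _ _
      nlinarith
    · have h1 : ‖x - c‖ ≤ ‖x - w‖ + ‖w - c‖ := by
        have e : x - c = (x - w) + (w - c) := by ring
        rw [e]; exact norm_add_le _ _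
      linarith
    · exact mem_pre.2 ⟨fun i _ => hn.Jn _ (itJ hn hx i), hpx⟩

end Pool.Agent.H18.UP
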