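import Pool.Agent.H18.UP.FNC
import Pool.Agent.H18.UP.PLG

/-!
# THEOREM UP, the final part: the charts if the Julia set is not the sphere
-/

set_option autoImplicit false

open Filter Topology Polynomial Metric Set MeasureTheory

namespace Pool.Agent.H18.UP

open Pool.Agent.H44.Fatou (rat rat_continuous rat_coe rat_coe_of_ne pt crit_coe)
open Pool.Agent.H32.BT Pool.Agent.H79.Eul Pool.Agent.H79.Par
open Pool.Agent.H35.EX Pool.Agent.H44.RR Pool.Agent.H56.HR Pool.Agent.H44.RC Pool.Agent.H47.RJ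
open Pool.Agent.H47.NM Pool.Agent.H47.NN Pool.Agent.H44.ND Pool.Agent.H79.ES Pool.Agent.H44.RG
open Pool.Agent.H44.CP Pool.Agent.H57.CF Pool.Agent.H47.PS Pool.Agent.H64.NC
open Pool.Agent.H61.TT Pool.Agent.H57.CP Pool.Agent.H3.NC
open Pool.Agent.H66.UP (KD)

variable {d : ℕ}

theorem ps_js {v : E d} (hd : 1 ≤ d) (hcop : IsCoprime (pol v.1) (pol v.2))
    (hdeg : max (pol v.1).natDegree (pol v.2).natDegree = d) : PS (Rf v) ⊆ JS (Rf v) := by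
  have hcl : IsClosed (JS (Rf v)) := by
    unfold JS FS
    exact isOpen_interior.isClosed_compl
  refine closure_minimal ?_ hcl
  rintro y ⟨c, -, hcJ, n, -, rfl⟩
  exact fun h1 => hcJ ((fs_iff hd hcop hdeg n c).1 h1)

theorem chord_nn (x y : OnePoint ℂ) : 0 ≤ chord x y := by
  induction x using OnePoint.rec with
  | infty =>
    induction y using OnePoint.rec with
    | infty => exact le_rfl
    | coe y =>
      show 0 ≤ 1 / √(1 + ‖y‖ ^ 2)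
      positivity
  | coe x =>
    induction y using OnePoint.rec with
    | infty =>
      show 0 ≤ 1 / √(1 + ‖x‖ ^ 2)
      positivity
    | coe y =>
      show 0 ≤ ‖x - y‖ / (√(1 + ‖x‖ ^ 2) * √(1 + ‖y‖ ^ 2))
      positivity

theorem k_one {φ : OnePoint ℂ ≃ₜ OnePoint ℂ} {K : ℝ}
    (bil : ∀ x y, chord (φ x) (φ y) ≤ K * chord x y ∧ chord x y ≤ K * chord (φ x) (φ y)) : 1 ≤ K := by
  have h0 : chord ((0 : ℂ) : OnePoint ℂ) OnePoint.infty = 1 := by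
    show 1 / √(1 + ‖(0 : ℂ)‖ ^ 2) = 1
    simp
  obtain ⟨x, y, hxy⟩ : ∃ x y : OnePoint ℂ, chord x y = 1 := ⟨_, _, h0⟩
  obtain ⟨h1, h2⟩ := bil x y
  rw [hxy] at h1 h2
  by_contra hK
  push Not at hK
  have hc : 0 ≤ chord (φ x) (φ y) := chord_nn _ _
  nlinarith [mul_nonneg (sub_nonneg.2 hK.le) hc]

theorem cu_ga {v u : E d} {φ : OnePoint ℂ ≃ₜ OnePoint ℂ} {K : ℝ} {T : Set (OnePoint ℂ)} (h : GA u T)
    (hcop : IsCoprime (pol v.1) (pol v.2)) (hdeg : max (pol v.1).natDegree (pol v.2).natDegree = d)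
    (bil : ∀ x y, chord (φ x) (φ y) ≤ K * chord x y ∧ chord x y ≤ K * chord (φ x) (φ y))
    (conj : ∀ x, Rf u (φ x) = φ (Rf v x)) {D : ℕ} {δ0 R0 : ℝ} (hUS : US d D (pol u.1) (pol u.2) (JC u) δ0 R0)
    (hKD : ∀ c0 ∈ JC u, Cr (pol u.1) (pol u.2) c0 →
      ∃ (Z : Set ℂ) (δ1 R C : ℝ) (q r K' : ℂ → ℂ → ℂ) (Y : ℂ → ℂ), KD (pol u.1) (pol u.2) (JC u) Z c0 δ1 R C q r K' Y) :
    ∀ x0 ∈ PS (Rf v), ∃ (u : E d) (φ : OnePoint ℂ ≃ₜ OnePoint ℂ) (K : ℝ) (J : Set ℂ) (δ0 : ℝ), CU v u φ K J δ0 ∧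
      φ x0 ≠ OnePoint.infty ∧ ∀ c0 ∈ J, Cr (pol u.1) (pol u.2) c0 →
      ∃ (Z : Set ℂ) (δ1 R C : ℝ) (q r K' : ℂ → ℂ → ℂ) (Y : ℂ → ℂ), KD (pol u.1) (pol u.2) J Z c0 δ1 R C q r K' Y := by
  intro x0 hx0
  have hd := h.hd
  have hinf : OnePoint.infty ∉ JS (Rf u) := fun hn => hn h.fi
  refine ⟨u, φ, K, JC u, δ0, ⟨k_one bil, bil, conj, plg hUS, fun z => Iff.rfl, fun c _ hc => ?_, Or.inr hinf⟩, ?_, hKD⟩
  · have h1 : c ≠ OnePoint.infty := fun e => hinf (e ▸ hc)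
    obtain ⟨z, hz⟩ := OnePoint.ne_infty_iff_exists.1 h1
    exact ⟨z, hz.symm⟩
  · intro e
    have h1 := ps_js (by omega) hcop hdeg hx0
    have h2 : φ x0 ∈ JS (Rf u) := fun hn => h1 ((Pool.Agent.H76.SU.fs_conj bil conj x0).1 hn)
    rw [e] at h2
    exact hinf h2

end Pool.Agent.H18.UP
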