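import Pool.Agent.H78.NS.Defs
import Pool.Agent.H3.NC.BRN

/-!
# THEOREM UP (the postcritical set is uniformly perfect): definitions

`Cr`: critical points in the plane with value in the plane. `PJ`: the closure of the orbits `g^n(c)`, `n ≥ 1` (as long as they are in the plane), of the critical points `c ∈ J`.
`Geo`: the setting of the GEOMETRIC part (both cases). Julia set not the sphere: `J` is the Julia set, infinity is attracted. Julia set = sphere: `J = univ`, infinity is a repelling fixed point.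
`NJ`: the `δ0`-neighbourhood of `J`; `inf`, `fc`: infinity and the critical points outside `J` do not come there; `sim`: the critical points in `J` are simple; `ring`: periodic points in rings at the critical points.
`US0`, `US`: the setting of the ANALYTIC part, Julia set not the sphere. `VP`: the velocities of the points of `J` in the directions `z ^ j / b ^ 2`: bounded, equation, three point estimate.
`Fr`: a frame: `g^i` maps `ball q r` into `ball c0 r0`; `t`: inner radius (`ball q t` goes into `ball c0 t0`), `s`: outer radius (what goes into `ball c0 (2 t0)` is in `ball q s`), `e`: what goes into `closedBall c0 e0` is in `closedBall q e`. `Qu M L K Λ`: its quality.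
`Fol`: the data of a folded return. `Chn`: the data of the pull back along an orbit. `Ret`, `UnfW`, `FolW`, `GV`: the nice set `V` and its first return domains. `Cen`: the central domain `C0` and the data of the function `D`.
-/

set_option autoImplicit false

open Filter Topology Polynomial Metric Set MeasureTheory

namespace Pool.Agent.H18.UP

open Pool.Agent.H44.Fatou (rat)
open Pool.Agent.H80.AJ (Br KK)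
open Pool.Agent.H32.BT (IsCrit)
open Pool.Agent.H61.TT Pool.Agent.H57.CP Pool.Agent.H3.NC
open Pool.Agent.H78.NS (pf pb FF)

/-- critical points in the plane with value in the plane -/
def Cr (a b : Polynomial ℂ) (c : ℂ) : Prop := b.eval c ≠ 0 ∧ (ww a b).eval c = 0

/-- the closure of the orbits of the critical values of the critical points in `J` -/
def PJ (a b : Polynomial ℂ) (J : Set ℂ) : Set ℂ :=
  closure {y | ∃ c ∈ J, Cr a b c ∧ ∃ n : ℕ, 0 < n ∧ c ∈ (pre a b)^[n] univ ∧ y = (gg a b)^[n] c}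

/-- the `δ0`-neighbourhood of `J` -/
def NJ (J : Set ℂ) (δ0 : ℝ) : Set ℂ := {w | ∃ y ∈ J, w ∈ ball y δ0}

/-- the setting of the geometric part -/
structure Geo (d : ℕ) (a b : Polynomial ℂ) (J : Set ℂ) (δ0 : ℝ) : Prop where
  rt : RatD d a b
  Jc : IsClosed J
  Ji : ∀ z ∈ J, b.eval z ≠ 0 → gg a b z ∈ J
  back : ∀ z : ℂ, b.eval z ≠ 0 → gg a b z ∈ J → z ∈ J
  hδ : 0 < δ0
  inf : ∀ n : ℕ, ∀ w ∈ NJ J δ0, (rat a b)^[n] OnePoint.infty ≠ (w : OnePoint ℂ)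
  fc : ∀ c : OnePoint ℂ, IsCrit (rat a b) c → (∃ z ∈ J, c = (z : OnePoint ℂ) ∧ Cr a b z) ∨
    ∀ n : ℕ, 0 < n → ∀ w ∈ NJ J δ0, (rat a b)^[n] c ≠ (w : OnePoint ℂ)
  sim : ∀ c ∈ J, Cr a b c → (derivative (ww a b)).eval c ≠ 0
  ni : ∀ y ∈ J, ∀ ρ : ℝ, 0 < ρ → ∃ N : ℕ, ∀ m : ℕ, N < m →
    ¬ InjOn (fun z : ℂ => (rat a b)^[m] (z : OnePoint ℂ)) (ball y ρ)
  rep : ∀ x ∈ J, ∀ p : ℕ, 0 < p → (rat a b)^[p] (x : OnePoint ℂ) = (x : OnePoint ℂ) → 1 < ‖tD a b p x‖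
  ring : ∃ θ r1 : ℝ, 0 < θ ∧ 0 < r1 ∧ ∀ c ∈ J, Cr a b c → ∀ ρ : ℝ, 0 < ρ → ρ ≤ r1 → ∃ w ∈ J,
    θ * ρ ≤ ‖w - c‖ ∧ ‖w - c‖ ≤ ρ / 4 ∧ ∃ p : ℕ, 0 < p ∧ w ∈ (pre a b)^[p] {w}

/-- the planar setting of the analytic part, Julia set not the sphere -/
structure US0 (d D : ℕ) (a b : Polynomial ℂ) (J : Set ℂ) (δ0 R0 : ℝ) : Prop where
  ns : NS d D a b J δ0 R0
  hD : 1 ≤ D
  wd : (ww a b).natDegree ≤ D + 1
  back : ∀ z : ℂ, b.eval z ≠ 0 → gg a b z ∈ J → z ∈ J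
  ex : ∀ y ∈ J, ∀ ρ : ℝ, 0 < ρ → ∃ (n : ℕ) (z : ℂ), z ∈ ball y ρ ∧
    ∀ w ∈ ball ((gg a b)^[n] y) δ0, (rat a b)^[n] (z : OnePoint ℂ) ≠ (w : OnePoint ℂ)
  per : ∀ y ∈ J, ∀ ρ : ℝ, 0 < ρ → ∃ x ∈ J, ‖x - y‖ < ρ ∧ ∃ p : ℕ, 0 < p ∧ (gg a b)^[p] x = x
  fc : ∀ c : OnePoint ℂ, IsCrit (rat a b) c → (∃ z ∈ J, c = (z : OnePoint ℂ) ∧ (ww a b).eval z = 0) ∨
    ∀ n : ℕ, ∀ w ∈ NJ J δ0, (rat a b)^[n] c ≠ (w : OnePoint ℂ)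

/-- the planar setting, with simple critical points in `J` -/
structure US (d D : ℕ) (a b : Polynomial ℂ) (J : Set ℂ) (δ0 R0 : ℝ) : Prop extends US0 d D a b J δ0 R0 where
  sim : ∀ c ∈ J, (ww a b).eval c = 0 → (derivative (ww a b)).eval c ≠ 0

/-- velocities on `J` in the directions `z ^ j / b ^ 2` -/
structure VP (D : ℕ) (a b : Polynomial ℂ) (J : Set ℂ) (C : ℝ) (X : ℕ → ℂ → ℂ) : Prop where
  hC : 1 ≤ C
  bd : ∀ j ≤ D, ∀ x ∈ J, ‖X j x‖ ≤ C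
  eq : ∀ j ≤ D, ∀ x ∈ J, X j (gg a b x) = x ^ j / b.eval x ^ 2 + dg a b x * X j x
  tri : ∀ j ≤ D, ∀ x ∈ J, ∀ y ∈ J, ∀ z ∈ J, x ≠ y → z ≠ y →
    ‖X j x - X j y - (x - y) / (z - y) * (X j z - X j y)‖ ≤
      C * ‖x - y‖ * (1 + |Real.log (‖z - y‖ / ‖x - y‖)|)

/-- fat annuli at `x` in the complement of `PJ` -/
def Fat (a b : Polynomial ℂ) (J : Set ℂ) (x : ℂ) : Prop :=
  ∀ M δ : ℝ, 0 < M → 0 < δ → ∃ e R : ℝ, 0 < e ∧ M * e ≤ R ∧ R ≤ δ ∧ PJ a b J ∩ ball x R ⊆ closedBall x e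

/-- `x` is recurrent -/
def Rcr (a b : Polynomial ℂ) (x : ℂ) : Prop := ∀ ε : ℝ, 0 < ε → ∃ n : ℕ, 0 < n ∧ x ∈ (pre a b)^[n] (ball x ε)

/-- frames -/
structure Fr (a b : Polynomial ℂ) (c0 : ℂ) (e0 t0 r0 : ℝ) (i : ℕ) (q : ℂ) (e t s r : ℝ) : Prop where
  he : 0 < e
  et : e ≤ t
  ts : t ≤ s
  sr : s ≤ r
  map : ∀ z ∈ ball q r, z ∈ (pre a b)^[i] (ball c0 r0)
  inn : ∀ z ∈ ball q t, (gg a b)^[i] z ∈ ball c0 t0
  out : ∀ z ∈ ball q r, (gg a b)^[i] z ∈ ball c0 (2 * t0) → z ∈ ball q s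
  eps : ∀ z ∈ ball q r, (gg a b)^[i] z ∈ closedBall c0 e0 → z ∈ closedBall q e
  cen : (gg a b)^[i] q ∈ closedBall c0 e0

/-- the quality of a frame -/
structure Qu (M L K Λ e t s r : ℝ) : Prop where
  te : M * e ≤ t
  st : s ≤ K * t
  rs : L * s ≤ r
  up : r ≤ Λ * s

/-- the data of a folded return: `ψ` a branch of `g^(-k1)` at the critical point `q1`, `γ` a branch of `g^(-(k2-k1-1))` at the critical point `q2`, `γ y = g q1` -/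
structure Fol (a b : Polynomial ℂ) (J : Set ℂ) (M L K C1 δ : ℝ) (k1 k2 : ℕ) (q1 q2 y : ℂ) (t1 s1 r1 e2 t2 s2 r2 : ℝ)
    (ψ γ : ℂ → ℂ) : Prop where
  lt : k1 < k2
  q1J : q1 ∈ J
  q2J : q2 ∈ J
  w1 : Cr a b q1
  w2 : Cr a b q2
  t1p : 0 < t1
  ts1 : t1 ≤ s1
  st1 : s1 ≤ K * t1
  rs1 : L * s1 ≤ r1
  r1δ : r1 ≤ δ
  e2p : 0 < e2
  te2 : M * e2 ≤ t2
  ts2 : t2 ≤ s2
  st2 : s2 ≤ K * t2
  rs2 : L * s2 ≤ r2
  r2δ : r2 ≤ δ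
  br1 : Br (rat a b) k1 q1 r1 (ψ q1) ψ
  br2 : Br (rat a b) (k2 - k1 - 1) q2 r2 (γ q2) γ
  yq : y ∈ closedBall q2 e2
  yv : γ y = gg a b q1
  lift : ∀ x ∈ ball q1 r1, ∃ x' ∈ ball q2 r2, γ x' = gg a b x
  lit : ∀ x ∈ ball q1 t1, ∃ x' ∈ ball q2 t2, γ x' = gg a b x
  dg : ‖deriv γ y‖ * t2 ≤ C1 * t1 ^ 2

/-- the pull back of `ball c0 r0` along the orbit of `z` of length `m` -/
def Chn (a b : Polynomial ℂ) (J : Set ℂ) (c0 : ℂ) (e0 t0 r0 M L K C1 δ : ℝ) (m : ℕ) (z : ℂ) : Prop :=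
  (∃ ψ : ℂ → ℂ, Br (rat a b) m c0 r0 (ψ c0) ψ ∧ ψ ((gg a b)^[m] z) = z) ∨
  ∃ (k1 k2 : ℕ) (q1 q2 y : ℂ) (e1 t1 s1 r1 e2 t2 s2 r2 : ℝ) (ψ γ : ℂ → ℂ),
    Fol a b J M L K C1 δ k1 k2 q1 q2 y t1 s1 r1 e2 t2 s2 r2 ψ γ ∧ k2 ≤ m ∧
    Fr a b c0 e0 t0 r0 (m - k1) q1 e1 t1 s1 r1 ∧ M * e1 ≤ t1 ∧
    Fr a b c0 e0 t0 r0 (m - k2) q2 e2 t2 s2 r2 ∧
    (gg a b)^[k1] z ∈ ball q1 s1 ∧ ψ ((gg a b)^[k1] z) = z ∧
    (k2 = m → q2 = c0 ∧ t2 = t0) ∧ (k1 = 0 → q1 = c0 → r1 ^ 2 ≤ 256 * e0 * r0)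

/-- a first return domain `W` of `V` with the return time `m` -/
structure Ret (a b : Polynomial ℂ) (V : Set ℂ) (L : ℝ) (m : ℕ) (W : Set ℂ) : Prop where
  pos : 0 < m
  op : IsOpen W
  con : IsPreconnected W
  ne : W.Nonempty
  sub : W ⊆ V
  ret : ∀ z ∈ W, z ∈ (pre a b)^[m] V
  fst : ∀ z ∈ W, ∀ j, 0 < j → j < m → (gg a b)^[j] z ∉ V
  cmp : ∀ z ∈ W, ∀ S : Set ℂ, IsPreconnected S → z ∈ S → (∀ x ∈ S, x ∈ (pre a b)^[m] V) → S ⊆ W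
  ont : ∀ w ∈ V, ∃ z ∈ W, (gg a b)^[m] z = w
  small : ∀ z ∈ W, ∀ z' ∈ W, ball z (L * ‖z - z'‖) ⊆ V

/-- an unfolded return domain -/
def UnfW (a b : Polynomial ℂ) (V : Set ℂ) (c0 : ℂ) (r : ℝ) (m : ℕ) (W : Set ℂ) : Prop :=
  ∃ ψ : ℂ → ℂ, Br (rat a b) m c0 r (ψ c0) ψ ∧ W = ψ '' V

/-- a folded return domain -/
def FolW (a b : Polynomial ℂ) (J : Set ℂ) (M L K C1 δ : ℝ) (m : ℕ) (W : Set ℂ) : Prop :=
  ∃ (k1 k2 : ℕ) (q1 q2 y : ℂ) (t1 s1 r1 e2 t2 s2 r2 : ℝ) (ψ γ : ℂ → ℂ),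
    Fol a b J M L K C1 δ k1 k2 q1 q2 y t1 s1 r1 e2 t2 s2 r2 ψ γ ∧ k2 ≤ m ∧
    ψ '' ball q1 t1 ⊆ W ∧ W ⊆ ψ '' ball q1 s1

/-- the nice set `V` and its first return domains -/
structure GV (a b : Polynomial ℂ) (J : Set ℂ) (c0 : ℂ) (ρ M L K C1 δ : ℝ) (V : Set ℂ) (𝒲 : ℕ → Set (Set ℂ)) : Prop where
  hρ : 0 < ρ
  hρδ : L * ρ ≤ δ
  op : IsOpen V
  con : IsPreconnected V
  bV : ∀ z ∈ V, b.eval z ≠ 0
  inn : ball c0 ρ ⊆ V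
  out : V ⊆ ball c0 (2 * ρ)
  ret : ∀ m, ∀ W ∈ 𝒲 m, Ret a b V L m W
  typ : ∀ m, ∀ W ∈ 𝒲 m, UnfW a b V c0 (L * ρ) m W ∨ FolW a b J M L K C1 δ m W
  dis : ∀ m m', ∀ W ∈ 𝒲 m, ∀ W' ∈ 𝒲 m', W = W' ∨ Disjoint W W'
  cov : ∀ z ∈ V, (∃ k, 0 < k ∧ z ∈ (pre a b)^[k] V) → ∃ m, ∃ W ∈ 𝒲 m, z ∈ W

/-- the central domain `C0` (return time `m0`), the fold `q2` at the time `k2`, the periodic point `α` in the ring (first return time `p`), its preimage `z2` near `q2` -/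
structure Cen (a b : Polynomial ℂ) (J : Set ℂ) (c0 : ℂ) (ρ M K C1 δ : ℝ) (V C0 : Set ℂ) (m0 k2 p : ℕ) (q2 z2 α : ℂ)
    (t1 s1 e2 t2 : ℝ) : Prop where
  hρ : 0 < ρ
  hρδ : ρ ≤ δ
  cJ : c0 ∈ J
  cr : Cr a b c0
  cC : c0 ∈ C0
  t1p : 0 < t1
  inn : ball c0 t1 ⊆ C0
  out : C0 ⊆ ball c0 s1
  st1 : s1 ≤ K * t1
  s1ρ : M * s1 ≤ ρ
  k2p : 0 < k2
  k2m : k2 ≤ m0
  pr : c0 ∈ (pre a b)^[m0] V
  q2J : q2 ∈ J
  q2c : Cr a b q2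
  e2p : 0 < e2
  vq : ‖(gg a b)^[k2] c0 - q2‖ ≤ e2
  te2 : M * e2 ≤ t2
  t2δ : t2 ≤ δ
  B0 : tD a b (k2 - 1) (gg a b c0) ≠ 0
  B : ‖tD a b (k2 - 1) (gg a b c0)‖⁻¹ * t2 ≤ C1 * t1 ^ 2
  nv : ∀ j, 0 < j → j < k2 → (gg a b)^[j] c0 ∉ V
  nq : k2 < m0 → q2 ∉ V
  eq : k2 = m0 → q2 = c0 ∧ t2 = ρ
  αJ : α ∈ J
  α1 : ρ ≤ K * ‖α - c0‖
  α2 : ‖α - c0‖ ≤ ρ / 2
  pp : 0 < p
  αp : α ∈ (pre a b)^[p] {α}
  αn : ∀ j, 0 < j → j < p → (gg a b)^[j] α ∉ V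
  αm : 2 ≤ ‖tD a b p α‖
  zJ : z2 ∈ J
  zα : z2 ∈ (pre a b)^[m0 - k2] {α}
  zu : ‖z2 - q2‖ ≤ K * t2
  zl : t2 ≤ K * ‖z2 - q2‖
  zn : ∀ j, j < m0 - k2 → (gg a b)^[j] z2 ∉ V
  zd : ρ ≤ K * ‖tD a b (m0 - k2) z2‖ * t2

/-- the set of the points which enter `V` -/
def ZV (a b : Polynomial ℂ) (V : Set ℂ) : Set ℂ := ⋃ k : ℕ, (pre a b)^[k] V

/-- the pull back by the first return map of `V` (0 where there is no return) -/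
noncomputable def Rs (a b : Polynomial ℂ) (V : Set ℂ) (φ : ℂ → ℂ) (z : ℂ) : ℂ := pb a b 1 (FF a b V φ) z

/-- the data of the function `D` in the domain `ZV V`: `e` its error, `P` its regular part on `V`, `Q` its poles on `V` -/
structure DT (a b : Polynomial ℂ) (c0 : ℂ) (ρ η f2 : ℝ) (V C0 : Set ℂ) (t1 : ℝ) (D P Q : ℂ → ℂ) : Prop where
  int : IntegrableOn D (ZV a b V)
  err : ∫⁻ x in ZV a b V, ‖D x - pf a b D x‖ₑ ≤ ENNReal.ofReal (η * t1 ^ 2)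
  hol : DifferentiableOn ℂ P V
  spl : ∀ x ∈ V, D x = P x + Q x
  QV : ∫⁻ x in V, ‖Q x‖ₑ ≤ ENNReal.ofReal (η * ρ ^ 2)
  QC : ∫⁻ x in C0, ‖Q x‖ₑ ≤ ENNReal.ofReal (η * t1 ^ 2)
  val : f2 ≤ ‖P c0‖

/-- the function `D`, Julia set not the sphere: `v = g c0`, `n = k2 - 1`, `c = q2` -/
noncomputable def DD (a b : Polynomial ℂ) (v c z2 : ℂ) (n N : ℕ) (x : ℂ) : ℂ :=
  An a b v n x + (tD a b n v)⁻¹ * (1 - ((gg a b)^[n] v - c) / (z2 - c)) / (x - c) +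
    (tD a b n v)⁻¹ * (((gg a b)^[n] v - c) / (z2 - c)) * An a b z2 N x

end Pool.Agent.H18.UP
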