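import Pool.Agent.H18.UP.BAS
import Pool.Agent.H43.UP.Defs

/-!
# THEOREM UP: square root charts at the critical points in `J`

PROOF. Finite set (`cr_fin`), one `c` is enough. `gg` is analytic at `c`, `gg' = ww / b ^ 2`, `ww c = 0`, `(derivative ww) c ≠ 0` (`Geo.sim`), so `gg z - gg c = (z - c) ^ 2 u(z)`, `u` analytic at `c`, `u c ≠ 0` (`dslope` twice). Let `v` be an analytic square root of `u` near `c` (H44/RC/LOCF `loc_root`-like, or `v = exp (log (u / u c) / 2) * w0`, `w0 ^ 2 = u c`). `χ z = (z - c) v z`: `χ c = 0`, `χ' c = v c ≠ 0`, so injective on a small ball (inverse function theorem: `HasStrictDerivAt`, `HasStrictDerivAt.localInverse`, or `AnalyticAt` with nonzero derivative).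
-/

set_option autoImplicit false

open Filter Topology Polynomial Metric Set MeasureTheory

namespace Pool.Agent.H18.UP

open Pool.Agent.H44.Fatou (rat rat_continuous)
open Pool.Agent.H80.AJ (Br KK one_le_KK KK_pos distort distort_lip deriv_ne univ_cover)
open Pool.Agent.H32.BT (IsCrit)
open Pool.Agent.H61.TT Pool.Agent.H57.CP Pool.Agent.H3.NC

variable {d : ℕ} {a b : Polynomial ℂ} {J : Set ℂ} {δ0 : ℝ}

private theorem sq_root {u : ℂ → ℂ} {z0 : ℂ} (hu : AnalyticAt ℂ u z0) (hu0 : u z0 ≠ 0) {n : ℕ}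
    (hn : 0 < n) : ∃ ψ : ℂ → ℂ, AnalyticAt ℂ ψ z0 ∧ ψ z0 = 0 ∧ deriv ψ z0 ≠ 0 ∧
      ∀ᶠ z in 𝓝 z0, ψ z ^ n = (z - z0) ^ n * u z := by
  obtain ⟨a, ha⟩ := IsAlgClosed.exists_pow_nat_eq (u z0) hn
  have ha0 : a ≠ 0 := by
    intro h
    rw [h, zero_pow hn.ne'] at ha
    exact hu0 ha.symm
  have hn0 : (n : ℂ) ≠ 0 := by exact_mod_cast hn.ne'
  set w : ℂ → ℂ := fun z => a * Complex.exp (Complex.log (u z / u z0) / n) with hw
  have hwa : AnalyticAt ℂ w z0 := by
    have h1 : AnalyticAt ℂ (fun z => u z / u z0) z0 := hu.div analyticAt_const hu0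
    have h2 : AnalyticAt ℂ (fun z => Complex.log (u z / u z0)) z0 := by
      refine h1.clog ?_
      rw [div_self hu0]
      exact Complex.one_mem_slitPlane
    have h3 : AnalyticAt ℂ (fun z => Complex.log (u z / u z0) / n) z0 :=
      h2.div analyticAt_const hn0
    exact analyticAt_const.mul h3.cexp'
  have hw0 : w z0 = a := by
    simp only [hw]
    rw [div_self hu0, Complex.log_one, zero_div, Complex.exp_zero, mul_one]
  refine ⟨fun z => (z - z0) * w z, (analyticAt_id.sub analyticAt_const).mul hwa, ?_, ?_, ?_⟩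
  · simp
  · have h1 : HasDerivAt (fun z : ℂ => z - z0) 1 z0 := (hasDerivAt_id z0).sub_const z0
    have h2 := h1.mul hwa.differentiableAt.hasDerivAt
    have h3 : deriv (fun z => (z - z0) * w z) z0 = a := by
      have h4 : HasDerivAt (fun z => (z - z0) * w z) (1 * w z0 + (z0 - z0) * deriv w z0) z0 := h2
      rw [h4.deriv, hw0]
      ring
    rw [h3]
    exact ha0
  · filter_upwards [hu.continuousAt.eventually_ne hu0] with z hz
    have h1 : Complex.exp (Complex.log (u z / u z0) / n) ^ n = u z / u z0 := by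
      rw [← Complex.exp_nat_mul, mul_div_cancel₀ _ hn0, Complex.exp_log (div_ne_zero hz hu0)]
    simp only [hw]
    rw [mul_pow, mul_pow, h1, ha]
    field_simp

/-- one critical point -/
private theorem sq_one {a b : Polynomial ℂ} {c : ℂ} (hb : b.eval c ≠ 0) (hw : (ww a b).eval c = 0)
    (hw' : (derivative (ww a b)).eval c ≠ 0) : ∃ δ : ℝ, 0 < δ ∧ ∀ r : ℝ, 0 < r → r ≤ δ →
    ∃ χ : ℂ → ℂ, Pool.Agent.H43.UP.SqC a b c r χ := by
  obtain ⟨p, hp⟩ : ∃ p : Polynomial ℂ, p = C (b.eval c) * a - C (a.eval c) * b := ⟨_, rfl⟩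
  have hp0 : p.eval c = 0 := by
    rw [hp]
    simp only [eval_sub, eval_mul, eval_C]
    ring
  have hp1 : (derivative p).eval c = 0 := by
    have h1 : (derivative p).eval c = (ww a b).eval c := by
      rw [hp]
      unfold ww
      simp only [derivative_sub, derivative_mul, derivative_C, zero_mul, zero_add, eval_sub, eval_mul, eval_C]
      ring
    rw [h1, hw]
  have hp2 : (derivative (derivative p)).eval c = (derivative (ww a b)).eval c := by
    rw [hp]
    unfold ww
    simp only [derivative_sub, derivative_mul, derivative_C, zero_mul, zero_add, eval_sub, eval_mul, eval_C,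
      eval_add]
    ring
  obtain ⟨q1, hq1⟩ := Polynomial.dvd_iff_isRoot.2 hp0
  have hq1c : q1.eval c = 0 := by
    rw [hq1] at hp1
    simp only [derivative_mul, derivative_sub, derivative_X, derivative_C, eval_add, eval_mul, eval_sub, eval_X,
      eval_C, sub_zero, one_mul, sub_self, zero_mul, add_zero] at hp1
    exact hp1
  obtain ⟨q, hq⟩ := Polynomial.dvd_iff_isRoot.2 hq1c
  have hpq : p = (X - C c) ^ 2 * q := by
    rw [hq1, hq]
    ring
  have hqc : q.eval c ≠ 0 := by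
    intro h0
    apply hw'
    rw [← hp2, hpq]
    simp only [derivative_mul, derivative_sub, derivative_X, derivative_C, eval_add, eval_mul, eval_sub,
      eval_C, derivative_pow, derivative_add]
    rw [h0]
    simp
  have hbc : ContinuousAt (fun z => b.eval z) c := b.continuous.continuousAt
  have hu : AnalyticAt ℂ (fun z => q.eval z / (b.eval z * b.eval c)) c := by
    refine AnalyticAt.div ?_ (AnalyticAt.mul ?_ analyticAt_const) (mul_ne_zero hb hb)
    · exact q.differentiable.analyticAt c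
    · exact b.differentiable.analyticAt c
  obtain ⟨ψ, h1, h2, h3, h4⟩ := sq_root hu (div_ne_zero hqc (mul_ne_zero hb hb)) (n := 2) two_pos
  have h5 : HasStrictDerivAt ψ (deriv ψ c) c := h1.hasStrictDerivAt
  have h6 := (h5.hasStrictFDerivAt_equiv h3).eventually_left_inverse
  have h7 : ∀ᶠ z in 𝓝 c, b.eval z ≠ 0 := hbc.eventually_ne hb
  have h8 := h1.eventually_analyticAt
  obtain ⟨δ, hδ, hball⟩ := Metric.eventually_nhds_iff_ball.1 (h4.and (h6.and (h7.and h8)))
  refine ⟨δ, hδ, fun r hr hrδ => ⟨ψ, hr, ?_, ?_, h2, ?_, ?_⟩⟩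
  · intro z hz
    exact (hball z (ball_subset_ball hrδ hz)).2.2.2.differentiableAt.differentiableWithinAt
  · intro x hx y hy hxy
    have e1 := (hball x (ball_subset_ball hrδ hx)).2.1
    have e2 := (hball y (ball_subset_ball hrδ hy)).2.1
    rw [← e1, ← e2, hxy]
  · intro z hz
    exact (hball z (ball_subset_ball hrδ hz)).2.2.1
  · intro z hz
    have e1 := (hball z (ball_subset_ball hrδ hz)).1
    have e2 := (hball z (ball_subset_ball hrδ hz)).2.2.1
    rw [e1]
    have e3 : p.eval z = (z - c) ^ 2 * q.eval z := by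
      rw [hpq]
      simp
    have e4 : p.eval z = b.eval c * a.eval z - a.eval c * b.eval z := by
      rw [hp]
      simp
    unfold gg
    have e5 : (z - c) ^ 2 * (q.eval z / (b.eval z * b.eval c)) =
        (b.eval c * a.eval z - a.eval c * b.eval z) / (b.eval z * b.eval c) := by
      rw [← e4, e3]
      ring
    rw [e5]
    field_simp
    ring

theorem sqc (h : Geo d a b J δ0) : ∃ δ1 : ℝ, 0 < δ1 ∧ ∀ c ∈ J, Cr a b c → ∀ r : ℝ, 0 < r → r ≤ δ1 →
    ∃ χ : ℂ → ℂ, Pool.Agent.H43.UP.SqC a b c r χ := by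
  have hfin : {c : ℂ | c ∈ J ∧ Cr a b c}.Finite := (cr_fin h).subset fun c hc => hc.2
  have h1 : ∀ c ∈ {c : ℂ | c ∈ J ∧ Cr a b c}, ∃ δ : ℝ, 0 < δ ∧ ∀ r : ℝ, 0 < r → r ≤ δ →
      ∃ χ : ℂ → ℂ, Pool.Agent.H43.UP.SqC a b c r χ := fun c hc =>
    sq_one hc.2.1 hc.2.2 (h.sim c hc.1 hc.2)
  have h2 : ∀ᶠ δ in 𝓝[>] (0 : ℝ), ∀ c ∈ {c : ℂ | c ∈ J ∧ Cr a b c}, ∀ r : ℝ, 0 < r → r ≤ δ →
      ∃ χ : ℂ → ℂ, Pool.Agent.H43.UP.SqC a b c r χ := by
    rw [Filter.eventually_all_finite hfin]
    intro c hc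
    obtain ⟨δ, hδ, h3⟩ := h1 c hc
    filter_upwards [Ioo_mem_nhdsGT hδ] with ε hε r hr hrε
    exact h3 r hr (hrε.trans hε.2.le)
  obtain ⟨δ, hδ, hδ0⟩ := (h2.and self_mem_nhdsWithin).exists
  exact ⟨δ, hδ0, fun c hc hcr => hδ c ⟨hc, hcr⟩⟩

end Pool.Agent.H18.UP
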