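import Pool.Agent.H18.UP.FNA
import Pool.Agent.H44.NR.Pdj
import Pool.Agent.H83.UP.USO

/-!
# THEOREM UP, the final part: the planar setting `US0` from `GA` (H64/NC/NSA)

PROOF. `ns`: `ns_of` (H64/NC/NSA): `δ1, R0`. The fields of `NS` and `US0` are monotone in `δ0` (smaller `δ0` is fine), so `δ0` may be decreased at the end. `back`: `JS` is fully invariant (`fs_iff`, see `GA.js`); `gg z` is `Rf u z` for `b z ≠ 0`.
`per`: `H44/NR/Pdj` (periodic points are dense in the Julia set): near `y ∈ JC u` there is a periodic point of `Rf u`; take it in `JS` (see the statement there; if it only gives periodic points of the sphere near `y`: attracted points are in `FS`, an open set; by `GA.fa, GA.no, GA.rep` a periodic point in `FS` is attracting and the attracting cycles are finitely many / stay away from `JS`).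
`ex` (for every `δ0`): let `y ∈ JC u`, `ρ > 0`; by `per` a periodic `x ∈ JC u`, `gg^[p] x = x`, `‖x - y‖ < ρ / 2`. Suppose that for all `n` and all `z ∈ ball y ρ` `Rf^[n] z` is a point of `ball (gg^[n] y) δ0`. Then (`NS.bd`) `ball y ρ ⊆ pre^n univ`, `gg^[n]` is holomorphic on `ball x (ρ / 2)` with values in a ball of radius `δ0`, so `‖tD (p k) x‖ ≤ 4 δ0 / ρ` (Cauchy, `g_diff`) for all `k`; but `tD (p k) x = (tD p x)^k` and `‖tD p x‖ > 1` (`NS.rep`): contradiction.
`fc`: let `c` be critical. If `c ∈ JS (Rf u)`: `c` is in the plane (`∞ ∈ interior T`, `GA.fi`), `c = z`, `z ∈ JC u`, `ww z = 0` (`crit_coe`). If `c ∈ FS (Rf u)`: `c` is attracted (`GA.fa`), so the closure of its orbit is the orbit and a cycle, all in `FS`: compact and disjoint from `JS`, so (`ch_sep` H64/NC/CHU, chordal distance, and `JC u` bounded) there is `δ_c > 0` such that no `Rf^[n] c` is in the `δ_c`-neighbourhood of `JC u`. Finitely many critical points (`crit_finite`).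
-/

set_option autoImplicit false

open Filter Topology Polynomial Metric Set MeasureTheory

namespace Pool.Agent.H18.UP

open Pool.Agent.H44.Fatou (rat rat_continuous rat_coe rat_coe_of_ne pt crit_coe)
open Pool.Agent.H32.BT Pool.Agent.H79.Eul Pool.Agent.H79.Par
open Pool.Agent.H35.EX Pool.Agent.H44.RR Pool.Agent.H56.HR Pool.Agent.H44.RC Pool.Agent.H47.RJ
open Pool.Agent.H47.NM Pool.Agent.H47.NN Pool.Agent.H44.ND Pool.Agent.H79.ES Pool.Agent.H44.RG
open Pool.Agent.H44.CP Pool.Agent.H57.CF Pool.Agent.H47.PS Pool.Agent.H64.NC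
open Pool.Agent.H61.TT Pool.Agent.H57.CP Pool.Agent.H3.NC
open Pool.Agent.H66.UP (KD)

variable {d : ℕ}

theorem us0 {u : E d} {T : Set (OnePoint ℂ)} (h : GA u T) {D : ℕ} (hD : 1 ≤ D)
    (hwd : (Pool.Agent.H61.TT.ww (pol u.1) (pol u.2)).natDegree ≤ D + 1) {c : ℂ} (hc : IsCrit (Rf u) (c : OnePoint ℂ))
    (hcJ : (c : OnePoint ℂ) ∈ JS (Rf u))
    (lg : ∀ x : ℂ, RegV d (pol u.1) (pol u.2) x → ∃ η : Polynomial ℂ, η.natDegree ≤ D ∧
      ∀ z : ℂ, (pol u.2).eval z ≠ 0 → Pool.Agent.H61.TT.gg (pol u.1) (pol u.2) z ≠ x →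
      ∑ y ∈ fs (pol u.1) (pol u.2) x, dg (pol u.1) (pol u.2) z / ((y - z) * dg (pol u.1) (pol u.2) y ^ 2) =
        1 / (x - Pool.Agent.H61.TT.gg (pol u.1) (pol u.2) z) + η.eval z / (pol u.2).eval z ^ 2) :
    ∃ δ0 R0 : ℝ, US0 d D (pol u.1) (pol u.2) (JC u) δ0 R0 :=
  Pool.Agent.H83.UP.us0_of h hD hwd hc hcJ lg

end Pool.Agent.H18.UP
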