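import Pool.Agent.H18.UP.BAS

/-!
# THEOREM UP: the pull backs of small discs through a critical value are small

PROOF. `Cr` is finite (`cr_fin`): it is enough to find `r1` for one critical `c ∈ J` (minimum; if there is none `r1 = 1`). Let `v = gg a b c ∈ J` (`Ji`). Let `κ = δ / (64 KK ^ 2)` (some such constant), `N` from `Geo.ni` at `v` and the radius `κ`.
For `n ≤ N`: `(rat a b)^[n] (ball v κ)` is a neighbourhood of `rat^[n] v` in `OnePoint ℂ` (open map), so there is `ε_n > 0` such that it is not contained in the coercion of any `ball q r` with `r ≤ ε_n` (an open nonempty set of the sphere contains two planar points at a distance `2 ε_n`: take any small ball in it). `r1 = min ε_n` over `n ≤ N`.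
Let `ψ` be a branch on `ball q r`, `y ∈ ball q (r / 4)`, `ψ y = v`. By `univ_cover` for `ψ` on `ball y (r / 4) ⊆ ball q r`: `ball v (r ‖ψ' y‖ / 64) ⊆ ψ '' ball q r`. If `κ ≤ r ‖ψ' y‖ / 64` then `(rat a b)^[n]` is injective on `ball v κ` (it is the inverse of `ψ` there: `b_gg`) with values in `ball q r`: `n > N` contradicts `ni`, `n ≤ N` contradicts the choice of `r1`.
So `r ‖ψ' y‖ < 64 κ`, and by `distort_lip` (`g = ψ`, `c = q`, `R = r`): `‖ψ x - ψ y‖ ≤ KK ‖ψ' y‖ ‖x - y‖ ≤ KK ‖ψ' y‖ r < 64 κ KK ≤ δ` for `x ∈ closedBall q (r / 2)`.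
-/

set_option autoImplicit false

open Filter Topology Polynomial Metric Set MeasureTheory

namespace Pool.Agent.H18.UP

open Pool.Agent.H44.Fatou (rat rat_continuous)
open Pool.Agent.H80.AJ (Br KK one_le_KK KK_pos distort distort_lip deriv_ne univ_cover)
open Pool.Agent.H32.BT (IsCrit)
open Pool.Agent.H61.TT Pool.Agent.H57.CP Pool.Agent.H3.NC

variable {d : ℕ} {a b : Polynomial ℂ} {J : Set ℂ} {δ0 : ℝ}

private theorem fin_min {α : Type*} {S : Set α} (hS : S.Finite) (f : α → ℝ) (hf : ∀ c ∈ S, 0 < f c) :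
    ∃ r : ℝ, 0 < r ∧ ∀ c ∈ S, r ≤ f c := by
  rcases S.eq_empty_or_nonempty with h0 | h0
  · exact ⟨1, one_pos, fun c hc => by rw [h0] at hc; exact absurd hc (notMem_empty c)⟩
  · obtain ⟨c0, hc0, hmin⟩ := S.exists_min_image f hS h0
    exact ⟨f c0, hf c0 hc0, hmin⟩

private theorem eps_ex (F : OnePoint ℂ → OnePoint ℂ) (v v' : ℂ) : ∃ ε : ℝ, 0 < ε ∧ ∀ (q : ℂ) (r : ℝ), r ≤ ε →
    ∀ u1 ∈ ball q r, ∀ u2 ∈ ball q r, F (v : OnePoint ℂ) = (u1 : OnePoint ℂ) → F (v' : OnePoint ℂ) = (u2 : OnePoint ℂ) → u1 = u2 := by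
  by_cases h : ∃ w1 w2 : ℂ, F (v : OnePoint ℂ) = (w1 : OnePoint ℂ) ∧ F (v' : OnePoint ℂ) = (w2 : OnePoint ℂ) ∧ w1 ≠ w2
  · obtain ⟨w1, w2, h1, h2, hne⟩ := h
    have hpos : 0 < ‖w1 - w2‖ := norm_pos_iff.2 (sub_ne_zero.2 hne)
    refine ⟨‖w1 - w2‖ / 2, by linarith, fun q r hr u1 hu1 u2 hu2 e1 e2 => ?_⟩
    exfalso
    have e1' : w1 = u1 := OnePoint.coe_injective (h1.symm.trans e1)
    have e2' : w2 = u2 := OnePoint.coe_injective (h2.symm.trans e2)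
    rw [mem_ball, dist_eq_norm] at hu1 hu2
    have h3 : ‖u1 - u2‖ ≤ ‖u1 - q‖ + ‖u2 - q‖ := by
      have h4 : u1 - u2 = (u1 - q) - (u2 - q) := by ring
      rw [h4]
      exact norm_sub_le _ _
    rw [← e1', ← e2'] at h3
    rw [← e1'] at hu1
    rw [← e2'] at hu2
    linarith
  · refine ⟨1, one_pos, fun q r _ u1 _ u2 _ e1 e2 => ?_⟩
    by_contra hne
    exact h ⟨u1, u2, e1, e2, hne⟩

private theorem sm2_one (h : Geo d a b J δ0) {δ : ℝ} (hδ : 0 < δ) {c : ℂ} (hc : c ∈ J) (hcr : Cr a b c) :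
    ∃ r1 : ℝ, 0 < r1 ∧ ∀ (n : ℕ) (q : ℂ) (r : ℝ) (ψ : ℂ → ℂ), 0 < r → r ≤ r1 → Br (rat a b) n q r (ψ q) ψ →
    ∀ y ∈ ball q (r / 4), ψ y = gg a b c → r * ‖deriv ψ y‖ < δ ∧ ∀ x ∈ closedBall q (r / 2), ‖ψ x - gg a b c‖ < δ := by
  have hK1 := one_le_KK
  have hK0 := KK_pos
  obtain ⟨v, hv⟩ : ∃ v : ℂ, v = gg a b c := ⟨_, rfl⟩
  have hvJ : v ∈ J := by
    rw [hv]
    exact h.Ji c hc hcr.1
  obtain ⟨κ, hκ⟩ : ∃ κ : ℝ, κ = δ / (64 * KK) := ⟨_, rfl⟩
  have hκ0 : 0 < κ := by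
    rw [hκ]
    positivity
  have hκ64 : 64 * κ * KK = δ := by
    rw [hκ]
    field_simp
  obtain ⟨N, hN⟩ := h.ni v hvJ κ hκ0
  choose ε hε0 hε using fun n : ℕ => eps_ex ((rat a b)^[n]) v (v + ((κ / 2 : ℝ) : ℂ))
  obtain ⟨r1, hr10, hr1⟩ := fin_min (Set.finite_le_nat N) ε fun n _ => hε0 n
  refine ⟨r1, hr10, fun n q r ψ hr hrr hψ y hy hyv => ?_⟩
  rw [← hv] at hyv ⊢
  have hinj : InjOn ψ (ball q r) := by
    intro u hu u' hu' he
    have h1 := hψ.inv u hu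
    have h2 := hψ.inv u' hu'
    rw [he, h2] at h1
    exact (OnePoint.coe_injective h1).symm
  have hsub : ball y (r / 4) ⊆ ball q r := by
    apply ball_subset_ball'
    rw [mem_ball] at hy
    linarith
  have hcov := univ_cover (R := r / 4) (by linarith) (hψ.diff.mono hsub) (hinj.mono hsub)
  have hkey : r * ‖deriv ψ y‖ < 64 * κ := by
    by_contra hcon
    push Not at hcon
    have hball : ball v κ ⊆ ψ '' ball q r := by
      have h1 : κ ≤ r / 4 * ‖deriv ψ y‖ / 16 := by linarith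
      rw [hyv] at hcov
      exact (ball_subset_ball h1).trans (hcov.trans (image_mono hsub))
    have hinv : ∀ z ∈ ball v κ, ∃ u ∈ ball q r, ψ u = z ∧ (rat a b)^[n] (z : OnePoint ℂ) = (u : OnePoint ℂ) := by
      intro z hz
      obtain ⟨u, hu, huz⟩ := hball hz
      refine ⟨u, hu, huz, ?_⟩
      rw [← huz]
      exact hψ.inv u hu
    have hnN : n ≤ N := by
      by_contra hn
      push Not at hn
      apply hN n hn
      intro z hz z' hz' he
      obtain ⟨u, _, hu1, hu2⟩ := hinv z hz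
      obtain ⟨u', _, hu1', hu2'⟩ := hinv z' hz'
      simp only at he
      rw [hu2, hu2'] at he
      have he' : u = u' := OnePoint.coe_injective he
      rw [← hu1, ← hu1', he']
    have hv1 : v ∈ ball v κ := mem_ball_self hκ0
    have hv2 : v + ((κ / 2 : ℝ) : ℂ) ∈ ball v κ := by
      rw [mem_ball, dist_eq_norm, add_sub_cancel_left, Complex.norm_real, Real.norm_eq_abs, abs_of_pos (by linarith)]
      linarith
    obtain ⟨u, hu, hu1, hu2⟩ := hinv _ hv1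
    obtain ⟨u', hu', hu1', hu2'⟩ := hinv _ hv2
    have he := hε n q r (hrr.trans (hr1 n hnN)) u hu u' hu' hu2 hu2'
    rw [he, hu1'] at hu1
    have h2 : ((κ / 2 : ℝ) : ℂ) = 0 := by
      have h3 : v + ((κ / 2 : ℝ) : ℂ) = v + 0 := by rw [hu1, add_zero]
      exact add_left_cancel h3
    have h4 : κ / 2 = 0 := by exact_mod_cast h2
    linarith
  have hd0 : 0 ≤ ‖deriv ψ y‖ := norm_nonneg _
  refine ⟨?_, fun x hx => ?_⟩
  · have h1 : 64 * κ ≤ δ := by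
      rw [← hκ64]
      exact le_mul_of_one_le_right (by positivity) hK1
    linarith
  · have hy2 : y ∈ closedBall q (r / 2) := by
      rw [mem_closedBall]
      rw [mem_ball] at hy
      linarith
    have h1 := distort_lip hr hψ.diff hinj hx hy2 hy2
    rw [hyv] at h1
    have h2 : ‖x - y‖ ≤ r := by
      rw [mem_closedBall, dist_eq_norm] at hx
      rw [mem_ball, dist_eq_norm] at hy
      have h3 : x - y = (x - q) - (y - q) := by ring
      rw [h3]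
      refine (norm_sub_le _ _).trans ?_
      linarith
    calc ‖ψ x - v‖ ≤ KK * ‖deriv ψ y‖ * ‖x - y‖ := h1
      _ ≤ KK * ‖deriv ψ y‖ * r := mul_le_mul_of_nonneg_left h2 (by positivity)
      _ = KK * (r * ‖deriv ψ y‖) := by ring
      _ < KK * (64 * κ) := mul_lt_mul_of_pos_left hkey hK0
      _ = δ := by rw [← hκ64]; ring

theorem sm2 (h : Geo d a b J δ0) {δ : ℝ} (hδ : 0 < δ) : ∃ r1 : ℝ, 0 < r1 ∧ ∀ (n : ℕ) (q : ℂ) (r : ℝ) (ψ : ℂ → ℂ),
    ball q r ⊆ NJ J δ0 → 0 < r → r ≤ r1 → Br (rat a b) n q r (ψ q) ψ → ∀ c ∈ J, Cr a b c →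
    ∀ y ∈ ball q (r / 4), ψ y = gg a b c → r * ‖deriv ψ y‖ < δ ∧ ∀ x ∈ closedBall q (r / 2), ‖ψ x - gg a b c‖ < δ := by
  have hex : ∀ c : {c : ℂ // c ∈ J ∧ Cr a b c}, ∃ r1 : ℝ, 0 < r1 ∧ ∀ (n : ℕ) (q : ℂ) (r : ℝ) (ψ : ℂ → ℂ), 0 < r → r ≤ r1 →
      Br (rat a b) n q r (ψ q) ψ → ∀ y ∈ ball q (r / 4), ψ y = gg a b c.1 →
      r * ‖deriv ψ y‖ < δ ∧ ∀ x ∈ closedBall q (r / 2), ‖ψ x - gg a b c.1‖ < δ :=
    fun c => sm2_one h hδ c.2.1 c.2.2
  choose f hf0 hf using hex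
  have hfin : Finite {c : ℂ // c ∈ J ∧ Cr a b c} := ((cr_fin h).subset fun c hc => hc.2).to_subtype
  obtain ⟨r1, hr10, hr1⟩ := fin_min (Set.finite_univ (α := {c : ℂ // c ∈ J ∧ Cr a b c})) f fun c _ => hf0 c
  exact ⟨r1, hr10, fun n q r ψ _ hr hrr hψ c hc hcr y hy hyv =>
    hf ⟨c, hc, hcr⟩ n q r ψ hr (hrr.trans (hr1 ⟨c, hc, hcr⟩ (mem_univ _))) hψ y hy hyv⟩

end Pool.Agent.H18.UP
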