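import Pool.Agent.H18.UP.RNG
import Pool.Agent.H18.UP.SM2
import Pool.Agent.H3.NC.UNI

/-!
# THEOREM UP: the one step lemma

`PJ ∩ ball q r ⊆ closedBall q e`, `ψ` a branch of `g^(-n)` on `ball q r`, `g z = ψ x0`. Either there is a branch of `g^(-(n+1))` on `ball q r` with the value `z` at `x0`, or there is a critical point `c ∈ J` near `z` with `g c = ψ y`, `y ∈ closedBall q e`.
PROOF. Let `δ' > 0` be so small that for every critical `c ∈ J` (finite many, `cr_fin`): `closedBall c δc ⊆ {b ≠ 0}`, `δc < δ`, and `‖gg x - gg c‖ ≥ δ'` on the circle `‖x - c‖ = δc` (zeros of `gg - gg c` are isolated: choose `δc` such that the circle contains no zero; compactness). `r1` from `sm2` for `δ'` (also `r1 ≤ 1`).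
Let `B` be the coercion of `ball q (r / 2)` (open in `OnePoint ℂ`), `f = rat a b`, `W = CC f (n+1) B z` (the connected component of `(f^[n+1])⁻¹ B` which contains `z`). All points of `W` are in the plane (`g_fin`, `i = 0`).
(1) `f(W)` is connected, in `(f^[n])⁻¹ B`, contains `ψ x0`; by `b_clp` (for the planar set `f(W)`; its points are in the plane by `g_fin`) `f(W) ⊆ ψ '' ball q (r / 2)`, with `ψ (gg^[n] x) = x` for `x ∈ f(W)`.
(2) CASE A: no critical point of `f` in `W`. Then `f^[n+1]` is locally injective at every `w ∈ W`: `f` is (not critical), and `f^[n]` is at `f w = ψ u` (`b_der`: derivative `≠ 0`, or `b_nc`). `uni_gen` (H3/NC/UNI; `B` is homeomorphic to a disc: simply connected, locally path connected; finite fibres; `uni` there shows how) gives `BijOn f^[n+1] W B`. Let `φ0 : ball q (r / 2) → W` be the inverse, in the plane. It is continuous (open map) and holomorphic (local inverse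 of `gg^[n+1]`, `g_diff`, derivative `≠ 0`), `φ0 x0 = z`. So `Br (rat a b) (n+1) q (r / 2) (φ0 q) φ0`. By `rng` (`e < r / 2`) it extends to `ball q r`.
(3) CASE B: `c' ∈ W` critical. `f^[n+1] c' = y ∈ ball q (r / 2) ⊆ NJ`, so by `Geo.fc` `c' = c ∈ J`, `Cr c`; `y ∈ PJ` (`p_cr`), so `y ∈ closedBall q e`; by (1) `gg c = f c = ψ (gg^[n] (gg c)) = ψ y`. `y ∈ ball q (r / 4)` (`8 e ≤ r`), so by `sm2` `f(W) ⊆ ψ '' ball q (r / 2) ⊆ ball (gg c) δ'`; `W` is connected, contains `c` and does not meet the circle `‖x - c‖ = δc`, so `W ⊆ ball c δc` and `‖z - c‖ < δc < δ`.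
-/

set_option autoImplicit false

open Filter Topology Polynomial Metric Set MeasureTheory

namespace Pool.Agent.H18.UP

open Pool.Agent.H44.Fatou (rat rat_continuous)
open Pool.Agent.H80.AJ (Br KK one_le_KK KK_pos distort distort_lip deriv_ne univ_cover)
open Pool.Agent.H32.BT (IsCrit)
open Pool.Agent.H61.TT Pool.Agent.H57.CP Pool.Agent.H3.NC

variable {d : ℕ} {a b : Polynomial ℂ} {J : Set ℂ} {δ0 : ℝ}

/-- an injective iterate near a point -/
private theorem stp_iter {f : OnePoint ℂ → OnePoint ℂ} (hf : Continuous f) (n : ℕ) {w : OnePoint ℂ}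
    (h : ∀ k < n, ∃ U ∈ 𝓝 (f^[k] w), InjOn f U) : ∃ U ∈ 𝓝 w, InjOn f^[n] U := by
  induction n with
  | zero => exact ⟨univ, univ_mem, fun a _ b _ hab => hab⟩
  | succ n ih =>
    obtain ⟨U, hU, hUi⟩ := ih fun k hk => h k (by omega)
    obtain ⟨V, hV, hVi⟩ := h n (Nat.lt_succ_self n)
    refine ⟨U ∩ f^[n] ⁻¹' V, inter_mem hU ((hf.iterate n).continuousAt.preimage_mem_nhds hV), ?_⟩
    intro a ha b hb hab
    rw [Function.iterate_succ_apply', Function.iterate_succ_apply'] at hab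
    exact hUi ha.1 hb.1 (hVi ha.2 hb.2 hab)

/-- planar traces of connected sets -/
private theorem stp_pre {W : Set (OnePoint ℂ)} (hW : IsPreconnected W) (h : ∀ x ∈ W, ∃ z : ℂ, x = (z : OnePoint ℂ)) :
    IsPreconnected {z : ℂ | (z : OnePoint ℂ) ∈ W} := by
  have h1 : (fun z : ℂ => (z : OnePoint ℂ)) '' {z : ℂ | (z : OnePoint ℂ) ∈ W} = W := by
    ext x
    constructor
    · rintro ⟨z, hz, rfl⟩
      exact hz
    · intro hx
      obtain ⟨z, rfl⟩ := h x hx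
      exact ⟨z, hx, rfl⟩
  have h2 : Topology.IsInducing (fun z : ℂ => (z : OnePoint ℂ)) := OnePoint.isOpenEmbedding_coe.isInducing
  rw [← h2.isPreconnected_image, h1]
  exact hW

/-- the disc in the sphere -/
private theorem stp_disc (q : ℂ) {s : ℝ} (hs : 0 < s) :
    IsOpen ((fun z : ℂ => (z : OnePoint ℂ)) '' ball q s) ∧
    SimplyConnectedSpace ((fun z : ℂ => (z : OnePoint ℂ)) '' ball q s) ∧
    LocallyPathConnectedSpace ((fun z : ℂ => (z : OnePoint ℂ)) '' ball q s) := by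
  have he : Topology.IsOpenEmbedding (fun z : ℂ => (z : OnePoint ℂ)) := OnePoint.isOpenEmbedding_coe
  have hctr : ContractibleSpace (ball q s) := (convex_ball q s).contractibleSpace ⟨q, mem_ball_self hs⟩
  have e : ball q s ≃ₜ (fun z : ℂ => (z : OnePoint ℂ)) '' ball q s := he.toIsEmbedding.homeomorphImage _
  refine ⟨he.isOpenMap _ isOpen_ball, ?_, ?_⟩
  · have h1 : ContractibleSpace ((fun z : ℂ => (z : OnePoint ℂ)) '' ball q s) := e.symm.contractibleSpace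
    infer_instance
  · have h1 : Topology.IsOpenEmbedding (fun y : (fun z : ℂ => (z : OnePoint ℂ)) '' ball q s => ((e.symm y : ball q s) : ℂ)) :=
      isOpen_ball.isOpenEmbedding_subtypeVal.comp e.symm.isOpenEmbedding
    exact h1.locallyPathConnectedSpace

/-- a circle around a critical point -/
private theorem stp_circ (h : Geo d a b J δ0) {δ : ℝ} (hδ : 0 < δ) (c : ℂ) (hb : b.eval c ≠ 0) :
    ∃ δc δ' : ℝ, 0 < δc ∧ δc < δ ∧ 0 < δ' ∧ ∀ x : ℂ, ‖x - c‖ = δc → b.eval x ≠ 0 → δ' ≤ ‖gg a b x - gg a b c‖ := by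
  obtain ⟨P, hP⟩ : ∃ P : Polynomial ℂ, P = fib a b (gg a b c) * b := ⟨_, rfl⟩
  have hP0 : P ≠ 0 := by
    rw [hP]
    exact mul_ne_zero (fib_ne h.rt _) (b_ne h.rt)
  have hfin : ({x : ℂ | P.eval x = 0} \ {c}).Finite := by
    refine (P.roots.toFinset.finite_toSet.subset ?_).subset sdiff_subset
    intro x hx
    rw [Finset.mem_coe, Multiset.mem_toFinset, mem_roots hP0]
    exact hx
  have hnh : ({x : ℂ | P.eval x = 0} \ {c})ᶜ ∈ 𝓝 c := hfin.isClosed.isOpen_compl.mem_nhds fun h0 => h0.2 rfl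
  obtain ⟨ρ, hρ, hρs⟩ := Metric.mem_nhds_iff.1 hnh
  obtain ⟨δc, hδc, h1, h2⟩ : ∃ δc : ℝ, 0 < δc ∧ δc < δ ∧ δc < ρ :=
    ⟨min δ ρ / 2, by have := lt_min hδ hρ; positivity, by have := min_le_left δ ρ; linarith,
      by have := min_le_right δ ρ; linarith⟩
  have hcirc : ∀ x ∈ sphere c δc, b.eval x ≠ 0 ∧ gg a b x ≠ gg a b c := by
    intro x hx
    have hx1 : x ∈ ball c ρ := by
      rw [mem_sphere] at hx
      rw [mem_ball, hx]
      exact h2
    have hxc : x ≠ c := by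
      rintro rfl
      rw [mem_sphere, dist_self] at hx
      linarith
    have hx2 : P.eval x ≠ 0 := fun h0 => hρs hx1 ⟨h0, hxc⟩
    rw [hP, eval_mul] at hx2
    have hbx := right_ne_zero_of_mul hx2
    refine ⟨hbx, fun h0 => left_ne_zero_of_mul hx2 ?_⟩
    unfold fib
    rw [eval_sub, eval_mul, eval_C, ← h0]
    unfold gg
    rw [div_mul_cancel₀ _ hbx, sub_self]
  have hcont : ContinuousOn (fun x : ℂ => ‖gg a b x - gg a b c‖) (sphere c δc) := by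
    refine ContinuousOn.norm (ContinuousOn.sub ?_ continuousOn_const)
    unfold gg
    exact a.continuous.continuousOn.div b.continuous.continuousOn fun x hx => (hcirc x hx).1
  have hne : (sphere c δc).Nonempty := NormedSpace.sphere_nonempty.2 hδc.le
  obtain ⟨x0, hx0, hmin⟩ := (isCompact_sphere c δc).exists_isMinOn hne hcont
  refine ⟨δc, ‖gg a b x0 - gg a b c‖, hδc, h1, norm_pos_iff.2 (sub_ne_zero.2 (hcirc x0 hx0).2), fun x hx _ => ?_⟩
  exact hmin (mem_sphere_iff_norm.2 hx)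

/-- the branch in the case without critical points -/
private theorem stp_branch (h : Geo d a b J δ0) {m : ℕ} {q z : ℂ} {s : ℝ} (hs : 0 < s) (hq : ball q s ⊆ NJ J δ0)
    {x0 : ℂ} (hx0 : x0 ∈ ball q s) (hz : (rat a b)^[m] (z : OnePoint ℂ) = (x0 : OnePoint ℂ))
    (hc : ∀ w ∈ Pool.Agent.H44.RC.CC (rat a b) m ((fun z : ℂ => (z : OnePoint ℂ)) '' ball q s) (z : OnePoint ℂ),
      ∀ k < m, ¬ IsCrit (rat a b) ((rat a b)^[k] w)) :
    ∃ φ : ℂ → ℂ, Br (rat a b) m q s (φ q) φ ∧ φ x0 = z := by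
  classical
  obtain ⟨B, hB⟩ : ∃ B : Set (OnePoint ℂ), B = (fun z : ℂ => (z : OnePoint ℂ)) '' ball q s := ⟨_, rfl⟩
  obtain ⟨hBo, hB1, hB2⟩ := stp_disc q hs
  rw [← hB] at hc hBo hB1 hB2
  have hdeg : 1 ≤ max a.natDegree b.natDegree := by
    have := h.rt.hd
    rw [h.rt.deg]
    omega
  have hf : Continuous (rat a b) := rat_continuous h.rt.cop
  have ho : IsOpenMap (rat a b)^[m] :=
    Pool.Agent.H91.Fatou.open_iterate (Pool.Agent.H32.BT.rat_open h.rt.cop hdeg) m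
  have hzB : (rat a b)^[m] (z : OnePoint ℂ) ∈ B := by
    rw [hz, hB]
    exact ⟨x0, hx0, rfl⟩
  obtain ⟨W, hW⟩ : ∃ W, W = Pool.Agent.H44.RC.CC (rat a b) m B (z : OnePoint ℂ) := ⟨_, rfl⟩
  rw [← hW] at hc
  have hbij : BijOn (rat a b)^[m] W B := by
    rw [hW]
    refine uni_gen hf m ho (fun y => Pool.Agent.H32.BT.iter_fiber_finite h.rt.cop hdeg m y) hBo hB1 hB2 hzB ?_
    intro w hw
    refine stp_iter hf m fun k hk => ?_
    rw [← hW] at hw
    exact not_not.1 (hc w hw k hk)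
  have hWo : IsOpen W := by
    rw [hW]
    exact Pool.Agent.H44.RC.cc_open hf m hBo _
  have hzW : (z : OnePoint ℂ) ∈ W := by
    rw [hW]
    exact Pool.Agent.H44.RC.cc_mem hzB
  have hex : ∀ u : ℂ, ∃ x : ℂ, u ∈ ball q s → (x : OnePoint ℂ) ∈ W ∧ (rat a b)^[m] (x : OnePoint ℂ) = (u : OnePoint ℂ) := by
    intro u
    by_cases hu : u ∈ ball q s
    · obtain ⟨w, hw, hwu⟩ := hbij.surjOn (show (u : OnePoint ℂ) ∈ B by rw [hB]; exact ⟨u, hu, rfl⟩)
      obtain ⟨x, hx⟩ := g_fin h (hq hu) hwu 0 (Nat.zero_le m)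
      rw [Function.iterate_zero, id] at hx
      exact ⟨x, fun _ => ⟨hx ▸ hw, hx ▸ hwu⟩⟩
    · exact ⟨0, fun h0 => absurd h0 hu⟩
  choose φ hφ using hex
  have hφx : φ x0 = z := by
    obtain ⟨h1, h2⟩ := hφ x0 hx0
    exact OnePoint.coe_injective (hbij.injOn h1 hzW (h2.trans hz.symm))
  refine ⟨φ, ⟨?_, rfl, fun u hu => (hφ u hu).2⟩, hφx⟩
  intro u hu
  obtain ⟨h1, h2⟩ := hφ u hu
  have h3 : φ u ∈ (pre a b)^[m] {u} := (g_pre h (hq hu)).1 h2
  -- the derivative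
  have hne : tD a b m (φ u) ≠ 0 := by
    unfold tD
    refine Finset.prod_ne_zero_iff.2 fun i hi => ?_
    have hi' := Finset.mem_range.1 hi
    have hbi := (mem_pre.1 h3).1 i hi'
    have h4 : φ u ∈ (pre a b)^[i] univ := mem_pre.2 ⟨fun j hj => (mem_pre.1 h3).1 j (by omega), mem_univ _⟩
    have h5 := hc _ h1 i hi'
    rw [g_rat h h4, crit_iff h hbi] at h5
    exact div_ne_zero h5 (pow_ne_zero 2 hbi)
  -- continuity
  have hcont : ContinuousAt φ u := by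
    rw [Metric.continuousAt_iff']
    intro ε hε
    have hVo : IsOpen ((fun z : ℂ => (z : OnePoint ℂ)) '' ball (φ u) ε ∩ W) :=
      (OnePoint.isOpenEmbedding_coe.isOpenMap _ isOpen_ball).inter hWo
    have hI : IsOpen ((rat a b)^[m] '' ((fun z : ℂ => (z : OnePoint ℂ)) '' ball (φ u) ε ∩ W)) := ho _ hVo
    have hu1 : u ∈ (fun z : ℂ => (z : OnePoint ℂ)) ⁻¹' ((rat a b)^[m] '' ((fun z : ℂ => (z : OnePoint ℂ)) '' ball (φ u) ε ∩ W)) :=
      ⟨(φ u : OnePoint ℂ), ⟨⟨φ u, mem_ball_self hε, rfl⟩, h1⟩, h2⟩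
    have hI2 := hI.preimage OnePoint.continuous_coe
    filter_upwards [hI2.mem_nhds hu1, isOpen_ball.mem_nhds hu] with u' hu' hu2
    obtain ⟨w, ⟨⟨y, hy, hyw⟩, hw⟩, hwu⟩ := hu'
    obtain ⟨h4, h5⟩ := hφ u' hu2
    have hyw' : (y : OnePoint ℂ) = w := hyw
    have h6 : (φ u' : OnePoint ℂ) = (y : OnePoint ℂ) := by
      rw [hyw']
      exact hbij.injOn h4 hw (h5.trans hwu.symm)
    rw [OnePoint.coe_injective h6]
    exact hy
  have hinv : ∀ᶠ v in 𝓝 u, (gg a b)^[m] (φ v) = v := by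
    filter_upwards [isOpen_ball.mem_nhds hu] with v hv
    exact (mem_pre.1 ((g_pre h (hq hv)).1 (hφ v hv).2)).2
  exact (HasDerivAt.of_local_left_inverse hcont (g_diff h3) hne hinv).differentiableAt.differentiableWithinAt

/-- one step, for a fixed choice of the circles -/
private theorem stp_one (h : Geo d a b J δ0) {δ δ' r1 : ℝ} {D : ℂ → ℝ}
    (hD : ∀ c ∈ J, Cr a b c → 0 < D c ∧ D c < δ ∧ ∀ x : ℂ, ‖x - c‖ = D c → b.eval x ≠ 0 → δ' ≤ ‖gg a b x - gg a b c‖)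
    (hsm : ∀ (n : ℕ) (q : ℂ) (r : ℝ) (ψ : ℂ → ℂ),
      ball q r ⊆ NJ J δ0 → 0 < r → r ≤ r1 → Br (rat a b) n q r (ψ q) ψ → ∀ c ∈ J, Cr a b c →
      ∀ y ∈ ball q (r / 4), ψ y = gg a b c → r * ‖deriv ψ y‖ < δ' ∧ ∀ x ∈ closedBall q (r / 2), ‖ψ x - gg a b c‖ < δ')
    (n : ℕ) (q : ℂ) (e r : ℝ) (ψ : ℂ → ℂ) (x0 z : ℂ) (hq : ball q r ⊆ NJ J δ0) (he : 0 < e) (her : 8 * e ≤ r) (hr1 : r ≤ r1)
    (hP : PJ a b J ∩ ball q r ⊆ closedBall q e) (hψ : Br (rat a b) n q r (ψ q) ψ) (hx0 : x0 ∈ ball q (r / 4))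
    (hbz : b.eval z ≠ 0) (hz : gg a b z = ψ x0) :
    (∃ φ : ℂ → ℂ, Br (rat a b) (n + 1) q r (φ q) φ ∧ φ x0 = z) ∨
    ∃ c ∈ J, Cr a b c ∧ ‖z - c‖ < δ ∧ ∃ y ∈ closedBall q e, ψ y = gg a b c := by
  have hr : 0 < r := by linarith
  have hs : 0 < r / 2 := by positivity
  have hsr : ball q (r / 2) ⊆ ball q r := ball_subset_ball (by linarith)
  have hqs : ball q (r / 2) ⊆ NJ J δ0 := hsr.trans hq
  have hx1 : x0 ∈ ball q (r / 2) := ball_subset_ball (by linarith) hx0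
  have hxr : x0 ∈ ball q r := hsr hx1
  obtain ⟨B, hB⟩ : ∃ B : Set (OnePoint ℂ), B = (fun z : ℂ => (z : OnePoint ℂ)) '' ball q (r / 2) := ⟨_, rfl⟩
  have hf : Continuous (rat a b) := rat_continuous h.rt.cop
  have hfz : rat a b (z : OnePoint ℂ) = (ψ x0 : OnePoint ℂ) := by
    rw [Pool.Agent.H44.Fatou.rat_coe_of_ne hbz, ← hz]
    rfl
  have hfz1 : (rat a b)^[n + 1] (z : OnePoint ℂ) = (x0 : OnePoint ℂ) := by
    rw [Function.iterate_succ_apply, hfz, hψ.inv x0 hxr]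
  have hzB : (rat a b)^[n + 1] (z : OnePoint ℂ) ∈ B := by
    rw [hfz1, hB]
    exact ⟨x0, hx1, rfl⟩
  obtain ⟨W, hW⟩ : ∃ W, W = Pool.Agent.H44.RC.CC (rat a b) (n + 1) B (z : OnePoint ℂ) := ⟨_, rfl⟩
  have hWc : IsPreconnected W := by
    rw [hW]
    exact Pool.Agent.H44.RC.cc_pre _ _ _
  have hzW : (z : OnePoint ℂ) ∈ W := by
    rw [hW]
    exact Pool.Agent.H44.RC.cc_mem hzB
  have hWB : ∀ w ∈ W, ∃ u ∈ ball q (r / 2), (rat a b)^[n + 1] w = (u : OnePoint ℂ) := by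
    intro w hw
    rw [hW] at hw
    have h1 := Pool.Agent.H44.RC.cc_sub hw
    rw [hB] at h1
    obtain ⟨u, hu, hu2⟩ := h1
    exact ⟨u, hu, hu2.symm⟩
  have hWp : ∀ w ∈ W, ∃ x : ℂ, w = (x : OnePoint ℂ) := by
    intro w hw
    obtain ⟨u, hu, hu2⟩ := hWB w hw
    obtain ⟨x, hx⟩ := g_fin h (hqs hu) hu2 0 (Nat.zero_le _)
    exact ⟨x, hx⟩
  -- the image
  have hS : IsPreconnected {s : ℂ | (s : OnePoint ℂ) ∈ rat a b '' W} := by
    refine stp_pre (hWc.image _ hf.continuousOn) ?_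
    rintro _ ⟨w, hw, rfl⟩
    obtain ⟨u, hu, hu2⟩ := hWB w hw
    obtain ⟨x, hx⟩ := g_fin h (hqs hu) hu2 1 (by omega)
    exact ⟨x, hx⟩
  have hSp : ∀ s : ℂ, (s : OnePoint ℂ) ∈ rat a b '' W → ∃ u ∈ ball q (r / 2), s ∈ (pre a b)^[n] {u} := by
    rintro s ⟨w, hw, hws⟩
    obtain ⟨u, hu, hu2⟩ := hWB w hw
    rw [Function.iterate_succ_apply, hws] at hu2
    exact ⟨u, hu, (g_pre h (hqs hu)).1 hu2⟩
  have hSψ : ∀ s : ℂ, (s : OnePoint ℂ) ∈ rat a b '' W → ψ ((gg a b)^[n] s) = s := by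
    refine b_clp h hq hψ hS ?_ (z0 := ψ x0) ⟨(z : OnePoint ℂ), hzW, hfz⟩ (by rw [b_gg h hq hψ hxr])
    intro s hs1
    obtain ⟨u, hu, hu2⟩ := hSp s hs1
    exact pre_mono (singleton_subset_iff.2 (hsr hu)) hu2
  have hWf : ∀ x : ℂ, (x : OnePoint ℂ) ∈ W → b.eval x ≠ 0 ∧ rat a b (x : OnePoint ℂ) = (gg a b x : OnePoint ℂ) ∧
      ∃ u ∈ ball q (r / 2), x ∈ (pre a b)^[n + 1] {u} := by
    intro x hx
    obtain ⟨u, hu, hu2⟩ := hWB _ hx
    have h1 := (g_pre h (hqs hu)).1 hu2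
    have h2 : b.eval x ≠ 0 := (mem_pre.1 h1).1 0 (by omega)
    refine ⟨h2, ?_, u, hu, h1⟩
    rw [Pool.Agent.H44.Fatou.rat_coe_of_ne h2]
    rfl
  by_cases hcase : ∃ w ∈ W, IsCrit (rat a b) w
  · right
    obtain ⟨w, hw, hwc⟩ := hcase
    obtain ⟨y, hy, hwy⟩ := hWB w hw
    rcases h.fc w hwc with ⟨c, hc, rfl, hcr⟩ | hfar
    · obtain ⟨hbc, hfc, -⟩ := hWf c hw
      have h1 : c ∈ (pre a b)^[n + 1] {y} := (g_pre h (hqs hy)).1 hwy
      have h2 : (gg a b)^[n + 1] c = y := (mem_pre.1 h1).2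
      have h3 : y ∈ PJ a b J := by
        rw [← h2]
        exact p_cr hc hcr (Nat.succ_pos n) (pre_mono (subset_univ _) h1)
      have h4 : y ∈ closedBall q e := hP ⟨h3, hsr hy⟩
      have h5 : ψ y = gg a b c := by
        have h6 := hSψ (gg a b c) ⟨(c : OnePoint ℂ), hw, hfc⟩
        rw [← Function.iterate_succ_apply, h2] at h6
        exact h6
      have h6 : y ∈ ball q (r / 4) := by
        rw [mem_closedBall] at h4
        rw [mem_ball]
        linarith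
      have h7 := (hsm n q r ψ hq hr hr1 hψ c hc hcr y h6 h5).2
      obtain ⟨hD0, hD1, hD2⟩ := hD c hc hcr
      refine ⟨c, hc, hcr, ?_, y, h4, h5⟩
      by_contra hcon
      have hcon2 : D c ≤ ‖z - c‖ := hD1.le.trans (not_lt.1 hcon)
      have hWpl := stp_pre hWc hWp
      have hcf : ContinuousOn (fun x : ℂ => ‖x - c‖) {z : ℂ | (z : OnePoint ℂ) ∈ W} := by fun_prop
      have hiv := hWpl.intermediate_value (show c ∈ {z : ℂ | (z : OnePoint ℂ) ∈ W} from hw)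
        (show z ∈ {z : ℂ | (z : OnePoint ℂ) ∈ W} from hzW) hcf
      have hmem : D c ∈ Icc ‖c - c‖ ‖z - c‖ := by
        rw [sub_self, norm_zero]
        exact ⟨hD0.le, hcon2⟩
      obtain ⟨x, hx, hxD⟩ := hiv hmem
      obtain ⟨hbx, hfx, u, hu, hxu⟩ := hWf x hx
      have h8 := hD2 x hxD hbx
      have h9 := hSψ (gg a b x) ⟨(x : OnePoint ℂ), hx, hfx⟩
      rw [← Function.iterate_succ_apply, (mem_pre.1 hxu).2] at h9
      have h10 := h7 u (ball_subset_closedBall hu)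
      rw [h9] at h10
      exact absurd h8 (not_le.2 h10)
    · exact absurd hwy (hfar (n + 1) (Nat.succ_pos n) y (hqs hy))
  · left
    push Not at hcase
    obtain ⟨φ, hφ, hφx⟩ := stp_branch (m := n + 1) h hs hqs hx1 hfz1 (by
      intro w hw k hk
      rw [← hB, ← hW] at hw
      cases k with
      | zero => exact hcase w hw
      | succ k =>
        obtain ⟨x, rfl⟩ := hWp w hw
        obtain ⟨hbx, hfx, u, hu, hxu⟩ := hWf x hw
        have h1 : (gg a b x : OnePoint ℂ) ∈ rat a b '' W := ⟨(x : OnePoint ℂ), hw, hfx⟩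
        have h2 := hSψ _ h1
        obtain ⟨u', hu', hu2⟩ := hSp _ h1
        have hk' : k < n := by omega
        have h3 : gg a b x ∈ (pre a b)^[k] univ := mem_pre.2 ⟨fun j hj => (mem_pre.1 hu2).1 j (by omega), mem_univ _⟩
        rw [Function.iterate_succ_apply, hfx, g_rat h h3, crit_iff h ((mem_pre.1 hu2).1 k hk')]
        have h4 := b_nc h hq hψ (hsr hu') hk'
        rw [(mem_pre.1 hu2).2] at h2
        rwa [h2] at h4)
    obtain ⟨χ, hχ, hχφ⟩ := rng h he.le (by linarith : e < r / 2) (by linarith : r / 2 ≤ r) hq hP hφ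
    exact ⟨χ, hχ, (hχφ hx1).trans hφx⟩

theorem stp (h : Geo d a b J δ0) {δ : ℝ} (hδ : 0 < δ) : ∃ r1 : ℝ, 0 < r1 ∧ ∀ (n : ℕ) (q : ℂ) (e r : ℝ) (ψ : ℂ → ℂ) (x0 z : ℂ),
    ball q r ⊆ NJ J δ0 → 0 < e → 8 * e ≤ r → r ≤ r1 → PJ a b J ∩ ball q r ⊆ closedBall q e →
    Br (rat a b) n q r (ψ q) ψ → x0 ∈ ball q (r / 4) → b.eval z ≠ 0 → gg a b z = ψ x0 →
    (∃ φ : ℂ → ℂ, Br (rat a b) (n + 1) q r (φ q) φ ∧ φ x0 = z) ∨
    ∃ c ∈ J, Cr a b c ∧ ‖z - c‖ < δ ∧ ∃ y ∈ closedBall q e, ψ y = gg a b c := by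
  classical
  have hex : ∀ c : ℂ, ∃ δc δ' : ℝ, 0 < δ' ∧ (Cr a b c → 0 < δc ∧ δc < δ ∧
      ∀ x : ℂ, ‖x - c‖ = δc → b.eval x ≠ 0 → δ' ≤ ‖gg a b x - gg a b c‖) := by
    intro c
    by_cases hc : Cr a b c
    · obtain ⟨δc, δ', h1, h2, h3, h4⟩ := stp_circ h hδ c hc.1
      exact ⟨δc, δ', h3, fun _ => ⟨h1, h2, h4⟩⟩
    · exact ⟨1, 1, one_pos, fun h0 => absurd h0 hc⟩
  choose D E hE hD using hex
  obtain ⟨δ', hδ', hmin⟩ : ∃ δ' : ℝ, 0 < δ' ∧ ∀ c : ℂ, Cr a b c → δ' ≤ E c := by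
    obtain ⟨F, hF⟩ := (cr_fin h).exists_finset
    rcases F.eq_empty_or_nonempty with h0 | h0
    · refine ⟨1, one_pos, fun c hc => ?_⟩
      have h1 := (hF c).2 hc
      rw [h0] at h1
      exact absurd h1 (Finset.notMem_empty c)
    · obtain ⟨c0, -, hc0⟩ := F.exists_min_image E h0
      exact ⟨E c0, hE c0, fun c hc => hc0 c ((hF c).2 hc)⟩
  obtain ⟨r1, hr1, hsm⟩ := sm2 h hδ'
  refine ⟨r1, hr1, fun n q e r ψ x0 z hq he her hrr hP hψ hx0 hbz hz => ?_⟩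
  refine stp_one (D := D) h (fun c _ hcr => ?_) hsm n q e r ψ x0 z hq he her hrr hP hψ hx0 hbz hz
  obtain ⟨h1, h2, h3⟩ := hD c hcr
  exact ⟨h1, h2, fun x hx hbx => (hmin c hcr).trans (h3 x hx hbx)⟩

end Pool.Agent.H18.UP
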