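import Pool.Agent.H18.UP.BAS
import Pool.Agent.H35.EX.AJ.Basic

/-!
# THEOREM UP: branches on discs without points of `PJ`

PROOF. `Sys0.br` (H35/EX/AJ/Basic) with `A = {x | ∀ k, ∀ u ∈ ball w ρ, (rat a b)^[k] x ≠ u}`: the complement of `⋃ (rat^[k])⁻¹ (ball w ρ)`, an open set (`rat` continuous, the coercion is open): `A` is closed; forward invariant by definition.
`inf`: `Geo.inf` (`ball w ρ ⊆ NJ`). `crit`: let `c` be critical and `rat^[k] (rat c) = u ∈ ball w ρ`, so `rat^[k+1] c = u`; by `Geo.fc` (`k + 1 > 0`, `u ∈ NJ`) `c = z ∈ J`, `Cr z`; by `g_pre` `z ∈ pre^[k+1] {u}`, so `u = gg^[k+1] z ∈ PJ` (`p_cr`, `g_rat`): contradiction with the disjointness.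
`fin` (some finite point is in `A`): there are at least two critical VALUES of `rat a b` (or: if `A = {∞}` then `∞` is the only critical value and `rat^{-1}(∞) ⊆ A`..). Simple way: `A` is forward invariant and contains all critical values. If no finite point is in `A` then all critical points are mapped to `∞`; all critical points `c ≠ ∞` are poles: zeros of `ww` are zeros of `b`, multiplicity `k - 1` at a pole of order `k`, and the critical point `∞` (if `rat ∞ = ∞`) has at most `d - 1` of the `2 d - 2`: count as in H57/CP or use a theorem of the library (`exists_crit` H91/Fatou/Dense1; H80/AJ `Sys.fin` was proved in other charts: look for a lemma giving two critical values or a finite point, e.g. H3/NC/PRC, UNI, H57/CP/TRF). ALTERNATIVE without counting: apply `Sys0.br` not to `A` but use `uni_gen` (H3/NC/UNI): `B` = the coercion of `ball w ρ`, `f = rat a b`, exponent `n`, `x = z`: no critical point of `rat^[n]` in the component `CC f n B z`, so `BijOn`; the inverse is holomorphic (inverse of a locally injective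 holomorphic map, `g_diff`, `tD ≠ 0`). Both are fine.
-/

set_option autoImplicit false

open Filter Topology Polynomial Metric Set MeasureTheory

namespace Pool.Agent.H18.UP

open Pool.Agent.H44.Fatou (rat rat_continuous)
open Pool.Agent.H80.AJ (Br KK one_le_KK KK_pos distort distort_lip deriv_ne univ_cover)
open Pool.Agent.H32.BT (IsCrit)
open Pool.Agent.H61.TT Pool.Agent.H57.CP Pool.Agent.H3.NC

variable {d : ℕ} {a b : Polynomial ℂ} {J : Set ℂ} {δ0 : ℝ}

theorem sys (h : Geo d a b J δ0) {w : ℂ} {ρ : ℝ} (hρ : 0 < ρ) (hw : ball w ρ ⊆ NJ J δ0)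
    (hP : ∀ u ∈ ball w ρ, u ∉ PJ a b J) {n : ℕ} {z : ℂ} (hz : z ∈ (pre a b)^[n] {w}) :
    ∃ ψ : ℂ → ℂ, Br (rat a b) n w ρ z ψ := by
  have hwc : w ∈ NJ J δ0 := hw (mem_ball_self hρ)
  have hz' : (rat a b)^[n] (z : OnePoint ℂ) = (w : OnePoint ℂ) := (g_pre h hwc).2 hz
  obtain ⟨G, h1, h2, h3⟩ := Pool.Agent.H32.BT.branch h.rt.cop
    (by rw [h.rt.deg]; have := h.rt.hd; omega) hρ (n := n) (x := w) (fun y hy u hu => by
    have hyN := hw hy
    refine ⟨fun i hi hc => ?_, g_fin h hyN hu⟩
    have hi' : (rat a b)^[n - i] ((rat a b)^[i] u) = (y : OnePoint ℂ) := by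
      rw [← Function.iterate_add_apply, Nat.sub_add_cancel hi.le]
      exact hu
    rcases h.fc _ hc with ⟨c, hcJ, he, hcr⟩ | h4
    · rw [he] at hi'
      have h5 := (g_pre h hyN).1 hi'
      have h6 := g_rat h h5
      rw [hi'] at h6
      have h7 : y = (gg a b)^[n - i] c := OnePoint.coe_injective h6
      exact hP y hy (by
        rw [h7]
        exact p_cr hcJ hcr (by omega) (pre_mono (subset_univ _) h5))
    · exact h4 (n - i) (by omega) y hyN hi') hz'
  exact ⟨G, ⟨h1, h2, h3⟩⟩

end Pool.Agent.H18.UP
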