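import Pool.Agent.H18.UP.WDR
import Pool.Agent.H18.UP.SYS

/-!
# THEOREM UP: a periodic point of the first return map in the ring

PROOF. `w' ∈ ball c0 ρ ⊆ V` is periodic, so it returns: `wdc`: `W ∈ WD a b V m`, `w' ∈ W`, `Ret` (`wdr`). By `Ret.ont` there is `u ∈ W` with `gg^[m] u = w'`. Let `R = ‖w' - c0‖ / 2 ≥ θ ρ / 2`, `Δ = ball w' R`: `x ∈ Δ` has `‖x - c0‖ ≥ R > e0` (`e0 ≤ θ ρ / 4`), so `x ∉ PJ` (`GW.col`, `x ∈ ball c0 ρ ⊆ ball c0 ρ1`). `sys`: a branch `χ` of `g^(-m)` on `Δ` with `χ w' = u`.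
`χ '' Δ` is preconnected, contains `u ∈ W`, in `pre^m V` (`Δ ⊆ ball c0 ρ ⊆ V`: `‖w' - c0‖ ≤ ρ / 4`), so `⊆ W` (`Ret.cmp`). For `x ∈ W`: `ball w' (L ‖w' - x‖) ⊆ V ⊆ ball c0 (2 ρ)`, so `L ‖w' - x‖ ≤ 4 ρ`. So `χ '' Δ ⊆ closedBall w' (4 ρ / L) ⊆ closedBall w' (R / 8)` (`64 ≤ L θ`: `4 ρ / L ≤ θ ρ / 16`).
Cauchy (Mathlib: `Complex.norm_deriv_le_of_forall_mem_sphere_norm_le` for `χ - w'`, or `distort`..): `‖χ' x‖ ≤ (R / 8) / (R / 2) ≤ 1 / 4` on `closedBall w' (R / 2)` (radius `R / 2`, slightly smaller). `χ` maps `closedBall w' (R / 2)` into itself with the Lipschitz constant `1 / 4` (convex): Banach: `α = χ α`, `α = lim χ^[k] w'`, `‖α - w'‖ ≤ θ ρ / 16`. `α ∈ W`. `gg^[m] α = α`, `α ∈ pre^m {α}` (`b_pre`). `p = m`. `αn`: `Ret.fst`. `2 ≤ ‖tD m α‖`: `b_der`.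
`α ∈ J`: `w' ∈ J`; if `x ∈ J ∩ Δ` then `χ x ∈ J` (`Geo.back` along the orbit: `χ x ∈ pre^m {x}`); so all `χ^[k] w' ∈ J`, and `J` is closed.
-/

set_option autoImplicit false

open Filter Topology Polynomial Metric Set MeasureTheory

namespace Pool.Agent.H18.UP

open Pool.Agent.H44.Fatou (rat rat_continuous)
open Pool.Agent.H80.AJ (Br KK one_le_KK KK_pos distort distort_lip deriv_ne univ_cover)
open Pool.Agent.H32.BT (IsCrit)
open Pool.Agent.H61.TT Pool.Agent.H57.CP Pool.Agent.H3.NC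

variable {d : ℕ} {a b : Polynomial ℂ} {J : Set ℂ} {δ0 : ℝ}

private theorem alp_back (h : Geo d a b J δ0) {x : ℂ} (hx : x ∈ J) (m : ℕ) : ∀ y : ℂ, y ∈ (pre a b)^[m] {x} → y ∈ J := by
  induction m with
  | zero =>
    intro y hy
    have h1 : y = x := hy
    rw [h1]
    exact hx
  | succ m ih =>
    intro y hy
    rw [Function.iterate_succ_apply'] at hy
    exact h.back y hy.1 (ih _ hy.2)

theorem alp (h : Geo d a b J δ0) {c0 : ℂ} {e0 ρ ρ1 M L K C1 δ θ : ℝ} {V : Set ℂ} (hG : GW a b J δ0 c0 e0 ρ ρ1 M L K C1 δ V)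
    (hθ : 0 < θ) (hθe : 4 * e0 ≤ θ * ρ) (hLθ : 64 ≤ L * θ) {w' : ℂ} (hw : w' ∈ J) (h1 : θ * ρ ≤ ‖w' - c0‖)
    (h2 : ‖w' - c0‖ ≤ ρ / 4) (hp : ∃ p : ℕ, 0 < p ∧ w' ∈ (pre a b)^[p] {w'}) : ∃ α ∈ J, ∃ p : ℕ,
    θ * ρ / 2 ≤ ‖α - c0‖ ∧ ‖α - c0‖ ≤ ρ / 2 ∧ 0 < p ∧ α ∈ (pre a b)^[p] {α} ∧
    (∀ j, 0 < j → j < p → (gg a b)^[j] α ∉ V) ∧ 2 ≤ ‖tD a b p α‖ := by
  have hρ : 0 < ρ := hG.nic.hρ
  have hL : 4 ≤ L := hG.hL
  have he0 : 0 < e0 := hG.e0p
  have hθρ : 0 < θ * ρ := mul_pos hθ hρ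
  obtain ⟨R, hR⟩ : ∃ R : ℝ, R = ‖w' - c0‖ / 2 := ⟨_, rfl⟩
  have hR2 : ‖w' - c0‖ = 2 * R := by rw [hR]; ring
  rw [hR2] at h1 h2
  have hR0 : 0 < R := by linarith
  have hρ1 : ρ ≤ ρ1 := by
    have h3 := hG.ρρ1
    nlinarith
  have hball : ball c0 ρ ⊆ V := hG.nic.inn
  have hw'V : w' ∈ V := hball (by rw [mem_ball, dist_eq_norm, hR2]; linarith)
  -- the first return domain
  obtain ⟨p0, hp0, hp0w⟩ := hp
  obtain ⟨m, W, hW, hw'W, -⟩ := wdc (a := a) (b := b) w' hw'V ⟨p0, hp0, pre_mono (singleton_subset_iff.2 hw'V) hp0w⟩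
  have hRet := wdr h hG m W hW
  obtain ⟨u, huW, hu⟩ := hRet.ont w' hw'V
  have hu' : u ∈ (pre a b)^[m] {w'} := mem_pre.2 ⟨(mem_pre.1 (hRet.ret u huW)).1, hu⟩
  -- the disc
  have hΔ1 : ∀ x ∈ ball w' R, R < ‖x - c0‖ ∧ ‖x - c0‖ < ρ := by
    intro x hx
    rw [mem_ball, dist_eq_norm] at hx
    have h3 : ‖w' - c0‖ ≤ ‖x - w'‖ + ‖x - c0‖ := by
      calc ‖w' - c0‖ = ‖(x - c0) - (x - w')‖ := by congr 1; ring
        _ ≤ ‖x - c0‖ + ‖x - w'‖ := norm_sub_le _ _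
        _ = _ := add_comm _ _
    have h4 : ‖x - c0‖ ≤ ‖x - w'‖ + ‖w' - c0‖ := by
      calc ‖x - c0‖ = ‖(x - w') + (w' - c0)‖ := by congr 1; ring
        _ ≤ _ := norm_add_le _ _
    rw [hR2] at h3 h4
    constructor
    · linarith
    · linarith
  have hΔV : ball w' R ⊆ V := fun x hx => hball (by rw [mem_ball, dist_eq_norm]; exact (hΔ1 x hx).2)
  have hΔN : ball w' R ⊆ NJ J δ0 := by
    intro x hx
    refine ⟨c0, hG.cJ, ?_⟩
    rw [mem_ball, dist_eq_norm]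
    have h3 := (hΔ1 x hx).2
    have h4 := hG.ρ1δ
    have h5 := hG.δδ0
    linarith
  have hΔP : ∀ x ∈ ball w' R, x ∉ PJ a b J := by
    intro x hx hxP
    have h3 := hΔ1 x hx
    have h4 := hG.col ⟨hxP, by rw [mem_ball, dist_eq_norm]; linarith⟩
    rw [mem_closedBall, dist_eq_norm] at h4
    linarith
  obtain ⟨χ, hχ⟩ := sys h hR0 hΔN hΔP hu'
  have hpre : ∀ x ∈ ball w' R, χ x ∈ (pre a b)^[m] {x} := fun x hx => b_pre h hΔN hχ hx
  -- the image is in W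
  have him : χ '' ball w' R ⊆ W := by
    refine hRet.cmp u huW _ ((convex_ball _ _).isPreconnected.image _ hχ.diff.continuousOn)
      ⟨w', mem_ball_self hR0, hχ.val⟩ ?_
    rintro _ ⟨x, hx, rfl⟩
    exact pre_mono (singleton_subset_iff.2 (hΔV hx)) (hpre x hx)
  have hWs : ∀ x ∈ W, ‖x - w'‖ ≤ R / 8 := by
    intro x hx
    have h3 := hRet.small w' hw'W x hx
    have h4 : L * ‖w' - x‖ ≤ 4 * ρ := by
      by_contra hcon
      push Not at hcon
      have h5 : w' + ((4 * ρ : ℝ) : ℂ) ∈ ball w' (L * ‖w' - x‖) := by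
        rw [mem_ball, dist_eq_norm, add_sub_cancel_left, Complex.norm_real, Real.norm_of_nonneg (by linarith)]
        exact hcon
      have h6 := hG.nic.out (h3 h5)
      rw [mem_ball, dist_eq_norm] at h6
      have h7 : ‖(((4 * ρ : ℝ) : ℂ))‖ ≤ ‖w' + ((4 * ρ : ℝ) : ℂ) - c0‖ + ‖w' - c0‖ := by
        calc ‖(((4 * ρ : ℝ) : ℂ))‖ = ‖(w' + ((4 * ρ : ℝ) : ℂ) - c0) - (w' - c0)‖ := by congr 1; ring
          _ ≤ _ := norm_sub_le _ _
      rw [Complex.norm_real, Real.norm_of_nonneg (by linarith), hR2] at h7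
      linarith
    rw [norm_sub_rev] at h4
    by_contra hcon
    push Not at hcon
    have h5 : L * (R / 8) < L * ‖x - w'‖ := mul_lt_mul_of_pos_left hcon (by linarith)
    have h6 : 64 * ρ ≤ L * θ * ρ := mul_le_mul_of_nonneg_right hLθ hρ.le
    have h7 : L * (θ * ρ) ≤ L * (2 * R) := mul_le_mul_of_nonneg_left h1 (by linarith)
    nlinarith
  have hχs : ∀ x ∈ ball w' R, ‖χ x - w'‖ ≤ R / 8 := fun x hx => hWs _ (him (mem_image_of_mem _ hx))
  have hBB : closedBall w' (R / 4) ⊆ ball w' R := closedBall_subset_ball (by linarith)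
  have hder : ∀ x ∈ closedBall w' (R / 4), ‖deriv χ x‖ ≤ 1 / 4 := by
    intro x hx
    have hsub : closedBall x (R / 2) ⊆ ball w' R := by
      intro y hy
      rw [mem_closedBall] at hx hy
      rw [mem_ball]
      have := dist_triangle y x w'
      linarith
    have h3 : DifferentiableOn ℂ (fun y => χ y - w') (ball w' R) := hχ.diff.sub_const _
    have h4 := Complex.norm_deriv_le_of_forall_mem_sphere_norm_le (f := fun y => χ y - w') (c := x) (C := R / 8)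
      (show 0 < R / 2 by linarith) (h3.diffContOnCl_ball hsub) fun y hy => hχs y (hsub (sphere_subset_closedBall hy))
    rw [deriv_sub_const] at h4
    refine h4.trans (le_of_eq ?_)
    field_simp
    ring
  have hlip : ∀ x ∈ closedBall w' (R / 4), ∀ y ∈ closedBall w' (R / 4), ‖χ x - χ y‖ ≤ 1 / 4 * ‖x - y‖ := by
    intro x hx y hy
    exact Convex.norm_image_sub_le_of_norm_deriv_le
      (fun y hy => hχ.diff.differentiableAt (isOpen_ball.mem_nhds (hBB hy))) hder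
      (convex_closedBall _ _) hy hx
  have hmaps : MapsTo χ (closedBall w' (R / 4)) (closedBall w' (R / 4)) := by
    intro x hx
    rw [mem_closedBall, dist_eq_norm]
    exact (hχs x (hBB hx)).trans (by linarith)
  have hcontr : ContractingWith (1 / 4 : NNReal) (hmaps.restrict χ _ _) := by
    refine ⟨?_, ?_⟩
    · rw [← NNReal.coe_lt_coe]
      norm_num
    · apply LipschitzWith.of_dist_le_mul
      intro x y
      have h3 := hlip x.1 x.2 y.1 y.2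
      rw [← dist_eq_norm, ← dist_eq_norm] at h3
      have h4 : ((1 / 4 : NNReal) : ℝ) = 1 / 4 := by norm_num
      rw [h4]
      exact h3
  have hself : w' ∈ closedBall w' (R / 4) := mem_closedBall_self (by linarith)
  obtain ⟨α, hαB, hαfix, hαlim, -⟩ := hcontr.exists_fixedPoint'
    (isClosed_closedBall.isComplete) hmaps hself (edist_ne_top _ _)
  have hαΔ := hBB hαB
  have hαW : α ∈ W := by
    have h3 := him (mem_image_of_mem χ hαΔ)
    have h4 : χ α = α := hαfix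
    rwa [h4] at h3
  have hαpre : α ∈ (pre a b)^[m] {α} := by
    have h3 := hpre α hαΔ
    have h4 : χ α = α := hαfix
    rwa [h4] at h3
  have hαw := hWs α hαW
  have hJk : ∀ k : ℕ, χ^[k] w' ∈ J ∧ χ^[k] w' ∈ closedBall w' (R / 4) := by
    intro k
    induction k with
    | zero => exact ⟨hw, hself⟩
    | succ k ih =>
      rw [Function.iterate_succ_apply']
      exact ⟨alp_back h ih.1 m _ (hpre _ (hBB ih.2)), hmaps ih.2⟩
  have hαJ : α ∈ J := h.Jc.mem_of_tendsto hαlim (Eventually.of_forall fun k => (hJk k).1)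
  refine ⟨α, hαJ, m, ?_, ?_, hRet.pos, hαpre, fun j hj0 hjm => hRet.fst α hαW j hj0 hjm, ?_⟩
  · have h3 : ‖w' - c0‖ ≤ ‖α - w'‖ + ‖α - c0‖ := by
      calc ‖w' - c0‖ = ‖(α - c0) - (α - w')‖ := by congr 1; ring
        _ ≤ ‖α - c0‖ + ‖α - w'‖ := norm_sub_le _ _
        _ = _ := add_comm _ _
    rw [hR2] at h3
    linarith
  · have h4 : ‖α - c0‖ ≤ ‖α - w'‖ + ‖w' - c0‖ := by
      calc ‖α - c0‖ = ‖(α - w') + (w' - c0)‖ := by congr 1; ring
        _ ≤ _ := norm_add_le _ _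
    rw [hR2] at h4
    linarith
  · have h3 := b_der h hΔN hχ hαΔ
    have h4 : χ α = α := hαfix
    rw [h4] at h3
    have h5 := hder α hαB
    have h6 : ‖deriv χ α‖ * ‖tD a b m α‖ = 1 := by
      rw [← norm_mul, h3, norm_one]
    have h7 := norm_nonneg (tD a b m α)
    nlinarith

end Pool.Agent.H18.UP
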