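import Pool.Agent.H18.UP.Defs

/-!
# THEOREM UP: basic facts

`g_fin`: the orbits which end in `NJ` stay in the plane. `g_pre`: dictionary. `b_*`: facts on the branches over balls in `NJ`. `p_inv`: `PJ` is forward invariant. `p_cr`: the orbit of a critical point is in `PJ`.
-/

set_option autoImplicit false

open Filter Topology Polynomial Metric Set MeasureTheory

namespace Pool.Agent.H18.UP

open Pool.Agent.H44.Fatou (rat rat_continuous)
open Pool.Agent.H80.AJ (Br KK one_le_KK KK_pos distort distort_lip deriv_ne univ_cover)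
open Pool.Agent.H32.BT (IsCrit)
open Pool.Agent.H61.TT Pool.Agent.H57.CP Pool.Agent.H3.NC

variable {d : ℕ} {a b : Polynomial ℂ} {J : Set ℂ} {δ0 : ℝ}

/-- orbits which end in `NJ` are in the plane -/
theorem g_fin (h : Geo d a b J δ0) {n : ℕ} {x : OnePoint ℂ} {w : ℂ} (hw : w ∈ NJ J δ0)
    (hx : (rat a b)^[n] x = (w : OnePoint ℂ)) : ∀ i ≤ n, ∃ z : ℂ, (rat a b)^[i] x = (z : OnePoint ℂ) := by
  intro i hi
  have h1 : (rat a b)^[n - i] ((rat a b)^[i] x) = (w : OnePoint ℂ) := by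
    rw [← Function.iterate_add_apply, Nat.sub_add_cancel hi, hx]
  generalize (rat a b)^[i] x = y at h1 ⊢
  induction y using OnePoint.rec with
  | infty => exact absurd h1 (h.inf _ w hw)
  | coe z => exact ⟨z, rfl⟩

theorem g_rat (h : Geo d a b J δ0) {n : ℕ} {z : ℂ} {S : Set ℂ} (hz : z ∈ (pre a b)^[n] S) :
    (rat a b)^[n] (z : OnePoint ℂ) = ((gg a b)^[n] z : ℂ) :=
  rat_it (mem_pre.1 hz).1 n le_rfl

theorem g_pre (h : Geo d a b J δ0) {n : ℕ} {z w : ℂ} (hw : w ∈ NJ J δ0) :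
    (rat a b)^[n] (z : OnePoint ℂ) = (w : OnePoint ℂ) ↔ z ∈ (pre a b)^[n] {w} := by
  constructor
  · intro hz
    have hfin := g_fin h hw hz
    have key : ∀ i ≤ n, (rat a b)^[i] (z : OnePoint ℂ) = ((gg a b)^[i] z : ℂ) ∧
        ∀ j < i, b.eval ((gg a b)^[j] z) ≠ 0 := by
      intro i
      induction i with
      | zero => intro _; exact ⟨rfl, fun j hj => absurd hj (by omega)⟩
      | succ i ih =>
        intro hi
        obtain ⟨h1, h2⟩ := ih (by omega)
        have hb : b.eval ((gg a b)^[i] z) ≠ 0 := by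
          intro h0
          obtain ⟨z', hz'⟩ := hfin (i + 1) hi
          rw [Function.iterate_succ_apply', h1, Pool.Agent.H44.Fatou.rat_coe, h0] at hz'
          unfold Pool.Agent.H44.Fatou.pt at hz'
          rw [if_pos rfl] at hz'
          exact OnePoint.infty_ne_coe _ hz'
        refine ⟨?_, ?_⟩
        · rw [Function.iterate_succ_apply', h1, Function.iterate_succ_apply',
            Pool.Agent.H44.Fatou.rat_coe_of_ne hb]
          rfl
        · intro j hj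
          rcases Nat.lt_succ_iff_lt_or_eq.1 hj with h3 | rfl
          · exact h2 j h3
          · exact hb
    refine mem_pre.2 ⟨(key n le_rfl).2, ?_⟩
    have h1 := (key n le_rfl).1
    rw [hz] at h1
    exact (OnePoint.coe_injective h1).symm
  · intro hz
    rw [g_rat h hz]
    exact congrArg _ (mem_pre.1 hz).2

/-- `gg^[n]` is holomorphic at the points of `pre^[n] S` -/
theorem g_diff {n : ℕ} {z : ℂ} {S : Set ℂ} (hz : z ∈ (pre a b)^[n] S) :
    HasDerivAt (gg a b)^[n] (tD a b n z) z :=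
  (bra_it (mem_pre.1 hz).1).hasDerivAt

theorem pre_open {n : ℕ} {S : Set ℂ} (hS : IsOpen S) : IsOpen ((pre a b)^[n] S) := by
  have hU : IsOpen {z : ℂ | b.eval z ≠ 0} := isOpen_ne_fun b.continuous continuous_const
  have hc : ContinuousOn (gg a b) {z : ℂ | b.eval z ≠ 0} :=
    a.continuous.continuousOn.div b.continuous.continuousOn fun z hz => hz
  induction n with
  | zero => exact hS
  | succ n ih =>
    rw [Function.iterate_succ_apply']
    exact hc.isOpen_inter_preimage hU ih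

theorem pre_mono {n : ℕ} {S T : Set ℂ} (hST : S ⊆ T) : (pre a b)^[n] S ⊆ (pre a b)^[n] T :=
  fun _ hz => mem_pre.2 ⟨(mem_pre.1 hz).1, hST (mem_pre.1 hz).2⟩

theorem pre_add {n m : ℕ} {z : ℂ} {S : Set ℂ} : z ∈ (pre a b)^[n + m] S ↔
    z ∈ (pre a b)^[n] univ ∧ (gg a b)^[n] z ∈ (pre a b)^[m] S := by
  rw [mem_pre, mem_pre, mem_pre]
  constructor
  · rintro ⟨h1, h2⟩
    refine ⟨⟨fun i hi => h1 i (by omega), mem_univ _⟩, fun i hi => ?_, ?_⟩
    · rw [← Function.iterate_add_apply]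
      exact h1 _ (by omega)
    · rw [← Function.iterate_add_apply, add_comm m n]
      exact h2
  · rintro ⟨⟨h1, -⟩, h2, h3⟩
    refine ⟨fun i hi => ?_, ?_⟩
    · rcases lt_or_ge i n with h4 | h4
      · exact h1 i h4
      · have h5 := h2 (i - n) (by omega)
        rwa [← Function.iterate_add_apply, Nat.sub_add_cancel h4] at h5
    · rw [← Function.iterate_add_apply, add_comm m n] at h3
      exact h3

theorem b_pre (h : Geo d a b J δ0) {n : ℕ} {q x : ℂ} {r : ℝ} {ψ : ℂ → ℂ} (hq : ball q r ⊆ NJ J δ0)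
    (hψ : Br (rat a b) n q r x ψ) {u : ℂ} (hu : u ∈ ball q r) : ψ u ∈ (pre a b)^[n] {u} :=
  (g_pre h (hq hu)).1 (hψ.inv u hu)

theorem b_gg (h : Geo d a b J δ0) {n : ℕ} {q x : ℂ} {r : ℝ} {ψ : ℂ → ℂ} (hq : ball q r ⊆ NJ J δ0)
    (hψ : Br (rat a b) n q r x ψ) {u : ℂ} (hu : u ∈ ball q r) : (gg a b)^[n] (ψ u) = u :=
  (mem_pre.1 (b_pre h hq hψ hu)).2

theorem b_der (h : Geo d a b J δ0) {n : ℕ} {q x : ℂ} {r : ℝ} {ψ : ℂ → ℂ} (hq : ball q r ⊆ NJ J δ0)
    (hψ : Br (rat a b) n q r x ψ) {u : ℂ} (hu : u ∈ ball q r) : deriv ψ u * tD a b n (ψ u) = 1 := by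
  have h4 : HasDerivAt ψ (deriv ψ u) u := (hψ.diff.differentiableAt (isOpen_ball.mem_nhds hu)).hasDerivAt
  have h5 : HasDerivAt ((gg a b)^[n] ∘ ψ) (tD a b n (ψ u) * deriv ψ u) u :=
    (g_diff (b_pre h hq hψ hu)).comp u h4
  have h6 : (gg a b)^[n] ∘ ψ =ᶠ[𝓝 u] id := by
    filter_upwards [isOpen_ball.mem_nhds hu] with v hv
    exact b_gg h hq hψ hv
  have h7 : HasDerivAt ((gg a b)^[n] ∘ ψ) 1 u := (hasDerivAt_id u).congr_of_eventuallyEq h6
  rw [mul_comm]
  exact h5.unique h7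

/-- a branch of `g^(-n)` followed by `g^k` -/
theorem b_cmp (h : Geo d a b J δ0) {n k : ℕ} (hk : k ≤ n) {q x : ℂ} {r : ℝ} {ψ : ℂ → ℂ} (hr : 0 < r) (hq : ball q r ⊆ NJ J δ0)
    (hψ : Br (rat a b) n q r x ψ) : Br (rat a b) (n - k) q r ((gg a b)^[k] x) ((gg a b)^[k] ∘ ψ) := by
  have hb := fun u hu => (mem_pre.1 (b_pre h hq hψ (u := u) hu)).1
  refine ⟨fun u hu => ?_, ?_, fun u hu => ?_⟩
  · have h4 : DifferentiableAt ℂ ψ u := hψ.diff.differentiableAt (isOpen_ball.mem_nhds hu)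
    have h5 : HasDerivAt (gg a b)^[k] (tD a b k (ψ u)) (ψ u) :=
      (bra_it (fun i hi => hb u hu i (by omega))).hasDerivAt
    exact (h5.differentiableAt.comp u h4).differentiableWithinAt
  · exact congrArg _ hψ.val
  · change (rat a b)^[n - k] (((gg a b)^[k] (ψ u) : ℂ) : OnePoint ℂ) = (u : OnePoint ℂ)
    rw [← rat_it (fun i hi => hb u hu i hi) k hk, ← Function.iterate_add_apply, Nat.sub_add_cancel hk]
    exact hψ.inv u hu

private theorem loc_inj {n : ℕ} {z : ℂ} {S : Set ℂ} (hz : z ∈ (pre a b)^[n] S) (h0 : tD a b n z ≠ 0) :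
    ∃ V ∈ 𝓝 z, InjOn (gg a b)^[n] V := by
  have h1 : HasStrictDerivAt (gg a b)^[n] (tD a b n z) z := bra_it (mem_pre.1 hz).1
  have h2 := h1.hasStrictFDerivAt_equiv h0
  have h3 := h2.eventually_left_inverse
  refine ⟨{x | h2.localInverse _ _ _ ((gg a b)^[n] x) = x}, h3, ?_⟩
  intro x hx y hy hxy
  have hx' : h2.localInverse _ _ _ ((gg a b)^[n] x) = x := hx
  have hy' : h2.localInverse _ _ _ ((gg a b)^[n] y) = y := hy
  rw [← hx', ← hy', hxy]

/-- two branches which agree at a point of a connected set agree on it -/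
theorem b_uni (h : Geo d a b J δ0) {n : ℕ} {q q' x x' : ℂ} {r r' : ℝ} {ψ ψ' : ℂ → ℂ} (hq : ball q r ⊆ NJ J δ0)
    (hq' : ball q' r' ⊆ NJ J δ0) (hψ : Br (rat a b) n q r x ψ) (hψ' : Br (rat a b) n q' r' x' ψ') {S : Set ℂ}
    (hS : IsPreconnected S) (h1 : S ⊆ ball q r) (h2 : S ⊆ ball q' r') {u : ℂ} (hu : u ∈ S) (he : ψ u = ψ' u) : EqOn ψ ψ' S := by
  have hc1 : ContinuousAt ψ u := (hψ.diff.differentiableAt (isOpen_ball.mem_nhds (h1 hu))).continuousAt
  have hc2 : ContinuousAt ψ' u := (hψ'.diff.differentiableAt (isOpen_ball.mem_nhds (h2 hu))).continuousAt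
  have h0 : tD a b n (ψ u) ≠ 0 := right_ne_zero_of_mul_eq_one (b_der h hq hψ (h1 hu))
  obtain ⟨V, hV, hinj⟩ := loc_inj (b_pre h hq hψ (h1 hu)) h0
  have hev : ψ =ᶠ[𝓝 u] ψ' := by
    have e1 : ∀ᶠ v in 𝓝 u, ψ v ∈ V := hc1.eventually_mem hV
    have e2 : ∀ᶠ v in 𝓝 u, ψ' v ∈ V := hc2.eventually_mem (he ▸ hV)
    filter_upwards [e1, e2, isOpen_ball.mem_nhds (h1 hu), isOpen_ball.mem_nhds (h2 hu)] with v hv1 hv2 hv3 hv4
    apply hinj hv1 hv2
    rw [b_gg h hq hψ hv3, b_gg h hq' hψ' hv4]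
  have ha1 : AnalyticOnNhd ℂ ψ (ball q r ∩ ball q' r') :=
    (hψ.diff.mono inter_subset_left).analyticOnNhd (isOpen_ball.inter isOpen_ball)
  have ha2 : AnalyticOnNhd ℂ ψ' (ball q r ∩ ball q' r') :=
    (hψ'.diff.mono inter_subset_right).analyticOnNhd (isOpen_ball.inter isOpen_ball)
  have heq := ha1.eqOn_of_preconnected_of_eventuallyEq ha2
    ((convex_ball q r).inter (convex_ball q' r')).isPreconnected ⟨h1 hu, h2 hu⟩ hev
  exact fun v hv => heq ⟨h1 hv, h2 hv⟩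

/-- the branch `ψ` inverts `g^n` on every connected set in `pre^n (ball q r)` which meets its image -/
theorem b_clp (h : Geo d a b J δ0) {n : ℕ} {q x : ℂ} {r : ℝ} {ψ : ℂ → ℂ} (hq : ball q r ⊆ NJ J δ0)
    (hψ : Br (rat a b) n q r x ψ) {S : Set ℂ} (hS : IsPreconnected S) (h1 : ∀ z ∈ S, z ∈ (pre a b)^[n] (ball q r))
    {z0 : ℂ} (hz0 : z0 ∈ S) (he : ψ ((gg a b)^[n] z0) = z0) : ∀ z ∈ S, ψ ((gg a b)^[n] z) = z := by
  set O : Set ℂ := (pre a b)^[n] (ball q r) with hO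
  have hOo : IsOpen O := pre_open isOpen_ball
  have hfc : ContinuousOn (fun z => ψ ((gg a b)^[n] z)) O := by
    refine hψ.diff.continuousOn.comp (fun z hz => ?_) (fun z hz => (mem_pre.1 hz).2)
    exact (g_diff hz).continuousAt.continuousWithinAt
  have hU : IsOpen {z | z ∈ O ∧ ψ ((gg a b)^[n] z) = z} := by
    rw [isOpen_iff_mem_nhds]
    rintro z ⟨hz, he⟩
    have hm := (mem_pre.1 hz).2
    have h0 : tD a b n z ≠ 0 := by
      have h1 := right_ne_zero_of_mul_eq_one (b_der h hq hψ hm)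
      rwa [he] at h1
    obtain ⟨V, hV, hinj⟩ := loc_inj hz h0
    have hcat := hfc.continuousAt (hOo.mem_nhds hz)
    have e2 : ∀ᶠ v in 𝓝 z, ψ ((gg a b)^[n] v) ∈ V := by
      refine hcat.eventually_mem ?_
      show V ∈ 𝓝 (ψ ((gg a b)^[n] z))
      rw [he]
      exact hV
    filter_upwards [hV, e2, hOo.mem_nhds hz] with v hv1 hv2 hv3
    exact ⟨hv3, hinj hv2 hv1 (b_gg h hq hψ (mem_pre.1 hv3).2)⟩
  have hW : IsOpen {z | z ∈ O ∧ ψ ((gg a b)^[n] z) ≠ z} := by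
    have h2 := (hfc.sub continuousOn_id).isOpen_inter_preimage hOo (isOpen_compl_singleton (x := (0 : ℂ)))
    convert h2 using 1
    ext z
    simp [sub_eq_zero]
  have hsub := IsPreconnected.subset_left_of_subset_union hU hW
    (Set.disjoint_left.2 fun z hz hz' => hz'.2 hz.2)
    (fun z hz => by
      by_cases hc : ψ ((gg a b)^[n] z) = z
      · exact Or.inl ⟨h1 z hz, hc⟩
      · exact Or.inr ⟨h1 z hz, hc⟩) ⟨z0, hz0, h1 z0 hz0, he⟩ hS
  exact fun z hz => (hsub hz).2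

/-- a connected set which meets `ball q s` and not the ring `s ≤ |x - q| < r` -/
theorem in_ball {S : Set ℂ} (hS : IsPreconnected S) {q : ℂ} {s r : ℝ} (hsr : s < r) (h1 : ∀ x ∈ S, x ∈ ball q r → x ∈ ball q s)
    {x0 : ℂ} (hx0 : x0 ∈ S) (h0 : x0 ∈ ball q s) : S ⊆ ball q s := by
  refine IsPreconnected.subset_left_of_subset_union isOpen_ball (isClosed_closedBall (x := q) (ε := s)).isOpen_compl
    (Set.disjoint_left.2 fun z hz hz' => hz' (ball_subset_closedBall hz)) (fun x hx => ?_) ⟨x0, hx0, h0⟩ hS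
  by_cases hc : x ∈ ball q r
  · exact Or.inl (h1 x hx hc)
  · refine Or.inr fun h2 => hc ?_
    rw [mem_closedBall] at h2
    rw [mem_ball]
    exact lt_of_le_of_lt h2 hsr

/-- no critical point on the orbit of a value of a branch -/
theorem b_nc (h : Geo d a b J δ0) {n : ℕ} {q x : ℂ} {r : ℝ} {ψ : ℂ → ℂ} (hq : ball q r ⊆ NJ J δ0)
    (hψ : Br (rat a b) n q r x ψ) {u : ℂ} (hu : u ∈ ball q r) {i : ℕ} (hi : i < n) : (ww a b).eval ((gg a b)^[i] (ψ u)) ≠ 0 := by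
  have h0 : tD a b n (ψ u) ≠ 0 := right_ne_zero_of_mul_eq_one (b_der h hq hψ hu)
  unfold tD at h0
  have h1 := Finset.prod_ne_zero_iff.1 h0 i (Finset.mem_range.2 hi)
  intro h2
  apply h1
  unfold Pool.Agent.H61.TT.dg
  rw [h2, zero_div]

theorem p_inv (h : Geo d a b J δ0) {x : ℂ} (hx : x ∈ PJ a b J) {n : ℕ} (hn : x ∈ (pre a b)^[n] univ) : (gg a b)^[n] x ∈ PJ a b J := by
  have hO : IsOpen ((pre a b)^[n] univ) := pre_open isOpen_univ
  have h1 := hO.inter_closure ⟨hn, hx⟩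
  refine (g_diff hn).continuousAt.continuousWithinAt.mem_closure h1 ?_
  rintro y ⟨hy, c, hc, hcr, m, hm, hcm, rfl⟩
  refine ⟨c, hc, hcr, m + n, by omega, ?_, ?_⟩
  · exact pre_add.2 ⟨hcm, hy⟩
  · rw [add_comm m n, Function.iterate_add_apply]

theorem p_cr {c : ℂ} (hc : c ∈ J) (hcr : Cr a b c) {n : ℕ} (hn : 0 < n) (hp : c ∈ (pre a b)^[n] univ) : (gg a b)^[n] c ∈ PJ a b J :=
  subset_closure ⟨c, hc, hcr, n, hn, hp, rfl⟩

/-- a planar point where `rat a b` is critical -/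
theorem crit_iff (h : Geo d a b J δ0) {c : ℂ} (hb : b.eval c ≠ 0) : IsCrit (rat a b) (c : OnePoint ℂ) ↔ (ww a b).eval c = 0 := by
  constructor
  · intro hc
    exact Pool.Agent.H44.Fatou.crit_coe hc
  · intro hc
    exact Pool.Agent.H32.BT.crit_of_wr h.rt.cop (by rw [h.rt.deg]; have := h.rt.hd; omega) hc

theorem cr_fin (h : Geo d a b J δ0) : {c : ℂ | Cr a b c}.Finite := by
  have h1 := Pool.Agent.H32.BT.crit_finite h.rt.cop (by rw [h.rt.deg]; have := h.rt.hd; omega)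
  have h2 := h1.preimage (f := ((↑) : ℂ → OnePoint ℂ)) OnePoint.coe_injective.injOn
  exact h2.subset fun c hc => (crit_iff h hc.1).2 hc.2

end Pool.Agent.H18.UP
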