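import Pool.Agent.H18.UP.BAS

/-!
# THEOREM UP: definitions for the geometric part

`Scl`: connected sets `S` in `pre^m (ball c0 (2 t0))` whose orbits do not come close to `c0` before the time `m` are small: `S ⊆ T ⊆ pre^m (ball c0 r0)`, `T` is much larger than `S`, and `c0 ∉ T` except for `S` near `c0`.
`WD V m`: the first return domains of `V` with the return time `m`. `Ce1`: the central domain and its fold.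
-/

set_option autoImplicit false

open Filter Topology Polynomial Metric Set MeasureTheory

namespace Pool.Agent.H18.UP

open Pool.Agent.H44.Fatou (rat rat_continuous)
open Pool.Agent.H80.AJ (Br KK one_le_KK KK_pos distort distort_lip deriv_ne univ_cover)
open Pool.Agent.H32.BT (IsCrit)
open Pool.Agent.H61.TT Pool.Agent.H57.CP Pool.Agent.H3.NC

variable {d : ℕ} {a b : Polynomial ℂ} {J : Set ℂ} {δ0 : ℝ}

def Scl (a b : Polynomial ℂ) (c0 : ℂ) (e0 t0 r0 L : ℝ) : Prop := ∀ (m : ℕ) (z : ℂ) (S : Set ℂ), 0 < m → IsPreconnected S → z ∈ S →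
  S ⊆ (pre a b)^[m] (ball c0 (2 * t0)) → (∀ j, 0 < j → j < m → t0 ≤ ‖(gg a b)^[j] z - c0‖) →
  ∃ T : Set ℂ, IsPreconnected T ∧ S ⊆ T ∧ T ⊆ (pre a b)^[m] (ball c0 r0) ∧
    (∀ x ∈ S, ∀ x' ∈ S, ball x (L * ‖x - x'‖) ⊆ T) ∧ (c0 ∈ T → ∀ x ∈ S, ‖x - c0‖ ^ 2 ≤ 256 * e0 * r0)

/-- all pull backs of the root `(c0; e0, t0, r0)` have the data of `Chn` -/
def Chs (a b : Polynomial ℂ) (J : Set ℂ) (c0 : ℂ) (e0 t0 r0 M L K C1 δ : ℝ) : Prop := ∀ (m : ℕ) (z : ℂ), 0 < m →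
  z ∈ (pre a b)^[m] (ball c0 (2 * t0)) → (∀ j, 0 < j → j < m → t0 ≤ ‖(gg a b)^[j] z - c0‖) →
  Chn a b J c0 e0 t0 r0 M L K C1 δ m z

def WD (a b : Polynomial ℂ) (V : Set ℂ) (m : ℕ) : Set (Set ℂ) := {W | ∃ z ∈ V, 0 < m ∧ z ∈ (pre a b)^[m] V ∧
  (∀ j, 0 < j → j < m → (gg a b)^[j] z ∉ V) ∧ W = connectedComponentIn ((pre a b)^[m] V) z}

/-- the nice set -/
structure Nic (a b : Polynomial ℂ) (c0 : ℂ) (ρ ρ1 : ℝ) (V : Set ℂ) : Prop where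
  hρ : 0 < ρ
  op : IsOpen V
  con : IsPreconnected V
  inn : ball c0 ρ ⊆ V
  out : V ⊆ ball c0 (2 * ρ)
  nic : ∀ n : ℕ, 0 < n → ∀ S : Set ℂ, IsPreconnected S → S ⊆ (pre a b)^[n] (ball c0 ρ1) → (S ∩ V).Nonempty → S ⊆ V

/-- the central domain and its fold -/
structure Ce1 (a b : Polynomial ℂ) (J : Set ℂ) (c0 : ℂ) (e0 ρ ρ1 M L K C1 δ : ℝ) (V C0 : Set ℂ) (m0 k2 : ℕ) (q2 : ℂ)
    (t1 s1 e2 t2 s2 r2 : ℝ) : Prop where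
  m0p : 0 < m0
  C0W : C0 ∈ WD a b V m0
  cC : c0 ∈ C0
  t1p : 0 < t1
  inn : ball c0 t1 ⊆ C0
  out : C0 ⊆ ball c0 s1
  st1 : s1 ≤ K * t1
  s1q : (L * s1) ^ 2 ≤ 256 * e0 * ρ1
  k2p : 0 < k2
  k2m : k2 ≤ m0
  q2J : q2 ∈ J
  q2c : Cr a b q2
  fr : Fr a b c0 e0 ρ ρ1 (m0 - k2) q2 e2 t2 s2 r2
  vq : ‖(gg a b)^[k2] c0 - q2‖ ≤ e2
  te2 : M * e2 ≤ t2
  st2 : s2 ≤ K * t2
  rs2 : L * s2 ≤ r2
  r2δ : r2 ≤ δ
  B0 : tD a b (k2 - 1) (gg a b c0) ≠ 0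
  B : ‖tD a b (k2 - 1) (gg a b c0)‖⁻¹ * t2 ≤ C1 * t1 ^ 2
  nq : k2 < m0 → q2 ∉ V
  eq : k2 = m0 → q2 = c0 ∧ t2 = ρ
  im : ∀ u ∈ C0, (gg a b)^[k2] u ∈ ball q2 s2

end Pool.Agent.H18.UP
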