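import Pool.Agent.H18.UP.LOC

/-!
# THEOREM UP: the frame at a fold

The frame `(q; e, t, s, r)` (for `g^i`) is pulled back by the branch `γ` of `g^(-n)` and by `g` near the critical point `c`, `γ y = g c`, `y ∈ closedBall q e`; `β = ‖γ' y‖`.
PROOF. `A0, δ0'` from `loc`; `A` large (`A ≥ 256 KK A0`), `δ1` small (`√δ1 ≤ δ0'`, so that `√(β r / A) ≤ δ0'`). `β > 0` by `deriv_ne` (`y ∈ closedBall q (r / 2)`). All four new radii are `≤ √(β r / A) ≤ δ0'` (`A ^ 2 e ≤ t ≤ s`, `A ^ 2 s ≤ r`).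
(1) COVER: for `τ ≤ r / 2` (`τ > 0`) `univ_cover` on `ball y τ ⊆ ball q r` gives `ball (γ y) (τ β / 16) ⊆ γ '' ball y τ`. So for `z` with `A0 ‖z - c‖ ^ 2 < τ β / 16`, `‖z - c‖ < δ0'`, there is `z' ∈ ball y τ` with `γ z' = gg z`.
`map`: `τ = r / 2`, `z ∈ ball c √(β r / A)`: `A0 β r / A < β r / 32`; `z' ∈ ball q r`; `b z ≠ 0` (`loc`), `gg z = γ z' ∈ pre^n {z'}` (`b_pre`), `z' ∈ pre^i (ball c0 r0)` (`Fr.map`): so `z ∈ pre^(i + n + 1) (ball c0 r0)` and `gg^[i+n+1] z = gg^[i] z'`.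
`inn`: `τ = t / 2`: `z' ∈ ball y (t / 2) ⊆ ball q t` (`e ≤ t / 2`), then `Fr.inn`. `lift`, `lit`: the same `z'`.
`out`: `z` in the `r`-ball, `z'` as in `map`; `gg^[i] z' ∈ ball c0 (2 t0)`, so `z' ∈ ball q s`; `‖z - c‖ ^ 2 ≤ A0 ‖γ z' - γ y‖ ≤ A0 KK β ‖z' - y‖ < A0 KK β 2 s ≤ A β s` (`distort_lip`, `s ≤ r / 2`). The same computation for the last claim. `eps`: the same with `closedBall q e`.
`cen`: `gg^[i+n+1] c = gg^[i] y ∈ ball c0 r0`, and it is in `PJ` (`p_cr`), so in `closedBall c0 e0`. `he, et, ts, sr`: `Real.sqrt_le_sqrt` with `A ^ 2 e ≤ t`, `t ≤ s`, `A ^ 2 s ≤ r`.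
-/

set_option autoImplicit false

open Filter Topology Polynomial Metric Set MeasureTheory

namespace Pool.Agent.H18.UP

open Pool.Agent.H44.Fatou (rat rat_continuous)
open Pool.Agent.H80.AJ (Br KK one_le_KK KK_pos distort distort_lip deriv_ne univ_cover)
open Pool.Agent.H32.BT (IsCrit)
open Pool.Agent.H61.TT Pool.Agent.H57.CP Pool.Agent.H3.NC

variable {d : ℕ} {a b : Polynomial ℂ} {J : Set ℂ} {δ0 : ℝ}

private theorem lt_sqrt_of {x X : ℝ} (hx : 0 ≤ x) : x < √X ↔ x ^ 2 < X := Real.lt_sqrt hx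

private theorem pre_one (a b : Polynomial ℂ) (z : ℂ) : z ∈ (pre a b)^[1] univ ↔ b.eval z ≠ 0 := by
  rw [Function.iterate_one]
  unfold pre
  simp

/-- the orbit of `z` when `gg z = γ z'` -/
private theorem frm_orb (h : Geo d a b J δ0) {i n : ℕ} {q : ℂ} {r : ℝ} {γ : ℂ → ℂ} (hq : ball q r ⊆ NJ J δ0)
    (hγ : Br (rat a b) n q r (γ q) γ) {z z' : ℂ} (hb : b.eval z ≠ 0) (hz' : z' ∈ ball q r) (he : γ z' = gg a b z) :
    (∀ S : Set ℂ, z' ∈ (pre a b)^[i] S → z ∈ (pre a b)^[i + n + 1] S) ∧ (gg a b)^[i + n + 1] z = (gg a b)^[i] z' := by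
  have h1 := b_pre h hq hγ hz'
  have h2 := b_gg h hq hγ hz'
  rw [he] at h1 h2
  constructor
  · intro S hS
    have e1 : i + n + 1 = 1 + (n + i) := by ring
    rw [e1, pre_add]
    refine ⟨(pre_one a b z).2 hb, ?_⟩
    rw [Function.iterate_one, pre_add]
    refine ⟨pre_mono (subset_univ _) h1, ?_⟩
    rw [h2]
    exact hS
  · rw [Function.iterate_succ_apply, Function.iterate_add_apply, h2]

theorem frm (h : Geo d a b J δ0) : ∃ A δ1 : ℝ, 2 ≤ A ∧ 0 < δ1 ∧ ∀ (c0 : ℂ) (e0 t0 r0 : ℝ) (i n : ℕ) (q c y : ℂ) (e t s r : ℝ) (γ : ℂ → ℂ),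
    PJ a b J ∩ ball c0 r0 ⊆ closedBall c0 e0 → Fr a b c0 e0 t0 r0 i q e t s r → ball q r ⊆ NJ J δ0 →
    A ^ 2 * e ≤ t → A ^ 2 * s ≤ r → Br (rat a b) n q r (γ q) γ → c ∈ J → Cr a b c → y ∈ closedBall q e → γ y = gg a b c →
    r * ‖deriv γ y‖ ≤ δ1 → 0 < ‖deriv γ y‖ ∧
    Fr a b c0 e0 t0 r0 (i + n + 1) c (√(A * ‖deriv γ y‖ * e)) (√(‖deriv γ y‖ * t / A)) (√(A * ‖deriv γ y‖ * s)) (√(‖deriv γ y‖ * r / A)) ∧
    (∀ x ∈ ball c (√(‖deriv γ y‖ * r / A)), ∃ x' ∈ ball q r, γ x' = gg a b x) ∧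
    (∀ x ∈ ball c (√(‖deriv γ y‖ * t / A)), ∃ x' ∈ ball q t, γ x' = gg a b x) ∧
    (∀ z x : ℂ, x ∈ ball q s → ‖z - c‖ ≤ δ1 → gg a b z = γ x → z ∈ ball c (√(A * ‖deriv γ y‖ * s))) := by
  obtain ⟨A0, δ', hA0, hδ'0, hδ'1, hloc⟩ := loc h
  have hK1 := one_le_KK
  have hK0 := KK_pos
  obtain ⟨A, hA⟩ : ∃ A : ℝ, A = 256 * KK * A0 := ⟨_, rfl⟩
  have hKA : 1 ≤ KK * A0 := one_le_mul_of_one_le_of_one_le hK1 hA0
  have hA256 : 256 ≤ A := by
    rw [hA, mul_assoc]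
    linarith
  have hA0A : 256 * A0 ≤ A := by
    rw [hA]
    nlinarith
  have hApos : 0 < A := by linarith
  have hA2 : 4 ≤ A ^ 2 := by nlinarith
  refine ⟨A, δ' ^ 2 / 2, by linarith, by positivity, ?_⟩
  intro c0 e0 t0 r0 i n q c y e t s r γ hPJ hFr hNJ hte hsr hγ hc hcr hy hyv hβδ
  obtain ⟨β, hβ⟩ : ∃ β : ℝ, β = ‖deriv γ y‖ := ⟨_, rfl⟩
  rw [← hβ] at hβδ ⊢
  obtain ⟨hl1, _, _⟩ := hloc c hc hcr
  have he := hFr.he
  have het := hFr.et
  have hts := hFr.ts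
  have hsr' := hFr.sr
  have hs0 : 0 < s := by linarith
  have ht0 : 0 < t := by linarith
  have hr0 : 0 < r := by linarith
  have hs4 : 4 * s ≤ r := by nlinarith
  have he4 : 4 * e ≤ t := by nlinarith
  have hyq : ‖y - q‖ ≤ e := by
    rw [mem_closedBall, dist_eq_norm] at hy
    exact hy
  have hinj : InjOn γ (ball q r) := by
    intro u hu u' hu' h12
    have h1 := hγ.inv u hu
    have h2 := hγ.inv u' hu'
    rw [h12, h2] at h1
    exact (OnePoint.coe_injective h1).symm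
  have hy2 : y ∈ closedBall q (r / 2) := by
    rw [mem_closedBall, dist_eq_norm]
    linarith
  have hyr : y ∈ ball q r := by
    rw [mem_ball, dist_eq_norm]
    linarith
  have hβ0 : 0 < β := by
    rw [hβ]
    exact deriv_ne hr0 hγ.diff hinj hy2
  -- covering
  have cov : ∀ τ : ℝ, 0 < τ → τ ≤ r / 2 → ∀ z : ℂ, ‖z - c‖ ^ 2 < τ * β / (8 * A0 * 4) → ‖z - c‖ < δ' →
      b.eval z ≠ 0 ∧ ∃ z' ∈ ball q r, ‖z' - y‖ < τ ∧ γ z' = gg a b z := by
    intro τ hτ hτr z hz hzδ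
    obtain ⟨h1, _, h3⟩ := hl1 z (by rw [mem_ball, dist_eq_norm]; exact hzδ)
    refine ⟨h1, ?_⟩
    have hsub : ball y τ ⊆ ball q r := by
      apply ball_subset_ball'
      rw [dist_eq_norm]
      linarith
    have hcv := univ_cover hτ (hγ.diff.mono hsub) (hinj.mono hsub)
    rw [← hβ, hyv] at hcv
    have h4 : gg a b z ∈ ball (gg a b c) (τ * β / 16) := by
      rw [mem_ball, dist_eq_norm]
      refine h3.trans_lt ?_
      rw [lt_div_iff₀ (by positivity)] at hz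
      have h5 : 0 < τ * β := by positivity
      nlinarith
    obtain ⟨z', hz', hz'e⟩ := hcv h4
    refine ⟨z', hsub hz', ?_, hz'e⟩
    rw [mem_ball, dist_eq_norm] at hz'
    exact hz'
  have hrδ : √(β * r / A) ≤ δ' := by
    rw [Real.sqrt_le_left hδ'0.le, div_le_iff₀ hApos]
    have h1 : β * r ≤ δ' ^ 2 / 2 := by linarith [mul_comm r β]
    have h2 : 0 < δ' ^ 2 := by positivity
    nlinarith
  have hcmp : ∀ τ : ℝ, 0 < τ → β * τ / A ≤ (τ / 2) * β / (8 * A0 * 4) := by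
    intro τ hτ
    rw [div_le_div_iff₀ hApos (by positivity)]
    have h5 : 0 < τ * β := by positivity
    nlinarith
  have hrad : ∀ z ∈ ball c (√(β * r / A)), b.eval z ≠ 0 ∧ ∃ z' ∈ ball q r, γ z' = gg a b z := by
    intro z hz
    rw [mem_ball, dist_eq_norm] at hz
    obtain ⟨h1, z', h2, _, h3⟩ := cov (r / 2) (by linarith) le_rfl z
      (((lt_sqrt_of (norm_nonneg _)).1 hz).trans_le (hcmp r hr0)) (hz.trans_le hrδ)
    exact ⟨h1, z', h2, h3⟩
  have htr : √(β * t / A) ≤ √(β * r / A) := by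
    apply Real.sqrt_le_sqrt
    apply div_le_div_of_nonneg_right _ hApos.le
    apply mul_le_mul_of_nonneg_left _ hβ0.le
    linarith
  have hrat : ∀ z ∈ ball c (√(β * t / A)), b.eval z ≠ 0 ∧ ∃ z' ∈ ball q r, z' ∈ ball q t ∧ γ z' = gg a b z := by
    intro z hz
    rw [mem_ball, dist_eq_norm] at hz
    obtain ⟨h1, z', h2, h4, h3⟩ := cov (t / 2) (by linarith) (by linarith) z
      (((lt_sqrt_of (norm_nonneg _)).1 hz).trans_le (hcmp t ht0)) ((hz.trans_le htr).trans_le hrδ)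
    refine ⟨h1, z', h2, ?_, h3⟩
    rw [mem_ball, dist_eq_norm]
    have h5 : z' - q = (z' - y) + (y - q) := by ring
    rw [h5]
    refine (norm_add_le _ _).trans_lt ?_
    linarith
  -- distortion
  have dis : ∀ z x : ℂ, x ∈ closedBall q s → ‖z - c‖ < δ' → gg a b z = γ x → ‖z - c‖ ^ 2 ≤ A0 * (KK * β * ‖x - y‖) := by
    intro z x hx hz hzx
    obtain ⟨_, h2, _⟩ := hl1 z (by rw [mem_ball, dist_eq_norm]; exact hz)
    refine h2.trans (mul_le_mul_of_nonneg_left ?_ (by linarith))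
    rw [hzx, ← hyv, hβ]
    have hx2 : x ∈ closedBall q (r / 2) := closedBall_subset_closedBall (by linarith) hx
    exact distort_lip hr0 hγ.diff hinj hx2 hy2 hy2
  have hfin : ∀ ρ : ℝ, 0 < ρ → A0 * (KK * β * (2 * ρ)) ≤ A * β * ρ := by
    intro ρ hρ
    rw [hA]
    have h1 : 0 < KK * A0 * β * ρ := by positivity
    nlinarith
  have hds : ∀ z x : ℂ, x ∈ ball q s → ‖z - c‖ < δ' → gg a b z = γ x → z ∈ ball c (√(A * β * s)) := by
    intro z x hx hz hzx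
    rw [mem_ball, dist_eq_norm, lt_sqrt_of (norm_nonneg _)]
    refine (dis z x (ball_subset_closedBall hx) hz hzx).trans_lt (lt_of_lt_of_le ?_ (hfin s hs0))
    have h1 : ‖x - y‖ < 2 * s := by
      rw [mem_ball, dist_eq_norm] at hx
      have h2 : x - y = (x - q) - (y - q) := by ring
      rw [h2]
      refine (norm_sub_le _ _).trans_lt ?_
      linarith
    have h2 : 0 < A0 := by linarith
    apply mul_lt_mul_of_pos_left _ h2
    apply mul_lt_mul_of_pos_left h1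
    positivity
  have hcc : c ∈ ball c (√(β * r / A)) := mem_ball_self (Real.sqrt_pos.2 (by positivity))
  refine ⟨hβ0, ⟨?_, ?_, ?_, ?_, ?_, ?_, ?_, ?_, ?_⟩, ?_, ?_, ?_⟩
  · exact Real.sqrt_pos.2 (by positivity)
  · apply Real.sqrt_le_sqrt
    rw [le_div_iff₀ hApos]
    nlinarith
  · apply Real.sqrt_le_sqrt
    rw [div_le_iff₀ hApos]
    have h1 : β * t ≤ β * s := mul_le_mul_of_nonneg_left hts hβ0.le
    have h2 : 0 < β * s := by positivity
    nlinarith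
  · apply Real.sqrt_le_sqrt
    rw [le_div_iff₀ hApos]
    nlinarith
  · intro z hz
    obtain ⟨h1, z', h2, h3⟩ := hrad z hz
    exact (frm_orb (i := i) h hNJ hγ h1 h2 h3).1 _ (hFr.map z' h2)
  · intro z hz
    obtain ⟨h1, z', h2, h4, h3⟩ := hrat z hz
    rw [(frm_orb (i := i) h hNJ hγ h1 h2 h3).2]
    exact hFr.inn z' h4
  · intro z hz hz2
    obtain ⟨h1, z', h2, h3⟩ := hrad z hz
    rw [(frm_orb (i := i) h hNJ hγ h1 h2 h3).2] at hz2
    rw [mem_ball, dist_eq_norm] at hz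
    exact hds z z' (hFr.out z' h2 hz2) (hz.trans_le hrδ) h3.symm
  · intro z hz hz2
    obtain ⟨h1, z', h2, h3⟩ := hrad z hz
    rw [(frm_orb (i := i) h hNJ hγ h1 h2 h3).2] at hz2
    have h4 := hFr.eps z' h2 hz2
    rw [mem_ball, dist_eq_norm] at hz
    have h5 := dis z z' (closedBall_subset_closedBall (by linarith) h4) (hz.trans_le hrδ) h3.symm
    have h6 : ‖z' - y‖ ≤ 2 * e := by
      rw [mem_closedBall, dist_eq_norm] at h4
      have h7 : z' - y = (z' - q) - (y - q) := by ring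
      rw [h7]
      refine (norm_sub_le _ _).trans ?_
      linarith
    have h8 : A0 * (KK * β * ‖z' - y‖) ≤ A0 * (KK * β * (2 * e)) := by
      apply mul_le_mul_of_nonneg_left _ (by linarith)
      apply mul_le_mul_of_nonneg_left h6
      positivity
    rw [mem_closedBall, dist_eq_norm]
    exact Real.le_sqrt_of_sq_le (h5.trans (h8.trans (hfin e he)))
  · have h1 : b.eval c ≠ 0 := hcr.1
    obtain ⟨h2, h3⟩ := frm_orb (i := i) h hNJ hγ h1 hyr hyv
    have h4 := hFr.map y hyr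
    have h5 : (gg a b)^[i] y ∈ ball c0 r0 := by
      have h6 := (pre_add (n := i) (m := 0) (z := y) (S := ball c0 r0) (a := a) (b := b)).1 h4
      exact h6.2
    have h7 := p_cr (a := a) (b := b) hc hcr (n := i + n + 1) (by omega) (pre_mono (subset_univ _) (h2 _ h4))
    rw [h3] at h7 ⊢
    exact hPJ ⟨h7, h5⟩
  · intro x hx
    obtain ⟨_, z', h2, h3⟩ := hrad x hx
    exact ⟨z', h2, h3⟩
  · intro x hx
    obtain ⟨_, z', _, h4, h3⟩ := hrat x hx
    exact ⟨z', h4, h3⟩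
  · intro z x hx hz hzx
    refine hds z x hx (hz.trans_lt ?_) hzx
    nlinarith

end Pool.Agent.H18.UP
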