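import Pool.Agent.H18.UP.TRP

/-!
# THEOREM UP: a critical point is not met twice

PROOF. `F = gg^[N]` maps `ball c r'` into `ball c r`, `F' c = tD a b N c = 0` (`c` critical, `N > 0`), `‖F c - c‖ ≤ e`. Let `H z = F z - F c`: `‖H‖ ≤ 2 r` on `ball c r'`, `H c = 0`, `H' c = 0`. Schwarz twice (Mathlib: `Complex.dist_le_div_mul_dist_of_mapsTo_ball`, `dslope`; or the library: a Schwarz lemma with a double zero): `‖H z‖ ≤ 2 r ‖z - c‖ ^ 2 / r' ^ 2` (constant `4 r` is also fine).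
For `‖z - c‖ ≤ 4 e < r'`: `‖F z - c‖ ≤ e + 32 r e ^ 2 / r' ^ 2 ≤ 2 e` (`32 e r ≤ r' ^ 2`). So `F (closedBall c (4 e)) ⊆ closedBall c (2 e)`: `trp` with `u = 4 e`, `u' = 2 e`.
-/

set_option autoImplicit false

open Filter Topology Polynomial Metric Set MeasureTheory

namespace Pool.Agent.H18.UP

open Pool.Agent.H44.Fatou (rat rat_continuous)
open Pool.Agent.H80.AJ (Br KK one_le_KK KK_pos distort distort_lip deriv_ne univ_cover)
open Pool.Agent.H32.BT (IsCrit)
open Pool.Agent.H61.TT Pool.Agent.H57.CP Pool.Agent.H3.NC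

variable {d : ℕ} {a b : Polynomial ℂ} {J : Set ℂ} {δ0 : ℝ}

private theorem pre_split {n : ℕ} {z : ℂ} {S : Set ℂ} : z ∈ (pre a b)^[n] S ↔
    z ∈ (pre a b)^[n] univ ∧ (gg a b)^[n] z ∈ S := by
  have h1 := pre_add (a := a) (b := b) (n := n) (m := 0) (z := z) (S := S)
  simpa using h1

theorem ntw (h : Geo d a b J δ0) {c : ℂ} (hc : c ∈ J) (hcr : Cr a b c) {N : ℕ} (hN : 0 < N) {e r r' : ℝ} (he : 0 < e)
    (h4 : 4 * e < r') (h32 : 64 * e * r ≤ r' ^ 2) (hm : ∀ z ∈ ball c r', z ∈ (pre a b)^[N] (ball c r))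
    (hcn : ‖(gg a b)^[N] c - c‖ ≤ e) : False := by
  have hr' : 0 < r' := by linarith
  have hcb : c ∈ ball c r' := mem_ball_self hr'
  have hF : ∀ z ∈ ball c r', (gg a b)^[N] z ∈ ball c r := fun z hz => (pre_split.1 (hm z hz)).2
  have hr : 0 < r := lt_of_le_of_lt dist_nonneg (hF c hcb)
  have hd : DifferentiableOn ℂ (gg a b)^[N] (ball c r') := fun z hz =>
    (g_diff (hm z hz)).differentiableAt.differentiableWithinAt
  have ht : tD a b N c = 0 := by
    unfold tD
    apply Finset.prod_eq_zero (Finset.mem_range.2 hN)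
    rw [Function.iterate_zero, id_eq, dg, hcr.2, zero_div]
  have hder := g_diff (hm c hcb)
  rw [ht, hasDerivAt_iff_isLittleO] at hder
  have hlo : (fun w => (gg a b)^[N] w - (gg a b)^[N] c) =o[𝓝 c] (fun w => ‖w - c‖ ^ 1) := by
    simp only [smul_zero, sub_zero] at hder
    simp only [pow_one]
    exact hder.norm_right
  have hmaps : MapsTo (gg a b)^[N] (ball c r') (closedBall ((gg a b)^[N] c) (2 * r)) := by
    intro z hz
    rw [mem_closedBall]
    have h1 : dist ((gg a b)^[N] z) c < r := hF z hz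
    have h2 : dist ((gg a b)^[N] c) c < r := hF c hcb
    have h3 := dist_triangle_right ((gg a b)^[N] z) ((gg a b)^[N] c) c
    linarith
  refine trp h hc hN (u := 4 * e) (u' := 2 * e) (by linarith) (by linarith) ?_
  intro z hz
  have hzb : z ∈ ball c r' := lt_of_le_of_lt hz h4
  rw [pre_split]
  refine ⟨(pre_split.1 (hm z hzb)).1, ?_⟩
  have h1 := Complex.dist_le_mul_div_pow_of_mapsTo_ball_of_isLittleO hd hmaps hlo hzb
  have hz' : dist z c ≤ 4 * e := hz
  have h2 : 2 * r * (dist z c / r') ^ (1 + 1) ≤ e / 2 := by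
    rw [div_pow, mul_div_assoc', div_le_iff₀ (by positivity)]
    have h3 : dist z c ^ (1 + 1) ≤ (4 * e) ^ (1 + 1) := by
      gcongr
    have h4 : 2 * r * dist z c ^ (1 + 1) ≤ 2 * r * (4 * e) ^ (1 + 1) := by
      gcongr
    have h5 : 2 * r * (4 * e) ^ (1 + 1) ≤ e / 2 * r' ^ (1 + 1) := by
      have h6 := mul_le_mul_of_nonneg_left h32 (show 0 ≤ e / 2 by linarith)
      have h7 : e / 2 * (64 * e * r) = 2 * r * (4 * e) ^ (1 + 1) := by ring
      have h8 : e / 2 * r' ^ 2 = e / 2 * r' ^ (1 + 1) := rfl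
      linarith
    exact h4.trans h5
  rw [mem_closedBall]
  have h3 : dist ((gg a b)^[N] c) c ≤ e := by
    rw [dist_eq_norm]
    exact hcn
  have h4 := dist_triangle ((gg a b)^[N] z) ((gg a b)^[N] c) c
  linarith

end Pool.Agent.H18.UP
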