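import Pool.Agent.H18.UP.STP
import Pool.Agent.H18.UP.NTW
import Pool.Agent.H18.UP.FRM
import Pool.Agent.H18.UP.DF2

/-!
# THEOREM UP: LEMMA PB, the pull back along an orbit

CONSTANTS. `A, δ1` from `frm`; `N` the number of the critical points (`cr_fin`); `K = A ^ 2`, `C1 = A`. `Mf = max M (A ^ 2) (64 K Λ) 8 ..`, `Lf = max L (A ^ 2) 8`; `ml 0 = Mf`, `ml (j + 1) = (A ml j) ^ 2`, `M0 = ml (N + 1)`; the same for `L`: `L1 = 2 ll (N + 1)` (root frame: `s = 2 t0`, so `ll (N+1) * s ≤ r0`). If `Mj e ≤ t` with `Mj = ml (j + 1)` then the new frame of `frm` has `ml j * e' ≤ t'` (`t' ^ 2 / e' ^ 2 = t / (A ^ 2 e)`), in the same way `ll j * s' ≤ r'`; `s' ≤ K t'` (`s' ^ 2 / t' ^ 2 = A ^ 2 s / t ≤ A ^ 2 K ≤ K ^ 2`), `r' ≤ Λ s'` (`Λ ≥ 1`).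
`r1`: small for `stp`, `sm2` with small `δ'` (`δ' ≤ δ1`, `√δ' ≤ min δ δ0 ..`), `r1 ≤ δ, δ0`. All outer radii are `≤ δ` and `≤ δ0`, so `ball q r ⊆ NJ` for `q ∈ J`.
STATE at the time `l ≤ m` (write `z_l = gg^[l] z`): a finite set `S` of critical points in `J`, `j = card S ≤ N`, for each `c ∈ S` a record `k_c`, `l ≤ k_c < m`, and `(e_c, t_c, s_c, r_c)` with `Fr (m - k_c) c ..`, `Mf e_c ≤ t_c`, `s_c ≤ K t_c`, `r_c ≤ Λ s_c`; a CURRENT frame `(k; q; e, t, s, r)`, `l ≤ k ≤ m`, `Fr (m - k) q ..` with the quality `ml (N + 1 - j)`, `ll (N + 1 - j)`, `K`, `Λ`, `q ∈ J` critical, `z_k ∈ ball q s`; for every `c ∈ S`: `k ≤ k_c` and `∀ x ∈ ball q r, x ∈ pre^(k_c - k) (ball c r_c)`; a branch `ψ` of `g^(-(k - l))` on `ball q r` with `ψ z_k = z_l`. If `S = ∅`: the current frame is the root: `k = m`, `q = c0`, `(e0, t0, 2 t0, r0)`. If `S ≠ ∅`: the previous frame `(k2; q2; e2, t2, s2,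 r2)`, `k < k2 ≤ m`, with `Fr`, and `γ, y` with all fields of `Fol` (`k1 = k`, `q1 = q`) except `br1` (and `M e ≤ t`), and `k2 = m → q2 = c0 ∧ t2 = t0`; `k = 0 → q = c0 → r ^ 2 ≤ 256 e0 r0`.
START `l = m`: root frame, `ψ = id`.
STEP `l + 1 → l`. `b z_l ≠ 0`, `gg z_l = z_(l+1) = ψ z_k`, `z_k ∈ ball q s ⊆ ball q (r / 4)`, `8 e ≤ r`. The collar of the current frame: `x ∈ PJ ∩ ball q r` has `gg^[m-k] x ∈ PJ ∩ ball c0 r0` (`p_inv`, `Fr.map`), so `x ∈ closedBall q e` (`Fr.eps`). `stp` with `n = k - (l + 1)`: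
(A) a branch `φ` of `g^(-(k - l))` with `φ z_k = z_l`: the same state with `φ`. (B) `c ∈ J` critical, `‖z_l - c‖ < δ'`, `y ∈ closedBall q e`, `ψ y = gg c`. `sm2`: `r ‖ψ' y‖ < δ'`. `frm` with `γ = ψ`, `n = k - l - 1`: the new frame `(l; c; e', t', s', r')`, `z_l ∈ ball c s'`.
`c ∉ S`: otherwise let `(kc; ec, tc, sc, rc)` be its record. `z_l ∉ ball c tc`: otherwise (`Fr.inn`) `z_(l + m - kc) ∈ ball c0 t0`, `0 < l + m - kc < m`: contradiction with the hypothesis. So `tc ≤ ‖z_l - c‖ < s' ≤ r'`. `ntw` with `N = kc - l`, `e = ec`, `r = rc`, `r' = r'`: `ball c r' → ball q r` (by the lift, time `k - l`) `→ ball c rc` (time `kc - k`); `64 ec rc ≤ 64 (tc / Mf) Λ K tc ≤ tc ^ 2 ≤ r' ^ 2`; `‖gg^[N] c - c‖ ≤ ec`: `gg^[m-l] c ∈ closedBall c0 e0` (`cen` of the new frame) and `Fr.eps` of the record.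
`c = c0`: if `l > 0`: `t0 ≤ ‖z_l - c0‖ < r'` by hypothesis, `ntw` with `N = m - l`, `e = e0`, `r = r0`: `64 e0 r0 ≤ 64 Λ t0 ^ 2 / M0 ≤ t0 ^ 2`: contradiction. If `l = 0`: if `256 e0 r0 < r' ^ 2` the same `ntw` (`4 e0 < r'` since `r0 ≥ e0`): contradiction; so `r' ^ 2 ≤ 256 e0 r0`.
New state: `S ∪ {c}` (card `j + 1 ≤ N`: all elements are critical points), record of `c` = the new frame, current frame = the new frame with `ψ = id` (branch of `g^0`), previous frame = the old current frame, `γ = ψ`.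
END `l = 0`: `S = ∅`: first alternative of `Chn`; `S ≠ ∅`: the second one (`k1 = k`, `z_0 = z`).
-/

set_option autoImplicit false

open Filter Topology Polynomial Metric Set MeasureTheory

namespace Pool.Agent.H18.UP

open Pool.Agent.H44.Fatou (rat rat_continuous)
open Pool.Agent.H80.AJ (Br KK one_le_KK KK_pos distort distort_lip deriv_ne univ_cover)
open Pool.Agent.H32.BT (IsCrit)
open Pool.Agent.H61.TT Pool.Agent.H57.CP Pool.Agent.H3.NC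

variable {d : ℕ} {a b : Polynomial ℂ} {J : Set ℂ} {δ0 : ℝ}

private theorem pre_sp {n : ℕ} {z : ℂ} {S : Set ℂ} : z ∈ (pre a b)^[n] S ↔
    z ∈ (pre a b)^[n] univ ∧ (gg a b)^[n] z ∈ S := by
  have h1 := pre_add (a := a) (b := b) (n := n) (m := 0) (z := z) (S := S)
  simpa using h1

private theorem pre_ne {n : ℕ} {z : ℂ} {S : Set ℂ} (hn : 0 < n) (hz : z ∈ (pre a b)^[n] S) :
    b.eval z ≠ 0 := by
  obtain ⟨k, rfl⟩ : ∃ k, n = k + 1 := ⟨n - 1, by omega⟩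
  rw [Function.iterate_succ_apply'] at hz
  exact hz.1

private theorem pre_cons {n k : ℕ} (hk : k = n + 1) {z : ℂ} {S : Set ℂ} (hb : b.eval z ≠ 0)
    (hz : gg a b z ∈ (pre a b)^[n] S) : z ∈ (pre a b)^[k] S := by
  subst hk
  rw [Function.iterate_succ_apply']
  exact ⟨hb, hz⟩

private theorem pre_trans {n k l : ℕ} (hl : l = n + k) {z x : ℂ} {S : Set ℂ} (hz : z ∈ (pre a b)^[n] {x})
    (hx : x ∈ (pre a b)^[k] S) : z ∈ (pre a b)^[l] S := by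
  subst hl
  rw [Function.iterate_add_apply]
  exact pre_mono (singleton_subset_iff.2 hx) hz

private theorem sq_le {X u v : ℝ} (hX : 0 ≤ X) (h : X ^ 2 * u ≤ v) : X * √u ≤ √v := by
  have h1 : X * √u = √(X ^ 2 * u) := by
    rw [Real.sqrt_mul (sq_nonneg X), Real.sqrt_sq hX]
  rw [h1]
  exact Real.sqrt_le_sqrt h

/-- the quality of the new frame -/
private theorem fold_qu {A β K Λ X Y e t s r : ℝ} (hA : 2 ≤ A) (hK : K = A ^ 2) (hΛ : 1 ≤ Λ)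
    (hX : 0 ≤ X) (hY : 0 ≤ Y) (hβ : 0 < β) (hs : 0 ≤ s)
    (h : Qu ((A * X) ^ 2) ((A * Y) ^ 2) K Λ e t s r) :
    Qu X Y K Λ (√(A * β * e)) (√(β * t / A)) (√(A * β * s)) (√(β * r / A)) := by
  have hA0 : 0 < A := by linarith
  have hβA : 0 ≤ β / A := by positivity
  refine ⟨sq_le hX ?_, ?_, sq_le hY ?_, ?_⟩
  · calc X ^ 2 * (A * β * e) = β / A * ((A * X) ^ 2 * e) := by field_simp
      _ ≤ β / A * t := mul_le_mul_of_nonneg_left h.te hβA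
      _ = β * t / A := by ring
  · have h1 : √(A * β * s) ≤ √(K ^ 2 * (β * t / A)) := by
      refine Real.sqrt_le_sqrt ?_
      calc A * β * s ≤ A * β * (K * t) := mul_le_mul_of_nonneg_left h.st (by positivity)
        _ = K ^ 2 * (β * t / A) := by rw [hK]; field_simp
    rwa [Real.sqrt_mul (sq_nonneg K), Real.sqrt_sq (by rw [hK]; positivity)] at h1
  · calc Y ^ 2 * (A * β * s) = β / A * ((A * Y) ^ 2 * s) := by field_simp
      _ ≤ β / A * r := mul_le_mul_of_nonneg_left h.rs hβA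
      _ = β * r / A := by ring
  · have h1 : √(β * r / A) ≤ √(Λ ^ 2 * (A * β * s)) := by
      refine Real.sqrt_le_sqrt ?_
      have h2 : Λ * s ≤ Λ ^ 2 * A ^ 2 * s := by
        refine mul_le_mul_of_nonneg_right ?_ hs
        have h3 : 1 ≤ Λ * A ^ 2 := by nlinarith [mul_le_mul hΛ (show 1 ≤ A ^ 2 by nlinarith) zero_le_one (by linarith : (0:ℝ) ≤ Λ)]
        nlinarith
      calc β * r / A = β / A * r := by ring
        _ ≤ β / A * (Λ ^ 2 * A ^ 2 * s) := mul_le_mul_of_nonneg_left (h.up.trans h2) hβA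
        _ = Λ ^ 2 * (A * β * s) := by field_simp
    rwa [Real.sqrt_mul (sq_nonneg Λ), Real.sqrt_sq (by linarith)] at h1

/-- a record of a fold at `c` -/
private def Rc (a b : Polynomial ℂ) (c0 : ℂ) (e0 t0 r0 Mf K Λ : ℝ) (m k : ℕ) (q : ℂ) (r : ℝ) (c : ℂ) : Prop :=
  ∃ (kc : ℕ) (ec tc sc rc : ℝ), k ≤ kc ∧ kc < m ∧ Fr a b c0 e0 t0 r0 (m - kc) c ec tc sc rc ∧ Mf * ec ≤ tc ∧
    sc ≤ K * tc ∧ rc ≤ Λ * sc ∧ ∀ x ∈ ball q r, x ∈ (pre a b)^[kc - k] (ball c rc)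

/-- the previous frame -/
private def Pv (a b : Polynomial ℂ) (J : Set ℂ) (c0 : ℂ) (e0 t0 r0 M L K C1 δ : ℝ) (m k : ℕ) (q : ℂ) (t r : ℝ) : Prop :=
  ∃ (k2 : ℕ) (q2 y : ℂ) (e2 t2 s2 r2 : ℝ) (γ : ℂ → ℂ), k < k2 ∧ k2 ≤ m ∧ q2 ∈ J ∧ Cr a b q2 ∧
    Fr a b c0 e0 t0 r0 (m - k2) q2 e2 t2 s2 r2 ∧ M * e2 ≤ t2 ∧ s2 ≤ K * t2 ∧ L * s2 ≤ r2 ∧ r2 ≤ δ ∧
    Br (rat a b) (k2 - k - 1) q2 r2 (γ q2) γ ∧ y ∈ closedBall q2 e2 ∧ γ y = gg a b q ∧
    (∀ x ∈ ball q r, ∃ x' ∈ ball q2 r2, γ x' = gg a b x) ∧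
    (∀ x ∈ ball q t, ∃ x' ∈ ball q2 t2, γ x' = gg a b x) ∧
    ‖deriv γ y‖ * t2 ≤ C1 * t ^ 2 ∧ (k2 = m → q2 = c0 ∧ t2 = t0) ∧ (k = 0 → q = c0 → r ^ 2 ≤ 256 * e0 * r0)

/-- the state of the induction -/
private def St (a b : Polynomial ℂ) (J : Set ℂ) (c0 : ℂ) (e0 t0 r0 M L K C1 δ Λ Mf : ℝ) (ml ll R : ℕ → ℝ)
    (N m : ℕ) (z : ℂ) (l : ℕ) : Prop :=
  ∃ (S : Finset ℂ) (p k : ℕ) (q : ℂ) (e t s r : ℝ) (ψ : ℂ → ℂ), p + S.card = N + 1 ∧ (∀ c ∈ S, c ∈ J ∧ Cr a b c) ∧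
    l ≤ k ∧ k ≤ m ∧ q ∈ J ∧ Cr a b q ∧ Fr a b c0 e0 t0 r0 (m - k) q e t s r ∧ Qu (ml p) (ll p) K Λ e t s r ∧ r ≤ R p ∧
    (gg a b)^[k] z ∈ ball q s ∧ Br (rat a b) (k - l) q r (ψ q) ψ ∧ ψ ((gg a b)^[k] z) = (gg a b)^[l] z ∧
    (∀ c ∈ S, Rc a b c0 e0 t0 r0 Mf K Λ m k q r c) ∧ (k = m → q = c0 ∧ t = t0) ∧
    ((k = m ∧ q = c0 ∧ r = r0) ∨ Pv a b J c0 e0 t0 r0 M L K C1 δ m k q t r)

/-- the constants -/
private structure Cx (a b : Polynomial ℂ) (J : Set ℂ) (δ0 A δ1 K C1 L δ Λ M Mf : ℝ) (ml ll R : ℕ → ℝ) (N : ℕ) : Prop where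
  hA : 2 ≤ A
  hK : K = A ^ 2
  hC : C1 = A
  hδ1 : 0 < δ1
  hΛ : 1 ≤ Λ
  hM : M ≤ Mf
  hMA : A ^ 2 ≤ Mf
  hMK : 64 * K * Λ ≤ Mf
  hM8 : 8 ≤ Mf
  frm : ∀ (c0 : ℂ) (e0 t0 r0 : ℝ) (i n : ℕ) (q c y : ℂ) (e t s r : ℝ) (γ : ℂ → ℂ),
    PJ a b J ∩ ball c0 r0 ⊆ closedBall c0 e0 → Fr a b c0 e0 t0 r0 i q e t s r → ball q r ⊆ NJ J δ0 →
    A ^ 2 * e ≤ t → A ^ 2 * s ≤ r → Br (rat a b) n q r (γ q) γ → c ∈ J → Cr a b c → y ∈ closedBall q e → γ y = gg a b c →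
    r * ‖deriv γ y‖ ≤ δ1 → 0 < ‖deriv γ y‖ ∧
    Fr a b c0 e0 t0 r0 (i + n + 1) c (√(A * ‖deriv γ y‖ * e)) (√(‖deriv γ y‖ * t / A)) (√(A * ‖deriv γ y‖ * s)) (√(‖deriv γ y‖ * r / A)) ∧
    (∀ x ∈ ball c (√(‖deriv γ y‖ * r / A)), ∃ x' ∈ ball q r, γ x' = gg a b x) ∧
    (∀ x ∈ ball c (√(‖deriv γ y‖ * t / A)), ∃ x' ∈ ball q t, γ x' = gg a b x) ∧
    (∀ z x : ℂ, x ∈ ball q s → ‖z - c‖ ≤ δ1 → gg a b z = γ x → z ∈ ball c (√(A * ‖deriv γ y‖ * s)))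
  stp : ∀ (n : ℕ) (q : ℂ) (e r : ℝ) (ψ : ℂ → ℂ) (x0 z : ℂ),
    ball q r ⊆ NJ J δ0 → 0 < e → 8 * e ≤ r → r ≤ R 0 → PJ a b J ∩ ball q r ⊆ closedBall q e →
    Br (rat a b) n q r (ψ q) ψ → x0 ∈ ball q (r / 4) → b.eval z ≠ 0 → gg a b z = ψ x0 →
    (∃ φ : ℂ → ℂ, Br (rat a b) (n + 1) q r (φ q) φ ∧ φ x0 = z) ∨
    ∃ c ∈ J, Cr a b c ∧ ‖z - c‖ < δ1 ∧ ∃ y ∈ closedBall q e, ψ y = gg a b c
  sm : ∀ (p n : ℕ) (q : ℂ) (r : ℝ) (ψ : ℂ → ℂ),
    ball q r ⊆ NJ J δ0 → 0 < r → r ≤ R (p + 1) → Br (rat a b) n q r (ψ q) ψ → ∀ c ∈ J, Cr a b c →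
    ∀ y ∈ ball q (r / 4), ψ y = gg a b c → r * ‖deriv ψ y‖ < min δ1 (R p ^ 2)
  Rp : ∀ p, 0 < R p
  R0 : ∀ p, R p ≤ R 0
  Rδ : R 0 ≤ δ
  Rδ0 : R 0 ≤ δ0
  mg : ∀ p, Mf ≤ ml p
  ms : ∀ p, ml (p + 1) = (A * ml p) ^ 2
  lg : ∀ p, L ≤ ll p ∧ A ^ 2 ≤ ll p ∧ 8 ≤ ll p
  ls : ∀ p, ll (p + 1) = (A * ll p) ^ 2
  card : ∀ S : Finset ℂ, (∀ c ∈ S, c ∈ J ∧ Cr a b c) → S.card ≤ N

private theorem step (h : Geo d a b J δ0) {A δ1 K C1 L δ Λ M Mf : ℝ} {ml ll R : ℕ → ℝ} {N : ℕ}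
    (hx : Cx a b J δ0 A δ1 K C1 L δ Λ M Mf ml ll R N) {c0 : ℂ} {e0 t0 r0 : ℝ}
    (he0 : 0 < e0) (her : e0 ≤ r0)
    (hcol : PJ a b J ∩ ball c0 r0 ⊆ closedBall c0 e0) {m : ℕ} {z : ℂ}
    (hz : z ∈ (pre a b)^[m] (ball c0 (2 * t0)))
    (hout : ∀ j, 0 < j → j < m → t0 ≤ ‖(gg a b)^[j] z - c0‖) {l : ℕ} (hl : l + 1 ≤ m)
    (hS : St a b J c0 e0 t0 r0 M L K C1 δ Λ Mf ml ll R N m z (l + 1)) :
    St a b J c0 e0 t0 r0 M L K C1 δ Λ Mf ml ll R N m z l := by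
  classical
  obtain ⟨S, p, k, q, e, t, s, r, ψ, hp, hScr, hlk, hkm, hqJ, hqc, hFr, hQ, hrR, hzk, hBr, hψz, hRc, hkm0, hlast⟩ := hS
  have hA0 : 0 < A := by linarith [hx.hA]
  have hMf : Mf ≤ ml p := hx.mg p
  obtain ⟨hlL, hlA, hl8⟩ := hx.lg p
  have he : 0 < e := hFr.he
  have ht0 : 0 < t := lt_of_lt_of_le he hFr.et
  have hs0 : 0 < s := lt_of_lt_of_le ht0 hFr.ts
  have hr0 : 0 < r := lt_of_lt_of_le hs0 hFr.sr
  have h8e : 8 * e ≤ t := (mul_le_mul_of_nonneg_right (hx.hM8.trans hMf) he.le).trans hQ.te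
  have h8s : 8 * s ≤ r := (mul_le_mul_of_nonneg_right hl8 hs0.le).trans hQ.rs
  have hrR0 : r ≤ R 0 := hrR.trans (hx.R0 p)
  have hNJ : ball q r ⊆ NJ J δ0 := fun w hw => ⟨q, hqJ, ball_subset_ball (hrR0.trans hx.Rδ0) hw⟩
  have hcolq : PJ a b J ∩ ball q r ⊆ closedBall q e := by
    rintro x ⟨hxP, hxb⟩
    have h1 := pre_sp.1 (hFr.map x hxb)
    exact hFr.eps x hxb (hcol ⟨p_inv h hxP h1.1, h1.2⟩)
  have hzk4 : (gg a b)^[k] z ∈ ball q (r / 4) := ball_subset_ball (by linarith) hzk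
  have hzl : (gg a b)^[l] z ∈ (pre a b)^[m - l] (ball c0 (2 * t0)) := by
    have h1 : m = l + (m - l) := by omega
    rw [h1] at hz
    exact (pre_add.1 hz).2
  have hbl : b.eval ((gg a b)^[l] z) ≠ 0 := pre_ne (by omega) hzl
  have hgl : gg a b ((gg a b)^[l] z) = ψ ((gg a b)^[k] z) := by
    rw [hψz, Function.iterate_succ_apply']
  rcases hx.stp (k - (l + 1)) q e r ψ _ _ hNJ he (by linarith [hFr.ts, hFr.sr]) hrR0 hcolq hBr hzk4 hbl hgl with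
    ⟨φ, hφ, hφz⟩ | ⟨c, hcJ, hcc, hzc, y, hy, hψy⟩
  · refine ⟨S, p, k, q, e, t, s, r, φ, hp, hScr, by omega, hkm, hqJ, hqc, hFr, hQ, hrR, hzk, ?_, hφz, hRc,
      hkm0, hlast⟩
    have h1 : k - (l + 1) + 1 = k - l := by omega
    rwa [h1] at hφ
  -- the fold
  obtain ⟨p', rfl⟩ : ∃ p', p = p' + 1 := ⟨p - 1, by have := hx.card S hScr; omega⟩
  have hy4 : y ∈ ball q (r / 4) := by
    refine closedBall_subset_ball ?_ hy
    linarith [hFr.ts, hFr.sr]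
  have hsm := hx.sm p' (k - (l + 1)) q r ψ hNJ hr0 hrR hBr c hcJ hcc y hy4 hψy
  obtain ⟨hβ, hFr', hlift, hlit, hin⟩ := hx.frm c0 e0 t0 r0 (m - k) (k - (l + 1)) q c y e t s r ψ hcol hFr hNJ
    ((mul_le_mul_of_nonneg_right (hx.hMA.trans hMf) he.le).trans hQ.te)
    ((mul_le_mul_of_nonneg_right hlA hs0.le).trans hQ.rs) hBr hcJ hcc hy hψy (hsm.le.trans (min_le_left _ _))
  have hidx : m - k + (k - (l + 1)) + 1 = m - l := by omega
  rw [hidx] at hFr'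
  rw [hx.ms, hx.ls] at hQ
  have hml0 : 0 ≤ ml p' := le_trans (by linarith [hx.hM8]) (hx.mg p')
  have hll0 : 0 ≤ ll p' := le_trans (by norm_num) (hx.lg p').2.2
  have hQ' := fold_qu hx.hA hx.hK hx.hΛ hml0 hll0 hβ hs0.le hQ
  have hzin := hin ((gg a b)^[l] z) ((gg a b)^[k] z) hzk hzc.le hgl
  have hrr' : √(‖deriv ψ y‖ * r / A) ≤ R p' := by
    have h1 : ‖deriv ψ y‖ * r / A ≤ R p' ^ 2 := by
      have h2 : ‖deriv ψ y‖ * r / A ≤ ‖deriv ψ y‖ * r := div_le_self (by positivity) (by linarith [hx.hA])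
      have h3 := hsm.le.trans (min_le_right _ _)
      linarith
    calc √(‖deriv ψ y‖ * r / A) ≤ √(R p' ^ 2) := Real.sqrt_le_sqrt h1
      _ = R p' := Real.sqrt_sq (hx.Rp p').le
  have hdg : ‖deriv ψ y‖ * t ≤ C1 * √(‖deriv ψ y‖ * t / A) ^ 2 := by
    rw [Real.sq_sqrt (by positivity), hx.hC]
    exact le_of_eq (by field_simp)
  generalize √(A * ‖deriv ψ y‖ * e) = e' at *
  generalize √(‖deriv ψ y‖ * t / A) = t' at *
  generalize √(A * ‖deriv ψ y‖ * s) = s' at *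
  generalize √(‖deriv ψ y‖ * r / A) = r' at *
  have hbz : ∀ x ∈ ball c r', b.eval x ≠ 0 := fun x hxb => pre_ne (by omega) (hFr'.map x hxb)
  -- composition
  have hcomp : ∀ (kc : ℕ) (T : Set ℂ), k ≤ kc → (∀ x ∈ ball q r, x ∈ (pre a b)^[kc - k] T) →
      ∀ x ∈ ball c r', x ∈ (pre a b)^[kc - l] T := by
    intro kc T hkc hT x hxb
    obtain ⟨x', hx', hψx⟩ := hlift x hxb
    have h1 := b_pre h hNJ hBr hx'
    rw [hψx] at h1
    have h2 := pre_trans (l := kc - (l + 1)) (by omega) h1 (hT x' hx')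
    exact pre_cons (by omega) (hbz x hxb) h2
  have he' : 0 < e' := hFr'.he
  have hcr' : c ∈ ball c r' := mem_ball_self (lt_of_lt_of_le (lt_of_lt_of_le (lt_of_lt_of_le he' hFr'.et) hFr'.ts) hFr'.sr)
  have hzr' : ‖(gg a b)^[l] z - c‖ < r' := by
    have h1 := ball_subset_ball hFr'.sr hzin
    rwa [mem_ball, dist_eq_norm] at h1
  -- `c` is new
  have hcS : c ∉ S := by
    intro hcS
    obtain ⟨kc, ec, tc, sc, rc, hkkc, hkcm, hFc, hMc, hsc, hrc, hpc⟩ := hRc c hcS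
    have hec : 0 < ec := hFc.he
    have htc : 0 < tc := lt_of_lt_of_le hec hFc.et
    have hnot : tc ≤ ‖(gg a b)^[l] z - c‖ := by
      by_contra hcon
      push Not at hcon
      have h1 : (gg a b)^[l] z ∈ ball c tc := by rwa [mem_ball, dist_eq_norm]
      have h2 := hFc.inn _ h1
      rw [← Function.iterate_add_apply, mem_ball, dist_eq_norm] at h2
      have h3 := hout (m - kc + l) (by omega) (by omega)
      linarith
    have hmap := hcomp kc (ball c rc) hkkc hpc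
    refine ntw h hcJ hcc (N := kc - l) (by omega) hec (r := rc) (r' := r') ?_ ?_ hmap ?_
    · have h1 : 8 * ec ≤ tc := (mul_le_mul_of_nonneg_right hx.hM8 hec.le).trans hMc
      linarith
    · have h1 : rc ≤ Λ * (K * tc) := hrc.trans (mul_le_mul_of_nonneg_left hsc (by linarith [hx.hΛ]))
      have h2 : 64 * ec * rc ≤ 64 * ec * (Λ * (K * tc)) := mul_le_mul_of_nonneg_left h1 (by positivity)
      have h3 : 64 * K * Λ * ec ≤ tc := (mul_le_mul_of_nonneg_right hx.hMK hec.le).trans hMc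
      have h4 : 64 * ec * (Λ * (K * tc)) ≤ tc * tc := by
        calc 64 * ec * (Λ * (K * tc)) = (64 * K * Λ * ec) * tc := by ring
          _ ≤ tc * tc := mul_le_mul_of_nonneg_right h3 htc.le
      have h5 : tc * tc ≤ r' ^ 2 := by
        have h6 : tc ≤ r' := hnot.trans hzr'.le
        nlinarith
      linarith
    · have h1 := pre_sp.1 (hmap c hcr')
      have h2 : (gg a b)^[m - kc] ((gg a b)^[kc - l] c) ∈ closedBall c0 e0 := by
        rw [← Function.iterate_add_apply]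
        have h3 : m - kc + (kc - l) = m - l := by omega
        rw [h3]
        exact hFr'.cen
      have h3 := hFc.eps _ h1.2 h2
      rwa [mem_closedBall, dist_eq_norm] at h3
  -- the case `c = c0`, `l = 0`
  have hl0 : l = 0 → c = c0 → r' ^ 2 ≤ 256 * e0 * r0 := by
    intro hl0 hcc0
    by_contra hcon
    push Not at hcon
    have hr'0 : 0 < r' := lt_of_le_of_lt (norm_nonneg _) hzr'
    have h1 : 256 * e0 * e0 ≤ 256 * e0 * r0 := mul_le_mul_of_nonneg_left her (by positivity)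
    have h2 : 4 * e0 < r' := by
      by_contra h3
      push Not at h3
      have h4 : r' ^ 2 ≤ (4 * e0) ^ 2 := pow_le_pow_left₀ hr'0.le h3 2
      nlinarith [mul_pos he0 he0]
    refine ntw h hcJ hcc (N := m - l) (by omega) he0 (r := r0) (r' := r') h2 ?_ ?_ ?_
    · nlinarith [mul_pos he0 (lt_of_lt_of_le he0 her)]
    · rw [hcc0] at hFr' ⊢
      exact hFr'.map
    · have h3 := hFr'.cen
      rw [hcc0] at h3 ⊢
      rwa [mem_closedBall, dist_eq_norm] at h3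
  refine ⟨insert c S, p', l, c, e', t', s', r', id, ?_, ?_, le_rfl, by omega, hcJ, hcc, hFr', hQ', hrr', hzin, ?_,
    rfl, ?_, fun hlm => absurd hlm (by omega), Or.inr ⟨k, q, y, e, t, s, r, ψ, by omega, hkm, hqJ, hqc, hFr, ?_,
      hQ.st, ?_, hrR0.trans hx.Rδ, ?_, hy, hψy, hlift, hlit, hdg, hkm0, hl0⟩⟩
  · rw [Finset.card_insert_of_notMem hcS]
    omega
  · intro c' hc'
    rcases Finset.mem_insert.1 hc' with rfl | hc'
    · exact ⟨hcJ, hcc⟩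
    · exact hScr c' hc'
  · rw [Nat.sub_self]
    exact ⟨differentiableOn_id, rfl, fun u _ => rfl⟩
  · intro c' hc'
    rcases Finset.mem_insert.1 hc' with rfl | hc'
    · refine ⟨l, e', t', s', r', le_rfl, by omega, hFr',
        (mul_le_mul_of_nonneg_right (hx.mg p') he'.le).trans hQ'.te, hQ'.st, hQ'.up, ?_⟩
      intro x hxb
      rw [Nat.sub_self]
      exact hxb
    · obtain ⟨kc, ec, tc, sc, rc, hkkc, hkcm, hFc, hMc, hsc, hrc, hpc⟩ := hRc c' hc'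
      exact ⟨kc, ec, tc, sc, rc, by omega, hkcm, hFc, hMc, hsc, hrc, hcomp kc _ hkkc hpc⟩
  · have h1 : Mf ≤ (A * ml p') ^ 2 := by rw [← hx.ms]; exact hx.mg _
    exact (mul_le_mul_of_nonneg_right (hx.hM.trans h1) he.le).trans hQ.te
  · have h1 : L ≤ (A * ll p') ^ 2 := by rw [← hx.ls]; exact (hx.lg _).1
    exact (mul_le_mul_of_nonneg_right h1 hs0.le).trans hQ.rs
  · have h1 : k - l - 1 = k - (l + 1) := by omega
    rwa [h1]

/-- the sequence of the constants -/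
private noncomputable def sqs (A x : ℝ) : ℕ → ℝ
  | 0 => x
  | n + 1 => (A * sqs A x n) ^ 2

private theorem sqs_ge {A x : ℝ} (hA : 2 ≤ A) (hx : 1 ≤ x) (n : ℕ) : x ≤ sqs A x n := by
  induction n with
  | zero => exact le_rfl
  | succ n ih =>
    have h1 : 1 ≤ sqs A x n := hx.trans ih
    have h2 : sqs A x n ≤ A * sqs A x n := by nlinarith
    have h3 : A * sqs A x n ≤ (A * sqs A x n) ^ 2 := by nlinarith
    exact ih.trans (h2.trans h3)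

private theorem seq_ex (P : ℝ → ℝ → Prop) (R0 : ℝ) (h0 : 0 < R0)
    (hP : ∀ x, 0 < x → ∃ y, 0 < y ∧ y ≤ R0 ∧ P x y) :
    ∃ R : ℕ → ℝ, R 0 = R0 ∧ (∀ p, 0 < R p) ∧ (∀ p, R p ≤ R0) ∧ ∀ p, P (R p) (R (p + 1)) := by
  choose! f hf using hP
  obtain ⟨R, hR⟩ : ∃ R : ℕ → ℝ, R = fun n => Nat.rec R0 (fun _ x => f x) n := ⟨_, rfl⟩
  have hR0 : R 0 = R0 := by subst hR; rfl
  have hRs : ∀ p, R (p + 1) = f (R p) := fun p => by subst hR; rfl
  have hpos : ∀ p, 0 < R p := by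
    intro p
    induction p with
    | zero => rw [hR0]; exact h0
    | succ p ih => rw [hRs]; exact (hf _ ih).1
  refine ⟨R, hR0, hpos, fun p => ?_, fun p => ?_⟩
  · rcases p with _ | p
    · rw [hR0]
    · rw [hRs]
      exact (hf _ (hpos p)).2.1
  · rw [hRs]
    exact (hf _ (hpos p)).2.2

theorem chn (h : Geo d a b J δ0) : ∃ K C1 : ℝ, 1 ≤ K ∧ 0 < C1 ∧ ∀ L δ : ℝ, 0 < L → 0 < δ → ∃ L1 : ℝ, ∀ Λ : ℝ, L1 ≤ Λ → ∀ M : ℝ, 0 < M →
    ∃ M0 r1 : ℝ, 0 < M0 ∧ 0 < r1 ∧ ∀ c0 ∈ J, Cr a b c0 → ∀ e0 t0 r0 : ℝ, 0 < e0 → M0 * e0 ≤ t0 → L1 * t0 ≤ r0 → r0 ≤ Λ * t0 → r0 ≤ r1 →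
    PJ a b J ∩ ball c0 r0 ⊆ closedBall c0 e0 → Chs a b J c0 e0 t0 r0 M L K C1 δ := by
  obtain ⟨A, δ1, hA, hδ1, hfrm⟩ := frm h
  obtain ⟨N, hN⟩ : ∃ N : ℕ, ∀ S : Finset ℂ, (∀ c ∈ S, c ∈ J ∧ Cr a b c) → S.card ≤ N :=
    ⟨(cr_fin h).toFinset.card, fun S hS => Finset.card_le_card fun c hc =>
      (cr_fin h).mem_toFinset.2 (hS c hc).2⟩
  refine ⟨A ^ 2, A, by nlinarith, by linarith, fun L δ hL hδ => ?_⟩
  obtain ⟨Lf, hLf⟩ : ∃ Lf : ℝ, Lf = max L (max (A ^ 2) 8) := ⟨_, rfl⟩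
  have hLfL : L ≤ Lf := by rw [hLf]; exact le_max_left _ _
  have hLfA : A ^ 2 ≤ Lf := by rw [hLf]; exact (le_max_left _ _).trans (le_max_right _ _)
  have hLf8 : 8 ≤ Lf := by rw [hLf]; exact (le_max_right _ _).trans (le_max_right _ _)
  have hll := fun p => sqs_ge (A := A) (x := Lf) hA (by linarith) p
  refine ⟨2 * sqs A Lf (N + 1), fun Λ hΛ M hM => ?_⟩
  have hΛ1 : 1 ≤ Λ := by
    have := hll (N + 1)
    linarith
  obtain ⟨Mf, hMf⟩ : ∃ Mf : ℝ, Mf = max M (max (A ^ 2) (max (64 * A ^ 2 * Λ) 8)) := ⟨_, rfl⟩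
  have hMfM : M ≤ Mf := by rw [hMf]; exact le_max_left _ _
  have hMfA : A ^ 2 ≤ Mf := by rw [hMf]; exact (le_max_left _ _).trans (le_max_right _ _)
  have hMfK : 64 * A ^ 2 * Λ ≤ Mf := by
    rw [hMf]
    exact ((le_max_left _ _).trans (le_max_right _ _)).trans (le_max_right _ _)
  have hMf8 : 8 ≤ Mf := by
    rw [hMf]
    exact ((le_max_right _ _).trans (le_max_right _ _)).trans (le_max_right _ _)
  have hml := fun p => sqs_ge (A := A) (x := Mf) hA (by linarith) p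
  obtain ⟨rs, hrs, hstp⟩ := stp h hδ1
  have hR0pos : 0 < min rs (min δ δ0) := lt_min hrs (lt_min hδ h.hδ)
  obtain ⟨R, hR0, hRp, hRle, hRs⟩ := seq_ex (fun x y => ∀ (n : ℕ) (q : ℂ) (r : ℝ) (ψ : ℂ → ℂ),
    ball q r ⊆ NJ J δ0 → 0 < r → r ≤ y → Br (rat a b) n q r (ψ q) ψ → ∀ c ∈ J, Cr a b c →
    ∀ y ∈ ball q (r / 4), ψ y = gg a b c → r * ‖deriv ψ y‖ < min δ1 (x ^ 2)) (min rs (min δ δ0)) hR0pos (by
      intro x hx
      obtain ⟨y, hy, hsm⟩ := sm2 h (δ := min δ1 (x ^ 2)) (lt_min hδ1 (by positivity))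
      refine ⟨min y (min rs (min δ δ0)), lt_min hy hR0pos, min_le_right _ _, ?_⟩
      intro n q r ψ hq hr hry hBr c hc hcc y' hy' hψ
      exact (hsm n q r ψ hq hr (hry.trans (min_le_left _ _)) hBr c hc hcc y' hy' hψ).1)
  have hx : Cx a b J δ0 A δ1 (A ^ 2) A L δ Λ M Mf (sqs A Mf) (sqs A Lf) R N :=
    { hA := hA
      hK := rfl
      hC := rfl
      hδ1 := hδ1
      hΛ := hΛ1
      hM := hMfM
      hMA := hMfA
      hMK := hMfK
      hM8 := hMf8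
      frm := hfrm
      stp := fun n q e r ψ x0 z h1 h2 h3 h4 => hstp n q e r ψ x0 z h1 h2 h3
        (h4.trans (by rw [hR0]; exact min_le_left _ _))
      sm := fun p => hRs p
      Rp := hRp
      R0 := fun p => by rw [hR0]; exact hRle p
      Rδ := by rw [hR0]; exact (min_le_right _ _).trans (min_le_left _ _)
      Rδ0 := by rw [hR0]; exact (min_le_right _ _).trans (min_le_right _ _)
      mg := hml
      ms := fun p => rfl
      lg := fun p => ⟨hLfL.trans (hll p), hLfA.trans (hll p), hLf8.trans (hll p)⟩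
      ls := fun p => rfl
      card := hN }
  refine ⟨sqs A Mf (N + 1), R (N + 1), lt_of_lt_of_le (by linarith) (hml (N + 1)), hRp _, ?_⟩
  intro c0 hc0 hcr0 e0 t0 r0 he0 hM0 hL1 hrΛ hr1 hcol m z hm hz hout
  have h8 : 8 * e0 ≤ t0 := (mul_le_mul_of_nonneg_right (hMf8.trans (hml (N + 1))) he0.le).trans hM0
  have ht0 : 0 < t0 := by linarith
  have h2t : 2 * t0 ≤ r0 := by
    have h1 : 2 * t0 ≤ 2 * sqs A Lf (N + 1) * t0 := by
      refine mul_le_mul_of_nonneg_right ?_ ht0.le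
      linarith [hll (N + 1)]
    linarith
  have hzm := pre_sp.1 hz
  have hstart : St a b J c0 e0 t0 r0 M L (A ^ 2) A δ Λ Mf (sqs A Mf) (sqs A Lf) R N m z m := by
    refine ⟨∅, N + 1, m, c0, e0, t0, 2 * t0, r0, id, by simp, fun c hc => absurd hc (Finset.notMem_empty c),
      le_rfl, le_rfl, hc0, hcr0, ?_, ⟨hM0, ?_, ?_, ?_⟩, hr1, hzm.2, ?_, rfl,
      fun c hc => absurd hc (Finset.notMem_empty c), fun _ => ⟨rfl, rfl⟩, Or.inl ⟨rfl, rfl, rfl⟩⟩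
    · rw [Nat.sub_self]
      exact
        { he := he0
          et := by linarith
          ts := by linarith
          sr := h2t
          map := fun x hx => hx
          inn := fun x hx => hx
          out := fun x _ hx => hx
          eps := fun x _ hx => hx
          cen := mem_closedBall_self he0.le }
    · exact mul_le_mul_of_nonneg_right (by nlinarith) ht0.le
    · linarith
    · have : Λ * t0 ≤ Λ * (2 * t0) := mul_le_mul_of_nonneg_left (by linarith) (by linarith)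
      linarith
    · rw [Nat.sub_self]
      exact ⟨differentiableOn_id, rfl, fun u _ => rfl⟩
  have hall : ∀ i ≤ m, St a b J c0 e0 t0 r0 M L (A ^ 2) A δ Λ Mf (sqs A Mf) (sqs A Lf) R N m z (m - i) := by
    intro i
    induction i with
    | zero => exact fun _ => hstart
    | succ i ih =>
      intro hi
      have h1 := ih (by omega)
      have h2 : m - i = (m - (i + 1)) + 1 := by omega
      rw [h2] at h1
      exact step h hx he0 (by linarith) hcol hz hout (by omega) h1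
  have h0 := hall m le_rfl
  rw [Nat.sub_self] at h0
  obtain ⟨S, p, k, q, e, t, s, r, ψ, hp, hScr, hlk, hkm, hqJ, hqc, hFr, hQ, hrR, hzk, hBr, hψz, hRc, hkm0, hlast⟩ := h0
  rw [Nat.sub_zero] at hBr
  rcases hlast with ⟨rfl, rfl, rfl⟩ | ⟨k2, q2, y, e2, t2, s2, r2, γ, hk2, hk2m, hq2J, hq2c, hF2, hM2, hK2, hL2, hr2, hBr2,
    hy, hγy, hlift, hlit, hdg, hk2m0, hk0⟩
  · exact Or.inl ⟨ψ, hBr, hψz⟩
  · refine Or.inr ⟨k, k2, q, q2, y, e, t, s, r, e2, t2, s2, r2, ψ, γ, ?_, hk2m, hFr,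
      (mul_le_mul_of_nonneg_right (hMfM.trans (hml p)) hFr.he.le).trans hQ.te, hF2, hzk, hψz, hk2m0, hk0⟩
    exact
      { lt := hk2
        q1J := hqJ
        q2J := hq2J
        w1 := hqc
        w2 := hq2c
        t1p := lt_of_lt_of_le hFr.he hFr.et
        ts1 := hFr.ts
        st1 := hQ.st
        rs1 := (mul_le_mul_of_nonneg_right (hx.lg p).1
          ((lt_of_lt_of_le (lt_of_lt_of_le hFr.he hFr.et) hFr.ts).le)).trans hQ.rs
        r1δ := hrR.trans ((hx.R0 p).trans hx.Rδ)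
        e2p := hF2.he
        te2 := hM2
        ts2 := hF2.ts
        st2 := hK2
        rs2 := hL2
        r2δ := hr2
        br1 := hBr
        br2 := hBr2
        yq := hy
        yv := hγy
        lift := hlift
        lit := hlit
        dg := hdg }

end Pool.Agent.H18.UP
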