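import Pool.Agent.H18.UP.BAS

/-!
# THEOREM UP: the critical points in `J` are simple: local estimates

PROOF. The set of the critical points is finite (`cr_fin`), so it is enough to treat one `c ∈ J`, `Cr c`. `gg` is analytic at `c` (`b c ≠ 0`), `gg' = ww / b ^ 2`, `ww c = 0`, `(derivative ww) c ≠ 0` (`Geo.sim`), so `gg x - gg c = (x - c) ^ 2 u(x)`, `u c ≠ 0` (`u` analytic at `c`: `dslope` twice, `u c = gg'' c / 2`). Choose `δ1` with `|u c| / 2 ≤ |u x| ≤ 2 |u c|` for `‖x - c‖ < δ1`: (1).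
(2) the distances of different critical points: finite set.
(3) `w ∈ ball (gg c) (δ1 ^ 2 / A)` has a preimage in `ball c δ1`: `gg` on `ball c δ1`: by (1) `‖gg x - gg c‖ ≥ δ2 ^ 2 / A` on the circle of radius `δ2 < δ1`: a minimum principle (Mathlib: `DiffContOnCl.ball_subset_image_closedBall`) gives `ball (gg c) (δ2 ^ 2 / (2 A)) ⊆ gg '' closedBall c δ2` for all `δ2 < δ1`: enlarge `A` (the statement for every `t ≤ δ1`: every `w ∈ ball (gg c) (t ^ 2 / A)` has a preimage in `ball c t`).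
-/

set_option autoImplicit false

open Filter Topology Polynomial Metric Set MeasureTheory

namespace Pool.Agent.H18.UP

open Pool.Agent.H44.Fatou (rat rat_continuous)
open Pool.Agent.H80.AJ (Br KK one_le_KK KK_pos distort distort_lip deriv_ne univ_cover)
open Pool.Agent.H32.BT (IsCrit)
open Pool.Agent.H61.TT Pool.Agent.H57.CP Pool.Agent.H3.NC

variable {d : ℕ} {a b : Polynomial ℂ} {J : Set ℂ} {δ0 : ℝ}

/-- the quotient of `gg x - gg c` by `(x - c) ^ 2` -/
private theorem loc_alg (a b : Polynomial ℂ) (c : ℂ) (hw : (ww a b).eval c = 0)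
    (hw' : (derivative (ww a b)).eval c ≠ 0) : ∃ Q : Polynomial ℂ, Q.eval c ≠ 0 ∧
      ∀ x : ℂ, b.eval x ≠ 0 → b.eval c ≠ 0 →
        gg a b x - gg a b c = (x - c) ^ 2 * (Q.eval x / (b.eval x * b.eval c)) := by
  set P : Polynomial ℂ := a * C (b.eval c) - C (a.eval c) * b with hP
  have h0 : P.IsRoot c := by
    rw [IsRoot.def, hP]
    simp only [eval_sub, eval_mul, eval_C]
    ring
  obtain ⟨P1, hP1⟩ := dvd_iff_isRoot.2 h0
  have hd1 : derivative P = derivative a * C (b.eval c) - C (a.eval c) * derivative b := by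
    rw [hP]
    simp only [derivative_sub, derivative_mul, derivative_C, mul_zero, add_zero, zero_mul, zero_add]
  have h1 : P1.IsRoot c := by
    have h2 : (derivative P).eval c = P1.eval c := by
      rw [hP1]
      simp only [derivative_mul, derivative_sub, derivative_X, derivative_C, eval_add, eval_mul,
        eval_sub, eval_X, eval_C, eval_one]
      simp
    rw [IsRoot.def, ← h2, hd1]
    simp only [eval_sub, eval_mul, eval_C]
    have h3 : (ww a b).eval c = (derivative a).eval c * b.eval c - a.eval c * (derivative b).eval c := by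
      unfold ww
      simp only [eval_sub, eval_mul]
    rw [← h3, hw]
  obtain ⟨Q, hQ⟩ := dvd_iff_isRoot.2 h1
  have hPQ : P = (X - C c) ^ 2 * Q := by
    rw [hP1, hQ]
    ring
  refine ⟨Q, ?_, ?_⟩
  · have h2 : (derivative (derivative P)).eval c = 2 * Q.eval c := by
      rw [hPQ]
      simp only [derivative_mul, derivative_pow, derivative_sub, derivative_X, derivative_C, derivative_add,
        eval_add, eval_mul, eval_sub, eval_X, eval_C, eval_pow]
      simp
    have h3 : (derivative (derivative P)).eval c = (derivative (ww a b)).eval c := by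
      rw [hd1]
      unfold ww
      simp only [derivative_sub, derivative_mul, derivative_C, mul_zero, add_zero, zero_mul, zero_add,
        eval_sub, eval_mul, eval_add, eval_C]
      ring
    intro h4
    rw [h3, h4, mul_zero] at h2
    exact hw' h2
  · intro x hx hc
    have h2 : P.eval x = (x - c) ^ 2 * Q.eval x := by
      rw [hPQ]
      simp
    rw [hP] at h2
    simp only [eval_sub, eval_mul, eval_C] at h2
    unfold gg
    field_simp
    linear_combination h2

/-- the estimate at one critical point -/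
private theorem loc_one (a b : Polynomial ℂ) (c : ℂ) (hb : b.eval c ≠ 0) (hw : (ww a b).eval c = 0)
    (hw' : (derivative (ww a b)).eval c ≠ 0) : ∀ᶠ A in (atTop : Filter ℝ), ∀ᶠ δ in 𝓝[>] (0 : ℝ),
      ∀ x ∈ ball c δ, b.eval x ≠ 0 ∧ ‖x - c‖ ^ 2 ≤ A * ‖gg a b x - gg a b c‖ ∧
        ‖gg a b x - gg a b c‖ ≤ A * ‖x - c‖ ^ 2 := by
  obtain ⟨Q, hQ, hg⟩ := loc_alg a b c hw hw'
  have hu0 : Q.eval c / (b.eval c * b.eval c) ≠ 0 := div_ne_zero hQ (mul_ne_zero hb hb)
  have hucont : ContinuousAt (fun x => ‖Q.eval x / (b.eval x * b.eval c)‖) c :=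
    (Q.continuous.continuousAt.div (b.continuous.continuousAt.mul continuousAt_const)
      (mul_ne_zero hb hb)).norm
  set U : ℝ := ‖Q.eval c / (b.eval c * b.eval c)‖ with hU
  have hUpos : 0 < U := norm_pos_iff.2 hu0
  have e1 : ∀ᶠ x in 𝓝 c, U / 2 < ‖Q.eval x / (b.eval x * b.eval c)‖ :=
    hucont.eventually (lt_mem_nhds (by show U / 2 < U; linarith))
  have e2 : ∀ᶠ x in 𝓝 c, ‖Q.eval x / (b.eval x * b.eval c)‖ < 2 * U :=
    hucont.eventually (gt_mem_nhds (by show U < 2 * U; linarith))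
  have e3 : ∀ᶠ x in 𝓝 c, b.eval x ≠ 0 := b.continuous.continuousAt.eventually_ne hb
  obtain ⟨δ, hδ, hall⟩ := Metric.eventually_nhds_iff_ball.1 (e1.and (e2.and e3))
  filter_upwards [eventually_ge_atTop (2 / U), eventually_ge_atTop (2 * U)] with A hA1 hA2
  filter_upwards [Ioo_mem_nhdsGT hδ] with t ht
  intro x hx
  obtain ⟨h1, h2, h3⟩ := hall x (ball_subset_ball ht.2.le hx)
  refine ⟨h3, ?_, ?_⟩
  · rw [hg x h3 hb, norm_mul, norm_pow]
    have h4 : 1 ≤ A * ‖Q.eval x / (b.eval x * b.eval c)‖ := by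
      calc (1 : ℝ) = 2 / U * (U / 2) := by field_simp
        _ ≤ A * ‖Q.eval x / (b.eval x * b.eval c)‖ :=
          mul_le_mul hA1 h1.le (by positivity) (le_trans (by positivity) hA1)
    calc ‖x - c‖ ^ 2 ≤ ‖x - c‖ ^ 2 * (A * ‖Q.eval x / (b.eval x * b.eval c)‖) :=
          le_mul_of_one_le_right (by positivity) h4
      _ = _ := by ring
  · rw [hg x h3 hb, norm_mul, norm_pow, mul_comm]
    exact mul_le_mul_of_nonneg_right (h2.le.trans hA2) (by positivity)

theorem loc (h : Geo d a b J δ0) : ∃ A δ1 : ℝ, 1 ≤ A ∧ 0 < δ1 ∧ δ1 ≤ 1 ∧ ∀ c ∈ J, Cr a b c →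
    (∀ x ∈ ball c δ1, b.eval x ≠ 0 ∧ ‖x - c‖ ^ 2 ≤ A * ‖gg a b x - gg a b c‖ ∧ ‖gg a b x - gg a b c‖ ≤ A * ‖x - c‖ ^ 2) ∧
    (∀ c' ∈ J, Cr a b c' → c' ≠ c → δ1 ≤ ‖c' - c‖) ∧
    (∀ t : ℝ, 0 < t → t ≤ δ1 → ∀ w ∈ ball (gg a b c) (t ^ 2 / A), ∃ x ∈ ball c t, gg a b x = w) := by
  have hfin : {c : ℂ | c ∈ J ∧ Cr a b c}.Finite := (cr_fin h).subset fun c hc => hc.2
  have e1 := (eventually_all_finite hfin).2 fun c hc => loc_one a b c hc.2.1 hc.2.2 (h.sim c hc.1 hc.2)
  obtain ⟨A, hA, hA1⟩ := (e1.and (eventually_ge_atTop (1 : ℝ))).exists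
  have e2 := (eventually_all_finite hfin).2 hA
  have e3 : ∀ᶠ δ in 𝓝[>] (0 : ℝ), ∀ c ∈ {c : ℂ | c ∈ J ∧ Cr a b c}, ∀ c' ∈ {c : ℂ | c ∈ J ∧ Cr a b c},
      c' ≠ c → δ ≤ ‖c' - c‖ := by
    refine (eventually_all_finite hfin).2 fun c _ => (eventually_all_finite hfin).2 fun c' _ => ?_
    by_cases hcc : c' = c
    · exact Eventually.of_forall fun _ hne => absurd hcc hne
    · filter_upwards [Ioo_mem_nhdsGT (norm_pos_iff.2 (sub_ne_zero.2 hcc))] with t ht _
      exact ht.2.le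
  obtain ⟨δ, ⟨hδ2, hδ3⟩, hδ0, hδ1⟩ := ((e2.and e3).and (Ioo_mem_nhdsGT (zero_lt_one (α := ℝ)))).exists
  refine ⟨8 * A, δ, by linarith, hδ0, hδ1.le, fun c hcJ hc => ⟨fun x hx => ?_, fun c' hc'J hc' hne => ?_,
    fun t ht0 htδ w hw => ?_⟩⟩
  · obtain ⟨h1, h2, h3⟩ := hδ2 c ⟨hcJ, hc⟩ x hx
    refine ⟨h1, h2.trans ?_, h3.trans ?_⟩
    · exact mul_le_mul_of_nonneg_right (by linarith) (norm_nonneg _)
    · exact mul_le_mul_of_nonneg_right (by linarith) (by positivity)
  · exact hδ3 c ⟨hcJ, hc⟩ c' ⟨hc'J, hc'⟩ hne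
  · have hsub : closedBall c (t / 2) ⊆ ball c δ := closedBall_subset_ball (by linarith)
    have hdiff : DifferentiableOn ℂ (gg a b) (ball c δ) := by
      intro x hx
      exact (a.differentiableAt.div b.differentiableAt (hδ2 c ⟨hcJ, hc⟩ x hx).1).differentiableWithinAt
    have hd : DiffContOnCl ℂ (gg a b) (ball c (t / 2)) := by
      refine DifferentiableOn.diffContOnCl ?_
      rw [closure_ball c (by linarith : t / 2 ≠ 0)]
      exact hdiff.mono hsub
    have hne : ∃ᶠ z in 𝓝 c, gg a b z ≠ gg a b c := by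
      have h1 : ∀ᶠ z in 𝓝[≠] c, gg a b z ≠ gg a b c := by
        filter_upwards [self_mem_nhdsWithin, mem_nhdsWithin_of_mem_nhds (ball_mem_nhds c hδ0)] with z hz hzb
        intro heq
        obtain ⟨-, h2, -⟩ := hδ2 c ⟨hcJ, hc⟩ z hzb
        rw [heq, sub_self, norm_zero, mul_zero] at h2
        have h3 : 0 < ‖z - c‖ := norm_pos_iff.2 (sub_ne_zero.2 hz)
        have h4 : 0 < ‖z - c‖ ^ 2 := by positivity
        linarith
      exact h1.frequently.filter_mono nhdsWithin_le_nhds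
    have hsph : ∀ z ∈ sphere c (t / 2), t ^ 2 / (4 * A) ≤ ‖gg a b z - gg a b c‖ := by
      intro z hz
      have hzn : ‖z - c‖ = t / 2 := by rwa [mem_sphere_iff_norm] at hz
      obtain ⟨-, h2, -⟩ := hδ2 c ⟨hcJ, hc⟩ z (hsub (sphere_subset_closedBall hz))
      rw [hzn] at h2
      rw [div_le_iff₀ (by positivity)]
      nlinarith
    have himg := hd.ball_subset_image_closedBall (by linarith) hsph hne
    have hw' : w ∈ ball (gg a b c) (t ^ 2 / (4 * A) / 2) := by
      have h1 : t ^ 2 / (4 * A) / 2 = t ^ 2 / (8 * A) := by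
        field_simp
        norm_num
      rwa [h1]
    obtain ⟨x, hx, hxw⟩ := himg hw'
    exact ⟨x, closedBall_subset_ball (by linarith) hx, hxw⟩

end Pool.Agent.H18.UP
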