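import Pool.Agent.H18.UP.ONT

/-!
# THEOREM UP: the components of `pre^m V` are mapped onto the components of `pre^(m - k) V`

PROOF. As in ONT (`f = rat a b`, `D` = the coercion of `V`; the coercion of `connectedComponentIn (pre^m V) z` is `CC f m D z`; the same for `m - k` and `gg^[k] z`, since `V ⊆ NJ`). `f^[k] '' CC f m D z ⊆ CC f (m - k) D (f^[k] z)` by `cc_map`. Conversely let `D' = CC f (m - k) D (f^[k] z)`, open (`cc_open`), preconnected (`cc_pre`), `f^[k] z ∈ D'` (`cc_mem`): `f^[k] '' CC f k D' z = D'` (`cc_onto`) and `CC f k D' z ⊆ CC f m D z` (`cc_max`: its points `x` have `f^[k] x ∈ D'`, so `f^[m] x ∈ D` by `cc_sub`).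
-/

set_option autoImplicit false

open Filter Topology Polynomial Metric Set MeasureTheory

namespace Pool.Agent.H18.UP

open Pool.Agent.H44.Fatou (rat rat_continuous)
open Pool.Agent.H80.AJ (Br KK one_le_KK KK_pos distort distort_lip deriv_ne univ_cover)
open Pool.Agent.H32.BT (IsCrit)
open Pool.Agent.H61.TT Pool.Agent.H57.CP Pool.Agent.H3.NC

variable {d : ℕ} {a b : Polynomial ℂ} {J : Set ℂ} {δ0 : ℝ}

open Pool.Agent.H44.RC (CC cc_onto cc_sub cc_pre cc_mem cc_max cc_map cc_open)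

private theorem on2_cc (h : Geo d a b J δ0) {V : Set ℂ} (hN : V ⊆ NJ J δ0) {n : ℕ} {z : ℂ}
    (hz : z ∈ (pre a b)^[n] V) : ((↑) : ℂ → OnePoint ℂ) '' connectedComponentIn ((pre a b)^[n] V) z =
      CC (rat a b) n (((↑) : ℂ → OnePoint ℂ) '' V) (z : OnePoint ℂ) := by
  have hemb : Topology.IsOpenEmbedding ((↑) : ℂ → OnePoint ℂ) := OnePoint.isOpenEmbedding_coe
  have hy : (rat a b)^[n] (z : OnePoint ℂ) ∈ ((↑) : ℂ → OnePoint ℂ) '' V := by
    rw [g_rat h hz]
    exact mem_image_of_mem _ (mem_pre.1 hz).2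
  have hpt : ∀ y ∈ CC (rat a b) n (((↑) : ℂ → OnePoint ℂ) '' V) (z : OnePoint ℂ), ∃ x : ℂ,
      (x : OnePoint ℂ) = y ∧ x ∈ (pre a b)^[n] V := by
    intro y hyC
    obtain ⟨v, hv, hve⟩ := cc_sub hyC
    obtain ⟨x, hx⟩ := g_fin h (hN hv) hve.symm 0 (Nat.zero_le _)
    have hx' : y = (x : OnePoint ℂ) := hx
    refine ⟨x, hx'.symm, pre_mono (singleton_subset_iff.2 hv) ?_⟩
    rw [← g_pre h (hN hv), ← hx']
    exact hve.symm
  apply Subset.antisymm
  · refine cc_max (isPreconnected_connectedComponentIn.image _ hemb.continuous.continuousOn)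
      (mem_image_of_mem _ (mem_connectedComponentIn hz)) ?_
    rintro _ ⟨x, hx, rfl⟩
    have h1 := connectedComponentIn_subset _ _ hx
    rw [g_rat h h1]
    exact mem_image_of_mem _ (mem_pre.1 h1).2
  · have hS : IsPreconnected (((↑) : ℂ → OnePoint ℂ) ⁻¹' CC (rat a b) n (((↑) : ℂ → OnePoint ℂ) '' V) (z : OnePoint ℂ)) := by
      refine (cc_pre n _ _).preimage_of_isOpenMap hemb.injective hemb.isOpenMap ?_
      intro y hyC
      obtain ⟨x, hx, -⟩ := hpt y hyC
      exact ⟨x, hx⟩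
    have hSs : (((↑) : ℂ → OnePoint ℂ) ⁻¹' CC (rat a b) n (((↑) : ℂ → OnePoint ℂ) '' V) (z : OnePoint ℂ)) ⊆
        connectedComponentIn ((pre a b)^[n] V) z := by
      refine hS.subset_connectedComponentIn (cc_mem hy) ?_
      intro x hx
      obtain ⟨x', hxx, hpre⟩ := hpt _ hx
      have h1 : x' = x := OnePoint.coe_injective hxx
      rw [← h1]
      exact hpre
    intro y hyC
    obtain ⟨x, hx, -⟩ := hpt y hyC
    refine ⟨x, hSs ?_, hx⟩
    rw [mem_preimage, hx]
    exact hyC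

theorem on2 (h : Geo d a b J δ0) {V : Set ℂ} (hV : IsOpen V) (hVc : IsPreconnected V) (hN : V ⊆ NJ J δ0) {m k : ℕ} (hk : k ≤ m)
    {z : ℂ} (hz : z ∈ (pre a b)^[m] V) : (gg a b)^[k] '' connectedComponentIn ((pre a b)^[m] V) z =
      connectedComponentIn ((pre a b)^[m - k] V) ((gg a b)^[k] z) := by
  have hf : Continuous (rat a b) := rat_continuous h.rt.cop
  have hd : 1 ≤ max a.natDegree b.natDegree := by
    have h1 := h.rt.hd
    have h2 := h.rt.deg
    omega
  have ho : IsOpenMap (rat a b) := Pool.Agent.H32.BT.rat_open h.rt.cop hd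
  have hemb : Topology.IsOpenEmbedding ((↑) : ℂ → OnePoint ℂ) := OnePoint.isOpenEmbedding_coe
  have hspl : ∀ x ∈ (pre a b)^[m] V, x ∈ (pre a b)^[k] univ ∧ (gg a b)^[k] x ∈ (pre a b)^[m - k] V := by
    intro x hx
    rw [← pre_add, Nat.add_sub_cancel' hk]
    exact hx
  have hDo : IsOpen (((↑) : ℂ → OnePoint ℂ) '' V) := hemb.isOpenMap V hV
  have hy : (rat a b)^[m] (z : OnePoint ℂ) ∈ ((↑) : ℂ → OnePoint ℂ) '' V := by
    rw [g_rat h hz]
    exact mem_image_of_mem _ (mem_pre.1 hz).2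
  have key : (rat a b)^[k] '' CC (rat a b) m (((↑) : ℂ → OnePoint ℂ) '' V) (z : OnePoint ℂ) =
      CC (rat a b) (m - k) (((↑) : ℂ → OnePoint ℂ) '' V) ((rat a b)^[k] (z : OnePoint ℂ)) := by
    apply Subset.antisymm
    · rintro _ ⟨x, hx, rfl⟩
      exact cc_map hf hk hx
    · have hyk : (rat a b)^[m - k] ((rat a b)^[k] (z : OnePoint ℂ)) ∈ ((↑) : ℂ → OnePoint ℂ) '' V := by
        rw [← Function.iterate_add_apply, Nat.sub_add_cancel hk]
        exact hy
      have h1 := cc_onto hf ho (n := k) (cc_open hf (m - k) hDo ((rat a b)^[k] (z : OnePoint ℂ)))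
        (cc_pre (m - k) _ _) (y := (z : OnePoint ℂ)) (cc_mem hyk)
      rw [← h1]
      refine image_mono (cc_max (cc_pre k _ _) (cc_mem (by exact cc_mem hyk)) ?_)
      intro x hx
      have h2 := cc_sub (cc_sub hx)
      rw [← Function.iterate_add_apply, Nat.sub_add_cancel hk] at h2
      exact h2
  apply hemb.injective.image_injective
  have hgz : (((gg a b)^[k] z : ℂ) : OnePoint ℂ) = (rat a b)^[k] (z : OnePoint ℂ) :=
    (g_rat h (hspl z hz).1).symm
  rw [on2_cc h hN (hspl z hz).2, hgz, ← key, ← on2_cc h hN hz, image_image, image_image]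
  refine image_congr fun x hx => ?_
  exact (g_rat h (hspl x (connectedComponentIn_subset _ _ hx)).1).symm

end Pool.Agent.H18.UP
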