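import Pool.Agent.H18.UP.WDR
import Pool.Agent.H18.UP.ON2
import Pool.Agent.H18.UP.LOC

/-!
# THEOREM UP: the central domain

PROOF. `δ1` from `loc` (distances of critical points). `c0 ∈ ball c0 ρ ⊆ V` returns to `V` (`Rcr` with `ε = ρ`, `pre_mono`): `wdc`: `m0`, `C0 = connectedComponentIn (pre^m0 V) c0 ∈ WD`, `Ret` (`wdr`). `Chn` for `z = c0`, `m = m0` (`gg^[j] c0 ∉ V ⊇ ball c0 ρ` for `0 < j < m0` by `Ret.fst`).
UNFOLDED is impossible: `ψ (gg^[m0] c0) = c0` and `b_nc` (`i = 0 < m0`): `ww c0 ≠ 0`. FOLDED: if `k1 > 0` then `ψ (gg^[k1] c0) = c0` and `b_nc` give the same contradiction; so `k1 = 0`, `c0 ∈ ball q1 s1`, `s1 ≤ r1 ≤ δ ≤ δ1`: `q1 = c0` (`loc`), and `r1 ^ 2 ≤ 256 e0 ρ1`, so `(L s1) ^ 2 ≤ r1 ^ 2`.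
`inn`: `ball c0 t1` is preconnected, contains `c0`, in `pre^m0 (ball c0 ρ) ⊆ pre^m0 V` (`Fr1.map`, `Fr1.inn`, `mem_pre`): `Ret.cmp`. `out`: `C0` is preconnected, a point `x ∈ C0 ∩ ball c0 r1` has `gg^[m0] x ∈ V ⊆ ball c0 (2 ρ)`, so `x ∈ ball c0 s1` (`Fr1.out`): `in_ball`.
`im`: for `u ∈ C0` (`⊆ ball c0 s1 ⊆ ball c0 r1`) `Fol.lift`: `gg u = γ x'`, `x' = gg^[k2-1] (gg u) = gg^[k2] u` (`b_gg`), `gg^[m0-k2] x' ∈ V ⊆ ball c0 (2 ρ)`: `x' ∈ ball q2 s2` (`Fr2.out`).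
`vq`: `γ y = gg c0` so `y = gg^[k2-1] (gg c0) = gg^[k2] c0` (`b_gg`), `y ∈ closedBall q2 e2`. `B0, B`: `b_der`: `deriv γ y * tD (k2-1) (gg c0) = 1`, and `Fol.dg`.
`nq`: let `k2 < m0` and `q2 ∈ V`. `ball q2 t2` is preconnected, in `pre^(m0-k2) (ball c0 ρ1)`, meets `V` at `q2` (`0 < m0 - k2`): `Nic.nic`: `ball q2 t2 ⊆ V`; but it contains `gg^[k2] c0` (`e2 < t2`), which is not in `V` (`0 < k2 < m0`): contradiction. `eq`: from `Chn`.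
-/

set_option autoImplicit false

open Filter Topology Polynomial Metric Set MeasureTheory

namespace Pool.Agent.H18.UP

open Pool.Agent.H44.Fatou (rat rat_continuous)
open Pool.Agent.H80.AJ (Br KK one_le_KK KK_pos distort distort_lip deriv_ne univ_cover)
open Pool.Agent.H32.BT (IsCrit)
open Pool.Agent.H61.TT Pool.Agent.H57.CP Pool.Agent.H3.NC

variable {d : ℕ} {a b : Polynomial ℂ} {J : Set ℂ} {δ0 : ℝ}

theorem cn1 (h : Geo d a b J δ0) : ∃ δ1 : ℝ, 0 < δ1 ∧ ∀ (c0 : ℂ) (e0 ρ ρ1 M L K C1 δ : ℝ) (V : Set ℂ),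
    GW a b J δ0 c0 e0 ρ ρ1 M L K C1 δ V → δ ≤ δ1 → Rcr a b c0 → ∃ (C0 : Set ℂ) (m0 k2 : ℕ) (q2 : ℂ) (t1 s1 e2 t2 s2 r2 : ℝ),
    Ce1 a b J c0 e0 ρ ρ1 M L K C1 δ V C0 m0 k2 q2 t1 s1 e2 t2 s2 r2 := by
  obtain ⟨A, δ1, hA, hδ1, hδ1', hloc⟩ := loc h
  refine ⟨δ1, hδ1, ?_⟩
  intro c0 e0 ρ ρ1 M L K C1 δ V hG hδ hR
  have hρ := hG.nic.hρ
  have hL := hG.hL
  have hNJ : ∀ q ∈ J, ∀ r : ℝ, r ≤ δ → ball q r ⊆ NJ J δ0 := by
    intro q hq r hr x hx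
    exact ⟨q, hq, ball_subset_ball (hr.trans hG.δδ0) hx⟩
  have h2ρ : 2 * ρ ≤ ρ1 := by nlinarith [hG.ρρ1]
  have hVρ1 : V ⊆ ball c0 ρ1 := hG.nic.out.trans (ball_subset_ball h2ρ)
  have hc0V : c0 ∈ V := hG.nic.inn (mem_ball_self hρ)
  obtain ⟨n, hn, hn'⟩ := hR ρ hρ
  obtain ⟨m0, W, hW, hcW, -⟩ := wdc (a := a) (b := b) (V := V) c0 hc0V ⟨n, hn, pre_mono hG.nic.inn hn'⟩
  have hRet := wdr h hG m0 W hW
  have hpV := hRet.ret c0 hcW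
  have hgV : (gg a b)^[m0] c0 ∈ V := (mem_pre.1 hpV).2
  have hfar : ∀ j, 0 < j → j < m0 → ρ ≤ ‖(gg a b)^[j] c0 - c0‖ := by
    intro j hj hjm
    by_contra hc
    push Not at hc
    exact hRet.fst c0 hcW j hj hjm (hG.nic.inn (mem_ball_iff_norm.2 hc))
  rcases hG.chs m0 c0 hRet.pos (pre_mono hG.nic.out hpV) hfar with
    ⟨ψ, hψ, hψ0⟩ | ⟨k1, k2, q1, q2, y, e1, t1, s1, r1, e2, t2, s2, r2, ψ, γ, hF, hk2, hFr1, hMe1, hFr2, hin, hψz, heq, hr1⟩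
  · exfalso
    have h1 := b_nc h (hNJ c0 hG.cJ ρ1 hG.ρ1δ) hψ (hVρ1 hgV) hRet.pos
    rw [hψ0] at h1
    exact h1 hG.cr.2
  have hs1 : 0 < s1 := hF.t1p.trans_le hF.ts1
  have hs1r : s1 < r1 := by nlinarith [hF.rs1]
  have ht2 : 0 < t2 := lt_of_lt_of_le (by nlinarith [hF.e2p, hG.hM]) hF.te2
  have he2 : e2 < t2 := by nlinarith [hF.te2, hF.e2p, hG.hM]
  have hs2 : 0 < s2 := ht2.trans_le hF.ts2
  have hs2r : s2 < r2 := by nlinarith [hF.rs2]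
  have hN1 := hNJ q1 hF.q1J r1 hF.r1δ
  have hN2 := hNJ q2 hF.q2J r2 hF.r2δ
  have hk1 : k1 = 0 := by
    by_contra hk
    have h1 := b_nc h hN1 hF.br1 (ball_subset_ball hs1r.le hin) (Nat.pos_of_ne_zero hk)
    rw [hψz] at h1
    exact h1 hG.cr.2
  subst hk1
  have hq1 : q1 = c0 := by
    by_contra hne
    have h1 := (hloc c0 hG.cJ hG.cr).2.1 q1 hF.q1J hF.w1 hne
    have h2 : ‖c0 - q1‖ < s1 := mem_ball_iff_norm.1 hin
    rw [norm_sub_rev] at h2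
    have h3 := hF.r1δ
    linarith
  subst hq1
  have hkk : k2 - 0 - 1 + 1 = k2 := by have := hF.lt; omega
  have hyr : y ∈ ball q2 r2 := by
    have h1 : ‖y - q2‖ ≤ e2 := by simpa [mem_closedBall_iff_norm, dist_eq_norm] using hF.yq
    exact mem_ball_iff_norm.2 (by linarith [hF.ts2])
  have hgy : (gg a b)^[k2] q1 = y := by
    have h1 := b_gg h hN2 hF.br2 hyr
    rw [hF.yv, ← Function.iterate_succ_apply, Nat.succ_eq_add_one, hkk] at h1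
    exact h1
  have hder := b_der h hN2 hF.br2 hyr
  rw [hF.yv] at hder
  have hk20 : k2 - 0 - 1 = k2 - 1 := by omega
  rw [hk20] at hder
  have hm0 : m0 - 0 = m0 := Nat.sub_zero m0
  have hball : ball q1 t1 ⊆ W := by
    refine hRet.cmp q1 hcW _ (convex_ball _ _).isPreconnected (mem_ball_self hF.t1p) fun x hx => ?_
    have h1 := hFr1.map x (ball_subset_ball (hF.ts1.trans hs1r.le) hx)
    rw [hm0] at h1
    refine mem_pre.2 ⟨(mem_pre.1 h1).1, hG.nic.inn ?_⟩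
    have h2 := hFr1.inn x hx
    rwa [hm0] at h2
  have hWs : W ⊆ ball q1 s1 := by
    refine in_ball hRet.con hs1r (fun x hx hxr => ?_) hcW (mem_ball_self hs1)
    refine hFr1.out x hxr ?_
    rw [hm0]
    exact hG.nic.out (mem_pre.1 (hRet.ret x hx)).2
  refine ⟨W, m0, k2, q2, t1, s1, e2, t2, s2, r2, ⟨hRet.pos, hW, hcW, hF.t1p, hball, hWs, hF.st1, ?_, hF.lt, hk2,
    hF.q2J, hF.w2, hFr2, ?_, hF.te2, hF.st2, hF.rs2, hF.r2δ, ?_, ?_, ?_, heq, ?_⟩⟩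
  · have h1 := hr1 rfl rfl
    have h2 : (L * s1) ^ 2 ≤ r1 ^ 2 := pow_le_pow_left₀ (by positivity) hF.rs1 2
    linarith
  · rw [hgy]
    simpa [mem_closedBall_iff_norm, dist_eq_norm] using hF.yq
  · exact right_ne_zero_of_mul_eq_one hder
  · rw [← norm_inv, ← eq_inv_of_mul_eq_one_left hder]
    exact hF.dg
  · intro hlt hq2V
    have h1 : ball q2 t2 ⊆ V := by
      refine hG.nic.nic (m0 - k2) (by omega) _ (convex_ball _ _).isPreconnected (fun x hx => ?_)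
        ⟨q2, mem_ball_self ht2, hq2V⟩
      exact hFr2.map x (ball_subset_ball (hF.ts2.trans hs2r.le) hx)
    refine hRet.fst q1 hcW k2 hF.lt hlt (h1 ?_)
    rw [hgy]
    have h2 : ‖y - q2‖ ≤ e2 := by simpa [mem_closedBall_iff_norm, dist_eq_norm] using hF.yq
    exact mem_ball_iff_norm.2 (by linarith)
  · intro u hu
    obtain ⟨x', hx', hγ⟩ := hF.lift u (ball_subset_ball hs1r.le (hWs hu))
    have h1 := b_gg h hN2 hF.br2 hx'
    rw [hγ, ← Function.iterate_succ_apply, Nat.succ_eq_add_one, hkk] at h1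
    rw [h1]
    refine hFr2.out x' hx' (hG.nic.out ?_)
    have h2 := (mem_pre.1 (hRet.ret u hu)).2
    rw [← h1, ← Function.iterate_add_apply, Nat.sub_add_cancel hk2]
    exact h2

end Pool.Agent.H18.UP
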