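import Pool.Agent.H18.UP.DF2
import Pool.Agent.H43.UP.Defs

/-!
# THEOREM UP: the data of the nice set

`GW`: everything we know about the nice set `V` (`nic`), with the root frame `(c0; e0, ρ, 2 ρ, ρ1)`: `chs` (data of the pull backs), `scl` (small pull backs), the collar `col`.
-/

set_option autoImplicit false

open Filter Topology Polynomial Metric Set MeasureTheory

namespace Pool.Agent.H18.UP

open Pool.Agent.H44.Fatou (rat rat_continuous)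
open Pool.Agent.H80.AJ (Br KK one_le_KK KK_pos distort distort_lip deriv_ne univ_cover)
open Pool.Agent.H32.BT (IsCrit)
open Pool.Agent.H61.TT Pool.Agent.H57.CP Pool.Agent.H3.NC

variable {d : ℕ} {a b : Polynomial ℂ} {J : Set ℂ} {δ0 : ℝ}

structure GW (a b : Polynomial ℂ) (J : Set ℂ) (δ0 : ℝ) (c0 : ℂ) (e0 ρ ρ1 M L K C1 δ : ℝ) (V : Set ℂ) : Prop where
  cJ : c0 ∈ J
  cr : Cr a b c0
  e0p : 0 < e0
  hM : 4 ≤ M
  hL : 4 ≤ L
  hK : 2 ≤ K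
  e0ρ : M * e0 ≤ ρ
  ρρ1 : 2 * (L * ρ) ≤ ρ1
  ρ1δ : ρ1 ≤ δ
  δδ0 : δ ≤ δ0
  bn : ∀ z ∈ ball c0 ρ1, b.eval z ≠ 0
  col : PJ a b J ∩ ball c0 ρ1 ⊆ closedBall c0 e0
  nic : Nic a b c0 ρ ρ1 V
  chs : Chs a b J c0 e0 ρ ρ1 M L K C1 δ
  scl : Scl a b c0 e0 ρ ρ1 L

end Pool.Agent.H18.UP
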