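import Pool.Agent.H18.UP.FNA
import Pool.Agent.H66.UP.CS

/-!
# THEOREM UP, the final part: the charts if the Julia set is the sphere

`ch_s`, `all_s`, `crit_pl` (H66/UP/CS).
-/

set_option autoImplicit false

open Filter Topology Polynomial Metric Set MeasureTheory

namespace Pool.Agent.H18.UP

open Pool.Agent.H44.Fatou (rat rat_continuous rat_coe rat_coe_of_ne pt crit_coe)
open Pool.Agent.H32.BT Pool.Agent.H79.Eul Pool.Agent.H79.Par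
open Pool.Agent.H35.EX Pool.Agent.H44.RR Pool.Agent.H56.HR Pool.Agent.H44.RC Pool.Agent.H47.RJ
open Pool.Agent.H47.NM Pool.Agent.H47.NN Pool.Agent.H44.ND Pool.Agent.H79.ES Pool.Agent.H44.RG
open Pool.Agent.H44.CP Pool.Agent.H57.CF Pool.Agent.H47.PS Pool.Agent.H64.NC
open Pool.Agent.H61.TT Pool.Agent.H57.CP Pool.Agent.H3.NC
open Pool.Agent.H66.UP (KD)

variable {d : ℕ}

theorem cu_s (hd : 2 ≤ d) {v : E d} (hcop : IsCoprime (pol v.1) (pol v.2))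
    (hdeg : max (pol v.1).natDegree (pol v.2).natDegree = d) (hup : ¬ Up v) (hJ : JS (Rf v) = univ) :
    ∀ x0 ∈ PS (Rf v), ∃ (u : E d) (φ : OnePoint ℂ ≃ₜ OnePoint ℂ) (K : ℝ) (J : Set ℂ) (δ0 : ℝ), CU v u φ K J δ0 ∧
      φ x0 ≠ OnePoint.infty ∧ ∀ c0 ∈ J, Cr (pol u.1) (pol u.2) c0 →
      ∃ (Z : Set ℂ) (δ1 R C : ℝ) (q r K' : ℂ → ℂ → ℂ) (Y : ℂ → ℂ), KD (pol u.1) (pol u.2) J Z c0 δ1 R C q r K' Y := by
  intro x0 hx0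
  obtain ⟨c, hc, -⟩ : ∃ c, IsCrit (Rf v) c ∧ c ∈ JS (Rf v) := by
    have h1 : {y | ∃ c, IsCrit (Rf v) c ∧ c ∈ JS (Rf v) ∧ ∃ n : ℕ, 1 ≤ n ∧ (Rf v)^[n] c = y}.Nonempty :=
      closure_nonempty_iff.1 ⟨x0, hx0⟩
    obtain ⟨y, c, h2, h3, -⟩ := h1
    exact ⟨c, h2, h3⟩
  obtain ⟨L, G, φ, K, hch, hinf, e0, e1, ei, hup1, hJ1⟩ := Pool.Agent.H66.UP.ch_s hd hcop hdeg hup hJ x0
  obtain ⟨hcop1, hdeg1, hφ⟩ := hch.conj v hcop hdeg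
  have hc1 : IsCrit (Rf (L v)) (φ c) := (isCrit_conj φ hφ c).2 hc
  obtain ⟨hG, hK⟩ := Pool.Agent.H66.UP.all_s hd hcop1 hdeg1 hup1 hJ1 e0 e1 ei hc1
  refine ⟨L v, φ, K, univ, 1, ⟨hch.K1, hch.bil, hφ, hG, fun z => ?_, fun c hc _ => ?_, Or.inl ei⟩, hinf, fun c0 _ h0 => ?_⟩
  · rw [hJ1]
    simp
  · exact Pool.Agent.H66.UP.crit_pl hd hcop1 hdeg1 hup1 hJ1 ei hc
  · obtain ⟨δ1, R, C, r, K', Y, h⟩ := hK c0 h0
    exact ⟨univ, δ1, R, C, _, r, K', Y, h⟩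

end Pool.Agent.H18.UP
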