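import Pool.Agent.H18.UP.FNF
import Pool.Agent.H18.UP.FNG
import Pool.Agent.H18.UP.FNS
import Pool.Agent.H83.UP.ALL
import Pool.Agent.H66.UP.Dim
import Pool.Agent.H57.CF.ENF
import Pool.Agent.H64.PC.Fin

/-!
# THEOREM UP: the theorem for one map
-/

set_option autoImplicit false

open Filter Topology Polynomial Metric Set MeasureTheory

namespace Pool.Agent.H18.UP

open Pool.Agent.H44.Fatou (rat rat_continuous rat_coe rat_coe_of_ne pt crit_coe)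
open Pool.Agent.H32.BT Pool.Agent.H79.Eul Pool.Agent.H79.Par
open Pool.Agent.H35.EX Pool.Agent.H44.RR Pool.Agent.H56.HR Pool.Agent.H44.RC Pool.Agent.H47.RJ
open Pool.Agent.H47.NM Pool.Agent.H47.NN Pool.Agent.H44.ND Pool.Agent.H79.ES Pool.Agent.H44.RG
open Pool.Agent.H44.CP Pool.Agent.H57.CF Pool.Agent.H47.PS Pool.Agent.H64.NC
open Pool.Agent.H61.TT Pool.Agent.H57.CP Pool.Agent.H3.NC
open Pool.Agent.H66.UP (KD)

variable {d : ℕ}

open Pool.Agent.H83.UP (DAT all_up all_upF)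

theorem fnd_B' {y0 z w : ℂ} (hz : ‖z - y0‖ < 1) (hw : ‖w - y0‖ < 1) :
    ‖z - w‖ ≤ (1 + (‖y0‖ + 1) ^ 2) * chord (z : OnePoint ℂ) (w : OnePoint ℂ) := by
  have h1 : chord (z : OnePoint ℂ) (w : OnePoint ℂ) =
      ‖z - w‖ / (√(1 + ‖z‖ ^ 2) * √(1 + ‖w‖ ^ 2)) := rfl
  have hn : ∀ u : ℂ, ‖u - y0‖ < 1 → √(1 + ‖u‖ ^ 2) ≤ √(1 + (‖y0‖ + 1) ^ 2) := by
    intro u hu
    have h2 : ‖u‖ ≤ ‖y0‖ + 1 := by
      have h3 : u = y0 + (u - y0) := by ring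
      rw [h3]
      exact (norm_add_le _ _).trans (by linarith)
    refine Real.sqrt_le_sqrt ?_
    have := norm_nonneg u
    nlinarith
  have hp : ∀ u : ℂ, 0 < √(1 + ‖u‖ ^ 2) := fun u => Real.sqrt_pos.2 (by positivity)
  have h4 : √(1 + ‖z‖ ^ 2) * √(1 + ‖w‖ ^ 2) ≤ 1 + (‖y0‖ + 1) ^ 2 := by
    refine (mul_le_mul (hn z hz) (hn w hw) (hp w).le (Real.sqrt_nonneg _)).trans (le_of_eq ?_)
    exact Real.mul_self_sqrt (by positivity)
  rw [h1, mul_div_assoc', le_div_iff₀ (mul_pos (hp z) (hp w)), mul_comm]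
  exact mul_le_mul_of_nonneg_right h4 (norm_nonneg _)

/-- a uniformly perfect closed set of the sphere has positive dimension -/
theorem dim_ups {P : Set (OnePoint ℂ)} (hP : IsClosed P) (h : UPs P) (hne : P.Nonempty) :
    0 < dimH {z : ℂ | (z : OnePoint ℂ) ∈ P} := by
  obtain ⟨κ, hκ, hup⟩ := h
  obtain ⟨x0, hx0⟩ : ∃ x0 : ℂ, (x0 : OnePoint ℂ) ∈ P := by
    obtain ⟨x, hx⟩ := hne
    by_cases hi : x = OnePoint.infty
    · subst hi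
      obtain ⟨y, hy, h1, -⟩ := hup _ hx (κ / 2) (by linarith) (by linarith)
      have h2 : y ≠ OnePoint.infty := by
        rintro rfl
        have h3 : chord OnePoint.infty OnePoint.infty = 0 := rfl
        rw [h3] at h1
        nlinarith
      obtain ⟨z, hz⟩ := OnePoint.ne_infty_iff_exists.1 h2
      exact ⟨z, by rw [hz]; exact hy⟩
    · obtain ⟨z, hz⟩ := OnePoint.ne_infty_iff_exists.1 hi
      exact ⟨z, by rw [hz]; exact hx⟩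
  have hcl : IsClosed {z : ℂ | (z : OnePoint ℂ) ∈ P} := hP.preimage OnePoint.continuous_coe
  have hU : ((↑) : ℂ → OnePoint ℂ) '' ball x0 (1 / 2) ∈ 𝓝 (x0 : OnePoint ℂ) :=
    (OnePoint.isOpenEmbedding_coe.isOpenMap _ isOpen_ball).mem_nhds
      (mem_image_of_mem _ (mem_ball_self (by norm_num)))
  obtain ⟨r1, hr1, hr1U⟩ := Pool.Agent.H44.RC.ch_nhds hU
  obtain ⟨B, hB⟩ : ∃ B : ℝ, B = 1 + (‖x0‖ + 1) ^ 2 := ⟨_, rfl⟩
  have hB1 : 1 ≤ B := by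
    rw [hB]
    nlinarith [sq_nonneg (‖x0‖ + 1)]
  have hB0 : 0 < B := by linarith
  obtain ⟨ρ0, hρ⟩ : ∃ ρ0 : ℝ, ρ0 = min (1 / 2) (min (r1 / 4) (κ / 2)) := ⟨_, rfl⟩
  have hρ0 : 0 < ρ0 := by
    rw [hρ]
    positivity
  have k1 : ρ0 ≤ 1 / 2 := by
    rw [hρ]
    exact min_le_left _ _
  have k2 : ρ0 ≤ r1 / 4 := by
    rw [hρ]
    exact (min_le_right _ _).trans (min_le_left _ _)
  have k3 : ρ0 ≤ κ / 2 := by
    rw [hρ]
    exact (min_le_right _ _).trans (min_le_right _ _)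
  obtain ⟨Λ, hΛ⟩ : ∃ Λ : ℝ, Λ = B / κ + 2 := ⟨_, rfl⟩
  have hΛ0 : 0 < B / κ := by positivity
  refine Pool.Agent.H66.UP.dim_pos hcl (x0 := x0) hx0 (Λ := Λ) (ρ0 := ρ0) (by rw [hΛ]; linarith) hρ0 ?_
  intro x hx hxx ρ hρ1 hρ2
  rw [dist_eq_norm] at hxx
  obtain ⟨y, hy, h1, h2⟩ := hup x hx (ρ / B) (by positivity) (by
    rw [div_lt_iff₀ hB0]
    nlinarith)
  have hρB : ρ / B ≤ ρ := div_le_self hρ1.le hB1
  have h3 : chord (x0 : OnePoint ℂ) y < r1 := by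
    refine (Pool.Agent.H44.RC.ch_tri _ (x : OnePoint ℂ) _).trans_lt ?_
    have h4 : chord (x0 : OnePoint ℂ) (x : OnePoint ℂ) ≤ ‖x0 - x‖ := Pool.Agent.H57.CF.upf_le x0 x
    rw [norm_sub_rev] at h4
    linarith
  obtain ⟨w, hw, rfl⟩ := hr1U h3
  refine ⟨w, hy, ?_, ?_⟩
  · rw [dist_eq_norm, norm_sub_rev]
    have h4 : chord (x : OnePoint ℂ) (w : OnePoint ℂ) ≤ ‖x - w‖ := Pool.Agent.H57.CF.upf_le x w
    have h5 : ρ / Λ ≤ κ * (ρ / B) := by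
      rw [div_le_iff₀ (by rw [hΛ]; linarith), hΛ]
      have h6 : κ * (ρ / B) * (B / κ + 2) = ρ + κ * (ρ / B) * 2 := by
        field_simp
      rw [h6]
      have : 0 ≤ κ * (ρ / B) * 2 := by positivity
      linarith
    linarith
  · rw [dist_eq_norm, norm_sub_rev]
    have h4 := fnd_B' (y0 := x0) (z := x) (w := w) (by linarith) (by
      have := mem_ball_iff_norm.1 hw
      linarith)
    have h5 : (1 + (‖x0‖ + 1) ^ 2) * chord (x : OnePoint ℂ) (w : OnePoint ℂ) ≤ B * (ρ / B) := by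
      rw [← hB]
      exact mul_le_mul_of_nonneg_left h2.le hB0.le
    have h6 : B * (ρ / B) = ρ := by field_simp
    linarith

theorem cu_dat (hd : 2 ≤ d) {v u : E d} {φ : OnePoint ℂ ≃ₜ OnePoint ℂ} {K : ℝ}
    (hcop : IsCoprime (pol v.1) (pol v.2)) (hdeg : max (pol v.1).natDegree (pol v.2).natDegree = d)
    (bil : ∀ x y, chord (φ x) (φ y) ≤ K * chord x y ∧ chord x y ≤ K * chord (φ x) (φ y))
    (conj : ∀ x, Rf u (φ x) = φ (Rf v x)) (hinf : OnePoint.infty ∈ FS (Rf u)) (hD : DAT d (pol u.1) (pol u.2) (JC u)) :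
    ∀ x0 ∈ PS (Rf v), ∃ (u : E d) (φ : OnePoint ℂ ≃ₜ OnePoint ℂ) (K : ℝ) (J : Set ℂ) (δ0 : ℝ), CU v u φ K J δ0 ∧
      φ x0 ≠ OnePoint.infty ∧ ∀ c0 ∈ J, Cr (pol u.1) (pol u.2) c0 →
      ∃ (Z : Set ℂ) (δ1 R C : ℝ) (q r K' : ℂ → ℂ → ℂ) (Y : ℂ → ℂ), KD (pol u.1) (pol u.2) J Z c0 δ1 R C q r K' Y := by
  intro x0 hx0
  obtain ⟨δ0, hG, hKD⟩ := hD
  have hn : OnePoint.infty ∉ JS (Rf u) := fun hn => hn hinf
  refine ⟨u, φ, K, JC u, δ0, ⟨k_one bil, bil, conj, hG, fun z => Iff.rfl, fun c _ hc => ?_, Or.inr hn⟩, ?_, hKD⟩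
  · have h1 : c ≠ OnePoint.infty := fun e => hn (e ▸ hc)
    obtain ⟨z, hz⟩ := OnePoint.ne_infty_iff_exists.1 h1
    exact ⟨z, hz.symm⟩
  · intro e
    have h1 := ps_js (by omega) hcop hdeg hx0
    have h2 : φ x0 ∈ JS (Rf u) := fun hn => h1 ((Pool.Agent.H76.SU.fs_conj bil conj x0).1 hn)
    rw [e] at h2
    exact hn h2

theorem ps_crit {f : OnePoint ℂ → OnePoint ℂ} {x0 : OnePoint ℂ} (hx0 : x0 ∈ PS f) : ∃ c, IsCrit f c ∧ c ∈ JS f := by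
  have h1 : {y | ∃ c, IsCrit f c ∧ c ∈ JS f ∧ ∃ n : ℕ, 1 ≤ n ∧ f^[n] c = y}.Nonempty :=
    closure_nonempty_iff.1 ⟨x0, hx0⟩
  obtain ⟨y, c, h2, h3, -⟩ := h1
  exact ⟨c, h2, h3⟩

theorem up_zero (hd : 2 ≤ d) {v : E d} (hcop : IsCoprime (pol v.1) (pol v.2))
    (hdeg : max (pol v.1).natDegree (pol v.2).natDegree = d) (hup : ¬ Up v) : UPs (PS (Rf v)) := by
  refine up_map ((Pool.Agent.H64.PC.conc_or (v := v) hd hcop hdeg).resolve_right hup) ?_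
  by_cases hJ : JS (Rf v) = univ
  · exact cu_s hd hcop hdeg hup hJ
  · intro x0 hx0
    obtain ⟨c, hc, hcJ⟩ := ps_crit hx0
    have hF : (FS (Rf v)).Nonempty := by
      obtain ⟨x, hx⟩ := (ne_univ_iff_exists_notMem _).1 hJ
      exact ⟨x, not_not.1 hx⟩
    obtain ⟨u, φ, K, T, bil, conj, hGA, hD⟩ := all_up hd hcop hdeg hup hF hc hcJ
    exact cu_dat hd hcop hdeg bil conj hGA.fi hD x0 hx0

theorem up_fam (hd : 2 ≤ d) {k : ℕ} (hk : 2 ≤ k) (hkd : k ≤ d) {x : Em d k} (hcop : IsCoprime (pol x.1) (pol x.2))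
    (hdeg : max (pol x.1).natDegree (pol x.2).natDegree = d) (hup : ¬ UpF d k x) : UPs (PS (Rf (ex d k x))) := by
  refine up_map ((Pool.Agent.H57.CF.concF_all hd hk hkd hcop hdeg).resolve_right hup) ?_
  intro x0 hx0
  obtain ⟨c, hc, hcJ⟩ := ps_crit hx0
  obtain ⟨u, φ, K, T, bil, conj, hGA, hD⟩ := all_upF hd hk hkd hcop hdeg hup hc hcJ
  exact cu_dat hd (ex_cop hcop) (ex_deg hdeg) bil conj hGA.fi hD x0 hx0

end Pool.Agent.H18.UP
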