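import Pool.Agent.H18.UP.WDR
import Pool.Agent.H18.UP.ON2
import Pool.Agent.H18.UP.SQC
import Pool.Agent.H18.UP.LOC

/-!
# THEOREM UP: the first return domains are unfolded or folded (in the form of H43/UP/Defs)

PROOF. `δ1` from `loc` and `sqc`. Let `W = connectedComponentIn (pre^m V) z ∈ WD a b V m`, `R = Ret` (`wdr`), `Chn` for `z` (`GW.chs`; `z ∈ pre^m V`, `gg^[j] z ∉ V ⊇ ball c0 ρ`).
UNFOLDED: `ψ` on `ball c0 ρ1`, `ψ (gg^[m] z) = z`. `W ⊆ pre^m (ball c0 ρ1)`: `b_clp`: `ψ (gg^[m] x) = x` on `W`, so `W ⊆ ψ '' V`; `ψ '' V` is preconnected, contains `z`, in `pre^m V`: `⊆ W` (`Ret.cmp`). `R = ρ1`, `2 ρ ≤ η ρ1` (`1 ≤ η L`), `PBr` from `Br` (`b_pre`, `mem_pre`).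
FOLDED: data `Fol`, `Fr1`, `Fr2`. `W1 = gg^[k1] '' W`, `W2 = gg^[k2] '' W` (`k2 = k1 + 1 + n2`), `c1 = q1`, `c2 = q2`, `G = γ`, `σ2 = t2`.
`W1 ⊆ ball q1 s1`: `W1` is preconnected, contains `gg^[k1] z`; a point `gg^[k1] x ∈ ball q1 r1` has `gg^[m-k1] (gg^[k1] x) = gg^[m] x ∈ V ⊆ ball c0 (2 ρ)`, so it is in `ball q1 s1` (`Fr.out`): `in_ball` (`s1 < r1`: `4 s1 ≤ L s1 ≤ r1`). `hW`: `b_clp`.
For `x ∈ W`, `u = gg^[k1] x ∈ ball q1 s1 ⊆ ball q1 r1`: `Fol.lift`: `gg u = γ x'`, `x' ∈ ball q2 r2`, `x' = gg^[n2] (γ x') = gg^[k2] x`; and `gg^[m - k2] x' = gg^[m] x ∈ V`, so `x' ∈ ball q2 s2` (`Fr2.out`): `W2 ⊆ ball q2 s2`, and `gg '' W1 = γ '' W2`.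
`W2b`: `W2 = connectedComponentIn (pre^(m-k2) V) (gg^[k2] z)` (`on2`). There is `x ∈ W` with `gg^[m] x = c0` (`Ret.ont`); `x' = gg^[k2] x ∈ ball q2 s2`, `gg^[m-k2] x' = c0`, so `x' ∈ closedBall q2 e2 ⊆ ball q2 t2` (`Fr2.eps`, `M e2 ≤ t2`, `M ≥ 4`); `ball q2 t2` is preconnected, in `pre^(m-k2) (ball c0 ρ) ⊆ pre^(m-k2) V` (`Fr2.inn`, `Fr2.map`, `mem_pre`), so in the component.
`W2o`: the component of an open set. `sat`: let `u ∈ ball q1 r1`, `gg u = γ x'`, `x' ∈ W2`. `u ∈ pre^(m-k1) V` (`b u ≠ 0` by `Fr1.map` / `mem_pre`). Let `U = connectedComponentIn (pre^(m-k1) V) u`. `U ⊆ ball q1 s1` (`in_ball`, `Fr1.out`). `gg '' U` = the component of `gg u` in `pre^(m-k1-1) V` (`on2`, `k = 1`) contains `γ '' W2` (preconnected, contains `gg u`, in `pre^(m-k1-1) V`), which contains `γ y = gg q1` (`y ∈ closedBall q2 e2 ⊆ ball q2 t2 ⊆ W2`). So there is `u' ∈ U` with `gg u' = gg q1`, `u' ∈ ball q1 s1`: `u' = q1` (`loc`: `‖u' - q1‖ ^ 2 ≤ A ‖gg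 u' - gg q1‖ = 0`, `s1 ≤ δ ≤ δ1`). The same for `W1` (`= connectedComponentIn (pre^(m-k1) V) (gg^[k1] z)` by `on2`): `q1 ∈ W1`. So `U = W1` and `u ∈ W1`.
`hs1, hs2`: `1 ≤ η L`. `hy`: `e2 ≤ t2 / M`, `1 ≤ η M`. `hK`: `s2 ≤ K t2`. `sq1, sq2`: `sqc`. `br`: `Fol.br2` (`n2 = k2 - k1 - 1`).
-/

set_option autoImplicit false

open Filter Topology Polynomial Metric Set MeasureTheory

namespace Pool.Agent.H18.UP

open Pool.Agent.H44.Fatou (rat rat_continuous)
open Pool.Agent.H80.AJ (Br KK one_le_KK KK_pos distort distort_lip deriv_ne univ_cover)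
open Pool.Agent.H32.BT (IsCrit)
open Pool.Agent.H61.TT Pool.Agent.H57.CP Pool.Agent.H3.NC

variable {d : ℕ} {a b : Polynomial ℂ} {J : Set ℂ} {δ0 : ℝ}

private theorem fld_nj {c : ℂ} (hc : c ∈ J) {r : ℝ} (hr : r ≤ δ0) : ball c r ⊆ NJ J δ0 :=
  fun _ hw => ⟨c, hc, ball_subset_ball hr hw⟩

private theorem fld_pbr (h : Geo d a b J δ0) {n : ℕ} {q : ℂ} {r : ℝ} {ψ : ℂ → ℂ} (hq : ball q r ⊆ NJ J δ0)
    (hψ : Br (rat a b) n q r (ψ q) ψ) : Pool.Agent.H43.UP.PBr a b n q r ψ :=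
  ⟨hψ.diff, fun _ hw => (mem_pre.1 (b_pre h hq hψ hw)).1, fun _ hw => b_gg h hq hψ hw⟩

private theorem fld_mul {c L s r : ℝ} (h : 1 ≤ c * L) (hL : 4 ≤ L) (hs : 0 ≤ s) (hr : L * s ≤ r) : s ≤ c * r := by
  have hc : 0 < c := by
    by_contra hc
    push Not at hc
    nlinarith
  calc s ≤ c * L * s := le_mul_of_one_le_left hs h
    _ = c * (L * s) := by ring
    _ ≤ c * r := mul_le_mul_of_nonneg_left hr hc.le

theorem fld (h : Geo d a b J δ0) : ∃ δ1 : ℝ, 0 < δ1 ∧ ∀ (c0 : ℂ) (e0 ρ ρ1 M L K C1 δ η : ℝ) (V : Set ℂ),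
    GW a b J δ0 c0 e0 ρ ρ1 M L K C1 δ V → δ ≤ δ1 → 1 ≤ η * L → 1 ≤ η * M → ∀ m, ∀ W ∈ WD a b V m,
    Pool.Agent.H43.UP.Unf a b V c0 ρ η m W ∨ Pool.Agent.H43.UP.Fld a b K η m W := by
  obtain ⟨A, δA, hA, hδA, hδA1, hloc⟩ := loc h
  obtain ⟨δB, hδB, hsqc⟩ := sqc h
  refine ⟨min δA δB, lt_min hδA hδB, ?_⟩
  intro c0 e0 ρ ρ1 M L K C1 δ η V hG hδ hηL hηM m W hW
  have hR := wdr h hG m W hW
  obtain ⟨z, hzV, hm0, hzm, hzn, hWeq⟩ := hW
  have hρ := hG.nic.hρ
  have hL := hG.hL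
  have hM := hG.hM
  have hρρ1 := hG.ρρ1
  have h2ρ : 2 * ρ ≤ ρ1 := by nlinarith
  have hδδ0 := hG.δδ0
  have hρ1δ := hG.ρ1δ
  have hVb : V ⊆ ball c0 ρ1 := hG.nic.out.trans (ball_subset_ball h2ρ)
  have hbN : ball c0 ρ1 ⊆ NJ J δ0 := fld_nj hG.cJ (by linarith)
  have hVN : V ⊆ NJ J δ0 := hVb.trans hbN
  have hzW : z ∈ W := by
    rw [hWeq]
    exact mem_connectedComponentIn hzm
  have hc := hG.chs m z hm0 (pre_mono hG.nic.out hzm) (fun j hj0 hjm => by
    by_contra hlt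
    push Not at hlt
    exact hzn j hj0 hjm (hG.nic.inn (by rw [mem_ball, dist_eq_norm]; exact hlt)))
  rcases hc with ⟨ψ, hψ, hψz⟩ | ⟨k1, k2, q1, q2, y, e1, t1, s1, r1, e2, t2, s2, r2, ψ, γ, hF, hk2m, hf1, hM1, hf2,
    hz1, hψz, -, -⟩
  · -- unfolded
    left
    refine ⟨ρ1, ψ, ?_, fld_pbr h hbN hψ, ?_⟩
    · have h1 := fld_mul (s := 2 * ρ) (r := ρ1) hηL hL (by linarith) (by linarith)
      exact h1
    · apply Subset.antisymm
      · intro x hx
        have h1 := b_clp h hbN hψ hR.con (fun z hz => pre_mono hVb (hR.ret z hz)) hzW hψz x hx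
        exact ⟨(gg a b)^[m] x, (mem_pre.1 (hR.ret x hx)).2, h1⟩
      · refine hR.cmp z hzW _ (hG.nic.con.image _ (hψ.diff.continuousOn.mono hVb))
          ⟨(gg a b)^[m] z, (mem_pre.1 hzm).2, hψz⟩ ?_
        rintro _ ⟨v, hv, rfl⟩
        exact pre_mono (singleton_subset_iff.2 hv) (b_pre h hbN hψ (hVb hv))
  · -- folded
    right
    have hlt := hF.lt
    have hr1δ := hF.r1δ
    have hr2δ := hF.r2δ
    have hN1 : ball q1 r1 ⊆ NJ J δ0 := fld_nj hF.q1J (by linarith)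
    have hN2 : ball q2 r2 ⊆ NJ J δ0 := fld_nj hF.q2J (by linarith)
    have ht1 := hF.t1p
    have hs1p : 0 < s1 := lt_of_lt_of_le hF.t1p hF.ts1
    have he2 := hF.e2p
    have ht2e : e2 < t2 := by
      have := hF.te2
      nlinarith
    have ht2p : 0 < t2 := by linarith
    have hs2p : 0 < s2 := lt_of_lt_of_le ht2p hF.ts2
    have hs1r1 : s1 < r1 := by
      have := hF.rs1
      nlinarith
    have hs2r2 : s2 < r2 := by
      have := hF.rs2
      nlinarith
    have hn : ∀ j, j ≤ m → ∀ x ∈ W, (gg a b)^[m - j] ((gg a b)^[j] x) = (gg a b)^[m] x := by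
      intro j hj x _
      rw [← Function.iterate_add_apply, Nat.sub_add_cancel hj]
    have hmV : ∀ x ∈ W, (gg a b)^[m] x ∈ V := fun x hx => (mem_pre.1 (hR.ret x hx)).2
    have hcont : ∀ j, j ≤ m → ContinuousOn (gg a b)^[j] W := by
      intro j hj x hx
      have h1 : x ∈ (pre a b)^[j] univ := mem_pre.2 ⟨fun i hi => (mem_pre.1 (hR.ret x hx)).1 i (by omega), mem_univ _⟩
      exact (g_diff h1).continuousAt.continuousWithinAt
    have hk1m : k1 ≤ m := by omega
    have hW1p : IsPreconnected ((gg a b)^[k1] '' W) := hR.con.image _ (hcont k1 hk1m)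
    have hW2p : IsPreconnected ((gg a b)^[k2] '' W) := hR.con.image _ (hcont k2 hk2m)
    have hW1s : (gg a b)^[k1] '' W ⊆ ball q1 s1 := by
      refine in_ball hW1p hs1r1 ?_ (mem_image_of_mem _ hzW) hz1
      rintro _ ⟨x, hx, rfl⟩ hxr
      refine hf1.out _ hxr ?_
      rw [hn k1 hk1m x hx]
      exact hG.nic.out (hmV x hx)
    have hkk : k2 = (k2 - k1 - 1) + (1 + k1) := by omega
    have hit : ∀ x ∈ W, (gg a b)^[k2 - k1 - 1] (gg a b ((gg a b)^[k1] x)) = (gg a b)^[k2] x := by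
      intro x _
      conv_rhs => rw [hkk, Function.iterate_add_apply, add_comm 1 k1, Function.iterate_succ_apply']
    have hx2 : ∀ x ∈ W, (gg a b)^[k2] x ∈ ball q2 r2 ∧ γ ((gg a b)^[k2] x) = gg a b ((gg a b)^[k1] x) := by
      intro x hx
      obtain ⟨x', hx', hγ⟩ := hF.lift ((gg a b)^[k1] x) (ball_subset_ball hs1r1.le (hW1s (mem_image_of_mem _ hx)))
      have h1 := b_gg h hN2 hF.br2 hx'
      rw [hγ, hit x hx] at h1
      rw [h1]
      exact ⟨hx', hγ⟩
    have hW2s : (gg a b)^[k2] '' W ⊆ ball q2 s2 := by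
      rintro _ ⟨x, hx, rfl⟩
      refine hf2.out _ (hx2 x hx).1 ?_
      rw [hn k2 hk2m x hx]
      exact hG.nic.out (hmV x hx)
    have hfW : gg a b '' ((gg a b)^[k1] '' W) = γ '' ((gg a b)^[k2] '' W) := by
      rw [image_image, image_image]
      exact image_congr fun x hx => (hx2 x hx).2.symm
    have hVo := hG.nic.op
    have hVc := hG.nic.con
    have hW2e : (gg a b)^[k2] '' W = connectedComponentIn ((pre a b)^[m - k2] V) ((gg a b)^[k2] z) := by
      rw [hWeq]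
      exact on2 h hVo hVc hVN hk2m hzm
    have hW1e : (gg a b)^[k1] '' W = connectedComponentIn ((pre a b)^[m - k1] V) ((gg a b)^[k1] z) := by
      rw [hWeq]
      exact on2 h hVo hVc hVN hk1m hzm
    have hW2o : IsOpen ((gg a b)^[k2] '' W) := by
      rw [hW2e]
      exact (pre_open hVo).connectedComponentIn
    have hW2b : ball q2 t2 ⊆ (gg a b)^[k2] '' W := by
      obtain ⟨x, hx, hxc⟩ := hR.ont c0 (hG.nic.inn (mem_ball_self hρ))
      have h1 : (gg a b)^[k2] x ∈ closedBall q2 e2 := by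
        refine hf2.eps _ (hx2 x hx).1 ?_
        rw [hn k2 hk2m x hx, hxc]
        exact mem_closedBall_self hG.e0p.le
      have h2 : (gg a b)^[k2] x ∈ ball q2 t2 := closedBall_subset_ball ht2e h1
      have h3 : (gg a b)^[k2] x ∈ connectedComponentIn ((pre a b)^[m - k2] V) ((gg a b)^[k2] z) := by
        rw [← hW2e]
        exact mem_image_of_mem _ hx
      rw [hW2e, connectedComponentIn_eq h3]
      refine (convex_ball q2 t2).isPreconnected.subset_connectedComponentIn h2 ?_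
      intro v hv
      have h4 : v ∈ ball q2 r2 := ball_subset_ball (hF.ts2.trans hs2r2.le) hv
      exact mem_pre.2 ⟨(mem_pre.1 (hf2.map v h4)).1, hG.nic.inn (hf2.inn v hv)⟩
    have hyW : y ∈ (gg a b)^[k2] '' W := hW2b (closedBall_subset_ball ht2e hF.yq)
    have hone : ∀ u ∈ ball q1 s1, gg a b u = gg a b q1 → u = q1 := by
      intro u hu he
      obtain ⟨h1, -, -⟩ := hloc q1 hF.q1J hF.w1
      have h2 : u ∈ ball q1 δA := ball_subset_ball (by
        have := min_le_left δA δB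
        linarith) hu
      have h3 := (h1 u h2).2.1
      rw [he, sub_self, norm_zero, mul_zero] at h3
      have h4 : ‖u - q1‖ = 0 := by
        have := sq_nonneg ‖u - q1‖
        exact pow_eq_zero_iff (two_ne_zero) |>.1 (le_antisymm h3 this)
      exact sub_eq_zero.1 (norm_eq_zero.1 h4)
    have hq1W : q1 ∈ (gg a b)^[k1] '' W := by
      have h1 : gg a b q1 ∈ gg a b '' ((gg a b)^[k1] '' W) := by
        rw [hfW, ← hF.yv]
        exact mem_image_of_mem _ hyW
      obtain ⟨u, hu, hue⟩ := h1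
      rw [← hone u (hW1s hu) hue]
      exact hu
    have hsat : ∀ u ∈ ball q1 r1, gg a b u ∈ γ '' ((gg a b)^[k2] '' W) → u ∈ (gg a b)^[k1] '' W := by
      rintro u hu ⟨x', hx'W, hγu⟩
      have hW2r : (gg a b)^[k2] '' W ⊆ ball q2 r2 := hW2s.trans (ball_subset_ball hs2r2.le)
      have hγp : ∀ v ∈ (gg a b)^[k2] '' W, γ v ∈ (pre a b)^[m - k1 - 1] V := by
        intro v hv
        have h1 : v ∈ (pre a b)^[m - k2] V := by
          rw [hW2e] at hv
          exact connectedComponentIn_subset _ _ hv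
        have h2 := b_pre h hN2 hF.br2 (hW2r hv)
        have h3 : m - k1 - 1 = (k2 - k1 - 1) + (m - k2) := by omega
        rw [h3, pre_add]
        refine ⟨pre_mono (subset_univ _) h2, ?_⟩
        rw [b_gg h hN2 hF.br2 (hW2r hv)]
        exact h1
      have hmk : m - k1 = 1 + (m - k1 - 1) := by omega
      have hup : u ∈ (pre a b)^[m - k1] V := by
        have h0 := (mem_pre.1 (hf1.map u hu)).1 0 (by omega)
        rw [hmk, pre_add]
        refine ⟨mem_pre.2 ⟨fun j hj => ?_, mem_univ _⟩, ?_⟩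
        · have hj0 : j = 0 := by omega
          rw [hj0]
          exact h0
        · rw [Function.iterate_one, ← hγu]
          exact hγp x' hx'W
      have hUs : connectedComponentIn ((pre a b)^[m - k1] V) u ⊆ ball q1 s1 := by
        have h5 : ∀ x ∈ connectedComponentIn ((pre a b)^[m - k1] V) u, x ∈ ball q1 r1 → x ∈ ball q1 s1 := by
          intro x hx hxr
          have h6 := connectedComponentIn_subset _ _ hx
          exact hf1.out x hxr (hG.nic.out (mem_pre.1 h6).2)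
        exact in_ball isPreconnected_connectedComponentIn hs1r1 h5 (mem_connectedComponentIn hup)
          (h5 u (mem_connectedComponentIn hup) hu)
      have hgU := on2 h hVo hVc hVN (k := 1) (m := m - k1) (by omega) hup
      rw [Function.iterate_one] at hgU
      have hγs : γ '' ((gg a b)^[k2] '' W) ⊆ gg a b '' connectedComponentIn ((pre a b)^[m - k1] V) u := by
        rw [hgU]
        refine (hW2p.image _ (hF.br2.diff.continuousOn.mono hW2r)).subset_connectedComponentIn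
          ⟨x', hx'W, hγu⟩ ?_
        rintro _ ⟨v, hv, rfl⟩
        exact hγp v hv
      obtain ⟨u', hu', hue⟩ := hγs (mem_image_of_mem _ hyW)
      rw [hF.yv] at hue
      have hu'q := hone u' (hUs hu') hue
      rw [hu'q] at hu'
      have h7 : q1 ∈ connectedComponentIn ((pre a b)^[m - k1] V) ((gg a b)^[k1] z) := by
        rw [← hW1e]
        exact hq1W
      rw [hW1e, connectedComponentIn_eq h7, ← connectedComponentIn_eq hu']
      exact mem_connectedComponentIn hup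
    obtain ⟨χ1, hχ1⟩ := hsqc q1 hF.q1J hF.w1 r1 (by linarith) (by
      have := min_le_right δA δB
      linarith)
    obtain ⟨χ2, hχ2⟩ := hsqc q2 hF.q2J hF.w2 r2 (by linarith) (by
      have := min_le_right δA δB
      linarith)
    have hψW : ∀ x ∈ W, ψ ((gg a b)^[k1] x) = x := by
      refine b_clp h hN1 hF.br1 hR.con (fun x hx => ?_) hzW hψz
      exact mem_pre.2 ⟨fun i hi => (mem_pre.1 (hR.ret x hx)).1 i (by omega),
        ball_subset_ball hs1r1.le (hW1s (mem_image_of_mem _ hx))⟩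
    refine ⟨k1, k2 - k1 - 1, q1, q2, y, r1, s1, r2, s2, t2, ψ, γ, χ1, χ2, (gg a b)^[k1] '' W, (gg a b)^[k2] '' W,
      ?_⟩
    exact
      { km := by omega
        hs1 := fld_mul hηL hL hs1p.le hF.rs1
        hs2 := fld_mul hηL hL hs2p.le hF.rs2
        hσ := ht2p
        hK := hF.st2
        psi := fld_pbr h hN1 hF.br1
        sq1 := hχ1
        hW := by
          rw [image_image]
          ext x
          constructor
          · intro hx
            exact ⟨x, hx, hψW x hx⟩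
          · rintro ⟨x', hx', rfl⟩
            show ψ ((gg a b)^[k1] x') ∈ W
            rw [hψW x' hx']
            exact hx'
        W1s := hW1s
        br := fld_pbr h hN2 hF.br2
        hy := by
          have h1 := hF.yq
          rw [mem_closedBall, dist_eq_norm] at h1
          have h2 := fld_mul hηM hM hF.e2p.le hF.te2
          linarith
        gy := hF.yv
        fW := hfW
        sat := hsat
        W2o := hW2o
        W2s := hW2s
        W2b := hW2b
        sq2 := hχ2 }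

end Pool.Agent.H18.UP
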