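import Pool.Agent.H18.UP.BAS
import Pool.Agent.H66.UP.KD
import Pool.Agent.H64.NC.NSB
import Pool.Agent.H57.CF.UPF

/-!
# THEOREM UP, the final part: definitions

`PS f`: the closure of the forward orbits of the critical values of the critical points in the Julia set. `UPs P`: `P` is uniformly perfect (the empty set is allowed). `CU`: a chart of `Rf v` with the geometric setting `Geo`.
`ND0 P x0`: `x0` is the limit of points `x ∈ P` with fat annuli.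
-/

set_option autoImplicit false

open Filter Topology Polynomial Metric Set MeasureTheory

namespace Pool.Agent.H18.UP

open Pool.Agent.H44.Fatou (rat rat_continuous rat_coe rat_coe_of_ne pt crit_coe)
open Pool.Agent.H32.BT Pool.Agent.H79.Eul Pool.Agent.H79.Par
open Pool.Agent.H35.EX Pool.Agent.H44.RR Pool.Agent.H56.HR Pool.Agent.H44.RC Pool.Agent.H47.RJ
open Pool.Agent.H47.NM Pool.Agent.H47.NN Pool.Agent.H44.ND Pool.Agent.H79.ES Pool.Agent.H44.RG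
open Pool.Agent.H44.CP Pool.Agent.H57.CF Pool.Agent.H47.PS Pool.Agent.H64.NC
open Pool.Agent.H61.TT Pool.Agent.H57.CP Pool.Agent.H3.NC
open Pool.Agent.H66.UP (KD)

variable {d : ℕ}

def PS (f : OnePoint ℂ → OnePoint ℂ) : Set (OnePoint ℂ) :=
  closure {y | ∃ c, IsCrit f c ∧ c ∈ JS f ∧ ∃ n : ℕ, 1 ≤ n ∧ f^[n] c = y}

def UPs (P : Set (OnePoint ℂ)) : Prop := ∃ κ : ℝ, 0 < κ ∧ ∀ x ∈ P, ∀ r : ℝ, 0 < r → r < κ →
  ∃ y ∈ P, κ * r ≤ chord x y ∧ chord x y < r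

/-- fat annuli accumulate at `x0` -/
def ND0 (P : Set (OnePoint ℂ)) (x0 : OnePoint ℂ) : Prop := ∀ κ : ℝ, 0 < κ → ∃ x ∈ P, ∃ r : ℝ, chord x x0 < κ ∧ 0 < r ∧ r < κ ∧
  ∀ y ∈ P, κ * r ≤ chord x y → r ≤ chord x y

structure CU (v u : E d) (φ : OnePoint ℂ ≃ₜ OnePoint ℂ) (K : ℝ) (J : Set ℂ) (δ0 : ℝ) : Prop where
  K1 : 1 ≤ K
  bil : ∀ x y, chord (φ x) (φ y) ≤ K * chord x y ∧ chord x y ≤ K * chord (φ x) (φ y)
  conj : ∀ x, Rf u (φ x) = φ (Rf v x)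
  geo : Geo d (pol u.1) (pol u.2) J δ0
  Jz : ∀ z : ℂ, z ∈ J ↔ (z : OnePoint ℂ) ∈ JS (Rf u)
  cr : ∀ c, IsCrit (Rf u) c → c ∈ JS (Rf u) → ∃ z : ℂ, c = (z : OnePoint ℂ)
  fi : Rf u OnePoint.infty = OnePoint.infty ∨ OnePoint.infty ∉ JS (Rf u)

end Pool.Agent.H18.UP
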