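import Pool.Agent.H18.UP.FNA

/-!
# THEOREM UP, the final part: not uniformly perfect, limit point

PROOF. For `n` choose `κ = 1 / (n + 1)`: by `¬ UPs` there are `x_n ∈ P`, `0 < r_n < κ` such that no `y ∈ P` has `κ r_n ≤ chord x_n y < r_n`. `OnePoint ℂ` is compact and metrizable by `chord` (H91/Fatou/Chord, H35/EX: `tendsto_of_chord`, `chord_continuous`..): a cluster point `x0` of `x_n`, `x0 ∈ P` (closed). For given `κ > 0`: some `n` with `1 / (n + 1) ≤ κ` and `chord x_n x0 < κ`: `κ r ≤ chord x y` implies `(1 / (n+1)) r ≤ chord x y`, so not `chord x y < r`.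
-/

set_option autoImplicit false

open Filter Topology Polynomial Metric Set MeasureTheory

namespace Pool.Agent.H18.UP

open Pool.Agent.H44.Fatou (rat rat_continuous rat_coe rat_coe_of_ne pt crit_coe)
open Pool.Agent.H32.BT Pool.Agent.H79.Eul Pool.Agent.H79.Par
open Pool.Agent.H35.EX Pool.Agent.H44.RR Pool.Agent.H56.HR Pool.Agent.H44.RC Pool.Agent.H47.RJ
open Pool.Agent.H47.NM Pool.Agent.H47.NN Pool.Agent.H44.ND Pool.Agent.H79.ES Pool.Agent.H44.RG
open Pool.Agent.H44.CP Pool.Agent.H57.CF Pool.Agent.H47.PS Pool.Agent.H64.NC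
open Pool.Agent.H61.TT Pool.Agent.H57.CP Pool.Agent.H3.NC
open Pool.Agent.H66.UP (KD)

variable {d : ℕ}

theorem nup {P : Set (OnePoint ℂ)} (hP : IsClosed P) (h : ¬ UPs P) : ∃ x0 ∈ P, ND0 P x0 := by
  have h1 : ∀ n : ℕ, ∃ x ∈ P, ∃ r : ℝ, 0 < r ∧ r < 1 / ((n : ℝ) + 1) ∧
      ∀ y ∈ P, 1 / ((n : ℝ) + 1) * r ≤ chord x y → r ≤ chord x y := by
    intro n
    by_contra hc
    apply h
    refine ⟨1 / ((n : ℝ) + 1), by positivity, fun x hx r hr hrκ => ?_⟩
    by_contra hc2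
    apply hc
    refine ⟨x, hx, r, hr, hrκ, fun y hy h2 => ?_⟩
    by_contra h3
    exact hc2 ⟨y, hy, h2, not_le.1 h3⟩
  choose x hxP r hr hrn hxy using h1
  obtain ⟨x0, hx0, hcl⟩ := hP.isCompact.exists_mapClusterPt (f := atTop) (u := x)
    (Filter.le_principal_iff.2 (Filter.mem_map.2 (Filter.Eventually.of_forall hxP)))
  refine ⟨x0, hx0, fun κ hκ => ?_⟩
  have h0 : chord x0 x0 = 0 := by
    induction x0 using OnePoint.rec with
    | infty => rfl
    | coe z =>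
      show ‖z - z‖ / _ = 0
      rw [sub_self, norm_zero, zero_div]
  have h2 : ∀ᶠ y in 𝓝 x0, chord x0 y < κ := by
    refine (Pool.Agent.H44.RC.ch_ball x0 κ).mem_nhds ?_
    show chord x0 x0 < κ
    rw [h0]
    exact hκ
  have h3 := hcl.frequently h2
  have h4 : ∀ᶠ n : ℕ in atTop, 1 / ((n : ℝ) + 1) ≤ κ :=
    (tendsto_one_div_add_atTop_nhds_zero_nat (𝕜 := ℝ)).eventually_le_const hκ
  obtain ⟨n, h5, h6⟩ := (h3.and_eventually h4).exists
  refine ⟨x n, hxP n, r n, ?_, hr n, (hrn n).trans_le h6, fun y hy h7 => hxy n y hy ?_⟩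
  · rw [Pool.Agent.H44.RC.ch_comm]
    exact h5
  · exact (mul_le_mul_of_nonneg_right h6 (hr n).le).trans h7

end Pool.Agent.H18.UP
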