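import Pool.Agent.H18.UP.FNA

/-!
# THEOREM UP, the final part: the postcritical set in the chart

`ps_conj`: `φ` is a homeomorphism which conjugates (`conj`), so it maps critical points to critical points (`isCrit_conj` H32/BT, as in H64/NC/PRT, JStableMaps), `JS` to `JS` (`Pool.Agent.H76.SU.fs_conj` with `bil`), iterates to iterates, closures to closures.
`ps_pj`: (→) `z ∈ PS (Rf u)` in the plane: every neighbourhood of `z` in the plane (its coercion is open in `OnePoint ℂ`) contains a point `f^[n] c`, `c` critical in `JS`, `n ≥ 1`; `c = c' ∈ ℂ` (`cr`), `c' ∈ J` (`Jz`). The orbit of `c'` up to the time `n` is in the plane: if `f^[i] c' = ∞` for some `i ≤ n` then by `fi` either `∞` is fixed, so `f^[n] c' = ∞` is not a planar point, or `∞ ∉ JS` but `f^[i] c' ∈ JS` (invariance of `JS`: `GA.js`-like, `fs_iff`). So `c' ∈ pre^n univ` and `f^[n] c' = gg^[n] c'`, `b c' ≠ 0`, `ww c' = 0` (`crit_iff`, `Geo`): `Cr`. (←) the same facts backwards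 (`crit_iff`, `g_rat`).
-/

set_option autoImplicit false

open Filter Topology Polynomial Metric Set MeasureTheory

namespace Pool.Agent.H18.UP

open Pool.Agent.H44.Fatou (rat rat_continuous rat_coe rat_coe_of_ne pt crit_coe)
open Pool.Agent.H32.BT Pool.Agent.H79.Eul Pool.Agent.H79.Par
open Pool.Agent.H35.EX Pool.Agent.H44.RR Pool.Agent.H56.HR Pool.Agent.H44.RC Pool.Agent.H47.RJ
open Pool.Agent.H47.NM Pool.Agent.H47.NN Pool.Agent.H44.ND Pool.Agent.H79.ES Pool.Agent.H44.RG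
open Pool.Agent.H44.CP Pool.Agent.H57.CF Pool.Agent.H47.PS Pool.Agent.H64.NC
open Pool.Agent.H61.TT Pool.Agent.H57.CP Pool.Agent.H3.NC
open Pool.Agent.H66.UP (KD)

variable {d : ℕ}

theorem ps_conj {v u : E d} {φ : OnePoint ℂ ≃ₜ OnePoint ℂ} {K : ℝ} {J : Set ℂ} {δ0 : ℝ} (h : CU v u φ K J δ0) (x : OnePoint ℂ) :
    φ x ∈ PS (Rf u) ↔ x ∈ PS (Rf v) := by
  have hjs : ∀ y, φ y ∈ JS (Rf u) ↔ y ∈ JS (Rf v) := fun y =>
    not_congr (Pool.Agent.H76.SU.fs_conj h.bil h.conj y)
  have h1 : φ ⁻¹' {y | ∃ c, IsCrit (Rf u) c ∧ c ∈ JS (Rf u) ∧ ∃ n : ℕ, 1 ≤ n ∧ (Rf u)^[n] c = y} =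
      {y | ∃ c, IsCrit (Rf v) c ∧ c ∈ JS (Rf v) ∧ ∃ n : ℕ, 1 ≤ n ∧ (Rf v)^[n] c = y} := by
    ext y
    constructor
    · rintro ⟨c, hc, hcJ, n, hn, hcy⟩
      refine ⟨φ.symm c, ?_, ?_, n, hn, ?_⟩
      · have h2 := isCrit_conj φ h.conj (φ.symm c)
        rw [φ.apply_symm_apply] at h2
        exact h2.1 hc
      · have h2 := hjs (φ.symm c)
        rw [φ.apply_symm_apply] at h2
        exact h2.1 hcJ
      · apply φ.injective
        rw [← iter_conj φ h.conj, φ.apply_symm_apply]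
        exact hcy
    · rintro ⟨c, hc, hcJ, n, hn, rfl⟩
      exact ⟨φ c, (isCrit_conj φ h.conj c).2 hc, (hjs c).2 hcJ, n, hn, iter_conj φ h.conj n c⟩
  unfold PS
  rw [← h1, ← φ.preimage_closure]
  rfl

theorem ps_pj {v u : E d} {φ : OnePoint ℂ ≃ₜ OnePoint ℂ} {K : ℝ} {J : Set ℂ} {δ0 : ℝ} (h : CU v u φ K J δ0) (z : ℂ) :
    (z : OnePoint ℂ) ∈ PS (Rf u) ↔ z ∈ PJ (pol u.1) (pol u.2) J := by
  have h1 : ((↑) : ℂ → OnePoint ℂ) ⁻¹'
      {y | ∃ c, IsCrit (Rf u) c ∧ c ∈ JS (Rf u) ∧ ∃ n : ℕ, 1 ≤ n ∧ (Rf u)^[n] c = y} =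
      {y | ∃ c ∈ J, Cr (pol u.1) (pol u.2) c ∧ ∃ n : ℕ, 0 < n ∧ c ∈ (pre (pol u.1) (pol u.2))^[n] univ ∧
        y = (gg (pol u.1) (pol u.2))^[n] c} := by
    ext y
    constructor
    · rintro ⟨c, hc, hcJ, n, hn, hcy⟩
      obtain ⟨c', rfl⟩ := h.cr c hc hcJ
      have hinf : ∀ i ≤ n, (Rf u)^[i] (c' : OnePoint ℂ) ≠ OnePoint.infty := by
        intro i hi h0
        rcases h.fi with h1 | h1
        · have h2 : ∀ k : ℕ, (Rf u)^[k] OnePoint.infty = OnePoint.infty := by
            intro k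
            induction k with
            | zero => rfl
            | succ k ih => rw [Function.iterate_succ_apply, h1, ih]
          have h3 : (Rf u)^[n] (c' : OnePoint ℂ) = OnePoint.infty := by
            rw [← Nat.sub_add_cancel hi, Function.iterate_add_apply, h0, h2]
          rw [hcy] at h3
          exact OnePoint.coe_ne_infty _ h3
        · have h2 : (Rf u)^[i] (c' : OnePoint ℂ) ∈ JS (Rf u) := fun h3 =>
            hcJ ((Pool.Agent.H47.RJ.fs_iff (by have := h.geo.rt.hd; omega) h.geo.rt.cop h.geo.rt.deg i _).1 h3)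
          rw [h0] at h2
          exact h1 h2
      have key : ∀ i ≤ n, (Rf u)^[i] (c' : OnePoint ℂ) = ((gg (pol u.1) (pol u.2))^[i] c' : ℂ) ∧
          ∀ j < i, (pol u.2).eval ((gg (pol u.1) (pol u.2))^[j] c') ≠ 0 := by
        intro i
        induction i with
        | zero => intro _; exact ⟨rfl, fun j hj => absurd hj (by omega)⟩
        | succ i ih =>
          intro hi
          obtain ⟨h2, h3⟩ := ih (by omega)
          have hb : (pol u.2).eval ((gg (pol u.1) (pol u.2))^[i] c') ≠ 0 := by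
            intro h0
            apply hinf (i + 1) hi
            rw [Function.iterate_succ_apply', h2]
            unfold Rf
            rw [rat_coe, h0]
            unfold pt
            rw [if_pos rfl]
          refine ⟨?_, ?_⟩
          · rw [Function.iterate_succ_apply', h2, Function.iterate_succ_apply']
            unfold Rf
            rw [rat_coe_of_ne hb]
            rfl
          · intro j hj
            rcases Nat.lt_succ_iff_lt_or_eq.1 hj with h4 | rfl
            · exact h3 j h4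
            · exact hb
      obtain ⟨h2, h3⟩ := key n le_rfl
      have hb0 : (pol u.2).eval c' ≠ 0 := h3 0 (by omega)
      refine ⟨c', (h.Jz c').2 hcJ, ⟨hb0, (crit_iff h.geo hb0).1 hc⟩, n, by omega, mem_pre.2 ⟨h3, mem_univ _⟩, ?_⟩
      rw [hcy] at h2
      exact OnePoint.coe_injective h2
    · rintro ⟨c, hc, hcr, n, hn, hp, rfl⟩
      exact ⟨(c : OnePoint ℂ), (crit_iff h.geo hcr.1).2 hcr.2, (h.Jz c).1 hc, n, by omega, g_rat h.geo hp⟩
  have h2 := OnePoint.isOpenEmbedding_coe (X := ℂ)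
  have h3 := h2.isOpenMap.preimage_closure_eq_closure_preimage h2.continuous
    {y | ∃ c, IsCrit (Rf u) c ∧ c ∈ JS (Rf u) ∧ ∃ n : ℕ, 1 ≤ n ∧ (Rf u)^[n] c = y}
  rw [h1] at h3
  unfold PS PJ
  rw [← h3]
  rfl

end Pool.Agent.H18.UP
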