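import Pool.Agent.H18.UP.FNC

/-!
# THEOREM UP, the final part: fat annuli in the plane

The conclusion is the hypothesis `hF` of `rd1`.
PROOF. `φ x0 = y0 ∈ ℂ`. There are constants `η0 > 0`, `B ≥ 1` (depending on `y0`): for `z, w ∈ ball y0 η0`: `‖z - w‖ / B ≤ chord z w ≤ B ‖z - w‖`, and `chord z y0 < 2 η0 / B`-small implies that a point of the sphere is in the plane and in `ball y0 η0` (explicit: `chord z w = ‖z - w‖ / (√(1+‖z‖²) √(1+‖w‖²))`, `chord ∞ y0 = 1 / √(1+‖y0‖²)`).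
Let `M > 0`; `κ` small. `ND0` for `PS (Rf v)` gives `x, r`. `z = φ x ∈ ball y0 (η0 / 2)` (`bil`: `chord z y0 ≤ K κ`), `z ∈ PJ` (`ps_conj`, `ps_pj`). The annulus: no `y ∈ PS (Rf v)` with `κ r ≤ chord x y < r`; so no `w ∈ PJ` with `κ r K B < ‖z - w‖ < r / (K B)` (`w = φ y`, `w ∈ ball y0 η0`). `R = r / (K B)`, `e = κ r K B`: `R / e = 1 / (κ K ^ 2 B ^ 2) ≥ M`. `R ≤ 1`, `R ≤ η0 / 2`, `R ≤ δ0` for `κ` small.
`ball z R ⊆ NJ J δ0`: `z ∈ J` since `z ∈ PJ ⊆ J` (`Geo.Jc`, `Geo.Ji`; or `Jz` and `PS ⊆ JS` closed invariant).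
-/

set_option autoImplicit false

open Filter Topology Polynomial Metric Set MeasureTheory

namespace Pool.Agent.H18.UP

open Pool.Agent.H44.Fatou (rat rat_continuous rat_coe rat_coe_of_ne pt crit_coe)
open Pool.Agent.H32.BT Pool.Agent.H79.Eul Pool.Agent.H79.Par
open Pool.Agent.H35.EX Pool.Agent.H44.RR Pool.Agent.H56.HR Pool.Agent.H44.RC Pool.Agent.H47.RJ
open Pool.Agent.H47.NM Pool.Agent.H47.NN Pool.Agent.H44.ND Pool.Agent.H79.ES Pool.Agent.H44.RG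
open Pool.Agent.H44.CP Pool.Agent.H57.CF Pool.Agent.H47.PS Pool.Agent.H64.NC
open Pool.Agent.H61.TT Pool.Agent.H57.CP Pool.Agent.H3.NC
open Pool.Agent.H66.UP (KD)

variable {d : ℕ}

private theorem fnd_J {a b : Polynomial ℂ} {J : Set ℂ} {δ0 : ℝ} (h : Geo d a b J δ0) : PJ a b J ⊆ J := by
  refine closure_minimal ?_ h.Jc
  rintro y ⟨c, hc, -, n, -, hcn, rfl⟩
  have h1 := (mem_pre.1 hcn).1
  have h2 : ∀ i ≤ n, (gg a b)^[i] c ∈ J := by
    intro i
    induction i with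
    | zero => exact fun _ => hc
    | succ i ih =>
      intro hi
      rw [Function.iterate_succ_apply']
      exact h.Ji _ (ih (by omega)) (h1 i (by omega))
  exact h2 n le_rfl

private theorem fnd_B {y0 z w : ℂ} (hz : ‖z - y0‖ < 1) (hw : ‖w - y0‖ < 1) :
    ‖z - w‖ ≤ (1 + (‖y0‖ + 1) ^ 2) * chord (z : OnePoint ℂ) (w : OnePoint ℂ) := by
  have h1 : chord (z : OnePoint ℂ) (w : OnePoint ℂ) =
      ‖z - w‖ / (√(1 + ‖z‖ ^ 2) * √(1 + ‖w‖ ^ 2)) := rfl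
  have hn : ∀ u : ℂ, ‖u - y0‖ < 1 → √(1 + ‖u‖ ^ 2) ≤ √(1 + (‖y0‖ + 1) ^ 2) := by
    intro u hu
    have h2 : ‖u‖ ≤ ‖y0‖ + 1 := by
      have h3 : u = y0 + (u - y0) := by ring
      rw [h3]
      exact (norm_add_le _ _).trans (by linarith)
    refine Real.sqrt_le_sqrt ?_
    have := norm_nonneg u
    nlinarith
  have hp : ∀ u : ℂ, 0 < √(1 + ‖u‖ ^ 2) := fun u => Real.sqrt_pos.2 (by positivity)
  have h4 : √(1 + ‖z‖ ^ 2) * √(1 + ‖w‖ ^ 2) ≤ 1 + (‖y0‖ + 1) ^ 2 := by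
    refine (mul_le_mul (hn z hz) (hn w hw) (hp w).le (Real.sqrt_nonneg _)).trans (le_of_eq ?_)
    exact Real.mul_self_sqrt (by positivity)
  rw [h1, mul_div_assoc', le_div_iff₀ (mul_pos (hp z) (hp w)), mul_comm]
  exact mul_le_mul_of_nonneg_right h4 (norm_nonneg _)

theorem nup_pl {v u : E d} {φ : OnePoint ℂ ≃ₜ OnePoint ℂ} {K : ℝ} {J : Set ℂ} {δ0 : ℝ} (h : CU v u φ K J δ0) {x0 : OnePoint ℂ}
    (hx : φ x0 ≠ OnePoint.infty) (hN : ND0 (PS (Rf v)) x0) : ∀ M : ℝ, 0 < M → ∃ x ∈ PJ (pol u.1) (pol u.2) J, ∃ e R : ℝ,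
    0 < e ∧ M * e ≤ R ∧ R ≤ 1 ∧ PJ (pol u.1) (pol u.2) J ∩ ball x R ⊆ closedBall x e ∧ ball x R ⊆ NJ J δ0 := by
  intro M hM
  obtain ⟨y0, hy0⟩ := OnePoint.ne_infty_iff_exists.1 hx
  have hK : 0 < K := one_pos.trans_le h.K1
  have hU : ((↑) : ℂ → OnePoint ℂ) '' ball y0 (1 / 2) ∈ 𝓝 (y0 : OnePoint ℂ) :=
    (OnePoint.isOpenEmbedding_coe.isOpenMap _ isOpen_ball).mem_nhds
      (mem_image_of_mem _ (mem_ball_self (by norm_num)))
  obtain ⟨r1, hr1, hr1U⟩ := Pool.Agent.H44.RC.ch_nhds hU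
  obtain ⟨B, hB⟩ : ∃ B : ℝ, B = 1 + (‖y0‖ + 1) ^ 2 := ⟨_, rfl⟩
  have hB0 : 0 < B := by
    rw [hB]
    positivity
  obtain ⟨κ, hκ⟩ : ∃ κ : ℝ, κ = min (1 / 2) (min δ0 (min (r1 / K) (1 / (M * B * K ^ 2)))) := ⟨_, rfl⟩
  have hκ0 : 0 < κ := by
    rw [hκ]
    have := h.geo.hδ
    positivity
  have k1 : κ ≤ 1 / 2 := by
    rw [hκ]
    exact min_le_left _ _
  have k2 : κ ≤ δ0 := by
    rw [hκ]
    exact (min_le_right _ _).trans (min_le_left _ _)
  have k3 : κ ≤ r1 / K := by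
    rw [hκ]
    exact (min_le_right _ _).trans ((min_le_right _ _).trans (min_le_left _ _))
  have k4 : κ ≤ 1 / (M * B * K ^ 2) := by
    rw [hκ]
    exact (min_le_right _ _).trans ((min_le_right _ _).trans (min_le_right _ _))
  obtain ⟨x, hxP, r, hxx, hr0, hrκ, hann⟩ := hN κ hκ0
  have h1 : chord (y0 : OnePoint ℂ) (φ x) < r1 := by
    rw [hy0, ch_comm]
    refine (h.bil x x0).1.trans_lt ?_
    have h2 : K * chord x x0 < K * κ := mul_lt_mul_of_pos_left hxx hK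
    have h3 : K * κ ≤ K * (r1 / K) := mul_le_mul_of_nonneg_left k3 hK.le
    have h4 : K * (r1 / K) = r1 := by field_simp
    linarith
  obtain ⟨z, hz, hzx⟩ := hr1U h1
  have hzP : z ∈ PJ (pol u.1) (pol u.2) J := by
    rw [← ps_pj h, hzx]
    exact (ps_conj h x).2 hxP
  have hzJ : z ∈ J := fnd_J h.geo hzP
  have hRκ : r / K ≤ κ := by
    rw [div_le_iff₀ hK]
    have h2 : κ * 1 ≤ κ * K := mul_le_mul_of_nonneg_left h.K1 hκ0.le
    linarith
  have hzn : ‖z - y0‖ < 1 / 2 := mem_ball_iff_norm.1 hz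
  refine ⟨z, hzP, B * (K * (κ * r)), r / K, by positivity, ?_, by linarith, ?_, fun w hw => ⟨z, hzJ, ?_⟩⟩
  · rw [le_div_iff₀ hK]
    rw [le_div_iff₀ (by positivity)] at k4
    have h2 : M * (B * (K * (κ * r))) * K = (κ * (M * B * K ^ 2)) * r := by ring
    rw [h2]
    calc κ * (M * B * K ^ 2) * r ≤ 1 * r := mul_le_mul_of_nonneg_right k4 hr0.le
      _ = r := one_mul r
  · rintro w ⟨hwP, hwb⟩
    rw [mem_ball_iff_norm] at hwb
    obtain ⟨y, hy⟩ : ∃ y, φ y = (w : OnePoint ℂ) := ⟨φ.symm w, φ.apply_symm_apply _⟩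
    have hyP : y ∈ PS (Rf v) := by
      rw [← ps_conj h, hy]
      exact (ps_pj h w).2 hwP
    have h2 : chord x y < r := by
      refine (h.bil x y).2.trans_lt ?_
      rw [← hzx, hy]
      have h3 : K * chord (z : OnePoint ℂ) (w : OnePoint ℂ) ≤ K * ‖z - w‖ :=
        mul_le_mul_of_nonneg_left (Pool.Agent.H57.CF.upf_le z w) hK.le
      have h4 : K * ‖z - w‖ < K * (r / K) := by
        refine mul_lt_mul_of_pos_left ?_ hK
        rw [norm_sub_rev]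
        exact hwb
      have h5 : K * (r / K) = r := by field_simp
      linarith
    have h6 : chord x y < κ * r := by
      by_contra hcon
      rw [not_lt] at hcon
      have h7 := hann y hyP hcon
      linarith
    have h7 : chord (z : OnePoint ℂ) (w : OnePoint ℂ) ≤ K * (κ * r) := by
      rw [hzx, ← hy]
      exact (h.bil x y).1.trans (mul_le_mul_of_nonneg_left h6.le hK.le)
    have hwn : ‖w - y0‖ < 1 := by
      have h8 : w - y0 = (w - z) + (z - y0) := by ring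
      rw [h8]
      refine (norm_add_le _ _).trans_lt ?_
      linarith
    have h8 := fnd_B (y0 := y0) (z := z) (w := w) (by linarith) hwn
    rw [← hB] at h8
    rw [mem_closedBall_iff_norm, norm_sub_rev]
    exact h8.trans (mul_le_mul_of_nonneg_left h7 hB0.le)
  · exact ball_subset_ball (hRκ.trans k2) hw

end Pool.Agent.H18.UP
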