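import Pool.Agent.H18.UP.FNA

/-!
# THEOREM UP, the final part: accumulation in the chart

PROOF. `c ∈ Om (Rf u) r` (the limit set: `MapClusterPt`-like, frequently in every neighbourhood, H44/RC) : for `ε > 0` there are infinitely many `n` with `f^[n] r ∈` the coercion of `ball c ε`; take one with `n > 0`: `f^[n] r = w`, `w ∈ ball c ε`. `r ∈ JS`; the orbit of `r` up to `n` is in the plane (`fi`, see `ps_pj` in FNC): so `r ∈ pre^n {w}`.
-/

set_option autoImplicit false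

open Filter Topology Polynomial Metric Set MeasureTheory

namespace Pool.Agent.H18.UP

open Pool.Agent.H44.Fatou (rat rat_continuous rat_coe rat_coe_of_ne pt crit_coe)
open Pool.Agent.H32.BT Pool.Agent.H79.Eul Pool.Agent.H79.Par
open Pool.Agent.H35.EX Pool.Agent.H44.RR Pool.Agent.H56.HR Pool.Agent.H44.RC Pool.Agent.H47.RJ
open Pool.Agent.H47.NM Pool.Agent.H47.NN Pool.Agent.H44.ND Pool.Agent.H79.ES Pool.Agent.H44.RG
open Pool.Agent.H44.CP Pool.Agent.H57.CF Pool.Agent.H47.PS Pool.Agent.H64.NC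
open Pool.Agent.H61.TT Pool.Agent.H57.CP Pool.Agent.H3.NC
open Pool.Agent.H66.UP (KD)

variable {d : ℕ}

theorem om_pre {v u : E d} {φ : OnePoint ℂ ≃ₜ OnePoint ℂ} {K : ℝ} {J : Set ℂ} {δ0 : ℝ} (h : CU v u φ K J δ0) {r c : ℂ} (hr : r ∈ J)
    (hc : (c : OnePoint ℂ) ∈ Om (Rf u) (r : OnePoint ℂ)) : ∀ ε : ℝ, 0 < ε → ∃ n : ℕ, 0 < n ∧ r ∈ (pre (pol u.1) (pol u.2))^[n] (ball c ε) := by
  intro ε hε
  have hU : ((↑) '' ball c ε : Set (OnePoint ℂ)) ∈ 𝓝 (c : OnePoint ℂ) :=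
    (OnePoint.isOpenEmbedding_coe.isOpenMap _ isOpen_ball).mem_nhds ⟨c, mem_ball_self hε, rfl⟩
  obtain ⟨n, hn, w, hw, hnw⟩ := (Filter.frequently_atTop.1 (hc _ hU)) 1
  have hJ : (r : OnePoint ℂ) ∈ JS (Rf u) := (h.Jz r).1 hr
  have hd : 1 ≤ d := by
    have := h.geo.rt.hd
    omega
  have hJn : (Rf u)^[n] (r : OnePoint ℂ) ∈ JS (Rf u) := (js_iff hd h.geo.rt.cop h.geo.rt.deg n _).2 hJ
  rw [← hnw] at hJn
  have hwJ : w ∈ J := (h.Jz w).2 hJn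
  have hwN : w ∈ NJ J δ0 := ⟨w, hwJ, mem_ball_self h.geo.hδ⟩
  have h1 : r ∈ (pre (pol u.1) (pol u.2))^[n] {w} := (g_pre h.geo hwN).1 hnw.symm
  exact ⟨n, hn, pre_mono (singleton_subset_iff.2 hw) h1⟩

end Pool.Agent.H18.UP
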