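import Pool.Agent.H18.UP.STP
import Pool.Agent.H18.UP.FRM

/-!
# THEOREM UP: from fat annuli at points of `PJ` to fat annuli at a critical point

PROOF. It is enough: (1) for all `M, δ > 0` there is a critical `c ∈ J` with `0 < e`, `M e ≤ R ≤ δ`, `PJ ∩ ball c R ⊆ closedBall c e`. Then `Fat` for some `c`: for `M = n`, `δ = 1 / n` choose `c_n`; the set of the critical points is finite (`cr_fin`), so some `c` is chosen infinitely often (pigeonhole), and the property is monotone (`M' ≤ M`, `δ ≤ δ'`).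
(1): `A, δf` from `frm`. Let `rs` from `stp` (any `δ`, say `1`), `r2` from `sm2` with `min δf (A δ ^ 2)`. Let `r' = min rs r2 1`. Let `M1` be large. By `hF` with the factor `M1 / r'` (`R ≤ 1`) there are `x ∈ PJ, e, R`; replace `R` by `min R r'`: `M1 e ≤ R ≤ r'` (`e ≤ r' / M1`). The collar is for the smaller ball, too.
Let `N` be the set of the `n > 0` such that there is a critical `c ∈ J`, `c ∈ pre^n univ`, `gg^[n] c ∈ ball x (2 e)`: not empty since `x ∈ PJ` is in the closure. `n = min N`, `c`; `y0 = gg^[n] c ∈ PJ ∩ ball x R ⊆ closedBall x e`.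
CLAIM: for `k ≤ n - 1` there is a branch `ψ` of `g^(-k)` on `ball x R` with `ψ y0 = gg^[n-k] c`. `k = 0`: `id`. Step: `stp` with `q = x`, `z = gg^[n-k-1] c`, `x0 = y0 ∈ ball x (R / 4)`: either the branch for `k + 1`, or a critical `c' ∈ J` with `gg c' = ψ y'`, `y' ∈ closedBall x e`; then `c' ∈ pre^(k+1) univ`, `gg^[k+1] c' = y' ∈ ball x (2 e)`, `0 < k + 1 < n`: contradiction with the minimality.
`k = n - 1`: `ψ y0 = gg c`. `sm2`: `R ‖ψ' y0‖ < min δf (A δ ^ 2)`. `frm` with `c0 = x`, `i = 0`, `q = x`, `(e0, t0, r0) = (e, t0, R)`, `Fr a b x e t0 R 0 x e t0 (2 t0) R` with `t0 = √(e R)` or `t0 = A ^ 2 e` and `2 A ^ 2 t0 ≤ R`: gives the frame at `c` with `e' = √(A β e)`, `r' = √(β R / A)`: `r' / e' = √(R / e) / A ≥ √M1 / A ≥ M`, `r' ≤ δ`.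
The collar at `c`: `p ∈ PJ ∩ ball c r'`: `p ∈ pre^n (ball x R)` (`Fr.map`), `gg^[n] p ∈ PJ` (`p_inv`), so in `closedBall x e` and `p ∈ closedBall c e'` (`Fr.eps`).
-/

set_option autoImplicit false

open Filter Topology Polynomial Metric Set MeasureTheory

namespace Pool.Agent.H18.UP

open Pool.Agent.H44.Fatou (rat rat_continuous)
open Pool.Agent.H80.AJ (Br KK one_le_KK KK_pos distort distort_lip deriv_ne univ_cover)
open Pool.Agent.H32.BT (IsCrit)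
open Pool.Agent.H61.TT Pool.Agent.H57.CP Pool.Agent.H3.NC

variable {d : ℕ} {a b : Polynomial ℂ} {J : Set ℂ} {δ0 : ℝ}

/-- the root frame -/
private theorem rd1_fr (a b : Polynomial ℂ) (x : ℂ) {e A R : ℝ} (he : 0 < e) (hA : 2 ≤ A)
    (hR : 2 * (A ^ 2 * e) ≤ R) : Fr a b x e (A ^ 2 * e) R 0 x e (A ^ 2 * e) (2 * (A ^ 2 * e)) R where
  he := he
  et := by
    have h1 : 1 ≤ A ^ 2 := by nlinarith
    nlinarith
  ts := by
    have h1 : 0 ≤ A ^ 2 * e := by positivity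
    linarith
  sr := hR
  map := fun z hz => hz
  inn := fun z hz => hz
  out := fun z _ hz => hz
  eps := fun z _ hz => hz
  cen := mem_closedBall_self he.le

/-- the branch along the orbit -/
private theorem rd1_br (h : Geo d a b J δ0) {rs : ℝ} (hst : ∀ (n : ℕ) (q : ℂ) (e r : ℝ) (ψ : ℂ → ℂ) (x0 z : ℂ),
    ball q r ⊆ NJ J δ0 → 0 < e → 8 * e ≤ r → r ≤ rs → PJ a b J ∩ ball q r ⊆ closedBall q e →
    Br (rat a b) n q r (ψ q) ψ → x0 ∈ ball q (r / 4) → b.eval z ≠ 0 → gg a b z = ψ x0 →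
    (∃ φ : ℂ → ℂ, Br (rat a b) (n + 1) q r (φ q) φ ∧ φ x0 = z) ∨
    ∃ c ∈ J, Cr a b c ∧ ‖z - c‖ < 1 ∧ ∃ y ∈ closedBall q e, ψ y = gg a b c)
    {x c : ℂ} {e R : ℝ} {n : ℕ} (he : 0 < e) (h8 : 8 * e ≤ R) (hRs : R ≤ rs) (hNJ : ball x R ⊆ NJ J δ0)
    (hP : PJ a b J ∩ ball x R ⊆ closedBall x e) (hcn : c ∈ (pre a b)^[n] univ)
    (hy : (gg a b)^[n] c ∈ closedBall x e)
    (hmin : ∀ k : ℕ, 0 < k → k < n → ¬ ∃ c ∈ J, Cr a b c ∧ c ∈ (pre a b)^[k] univ ∧ (gg a b)^[k] c ∈ ball x (2 * e)) :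
    ∀ k : ℕ, k < n → ∃ ψ : ℂ → ℂ, Br (rat a b) k x R (ψ x) ψ ∧ ψ ((gg a b)^[n] c) = (gg a b)^[n - k] c := by
  have hy4 : (gg a b)^[n] c ∈ ball x (R / 4) := by
    rw [mem_closedBall] at hy
    rw [mem_ball]
    linarith
  intro k
  induction k with
  | zero =>
    intro _
    exact ⟨id, ⟨differentiableOn_id, rfl, fun u _ => rfl⟩, rfl⟩
  | succ k ih =>
    intro hk
    obtain ⟨ψ, hψ, hψy⟩ := ih (by omega)
    have hbz : b.eval ((gg a b)^[n - (k + 1)] c) ≠ 0 := (mem_pre.1 hcn).1 _ (by omega)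
    have hgz : gg a b ((gg a b)^[n - (k + 1)] c) = ψ ((gg a b)^[n] c) := by
      rw [hψy, ← Function.iterate_succ_apply' (gg a b)]
      congr 2
      omega
    rcases hst k x e R ψ ((gg a b)^[n] c) ((gg a b)^[n - (k + 1)] c) hNJ he h8 hRs hP hψ hy4 hbz hgz with h1 | h1
    · exact h1
    · exfalso
      obtain ⟨c', hc', hcr', -, y', hy', hyc'⟩ := h1
      have hyR : y' ∈ ball x R := by
        rw [mem_closedBall] at hy'
        rw [mem_ball]
        linarith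
      refine hmin (k + 1) (Nat.succ_pos k) hk ⟨c', hc', hcr', ?_, ?_⟩
      · rw [Function.iterate_succ_apply']
        refine ⟨hcr'.1, ?_⟩
        rw [← hyc']
        exact pre_mono (subset_univ _) (b_pre h hNJ hψ hyR)
      · rw [Function.iterate_succ_apply, ← hyc', b_gg h hNJ hψ hyR]
        rw [mem_closedBall] at hy'
        rw [mem_ball]
        linarith

private theorem rd1_one (h : Geo d a b J δ0) (hF : ∀ M : ℝ, 0 < M → ∃ x ∈ PJ a b J, ∃ e R : ℝ, 0 < e ∧ M * e ≤ R ∧ R ≤ 1 ∧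
    PJ a b J ∩ ball x R ⊆ closedBall x e ∧ ball x R ⊆ NJ J δ0) {M δ : ℝ} (hM : 0 < M) (hδ : 0 < δ) :
    ∃ c ∈ J, Cr a b c ∧ ∃ e R : ℝ, 0 < e ∧ M * e ≤ R ∧ R ≤ δ ∧ PJ a b J ∩ ball c R ⊆ closedBall c e := by
  classical
  obtain ⟨A, δf, hA, hδf, hfrm⟩ := frm h
  obtain ⟨rs, hrs, hst⟩ := stp h one_pos
  have hA0 : 0 < A := by linarith
  obtain ⟨r2, hr2, hsm⟩ := sm2 h (δ := min δf (A * δ ^ 2)) (lt_min hδf (by positivity))
  obtain ⟨r', hr'⟩ : ∃ r' : ℝ, r' = min (min rs r2) 1 := ⟨_, rfl⟩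
  have hr'0 : 0 < r' := by
    rw [hr']
    exact lt_min (lt_min hrs hr2) one_pos
  have hr'1 : r' ≤ 1 := by
    rw [hr']
    exact min_le_right _ _
  have hr's : r' ≤ rs := by
    rw [hr']
    exact (min_le_left _ _).trans (min_le_left _ _)
  have hr'2 : r' ≤ r2 := by
    rw [hr']
    exact (min_le_left _ _).trans (min_le_right _ _)
  obtain ⟨M1, hM1⟩ : ∃ M1 : ℝ, M1 = 8 + 2 * A ^ 4 + A ^ 2 * M ^ 2 := ⟨_, rfl⟩
  have hM10 : 0 < M1 := by
    rw [hM1]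
    positivity
  obtain ⟨x, hx, e, R0, he, hR0, hR1, hP0, hN0⟩ := hF (M1 / r') (by positivity)
  obtain ⟨R, hR⟩ : ∃ R : ℝ, R = min R0 r' := ⟨_, rfl⟩
  have hRR0 : R ≤ R0 := by
    rw [hR]
    exact min_le_left _ _
  have hRr' : R ≤ r' := by
    rw [hR]
    exact min_le_right _ _
  have hR0' : M1 * e ≤ R0 * r' := by
    have h1 := mul_le_mul_of_nonneg_right hR0 hr'0.le
    have h2 : M1 / r' * e * r' = M1 * e := by
      field_simp
    rwa [h2] at h1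
  have hR00 : 0 < R0 := lt_of_lt_of_le (by positivity) hR0
  have hMR : M1 * e ≤ R := by
    rw [hR]
    refine le_min (hR0'.trans ?_) (hR0'.trans ?_)
    · nlinarith
    · nlinarith
  have hball : ball x R ⊆ ball x R0 := ball_subset_ball hRR0
  have hP : PJ a b J ∩ ball x R ⊆ closedBall x e := (inter_subset_inter_right _ hball).trans hP0
  have hN : ball x R ⊆ NJ J δ0 := hball.trans hN0
  have h8 : 8 * e ≤ R := by
    have h1 : 8 * e ≤ M1 * e := by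
      refine mul_le_mul_of_nonneg_right ?_ he.le
      rw [hM1]
      nlinarith [sq_nonneg (A ^ 2), sq_nonneg (A * M)]
    linarith
  have h2A : A ^ 2 * (2 * (A ^ 2 * e)) ≤ R := by
    have h1 : 2 * A ^ 4 * e ≤ M1 * e := by
      refine mul_le_mul_of_nonneg_right ?_ he.le
      rw [hM1]
      nlinarith [sq_nonneg (A * M)]
    have h2 : A ^ 2 * (2 * (A ^ 2 * e)) = 2 * A ^ 4 * e := by ring
    linarith
  have hMA : A ^ 2 * M ^ 2 * e ≤ R := by
    have h1 : A ^ 2 * M ^ 2 * e ≤ M1 * e := by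
      refine mul_le_mul_of_nonneg_right ?_ he.le
      rw [hM1]
      nlinarith [sq_nonneg (A ^ 2)]
    linarith
  have h2e : 2 * (A ^ 2 * e) ≤ R := by
    have h1 : 1 ≤ A ^ 2 := by nlinarith
    have h2 : 0 ≤ 2 * (A ^ 2 * e) := by positivity
    nlinarith
  have hRpos : 0 < R := by linarith
  have hex : ∃ n : ℕ, 0 < n ∧ ∃ c ∈ J, Cr a b c ∧ c ∈ (pre a b)^[n] univ ∧ (gg a b)^[n] c ∈ ball x (2 * e) := by
    obtain ⟨y, ⟨c, hc, hcr, n, hn, hcn, rfl⟩, hd⟩ := Metric.mem_closure_iff.1 hx (2 * e) (by positivity)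
    refine ⟨n, hn, c, hc, hcr, hcn, ?_⟩
    rw [mem_ball, dist_comm]
    exact hd
  obtain ⟨n, hnd⟩ : ∃ n, n = Nat.find hex := ⟨_, rfl⟩
  obtain ⟨hn, c, hc, hcr, hcn, hcb⟩ := Nat.find_spec hex
  rw [← hnd] at hn hcn hcb
  have hmin : ∀ k : ℕ, 0 < k → k < n → ¬ ∃ c ∈ J, Cr a b c ∧ c ∈ (pre a b)^[k] univ ∧ (gg a b)^[k] c ∈ ball x (2 * e) := by
    intro k hk hkn hex'
    rw [hnd] at hkn
    exact Nat.find_min hex hkn ⟨hk, hex'⟩
  have hy : (gg a b)^[n] c ∈ closedBall x e := by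
    refine hP ⟨p_cr hc hcr hn hcn, ?_⟩
    rw [mem_ball] at hcb ⊢
    linarith
  obtain ⟨ψ, hψ, hψy⟩ := rd1_br h hst he h8 (hRr'.trans hr's) hN hP hcn hy hmin (n - 1) (by omega)
  have hn1 : n - (n - 1) = 1 := by omega
  rw [hn1, Function.iterate_one] at hψy
  have hy4 : (gg a b)^[n] c ∈ ball x (R / 4) := by
    rw [mem_closedBall] at hy
    rw [mem_ball]
    linarith
  have hs := (hsm (n - 1) x R ψ hN hRpos (hRr'.trans hr'2) hψ c hc hcr _ hy4 hψy).1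
  have hs1 : R * ‖deriv ψ ((gg a b)^[n] c)‖ < δf := hs.trans_le (min_le_left _ _)
  have hs2 : R * ‖deriv ψ ((gg a b)^[n] c)‖ < A * δ ^ 2 := hs.trans_le (min_le_right _ _)
  obtain ⟨hβ, hFr, -⟩ := hfrm x e (A ^ 2 * e) R 0 (n - 1) x c ((gg a b)^[n] c) e (A ^ 2 * e) (2 * (A ^ 2 * e)) R ψ
    hP (rd1_fr a b x he hA h2e) hN le_rfl h2A hψ hc hcr hy hψy hs1.le
  obtain ⟨β, hβd⟩ : ∃ β : ℝ, β = ‖deriv ψ ((gg a b)^[n] c)‖ := ⟨_, rfl⟩
  rw [← hβd] at hβ hFr hs2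
  refine ⟨c, hc, hcr, √(A * β * e), √(β * R / A), Real.sqrt_pos.2 (by positivity), ?_, ?_, ?_⟩
  · rw [← Real.sqrt_sq hM.le, ← Real.sqrt_mul (sq_nonneg M)]
    apply Real.sqrt_le_sqrt
    rw [le_div_iff₀ hA0]
    have h1 : M ^ 2 * (A * β * e) * A = β * (A ^ 2 * M ^ 2 * e) := by ring
    rw [h1]
    exact mul_le_mul_of_nonneg_left hMA hβ.le
  · rw [Real.sqrt_le_left hδ.le, div_le_iff₀ hA0]
    linarith
  · rintro p ⟨hpP, hpb⟩
    have h1 := hFr.map p hpb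
    have h2 := p_inv h hpP (pre_mono (subset_univ _) h1)
    exact hFr.eps p hpb (hP ⟨h2, (mem_pre.1 h1).2⟩)

theorem rd1 (h : Geo d a b J δ0) (hF : ∀ M : ℝ, 0 < M → ∃ x ∈ PJ a b J, ∃ e R : ℝ, 0 < e ∧ M * e ≤ R ∧ R ≤ 1 ∧
    PJ a b J ∩ ball x R ⊆ closedBall x e ∧ ball x R ⊆ NJ J δ0) : ∃ c ∈ J, Cr a b c ∧ Fat a b J c := by
  by_contra hcon
  push Not at hcon
  have hN : ∀ c : ℂ, ∃ N : ℝ, 0 < N ∧ (c ∈ J → Cr a b c → ∀ e R : ℝ, 0 < e → N * e ≤ R → R ≤ 1 / N →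
      ¬ PJ a b J ∩ ball c R ⊆ closedBall c e) := by
    intro c
    by_cases hc : c ∈ J ∧ Cr a b c
    · have h1 := hcon c hc.1 hc.2
      unfold Fat at h1
      push Not at h1
      obtain ⟨M, δ, hM, hδ, h2⟩ := h1
      refine ⟨max M (1 / δ), lt_max_of_lt_left hM, fun _ _ e R he h3 h4 => h2 e R he ?_ ?_⟩
      · exact (mul_le_mul_of_nonneg_right (le_max_left _ _) he.le).trans h3
      · refine h4.trans ?_
        rw [div_le_iff₀ (lt_max_of_lt_left hM)]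
        have h5 : 1 / δ ≤ max M (1 / δ) := le_max_right _ _
        rw [div_le_iff₀ hδ] at h5
        linarith
    · exact ⟨1, one_pos, fun h1 h2 => absurd ⟨h1, h2⟩ hc⟩
  choose N hN0 hN1 using hN
  obtain ⟨B, hB⟩ := ((cr_fin h).image N).bddAbove
  obtain ⟨c, hc, hcr, e, R, he, h1, h2, h3⟩ := rd1_one h hF (M := max B 1) (δ := 1 / max B 1)
    (lt_max_of_lt_right one_pos) (by have : 0 < max B 1 := lt_max_of_lt_right one_pos
                                     positivity)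
  have hNB : N c ≤ max B 1 := (hB ⟨c, hcr, rfl⟩).trans (le_max_left _ _)
  refine hN1 c hc hcr e R he ?_ ?_ h3
  · exact (mul_le_mul_of_nonneg_right hNB he.le).trans h1
  · exact h2.trans (one_div_le_one_div_of_le (hN0 c) hNB)

end Pool.Agent.H18.UP
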