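import Pool.Agent.H18.UP.CHN
import Pool.Agent.H18.UP.LOC

/-!
# THEOREM UP: fat annuli at `c` give fat annuli at a critical point `r` with `c ∈ ω(r)`

PROOF. If `r = c` clear. Let `M, δ > 0` be given (WLOG `M ≥ 4`; `δ ≤ δl`, `δ ≤ δ0`, `δl` from `loc`). `K, C1` from `chn`, `L1` for `L = 4`, `δ`; `Λ = max L1 4`, `M' = max M 4`: `M0, r1`. `Fat` at `c` with the factor `M0 Λ` and `min r1 ..`: `e0, r0`; `t0 = r0 / Λ`. So `Chs a b J c e0 t0 r0 M' 4 K C1 δ`.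
Let `m > 0` be the smallest positive number with `r ∈ pre^m (ball c (2 t0))` (exists by hypothesis). For `0 < j < m`: `r ∈ pre^j univ`, so `gg^[j] r ∉ ball c (2 t0)`: `t0 ≤ ‖gg^[j] r - c‖`. `Chn` for `z = r`.
UNFOLDED: `ψ (gg^[m] r) = r`: `b_nc` with `i = 0 < m`: `ww r ≠ 0`: contradiction. FOLDED: `k1 = 0` by the same argument, `r ∈ ball q1 s1`, `s1 ≤ r1' ≤ δ ≤ δl`: `q1 = r` (`loc`). `Fr a b c e0 t0 r0 m r e1 t1 s1 r1'`, `M' e1 ≤ t1 ≤ s1 ≤ r1' ≤ δ`.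
The annulus `(e1, r1')` at `r`: `x ∈ PJ ∩ ball r r1'`: `x ∈ pre^m (ball c r0)` (`Fr.map`), `gg^[m] x ∈ PJ` (`p_inv`), so `gg^[m] x ∈ closedBall c e0` and `x ∈ closedBall r e1` (`Fr.eps`).
-/

set_option autoImplicit false

open Filter Topology Polynomial Metric Set MeasureTheory

namespace Pool.Agent.H18.UP

open Pool.Agent.H44.Fatou (rat rat_continuous)
open Pool.Agent.H80.AJ (Br KK one_le_KK KK_pos distort distort_lip deriv_ne univ_cover)
open Pool.Agent.H32.BT (IsCrit)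
open Pool.Agent.H61.TT Pool.Agent.H57.CP Pool.Agent.H3.NC

variable {d : ℕ} {a b : Polynomial ℂ} {J : Set ℂ} {δ0 : ℝ}

theorem rd2 (h : Geo d a b J δ0) {c r : ℂ} (hc : c ∈ J) (hcr : Cr a b c) (hr : r ∈ J) (hrr : Cr a b r) (hF : Fat a b J c)
    (hω : ∀ ε : ℝ, 0 < ε → ∃ n : ℕ, 0 < n ∧ r ∈ (pre a b)^[n] (ball c ε)) : Fat a b J r := by
  by_cases hne : r = c
  · rw [hne]
    exact hF
  intro M δ hM hδ
  obtain ⟨A, δl, -, hδl, -, hloc⟩ := loc h
  obtain ⟨K, C1, -, -, hch⟩ := chn h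
  have hδ0 := h.hδ
  set δ' : ℝ := min δ (min δl δ0) with hδ'
  have hδ'p : 0 < δ' := lt_min hδ (lt_min hδl hδ0)
  have hδ'1 : δ' ≤ δ := min_le_left _ _
  have hδ'2 : δ' ≤ δl := (min_le_right _ _).trans (min_le_left _ _)
  have hδ'3 : δ' ≤ δ0 := (min_le_right _ _).trans (min_le_right _ _)
  obtain ⟨L1, hL1⟩ := hch 4 δ' (by norm_num) hδ'p
  have hM' : 0 < max M 4 := lt_max_of_lt_left hM
  obtain ⟨M0, r1, hM0, hr1, hch'⟩ := hL1 (max L1 4) (le_max_left _ _) (max M 4) hM'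
  have hΛ4 : (4 : ℝ) ≤ max L1 4 := le_max_right _ _
  have hΛL : L1 ≤ max L1 4 := le_max_left _ _
  generalize max L1 4 = Λ at hΛ4 hΛL hch'
  have hΛ : 0 < Λ := by linarith
  obtain ⟨e0, r0, he0, hMe, hrδ, hcol⟩ := hF (M0 * Λ) (min r1 δ0) (mul_pos hM0 hΛ) (lt_min hr1 hδ0)
  have hr0 : 0 < r0 := lt_of_lt_of_le (mul_pos (mul_pos hM0 hΛ) he0) hMe
  have hr01 : r0 ≤ r1 := hrδ.trans (min_le_left _ _)
  have hr02 : r0 ≤ δ0 := hrδ.trans (min_le_right _ _)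
  set t0 : ℝ := r0 / Λ with ht0
  have ht0p : 0 < t0 := div_pos hr0 hΛ
  have hΛt : Λ * t0 = r0 := by
    rw [ht0]
    field_simp
  have h1 : M0 * e0 ≤ t0 := by
    rw [ht0, le_div_iff₀ hΛ]
    calc M0 * e0 * Λ = M0 * Λ * e0 := by ring
      _ ≤ r0 := hMe
  have h2 : L1 * t0 ≤ r0 := by
    rw [← hΛt]
    exact mul_le_mul_of_nonneg_right hΛL ht0p.le
  have hchs := hch' c hc hcr e0 t0 r0 he0 h1 h2 hΛt.ge hr01 hcol
  have hex := hω (2 * t0) (by linarith)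
  classical
  obtain ⟨hm0, hm1⟩ := Nat.find_spec hex
  have hmin : ∀ j, j < Nat.find hex → ¬ (0 < j ∧ r ∈ (pre a b)^[j] (ball c (2 * t0))) :=
    fun j hj => Nat.find_min hex hj
  generalize Nat.find hex = m at hm0 hm1 hmin
  have hfar : ∀ j, 0 < j → j < m → t0 ≤ ‖(gg a b)^[j] r - c‖ := by
    intro j hj0 hjm
    by_contra hlt
    rw [not_le] at hlt
    apply hmin j hjm
    refine ⟨hj0, mem_pre.2 ⟨fun i hi => (mem_pre.1 hm1).1 i (by omega), ?_⟩⟩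
    rw [mem_ball, dist_eq_norm]
    linarith
  have hcN : ball c r0 ⊆ NJ J δ0 := fun w hw => ⟨c, hc, ball_subset_ball hr02 hw⟩
  have hmr := (mem_pre.1 hm1).2
  rcases hchs m r hm0 hm1 hfar with ⟨ψ, hψ, hψr⟩ |
    ⟨k1, k2, q1, q2, y, e1, t1, s1, r1', e2, t2, s2, r2, ψ, γ, hFol, -, hFr, hMe1, -, hz, hψr, -, -⟩
  · exfalso
    have hu : (gg a b)^[m] r ∈ ball c r0 := by
      refine ball_subset_ball ?_ hmr
      nlinarith
    have h3 := b_nc h hcN hψ hu hm0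
    rw [Function.iterate_zero, id, hψr] at h3
    exact h3 hrr.2
  · have hqN : ball q1 r1' ⊆ NJ J δ0 :=
      fun w hw => ⟨q1, hFol.q1J, ball_subset_ball (hFol.r1δ.trans hδ'3) hw⟩
    have hz' : (gg a b)^[k1] r ∈ ball q1 r1' := ball_subset_ball hFr.sr hz
    have hk : k1 = 0 := by
      by_contra hk
      have h3 := b_nc h hqN hFol.br1 hz' (Nat.pos_of_ne_zero hk)
      rw [Function.iterate_zero, id, hψr] at h3
      exact h3 hrr.2
    subst hk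
    rw [Function.iterate_zero, id] at hz
    have hq : r = q1 := by
      by_contra hq
      have h3 := (hloc q1 hFol.q1J hFol.w1).2.1 r hr hrr hq
      rw [mem_ball, dist_eq_norm] at hz
      have h4 := hFr.sr
      have h5 := hFol.r1δ
      linarith
    subst hq
    have he1 := hFr.he
    refine ⟨e1, r1', he1, ?_, hFol.r1δ.trans hδ'1, ?_⟩
    · have h3 : M * e1 ≤ max M 4 * e1 := mul_le_mul_of_nonneg_right (le_max_left _ _) he1.le
      have h4 := hFr.ts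
      have h5 := hFr.sr
      linarith
    · rintro x ⟨hxP, hxb⟩
      have h3 := hFr.map x hxb
      rw [Nat.sub_zero] at h3
      have h4 : (gg a b)^[m] x ∈ PJ a b J := p_inv h hxP (pre_mono (subset_univ _) h3)
      have h5 := hcol ⟨h4, (mem_pre.1 h3).2⟩
      have h6 := hFr.eps x hxb
      rw [Nat.sub_zero] at h6
      exact h6 h5

end Pool.Agent.H18.UP
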