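import Pool.Agent.H18.UP.DF2

/-!
# THEOREM UP: the nice set

`V` = the connected component of `c0` in `U = ball c0 ρ ∪ ⋃_(n ≥ 1) pre^n (ball c0 ρ1)`.
PROOF. `U` is open (`pre_open`), so `V` is open and preconnected, `ball c0 ρ ⊆ V`. `nic`: `S ∪ V` is preconnected (they meet), in `U`, so `S ⊆ V`. It remains `V ⊆ ball c0 (2 ρ)`.
Let `U N t = ball c0 t ∪ ⋃_(1 ≤ n ≤ N) pre^n (ball c0 ρ1)`. CLAIM (induction on `N`, for `t = ρ` and `t = ρ1` together): if `γ : [0, 1] → ℂ` is a path in `U N t`, `γ 0 = c0`, then `‖γ x - c0‖ < 2 t` for all `x`. (Then `V ⊆ ball c0 (2 ρ)`: `V` is open and connected, so path connected; a path is compact and in `U = ⋃ U N ρ` (increasing open sets), so in `U N ρ` for some `N`.)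
`N = 0`: clear. Step: suppose `‖γ x - c0‖ ≥ 2 t` for some `x`. Let `x2 = sInf {x | 3 t / 2 ≤ ‖γ x - c0‖}`, `x1 = sSup {x ≤ x2 | ‖γ x - c0‖ ≤ t}`: on `[x1, x2]` `t ≤ ‖γ - c0‖ ≤ 3 t / 2`, `‖γ x1 - c0‖ = t`, `‖γ x2 - c0‖ = 3 t / 2`. `Γ = γ '' [x1, x2]` is preconnected.
The points of `Γ` are not in `ball c0 t`, so in `pre^n (ball c0 ρ1)` for some `1 ≤ n ≤ N + 1`. Let `m ≥ 1` be the smallest `n` such that `Γ` meets `pre^n (ball c0 ρ1)`. Every point of `Γ` is in `pre^n (ball c0 ρ1)` for some `n` with `m ≤ n ≤ N + 1`, so in `pre^m univ`, and `gg^[m]` of it is in `pre^(n - m) (ball c0 ρ1) ⊆ U N ρ1` (`pre_add`; `n - m ≤ N`).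
`gg^[m] ∘ γ` on `[x1, x2]` is a path in `U N ρ1` which meets `ball c0 ρ1`: joined with a segment from `c0` (in `ball c0 ρ1`) to a point of it and run in both directions it gives paths in `U N ρ1` from `c0` to every point of `gg^[m] '' Γ`. By the induction hypothesis (`t = ρ1`) `gg^[m] '' Γ ⊆ ball c0 (2 ρ1)`, so `Γ ⊆ pre^m (ball c0 (2 ρ1))`. (It may be easier to use instead of paths: preconnected COMPACT sets containing `c0`, or `JoinedIn (U N t) c0 x → ‖x - c0‖ < 2 t`.)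
For `z = γ x1` and `0 < j < m`: `ρ1 ≤ ‖gg^[j] z - c0‖` (minimality of `m`: `z ∈ pre^j univ`). `Scl` for `(m, z, Γ)`: `T`. `c0 ∉ T`: otherwise `ρ ^ 2 ≤ t ^ 2 = ‖z - c0‖ ^ 2 ≤ 256 e0 R1 < ρ ^ 2`. `x' = γ x2`: `ball z (L ‖z - x'‖) ⊆ T`, so `L ‖z - x'‖ ≤ ‖z - c0‖ = t`, but `‖z - x'‖ ≥ t / 2` and `L ≥ 16`: contradiction.
-/

set_option autoImplicit false

open Filter Topology Polynomial Metric Set MeasureTheory

namespace Pool.Agent.H18.UP

open Pool.Agent.H44.Fatou (rat rat_continuous)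
open Pool.Agent.H80.AJ (Br KK one_le_KK KK_pos distort distort_lip deriv_ne univ_cover)
open Pool.Agent.H32.BT (IsCrit)
open Pool.Agent.H61.TT Pool.Agent.H57.CP Pool.Agent.H3.NC

variable {d : ℕ} {a b : Polynomial ℂ} {J : Set ℂ} {δ0 : ℝ}

private theorem nic_cross {f : ℝ → ℝ} {p q t : ℝ} (hpq : p ≤ q) (hf : ContinuousOn f (Icc p q)) (hp : f p < t)
    (hq : t ≤ f q) : ∃ x ∈ Icc p q, f x = t ∧ ∀ y ∈ Icc x q, t ≤ f y := by
  have hcl : IsCompact {x ∈ Icc p q | f x = t} := by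
    have h1 : IsClosed (Icc p q ∩ f ⁻¹' {t}) := hf.preimage_isClosed_of_isClosed isClosed_Icc isClosed_singleton
    exact isCompact_Icc.of_isClosed_subset h1 inter_subset_left
  have hne : {x ∈ Icc p q | f x = t}.Nonempty := by
    obtain ⟨x, hx, hx'⟩ := intermediate_value_Icc hpq hf ⟨hp.le, hq⟩
    exact ⟨x, hx, hx'⟩
  obtain ⟨x, ⟨hx, hxt⟩, hmax⟩ := hcl.exists_isGreatest hne
  refine ⟨x, hx, hxt, fun y hy => ?_⟩
  by_contra hcon
  push Not at hcon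
  have hy1 : y ∈ Icc p q := ⟨hx.1.trans hy.1, hy.2⟩
  obtain ⟨w, hw, hwt⟩ := intermediate_value_Icc hy.2 (hf.mono (Icc_subset_Icc hy1.1 le_rfl)) ⟨hcon.le, hq⟩
  have h1 : w ≤ x := hmax ⟨⟨hy1.1.trans hw.1, hw.2⟩, hwt⟩
  have h2 : y = x := le_antisymm (hw.1.trans h1) hy.1
  rw [h2, hxt] at hcon
  exact lt_irrefl _ hcon

/-- the union of the first `N` preimages -/
private def UU (a b : Polynomial ℂ) (c0 : ℂ) (ρ1 : ℝ) (N : ℕ) (t : ℝ) : Set ℂ :=
  {x | x ∈ ball c0 t ∨ ∃ n : ℕ, 1 ≤ n ∧ n ≤ N ∧ x ∈ (pre a b)^[n] (ball c0 ρ1)}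

private theorem nic_rev {c0 : ℂ} {U : Set ℂ} {t s : ℝ}
    (h : ∀ (p q : ℝ) (γ : ℝ → ℂ), p ≤ q → ContinuousOn γ (Icc p q) → (∀ x ∈ Icc p q, γ x ∈ U) →
      γ p ∈ ball c0 t → γ q ∈ ball c0 s) (p q : ℝ) (γ : ℝ → ℂ) (hpq : p ≤ q) (hγ : ContinuousOn γ (Icc p q))
    (hU : ∀ x ∈ Icc p q, γ x ∈ U) (h0 : γ q ∈ ball c0 t) : γ p ∈ ball c0 s := by
  have hmap : ∀ x ∈ Icc (-q) (-p), -x ∈ Icc p q := fun x hx => ⟨by linarith [hx.2], by linarith [hx.1]⟩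
  have h1 := h (-q) (-p) (fun x => γ (-x)) (by linarith) (hγ.comp continuous_neg.continuousOn hmap)
    (fun x hx => hU _ (hmap x hx))
  simp only [neg_neg] at h1
  exact h1 h0

private theorem nic_claim {c0 : ℂ} {e0 ρ ρ1 R1 L : ℝ} (hρ : 0 < ρ) (hρ1 : ρ ≤ ρ1) (hL : 16 ≤ L)
    (hS : Scl a b c0 e0 ρ1 R1 L) (hsq : 256 * e0 * R1 < ρ ^ 2) (N : ℕ) :
    ∀ t : ℝ, ρ ≤ t → ∀ (p q : ℝ) (γ : ℝ → ℂ), p ≤ q → ContinuousOn γ (Icc p q) →
      (∀ x ∈ Icc p q, γ x ∈ UU a b c0 ρ1 N t) → γ p ∈ ball c0 t → γ q ∈ ball c0 (2 * t) := by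
  induction N with
  | zero =>
    intro t ht p q γ hpq _ hU _
    rcases hU q ⟨hpq, le_rfl⟩ with h1 | ⟨n, h1, h2, -⟩
    · exact ball_subset_ball (by linarith) h1
    · omega
  | succ N ih =>
    intro t ht p q γ hpq hγ hU h0
    by_contra hcon
    have ht0 : 0 < t := hρ.trans_le ht
    rw [mem_ball_iff_norm, not_lt] at hcon
    rw [mem_ball_iff_norm] at h0
    obtain ⟨x1, hx1, hx1t, hx1m⟩ := nic_cross (f := fun x => ‖γ x - c0‖) hpq
      (hγ.sub continuousOn_const).norm h0 (show t ≤ ‖γ q - c0‖ by linarith)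
    have hsub : Icc x1 q ⊆ Icc p q := Icc_subset_Icc hx1.1 le_rfl
    have hpt : ∀ y ∈ Icc x1 q, ∃ n : ℕ, 1 ≤ n ∧ n ≤ N + 1 ∧ γ y ∈ (pre a b)^[n] (ball c0 ρ1) := by
      intro y hy
      rcases hU y (hsub hy) with h1 | h1
      · rw [mem_ball_iff_norm] at h1
        exact absurd (hx1m y hy) (not_le.2 h1)
      · exact h1
    have hex : ∃ n : ℕ, 1 ≤ n ∧ ∃ y ∈ Icc x1 q, γ y ∈ (pre a b)^[n] (ball c0 ρ1) := by
      obtain ⟨n, h1, -, h2⟩ := hpt x1 ⟨le_rfl, hx1.2⟩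
      exact ⟨n, h1, x1, ⟨le_rfl, hx1.2⟩, h2⟩
    classical
    obtain ⟨m, hm⟩ : ∃ m, m = Nat.find hex := ⟨_, rfl⟩
    obtain ⟨hm1, ys, hys, hysm⟩ : 1 ≤ m ∧ ∃ y ∈ Icc x1 q, γ y ∈ (pre a b)^[m] (ball c0 ρ1) := by
      rw [hm]
      exact Nat.find_spec hex
    have hmin : ∀ j, 1 ≤ j → j < m → ∀ y ∈ Icc x1 q, γ y ∉ (pre a b)^[j] (ball c0 ρ1) := by
      intro j hj hjm y hy h1
      rw [hm] at hjm
      exact Nat.find_min hex hjm ⟨hj, y, hy, h1⟩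
    have himg : ∀ y ∈ Icc x1 q, γ y ∈ (pre a b)^[m] univ ∧ (gg a b)^[m] (γ y) ∈ UU a b c0 ρ1 N ρ1 := by
      intro y hy
      obtain ⟨n, h1, h2, h3⟩ := hpt y hy
      have hmn : m ≤ n := by
        by_contra hlt
        exact hmin n h1 (not_le.1 hlt) y hy h3
      have h4 : n = m + (n - m) := by omega
      rw [h4, pre_add] at h3
      refine ⟨h3.1, ?_⟩
      rcases Nat.eq_zero_or_pos (n - m) with h5 | h5
      · left
        have h6 := h3.2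
        rw [h5] at h6
        exact h6
      · right
        exact ⟨n - m, h5, by omega, h3.2⟩
    have hcont : ContinuousOn (fun x => (gg a b)^[m] (γ x)) (Icc x1 q) := by
      intro y hy
      exact (g_diff (himg y hy).1).continuousAt.comp_continuousWithinAt ((hγ.mono hsub) y hy)
    have hys1 : (gg a b)^[m] (γ ys) ∈ ball c0 ρ1 := (mem_pre.1 hysm).2
    have hall : ∀ y ∈ Icc x1 q, (gg a b)^[m] (γ y) ∈ ball c0 (2 * ρ1) := by
      intro y hy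
      rcases le_total ys y with h1 | h1
      · have h2 : Icc ys y ⊆ Icc x1 q := Icc_subset_Icc hys.1 hy.2
        exact ih ρ1 hρ1 ys y (fun x => (gg a b)^[m] (γ x)) h1 (hcont.mono h2) (fun x hx => (himg x (h2 hx)).2) hys1
      · have h2 : Icc y ys ⊆ Icc x1 q := Icc_subset_Icc hy.1 hys.2
        exact nic_rev (ih ρ1 hρ1) y ys (fun x => (gg a b)^[m] (γ x)) h1 (hcont.mono h2)
          (fun x hx => (himg x (h2 hx)).2) hys1
    have hz : γ x1 ∈ γ '' Icc x1 q := mem_image_of_mem _ ⟨le_rfl, hx1.2⟩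
    have hq' : γ q ∈ γ '' Icc x1 q := mem_image_of_mem _ ⟨hx1.2, le_rfl⟩
    obtain ⟨T, -, -, -, hTb, hTc⟩ := hS m (γ x1) (γ '' Icc x1 q) hm1
      (isPreconnected_Icc.image _ (hγ.mono hsub)) hz
      (by
        rintro _ ⟨y, hy, rfl⟩
        exact mem_pre.2 ⟨(mem_pre.1 (himg y hy).1).1, hall y hy⟩)
      (by
        intro j hj hjm
        by_contra hlt
        rw [not_le] at hlt
        refine hmin j hj hjm x1 ⟨le_rfl, hx1.2⟩ (mem_pre.2 ⟨fun i hi => ?_, mem_ball_iff_norm.2 hlt⟩)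
        exact (mem_pre.1 (himg x1 ⟨le_rfl, hx1.2⟩).1).1 i (by omega))
    have hcT : c0 ∉ T := by
      intro h1
      have h2 := hTc h1 (γ x1) hz
      rw [hx1t] at h2
      have h3 : ρ ^ 2 ≤ t ^ 2 := pow_le_pow_left₀ hρ.le ht 2
      linarith
    have hd := hTb (γ x1) hz (γ q) hq'
    apply hcT
    apply hd
    rw [mem_ball_iff_norm, norm_sub_rev, hx1t]
    have h1 : t ≤ ‖γ x1 - γ q‖ := by
      have h2 : ‖γ q - c0‖ ≤ ‖γ x1 - γ q‖ + ‖γ x1 - c0‖ := by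
        have h3 : γ q - c0 = -(γ x1 - γ q) + (γ x1 - c0) := by ring
        rw [h3]
        exact (norm_add_le _ _).trans (by rw [norm_neg])
      rw [hx1t] at h2
      linarith
    nlinarith

theorem nic {c0 : ℂ} {e0 ρ ρ1 R1 L : ℝ} (hρ : 0 < ρ) (hρ1 : ρ ≤ ρ1) (hL : 16 ≤ L) (hS : Scl a b c0 e0 ρ1 R1 L)
    (hsq : 256 * e0 * R1 < ρ ^ 2) : ∃ V : Set ℂ, Nic a b c0 ρ ρ1 V := by
  obtain ⟨U, hU⟩ : ∃ U : Set ℂ, U = ⋃ N : ℕ, UU a b c0 ρ1 N ρ := ⟨_, rfl⟩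
  have hUN : ∀ N, IsOpen (UU a b c0 ρ1 N ρ) := by
    intro N
    have h1 : UU a b c0 ρ1 N ρ = ball c0 ρ ∪ ⋃ n : ℕ, ⋃ (_ : 1 ≤ n ∧ n ≤ N), (pre a b)^[n] (ball c0 ρ1) := by
      ext x
      simp only [UU, mem_ofPred_eq, mem_union, mem_iUnion, exists_prop, and_assoc]
    rw [h1]
    exact isOpen_ball.union (isOpen_iUnion fun n => isOpen_iUnion fun _ => pre_open isOpen_ball)
  have hUo : IsOpen U := by
    rw [hU]
    exact isOpen_iUnion hUN
  have hbU : ball c0 ρ ⊆ U := by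
    intro x hx
    rw [hU, mem_iUnion]
    exact ⟨0, Or.inl hx⟩
  have hpU : ∀ n : ℕ, 0 < n → (pre a b)^[n] (ball c0 ρ1) ⊆ U := by
    intro n hn x hx
    rw [hU, mem_iUnion]
    exact ⟨n, Or.inr ⟨n, hn, le_rfl, hx⟩⟩
  have hc0 : c0 ∈ ball c0 ρ := mem_ball_self hρ
  have hin : ball c0 ρ ⊆ connectedComponentIn U c0 :=
    (convex_ball c0 ρ).isPreconnected.subset_connectedComponentIn hc0 hbU
  refine ⟨connectedComponentIn U c0, hρ, hUo.connectedComponentIn, isPreconnected_connectedComponentIn, hin, ?_, ?_⟩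
  · intro w hw
    have hcon : IsConnected (connectedComponentIn U c0) :=
      ⟨⟨w, hw⟩, isPreconnected_connectedComponentIn⟩
    have hpc := (hUo.connectedComponentIn.isConnected_iff_isPathConnected).1 hcon
    obtain ⟨γ, hγ⟩ := hpc.joinedIn c0 (hin hc0) w hw
    have hmono : Monotone (fun N => UU a b c0 ρ1 N ρ) := by
      intro N N' hNN x hx
      rcases hx with h1 | ⟨n, h1, h2, h3⟩
      · exact Or.inl h1
      · exact Or.inr ⟨n, h1, h2.trans hNN, h3⟩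
    have hcpt : IsCompact (range γ) := isCompact_range γ.continuous
    obtain ⟨N, hN⟩ := hcpt.elim_directed_cover (fun N => UU a b c0 ρ1 N ρ) hUN (by
      rw [← hU]
      rintro _ ⟨x, rfl⟩
      exact connectedComponentIn_subset U c0 (hγ x)) hmono.directed_le
    have h1 := nic_claim hρ hρ1 hL hS hsq N ρ le_rfl 0 1 γ.extend zero_le_one
      γ.continuous_extend.continuousOn (fun x hx => by
        rw [γ.extend_apply hx]
        exact hN (mem_range_self _)) (by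
        rw [γ.extend_zero]
        exact hc0)
    rwa [γ.extend_one] at h1
  · intro n hn S hSc hSs hSV
    obtain ⟨x, hxS, hxV⟩ := hSV
    rw [connectedComponentIn_eq hxV]
    exact hSc.subset_connectedComponentIn hxS (hSs.trans (hpU n hn))

end Pool.Agent.H18.UP
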