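import Pool.Agent.H18.UP.LOC
import Pool.Agent.H18.UP.DF2

/-!
# THEOREM UP: connected sets in the pull backs are small

PROOF. `δ1` from `loc` (distances of critical points). Let `m, z, S` be as in `Scl`, and the data of `Chn` for `z`.
UNFOLDED: `ψ` a branch of `g^(-m)` on `ball c0 r0`, `ψ (gg^[m] z) = z`. `T = ψ '' ball c0 r0` (preconnected; in `pre^m (ball c0 r0)` by `b_pre`). `S ⊆ ψ '' ball c0 (2 t0)`: `b_clp` (`S ⊆ pre^m (ball c0 r0)`, `2 t0 ≤ r0`): `x = ψ (gg^[m] x)`. `c0 ∉ T` (`b_nc` with `i = 0`, `m > 0`).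
FOLDED: `T = ψ '' ball q1 r1` (in `pre^k1 (ball q1 r1) ⊆ pre^m (ball c0 r0)` by `Fr.map`, `pre_add`). `S' = gg^[k1] '' S` is preconnected (continuous on `S`), contains `gg^[k1] z ∈ ball q1 s1`; a point of `S'` in `ball q1 r1` is in `ball q1 s1` (`Fr.out`, `gg^[m-k1]` of it is in `ball c0 (2 t0)`); `s1 < r1` (`4 s1 ≤ L s1 ≤ r1`, `0 < s1`), so `S' ⊆ ball q1 s1` (`in_ball`); `b_clp`: `ψ (gg^[k1] x) = x` for `x ∈ S`.
SIZES (both cases, `s ≤ r / 4`, `L s ≤ r`): `x = ψ u`, `x' = ψ u'`, `u, u' ∈ ball q s`: `‖x - x'‖ ≤ KK ‖ψ' u‖ 2 s` (`distort_lip`), and `ball x ((r / 4) ‖ψ' u‖ / 16) ⊆ ψ '' ball u (r / 4) ⊆ T` (`univ_cover`): `L / (128 KK) * 2 KK s ≤ r / 64`.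
`c0 ∈ T` in the folded case: `c0 = ψ u`: by `b_nc` (`i = 0`) `k1 = 0`; then `ψ = id` on the ball (`b_gg` with `n = 0`), `c0 ∈ ball q1 r1`, `r1 ≤ δ ≤ δ1`: `c0 = q1` (`loc`); so `r1 ^ 2 ≤ 256 e0 r0` and `S ⊆ ball c0 s1 ⊆ ball c0 r1`.
-/

set_option autoImplicit false

open Filter Topology Polynomial Metric Set MeasureTheory

namespace Pool.Agent.H18.UP

open Pool.Agent.H44.Fatou (rat rat_continuous)
open Pool.Agent.H80.AJ (Br KK one_le_KK KK_pos distort distort_lip deriv_ne univ_cover)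
open Pool.Agent.H32.BT (IsCrit)
open Pool.Agent.H61.TT Pool.Agent.H57.CP Pool.Agent.H3.NC

variable {d : ℕ} {a b : Polynomial ℂ} {J : Set ℂ} {δ0 : ℝ}

private theorem scl_size {ψ : ℂ → ℂ} {q : ℂ} {s r L : ℝ} (hs : 0 < s) (hL : 4 ≤ L) (hr : L * s ≤ r)
    (hd : DifferentiableOn ℂ ψ (ball q r)) (hi : InjOn ψ (ball q r)) {u u' : ℂ} (hu : u ∈ ball q s)
    (hu' : u' ∈ ball q s) : ball (ψ u) (L / (128 * KK) * ‖ψ u - ψ u'‖) ⊆ ψ '' ball q r := by
  have hsr : 4 * s ≤ r := (mul_le_mul_of_nonneg_right hL hs.le).trans hr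
  have hr0 : 0 < r := by linarith
  have hK := KK_pos
  have hsub : ball q s ⊆ closedBall q (r / 2) :=
    ball_subset_closedBall.trans (closedBall_subset_closedBall (by linarith))
  have h1 := distort_lip hr0 hd hi (hsub hu) (hsub hu') (hsub hu)
  have h2 : ‖u - u'‖ ≤ 2 * s := by
    have h3 : dist u u' ≤ dist u q + dist u' q := dist_triangle_right u u' q
    rw [mem_ball] at hu hu'
    rw [dist_eq_norm] at h3
    linarith
  have hd0 := norm_nonneg (deriv ψ u)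
  have h3 : L / (128 * KK) * ‖ψ u - ψ u'‖ ≤ r / 4 * ‖deriv ψ u‖ / 16 := by
    calc L / (128 * KK) * ‖ψ u - ψ u'‖ ≤ L / (128 * KK) * (KK * ‖deriv ψ u‖ * (2 * s)) := by
          refine mul_le_mul_of_nonneg_left (h1.trans ?_) (by positivity)
          exact mul_le_mul_of_nonneg_left h2 (by positivity)
      _ = L * s * ‖deriv ψ u‖ / 64 := by
          field_simp
          ring
      _ ≤ r * ‖deriv ψ u‖ / 64 := by gcongr
      _ = r / 4 * ‖deriv ψ u‖ / 16 := by ring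
  have hsub2 : ball u (r / 4) ⊆ ball q r := by
    rw [mem_ball] at hu
    exact ball_subset_ball' (by linarith)
  have h4 := univ_cover (by linarith : 0 < r / 4) (hd.mono hsub2) (hi.mono hsub2)
  exact (ball_subset_ball h3).trans (h4.trans (image_mono hsub2))

private theorem scl_inj (h : Geo d a b J δ0) {n : ℕ} {q x : ℂ} {r : ℝ} {ψ : ℂ → ℂ}
    (hq : ball q r ⊆ NJ J δ0) (hψ : Br (rat a b) n q r x ψ) : InjOn ψ (ball q r) := by
  intro u hu u' hu' he
  rw [← b_gg h hq hψ hu, ← b_gg h hq hψ hu', he]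

theorem scl (h : Geo d a b J δ0) : ∃ δ1 : ℝ, 0 < δ1 ∧ ∀ c0 ∈ J, Cr a b c0 → ∀ e0 t0 r0 M L K C1 δ : ℝ, 0 < e0 → 0 < t0 →
    2 * (L * t0) ≤ r0 → r0 ≤ δ0 → δ ≤ δ1 → δ ≤ δ0 → 4 ≤ L → Chs a b J c0 e0 t0 r0 M L K C1 δ → Scl a b c0 e0 t0 r0 (L / (128 * KK)) := by
  obtain ⟨A, δ1, _, hδ1, _, hloc⟩ := loc h
  refine ⟨δ1, hδ1, ?_⟩
  intro c0 hc0 hcr e0 t0 r0 M L K C1 δ he0 ht0 hLt hr0 hδ hδ' hL hChs m z S hm hS hz hSp hj
  have hLt4 : 4 * t0 ≤ L * t0 := mul_le_mul_of_nonneg_right hL ht0.le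
  have h2r : 2 * t0 ≤ r0 := by linarith
  rcases hChs m z hm (hSp hz) hj with ⟨ψ, hψ, hψz⟩ | hF
  · -- unfolded
    have hq : ball c0 r0 ⊆ NJ J δ0 := fun w hw => ⟨c0, hc0, ball_subset_ball hr0 hw⟩
    have hclp := b_clp h hq hψ hS (fun w hw => pre_mono (ball_subset_ball h2r) (hSp hw)) hz hψz
    have hinj := scl_inj h hq hψ
    refine ⟨ψ '' ball c0 r0, (convex_ball c0 r0).isPreconnected.image ψ hψ.diff.continuousOn, ?_, ?_, ?_, ?_⟩
    · intro x hx
      exact ⟨_, ball_subset_ball h2r (mem_pre.1 (hSp hx)).2, hclp x hx⟩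
    · rintro _ ⟨u, hu, rfl⟩
      exact pre_mono (singleton_subset_iff.2 hu) (b_pre h hq hψ hu)
    · intro x hx x' hx'
      have h1 := scl_size (by linarith : 0 < 2 * t0) hL (by linarith : L * (2 * t0) ≤ r0) hψ.diff hinj
        (mem_pre.1 (hSp hx)).2 (mem_pre.1 (hSp hx')).2
      rw [hclp x hx, hclp x' hx'] at h1
      exact h1
    · rintro ⟨u, hu, hu'⟩
      exfalso
      have h1 := b_nc h hq hψ hu (i := 0) hm
      rw [hu'] at h1
      exact h1 hcr.2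
  · obtain ⟨k1, k2, q1, q2, y, e1, t1, s1, r1, e2, t2, s2, r2, ψ, γ, hFol, hk2, hFr, -, -, hz1, hψz, -, hex⟩ := hF
    have hk1 : k1 + (m - k1) = m := by
      have := hFol.lt
      omega
    have hψ := hFol.br1
    have hs0 : 0 < s1 := lt_of_lt_of_le hFol.t1p hFol.ts1
    have hLs : 4 * s1 ≤ L * s1 := mul_le_mul_of_nonneg_right hL hs0.le
    have hsr : s1 < r1 := by
      have := hFol.rs1
      linarith
    have hq : ball q1 r1 ⊆ NJ J δ0 :=
      fun w hw => ⟨q1, hFol.q1J, ball_subset_ball (hFol.r1δ.trans hδ') hw⟩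
    have hinj := scl_inj h hq hψ
    have hS1 : ∀ x ∈ S, x ∈ (pre a b)^[k1] univ ∧ (gg a b)^[m - k1] ((gg a b)^[k1] x) ∈ ball c0 (2 * t0) := by
      intro x hx
      have h1 := hSp hx
      rw [← hk1, pre_add] at h1
      exact ⟨h1.1, (mem_pre.1 h1.2).2⟩
    have hS' : (gg a b)^[k1] '' S ⊆ ball q1 s1 := by
      refine in_ball (hS.image _ ?_) hsr ?_ (mem_image_of_mem _ hz) hz1
      · intro x hx
        exact (g_diff (hS1 x hx).1).continuousAt.continuousWithinAt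
      · rintro _ ⟨x, hx, rfl⟩ hxr
        exact hFr.out _ hxr (hS1 x hx).2
    have hS2 : ∀ x ∈ S, (gg a b)^[k1] x ∈ ball q1 s1 := fun x hx => hS' (mem_image_of_mem _ hx)
    have hclp := b_clp h hq hψ hS (fun w hw => mem_pre.2 ⟨(mem_pre.1 (hS1 w hw).1).1,
      ball_subset_ball hsr.le (hS2 w hw)⟩) hz hψz
    refine ⟨ψ '' ball q1 r1, (convex_ball q1 r1).isPreconnected.image ψ hψ.diff.continuousOn, ?_, ?_, ?_, ?_⟩
    · intro x hx
      exact ⟨_, ball_subset_ball hsr.le (hS2 x hx), hclp x hx⟩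
    · rintro _ ⟨u, hu, rfl⟩
      rw [← hk1, pre_add]
      refine ⟨pre_mono (subset_univ _) (b_pre h hq hψ hu), ?_⟩
      rw [b_gg h hq hψ hu]
      exact hFr.map u hu
    · intro x hx x' hx'
      have h1 := scl_size hs0 hL hFol.rs1 hψ.diff hinj (hS2 x hx) (hS2 x' hx')
      rw [hclp x hx, hclp x' hx'] at h1
      exact h1
    · rintro ⟨u, hu, hu'⟩
      have hk0 : k1 = 0 := by
        by_contra hne
        have h1 := b_nc h hq hψ hu (i := 0) (Nat.pos_of_ne_zero hne)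
        rw [hu'] at h1
        exact h1 hcr.2
      have h2 := b_gg h hq hψ hu
      rw [hu', hk0] at h2
      have h3 : c0 = u := h2
      rw [← h3] at hu
      have h4 : q1 = c0 := by
        by_contra hne
        have h5 := (hloc q1 hFol.q1J hFol.w1).2.1 c0 hc0 hcr (fun h6 => hne h6.symm)
        rw [mem_ball, dist_eq_norm] at hu
        have := hFol.r1δ
        linarith
      have h5 := hex hk0 h4
      intro x hx
      have h6 := hS2 x hx
      rw [hk0, h4, mem_ball, dist_eq_norm] at h6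
      have h7 : ‖x - c0‖ < s1 := h6
      have h8 := norm_nonneg (x - c0)
      nlinarith

end Pool.Agent.H18.UP
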