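import Pool.Agent.H18.UP.WDR
import Pool.Agent.H18.UP.SYS

/-!
# THEOREM UP: the preimage `z2` of `α` near the second fold

PROOF. `Ret` for `C0` (`wdr`, `Ce1.C0W`). `Ret.ont`: `u ∈ C0` with `gg^[m0] u = α`. `z2 = gg^[k2] u ∈ ball q2 s2` (`Ce1.im`), `z2 ∈ pre^(m0-k2) {α}` (`pre_add`, `mem_pre`). `zJ`: `Geo.back` along the orbit. `zn`: `gg^[j] z2 = gg^[k2+j] u ∉ V` for `0 < k2 + j < m0` (`Ret.fst`). `‖z2 - q2‖ ≤ s2 ≤ K t2`.
`zl`: let `F = gg^[m0-k2]`, holomorphic on `ball q2 t2` with values in `ball c0 ρ` (`Fr.inn`; `g_diff`), `F q2 ∈ closedBall c0 e0` (`Fr.cen`). If `‖z2 - q2‖ < t2`: Schwarz (`Complex.dist_le_div_mul_dist_of_mapsTo_ball`, `F` maps `ball q2 t2` into `ball (F q2) (2 ρ)`): `‖α - F q2‖ ≤ (2 ρ / t2) ‖z2 - q2‖`; and `‖α - F q2‖ ≥ θ ρ / 2 - e0 ≥ θ ρ / 4`: so `t2 ≤ (8 / θ) ‖z2 - q2‖`. If `‖z2 - q2‖ ≥ t2` clear (`8 / θ ≥ 1`).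
`zd`: let `R = ‖α - c0‖ / 2 ≥ θ ρ / 4`, `Δ = ball α R`: no points of `PJ` (`‖x - c0‖ ≥ R > e0` for `x ∈ Δ`: `θ ρ / 4 ≥ 2 e0`; `x ∈ ball c0 ρ`). `sys`: a branch `χ` of `g^(-(m0-k2))` on `Δ` with `χ α = z2`. `χ '' Δ` is preconnected, contains `z2 ∈ ball q2 s2`; a point `χ x ∈ ball q2 r2` has `gg^[m0-k2] (χ x) = x ∈ ball c0 (2 ρ)`, so it is in `ball q2 s2` (`Fr.out`): `in_ball` (`s2 < r2`). Cauchy: `‖χ' α‖ ≤ s2 / (R / 2) ≤ 8 s2 / (θ ρ) ≤ 8 K t2 / (θ ρ)` (use the norm of `χ - q2` on the circle of radius `R / 2`), and `deriv χ α * tD (m0-k2) z2 = 1` (`b_der`): `θ ρ ≤ 8 K t2 ‖tD‖`.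
-/

set_option autoImplicit false

open Filter Topology Polynomial Metric Set MeasureTheory

namespace Pool.Agent.H18.UP

open Pool.Agent.H44.Fatou (rat rat_continuous)
open Pool.Agent.H80.AJ (Br KK one_le_KK KK_pos distort distort_lip deriv_ne univ_cover)
open Pool.Agent.H32.BT (IsCrit)
open Pool.Agent.H61.TT Pool.Agent.H57.CP Pool.Agent.H3.NC

variable {d : ℕ} {a b : Polynomial ℂ} {J : Set ℂ} {δ0 : ℝ}

private theorem ztw_back (h : Geo d a b J δ0) {α : ℂ} (hα : α ∈ J) : ∀ (n : ℕ) (z : ℂ), z ∈ (pre a b)^[n] {α} → z ∈ J := by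
  intro n
  induction n with
  | zero =>
    intro z hz
    have h1 : z = α := hz
    rw [h1]
    exact hα
  | succ n ih =>
    intro z hz
    rw [Function.iterate_succ_apply'] at hz
    exact h.back z hz.1 (ih _ hz.2)

theorem ztw (h : Geo d a b J δ0) {c0 : ℂ} {e0 ρ ρ1 M L K C1 δ θ : ℝ} {V C0 : Set ℂ} (hG : GW a b J δ0 c0 e0 ρ ρ1 M L K C1 δ V)
    (hθ : 0 < θ) (hθ1 : θ ≤ 1) (hθe : 8 * e0 ≤ θ * ρ) {m0 k2 : ℕ} {q2 : ℂ} {t1 s1 e2 t2 s2 r2 : ℝ}
    (hC : Ce1 a b J c0 e0 ρ ρ1 M L K C1 δ V C0 m0 k2 q2 t1 s1 e2 t2 s2 r2) {α : ℂ} (hα : α ∈ J)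
    (h1 : θ * ρ / 2 ≤ ‖α - c0‖) (h2 : ‖α - c0‖ ≤ ρ / 2) : ∃ z2 ∈ J, z2 ∈ (pre a b)^[m0 - k2] {α} ∧
    ‖z2 - q2‖ ≤ K * t2 ∧ t2 ≤ 8 / θ * ‖z2 - q2‖ ∧ (∀ j, j < m0 - k2 → (gg a b)^[j] z2 ∉ V) ∧
    θ * ρ ≤ 8 * K * t2 * ‖tD a b (m0 - k2) z2‖ := by
  have hR : Ret a b V L m0 C0 := wdr h hG m0 C0 hC.C0W
  have hρ := hG.nic.hρ
  have he0 := hG.e0p
  have hL := hG.hL
  have hK := hG.hK
  have hρ1 : ρ ≤ ρ1 := by
    have h3 := hG.ρρ1
    nlinarith
  have hθρ : 0 < θ * ρ := mul_pos hθ hρ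
  have hαV : α ∈ V := by
    apply hG.nic.inn
    rw [mem_ball, dist_eq_norm]
    linarith
  obtain ⟨u, hu, hum⟩ := hR.ont α hαV
  have hmk : k2 + (m0 - k2) = m0 := Nat.add_sub_cancel' hC.k2m
  have hu1 : u ∈ (pre a b)^[k2 + (m0 - k2)] V := by
    rw [hmk]
    exact hR.ret u hu
  have hu2 := (pre_add.1 hu1).2
  have hz2 : (gg a b)^[m0 - k2] ((gg a b)^[k2] u) = α := by
    rw [← Function.iterate_add_apply, Nat.sub_add_cancel hC.k2m]
    exact hum
  have him := hC.im u hu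
  have hzn : ∀ j, j < m0 - k2 → (gg a b)^[j] ((gg a b)^[k2] u) ∉ V := by
    intro j hj
    rw [← Function.iterate_add_apply]
    exact hR.fst u hu (j + k2) (by have := hC.k2p; omega) (by omega)
  generalize (gg a b)^[k2] u = z2 at hu2 hz2 him hzn
  have hzp : z2 ∈ (pre a b)^[m0 - k2] {α} := mem_pre.2 ⟨(mem_pre.1 hu2).1, hz2⟩
  have hfr := hC.fr
  have ht2 : 0 < t2 := lt_of_lt_of_le hfr.he hfr.et
  have hs2 : 0 < s2 := lt_of_lt_of_le ht2 hfr.ts
  have hsr : s2 < r2 := by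
    have h3 := hC.rs2
    nlinarith
  have htr : t2 ≤ r2 := hfr.ts.trans hfr.sr
  rw [mem_ball, dist_eq_norm] at him
  refine ⟨z2, ztw_back h hα _ _ hzp, hzp, him.le.trans hC.st2, ?_, hzn, ?_⟩
  · rw [div_mul_eq_mul_div, le_div_iff₀ hθ]
    rcases lt_or_ge ‖z2 - q2‖ t2 with hlt | hge
    · have hq : (gg a b)^[m0 - k2] q2 ∈ closedBall c0 e0 := hfr.cen
      rw [mem_closedBall, dist_eq_norm] at hq
      have hd : DifferentiableOn ℂ (gg a b)^[m0 - k2] (ball q2 t2) := fun z hz =>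
        (g_diff (hfr.map z (ball_subset_ball htr hz))).differentiableAt.differentiableWithinAt
      have hm : MapsTo (gg a b)^[m0 - k2] (ball q2 t2) (ball ((gg a b)^[m0 - k2] q2) (2 * ρ)) := by
        intro z hz
        have h3 := hfr.inn z hz
        rw [mem_ball, dist_eq_norm] at h3 ⊢
        have h4 : (gg a b)^[m0 - k2] z - (gg a b)^[m0 - k2] q2 =
            ((gg a b)^[m0 - k2] z - c0) - ((gg a b)^[m0 - k2] q2 - c0) := by ring
        have h5 := norm_sub_le ((gg a b)^[m0 - k2] z - c0) ((gg a b)^[m0 - k2] q2 - c0)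
        rw [← h4] at h5
        have h6 : e0 ≤ ρ := by
          have h7 := hG.e0ρ
          have h8 := hG.hM
          nlinarith
        linarith
      have h3 := Complex.dist_le_div_mul_dist_of_mapsTo_ball hd (fun z hz => ball_subset_closedBall (hm hz))
        (show z2 ∈ ball q2 t2 by rw [mem_ball, dist_eq_norm]; exact hlt)
      rw [hz2, dist_eq_norm, dist_eq_norm, div_mul_eq_mul_div, le_div_iff₀ ht2] at h3
      have h4 : α - c0 = (α - (gg a b)^[m0 - k2] q2) + ((gg a b)^[m0 - k2] q2 - c0) := by ring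
      have h5 := norm_add_le (α - (gg a b)^[m0 - k2] q2) ((gg a b)^[m0 - k2] q2 - c0)
      rw [← h4] at h5
      have h6 : θ * ρ / 4 ≤ ‖α - (gg a b)^[m0 - k2] q2‖ := by linarith
      have h7 : θ * ρ / 4 * t2 ≤ 2 * ρ * ‖z2 - q2‖ :=
        (mul_le_mul_of_nonneg_right h6 ht2.le).trans h3
      have h8 : ρ * (t2 * θ) ≤ ρ * (8 * ‖z2 - q2‖) := by linarith
      exact le_of_mul_le_mul_left h8 hρ
    · have h3 : t2 * θ ≤ t2 * 1 := mul_le_mul_of_nonneg_left hθ1 ht2.le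
      have h4 : (0 : ℝ) ≤ ‖z2 - q2‖ := norm_nonneg _
      linarith
  · set R := ‖α - c0‖ / 2 with hRd
    have hR0 : 0 < R := by
      rw [hRd]
      linarith
    have hRl : θ * ρ / 4 ≤ R := by
      rw [hRd]
      linarith
    have hΔ : ∀ x ∈ ball α R, ‖x - c0‖ < ρ ∧ R < ‖x - c0‖ := by
      intro x hx
      rw [mem_ball, dist_eq_norm] at hx
      have h3 : x - c0 = (x - α) + (α - c0) := by ring
      have h4 := norm_add_le (x - α) (α - c0)
      rw [← h3] at h4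
      have h5 : α - c0 = (x - c0) - (x - α) := by ring
      have h6 := norm_sub_le (x - c0) (x - α)
      rw [← h5] at h6
      constructor
      · linarith
      · linarith
    have hN : ball α R ⊆ NJ J δ0 := by
      intro x hx
      refine ⟨c0, hG.cJ, ?_⟩
      rw [mem_ball, dist_eq_norm]
      have h3 := (hΔ x hx).1
      have h4 := hG.ρ1δ
      have h5 := hG.δδ0
      linarith
    have hP : ∀ x ∈ ball α R, x ∉ PJ a b J := by
      intro x hx hxP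
      have h3 := hG.col ⟨hxP, by
        rw [mem_ball, dist_eq_norm]
        have h4 := (hΔ x hx).1
        linarith⟩
      rw [mem_closedBall, dist_eq_norm] at h3
      have h4 := (hΔ x hx).2
      linarith
    obtain ⟨χ, hχ⟩ := sys h hR0 hN hP hzp
    have hpc : IsPreconnected (χ '' ball α R) :=
      (convex_ball α R).isPreconnected.image χ hχ.diff.continuousOn
    have hsub : χ '' ball α R ⊆ ball q2 s2 := by
      refine in_ball hpc hsr ?_ (x0 := z2) ⟨α, mem_ball_self hR0, hχ.val⟩ ?_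
      · rintro x ⟨y, hy, rfl⟩ hx
        refine hfr.out _ hx ?_
        rw [b_gg h hN hχ hy, mem_ball, dist_eq_norm]
        have h4 := (hΔ y hy).1
        linarith
      · rw [mem_ball, dist_eq_norm]
        exact him
    have hm : MapsTo χ (ball α R) (ball (χ α) (2 * s2)) := by
      intro x hx
      have h3 := hsub ⟨x, hx, rfl⟩
      have h4 := hsub ⟨α, mem_ball_self hR0, rfl⟩
      rw [mem_ball, dist_comm] at h4
      rw [mem_ball] at h3 ⊢
      have h5 := dist_triangle (χ x) q2 (χ α)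
      linarith
    have h3 := Complex.norm_deriv_le_div_of_mapsTo_ball hχ.diff (fun z hz => ball_subset_closedBall (hm hz)) hR0
    rw [le_div_iff₀ hR0] at h3
    have h4 := b_der h hN hχ (mem_ball_self hR0)
    rw [hχ.val] at h4
    have h5 : ‖deriv χ α‖ * ‖tD a b (m0 - k2) z2‖ = 1 := by
      rw [← norm_mul, h4, norm_one]
    have h6 : (0 : ℝ) ≤ ‖tD a b (m0 - k2) z2‖ := norm_nonneg _
    have h7 : R ≤ 2 * s2 * ‖tD a b (m0 - k2) z2‖ := by
      have h8 := mul_le_mul_of_nonneg_right h3 h6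
      have h9 : ‖deriv χ α‖ * R * ‖tD a b (m0 - k2) z2‖ = R := by
        rw [mul_right_comm, h5, one_mul]
      rw [h9] at h8
      exact h8
    have h8 : s2 * ‖tD a b (m0 - k2) z2‖ ≤ K * t2 * ‖tD a b (m0 - k2) z2‖ :=
      mul_le_mul_of_nonneg_right hC.st2 h6
    linarith

end Pool.Agent.H18.UP
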