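import Pool.Agent.H18.UP.BAS

/-!
# THEOREM UP: the Julia set is infinite (plane)

PROOF. Suppose `J` is finite. Let `x ∈ J`. The polynomial `fib a b x = a - C x * b` has the degree `d` (otherwise `rat ∞ = x`, excluded by `NS.bd` with `n = 1`; or: all points of `rat⁻¹ {x}` are in the plane by `NS.bd`), `d ≥ 2`; its roots `y` have `b y ≠ 0` (coprime), `gg y = x`, so `y ∈ J` (`back`). So `gg : J → J` is surjective, hence injective (finite). So `fib a b x` has exactly one root `y`, of multiplicity `d ≥ 2`: `a' y - x b' y = 0`, so `ww y = a' y b y - a y b' y = b y (a' y - x b' y) = 0`. Since `gg` is surjective on `J`.. every point `y ∈ J` is the root of `fib a b (gg y)`: so `ww = 0` on `J`.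
`gg` is a bijection of a finite nonempty set: there is a periodic point `x ∈ J`, `gg^[p] x = x`, `p > 0`: `tD a b p x = ∏ dg = 0` (`dg = ww / b ^ 2`): contradiction with `NS.rep`.
-/

set_option autoImplicit false

open Filter Topology Polynomial Metric Set MeasureTheory

namespace Pool.Agent.H18.UP

open Pool.Agent.H44.Fatou (rat rat_continuous)
open Pool.Agent.H80.AJ (Br KK one_le_KK KK_pos distort distort_lip deriv_ne univ_cover)
open Pool.Agent.H32.BT (IsCrit)
open Pool.Agent.H61.TT Pool.Agent.H57.CP Pool.Agent.H3.NC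

variable {d : ℕ} {a b : Polynomial ℂ} {J : Set ℂ} {δ0 : ℝ}

/-- the coefficient of degree `d` of the polynomial of the fibre -/
private theorem jin_deg {D : ℕ} {R0 : ℝ} (h : NS d D a b J δ0 R0) {x : ℂ} (hx : x ∈ J) :
    d ≤ (fib a b x).natDegree := by
  have hd := h.rt.hd
  have hdeg := h.rt.deg
  apply le_natDegree_of_ne_zero
  intro h0
  have h1 : a.coeff d = x * b.coeff d := by
    unfold fib at h0
    rw [coeff_sub, coeff_C_mul] at h0
    exact sub_eq_zero.1 h0
  have h2 : b.coeff d ≠ 0 := by
    intro h3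
    rw [h3, mul_zero] at h1
    rcases le_total a.natDegree b.natDegree with h4 | h4
    · rw [max_eq_right h4] at hdeg
      rw [← hdeg, coeff_natDegree, leadingCoeff_eq_zero] at h3
      rw [h3, natDegree_zero] at hdeg
      omega
    · rw [max_eq_left h4] at hdeg
      rw [← hdeg, coeff_natDegree, leadingCoeff_eq_zero] at h1
      rw [h1, natDegree_zero] at hdeg
      omega
  have h3 : rat a b OnePoint.infty = (x : OnePoint ℂ) := by
    rw [Pool.Agent.H44.Fatou.rat_infty]
    unfold Pool.Agent.H44.Fatou.pt Pool.Agent.H44.Fatou.dg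
    rw [hdeg, if_neg h2, h1, mul_div_assoc, div_self h2, mul_one]
  obtain ⟨z, hz, -⟩ := h.bd 1 OnePoint.infty ⟨x, hx, x, mem_ball_self h.hδ0, by
    rw [Function.iterate_one, h3]⟩
  exact OnePoint.infty_ne_coe z hz

private theorem jin_root {D : ℕ} {R0 : ℝ} (h : NS d D a b J δ0 R0)
    (hb : ∀ z : ℂ, b.eval z ≠ 0 → gg a b z ∈ J → z ∈ J) {x y : ℂ} (hx : x ∈ J)
    (hy : (fib a b x).IsRoot y) : y ∈ J ∧ gg a b y = x ∧ b.eval y ≠ 0 := by
  have h1 : a.eval y = x * b.eval y := by
    unfold fib at hy
    rw [IsRoot.def, eval_sub, eval_mul, eval_C] at hy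
    exact sub_eq_zero.1 hy
  have h2 : b.eval y ≠ 0 := by
    intro h3
    rcases Pool.Agent.H44.Fatou.coprime_eval h.rt.cop y with h4 | h4
    · apply h4
      rw [h1, h3, mul_zero]
    · exact h4 h3
  have h3 : gg a b y = x := by
    unfold gg
    rw [h1, mul_div_assoc, div_self h2, mul_one]
  exact ⟨hb y h2 (by rw [h3]; exact hx), h3, h2⟩

private theorem jin_ne {D : ℕ} {R0 : ℝ} (h : NS d D a b J δ0 R0) {x : ℂ} (hx : x ∈ J) :
    fib a b x ≠ 0 := by
  intro h0
  have h1 := jin_deg h hx
  have hd := h.rt.hd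
  rw [h0, natDegree_zero] at h1
  omega

theorem jin {D : ℕ} {R0 : ℝ} (h : NS d D a b J δ0 R0) (hb : ∀ z : ℂ, b.eval z ≠ 0 → gg a b z ∈ J → z ∈ J) (hne : J.Nonempty) :
    J.Infinite := by
  intro hfin
  have hd := h.rt.hd
  have hmaps : MapsTo (gg a b) J J := fun z hz => h.Ji z hz
  have hsurj : SurjOn (gg a b) J J := by
    intro x hx
    have h1 := jin_deg h hx
    obtain ⟨y, hy⟩ := IsAlgClosed.exists_root (fib a b x) (by
      intro h0
      have h2 := natDegree_eq_zero_iff_degree_le_zero.2 h0.le
      omega)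
    obtain ⟨h2, h3, -⟩ := jin_root h hb hx hy
    exact ⟨y, h2, h3⟩
  have hinj : InjOn (gg a b) J := ((hfin.surjOn_iff_bijOn_of_mapsTo hmaps).1 hsurj).injOn
  have hdg : ∀ y ∈ J, Pool.Agent.H61.TT.dg a b y = 0 := by
    intro y hy
    have hx : gg a b y ∈ J := h.Ji y hy
    have hby := h.Jn y hy
    obtain ⟨x, hxd⟩ : ∃ x, x = gg a b y := ⟨_, rfl⟩
    rw [← hxd] at hx
    have hne0 := jin_ne h hx
    have hay : a.eval y = x * b.eval y := by
      rw [hxd]
      unfold gg
      rw [div_mul_cancel₀ _ hby]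
    have hall : ∀ z ∈ (fib a b x).roots, z = y := by
      intro z hz
      obtain ⟨h2, h3, -⟩ := jin_root h hb hx (isRoot_of_mem_roots hz)
      exact hinj h2 hy (h3.trans hxd)
    have hcard : (fib a b x).roots.card = (fib a b x).natDegree :=
      (splits_iff_card_roots.1 (IsAlgClosed.splits (fib a b x)))
    have hrep := Multiset.eq_replicate_of_mem hall
    have hmul : 1 < (fib a b x).rootMultiplicity y := by
      rw [← count_roots, hrep, Multiset.count_replicate_self, hcard]
      have h1 := jin_deg h hx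
      omega
    have hder := ((one_lt_rootMultiplicity_iff_isRoot hne0).1 hmul).2
    have h5 : (derivative a).eval y - x * (derivative b).eval y = 0 := by
      unfold fib at hder
      rw [derivative_sub, derivative_C_mul, IsRoot.def, eval_sub, eval_mul, eval_C] at hder
      exact hder
    have h6 : (ww a b).eval y = 0 := by
      unfold ww
      rw [eval_sub, eval_mul, eval_mul, hay]
      linear_combination b.eval y * h5
    unfold Pool.Agent.H61.TT.dg
    rw [h6, zero_div]
  obtain ⟨x, hx⟩ := hne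
  have hit : ∀ n : ℕ, (gg a b)^[n] x ∈ J := by
    intro n
    exact hmaps.iterate n hx
  obtain ⟨m, n, hmn, he⟩ := hfin.exists_lt_map_eq_of_forall_mem hit
  have hp : 0 < n - m := by omega
  have hper : (gg a b)^[n - m] ((gg a b)^[m] x) = (gg a b)^[m] x := by
    rw [← Function.iterate_add_apply, Nat.sub_add_cancel hmn.le]
    exact he.symm
  have h1 := h.rep _ (hit m) (n - m) hp hper
  have h2 : tD a b (n - m) ((gg a b)^[m] x) = 0 := by
    unfold tD
    refine Finset.prod_eq_zero (Finset.mem_range.2 hp) ?_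
    exact hdg _ (hit m)
  rw [h2, norm_zero] at h1
  linarith

end Pool.Agent.H18.UP
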