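import Pool.Agent.H18.UP.BAS
import Pool.Agent.H91.CS.MLAN

/-!
# THEOREM UP: Landau's theorem on a ring

PROOF. `landau` (H91/CS/MLAN): `C`. Let `‖z - y‖ = √(r1 r2)`, `z - y = exp ζ0`, `H = log (r2 / r1) / 2 > 0`, `g w = h (y + exp (ζ0 + H w))` for `w ∈ ball 0 1`: `‖exp (ζ0 + H w)‖ = √(r1 r2) exp (H re w)` is in `(r1, r2)`. `g` is holomorphic and omits `0, 1`; `g' 0 = h' z * (z - y) * H`, `g 0 = h z`. So `‖h' z‖ ‖z - y‖ ≤ 2 C (1 + ‖h z‖ ^ 2) / log (r2 / r1)`.
-/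

set_option autoImplicit false

open Filter Topology Polynomial Metric Set MeasureTheory

namespace Pool.Agent.H18.UP

open Pool.Agent.H44.Fatou (rat rat_continuous)
open Pool.Agent.H80.AJ (Br KK one_le_KK KK_pos distort distort_lip deriv_ne univ_cover)
open Pool.Agent.H32.BT (IsCrit)
open Pool.Agent.H61.TT Pool.Agent.H57.CP Pool.Agent.H3.NC

variable {d : ℕ} {a b : Polynomial ℂ} {J : Set ℂ} {δ0 : ℝ}

theorem lrg : ∃ C : ℝ, 0 < C ∧ ∀ (y : ℂ) (r1 r2 : ℝ) (h : ℂ → ℂ), 0 < r1 → r1 < r2 →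
    DifferentiableOn ℂ h {z | r1 < ‖z - y‖ ∧ ‖z - y‖ < r2} → (∀ z, r1 < ‖z - y‖ → ‖z - y‖ < r2 → h z ≠ 0 ∧ h z ≠ 1) →
    ∀ z, ‖z - y‖ = √(r1 * r2) → ‖deriv h z‖ * ‖z - y‖ * Real.log (r2 / r1) ≤ C * (1 + ‖h z‖ ^ 2) := by
  obtain ⟨C, hC, hL⟩ := Pool.Agent.H91.CS.landau
  refine ⟨2 * C, by positivity, fun y r1 r2 h h1 h12 hh h01 z hz => ?_⟩
  have h2 : 0 < r2 := h1.trans h12
  have hn : 0 < ‖z - y‖ := by rw [hz]; positivity
  have hne : z - y ≠ 0 := norm_pos_iff.1 hn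
  have hlog : Real.log ‖z - y‖ = (Real.log r1 + Real.log r2) / 2 := by
    rw [hz, Real.log_sqrt (by positivity), Real.log_mul h1.ne' h2.ne']
  have hH0 : 0 < Real.log r2 - Real.log r1 := sub_pos.2 (Real.log_lt_log h1 h12)
  obtain ⟨H, hH⟩ : ∃ H : ℝ, H = (Real.log r2 - Real.log r1) / 2 := ⟨_, rfl⟩
  have hHp : 0 < H := by rw [hH]; positivity
  have hdiv : Real.log (r2 / r1) = 2 * H := by
    rw [Real.log_div h2.ne' h1.ne', hH]; ring
  set E : ℂ → ℂ := fun w => y + Complex.exp (Complex.log (z - y) + (H : ℂ) * w) with hE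
  have hnorm : ∀ w : ℂ, ‖E w - y‖ = Real.exp (Real.log ‖z - y‖ + H * w.re) := by
    intro w
    rw [hE]
    simp only [add_sub_cancel_left]
    rw [Complex.norm_exp, Complex.add_re, Complex.log_re, Complex.re_ofReal_mul]
  have hin : ∀ w ∈ ball (0 : ℂ) 1, r1 < ‖E w - y‖ ∧ ‖E w - y‖ < r2 := by
    intro w hw
    rw [hnorm, hlog]
    have hwn : |w.re| < 1 := lt_of_le_of_lt (Complex.abs_re_le_norm w) (by simpa using hw)
    obtain ⟨ha, hb⟩ := abs_lt.1 hwn
    constructor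
    · rw [← Real.log_lt_iff_lt_exp h1]
      nlinarith
    · rw [← Real.lt_log_iff_exp_lt h2]
      nlinarith
  have hEd : ∀ w : ℂ, HasDerivAt E (Complex.exp (Complex.log (z - y) + (H : ℂ) * w) * H) w := by
    intro w
    have ha : HasDerivAt (fun w : ℂ => Complex.log (z - y) + (H : ℂ) * w) (H : ℂ) w := by
      simpa using ((hasDerivAt_id w).const_mul (H : ℂ)).const_add (Complex.log (z - y))
    exact (ha.cexp).const_add y
  have hE0 : E 0 = z := by
    rw [hE]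
    simp only [mul_zero, add_zero]
    rw [Complex.exp_log hne]
    ring
  have hopen : IsOpen {z | r1 < ‖z - y‖ ∧ ‖z - y‖ < r2} := by
    apply IsOpen.and
    · exact isOpen_lt continuous_const (by fun_prop)
    · exact isOpen_lt (by fun_prop) continuous_const
  have key := hL (fun w => h (E w)) (fun w hw =>
    ((hh.differentiableAt (hopen.mem_nhds (hin w hw))).comp w (hEd w).differentiableAt).differentiableWithinAt)
    (fun w hw => h01 (E w) (hin w hw).1 (hin w hw).2)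
  have hd : deriv (fun w => h (E w)) 0 = deriv h z * ((z - y) * H) := by
    have ha := hin 0 (mem_ball_self one_pos)
    rw [hE0] at ha
    have hb : HasDerivAt h (deriv h z) (E 0) := by
      rw [hE0]
      exact (hh.differentiableAt (hopen.mem_nhds ha)).hasDerivAt
    have hc := (hb.comp 0 (hEd 0)).deriv
    rw [mul_zero, add_zero, Complex.exp_log hne] at hc
    exact hc
  rw [hd, hE0, norm_mul, norm_mul, Complex.norm_real, Real.norm_of_nonneg hHp.le] at key
  rw [hdiv]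
  nlinarith

end Pool.Agent.H18.UP
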