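import Pool.Agent.H18.UP.GEO
import Pool.Agent.H43.UP.Sec2
import Pool.Agent.H43.UP.Fin

/-!
# THEOREM UP: a recurrent critical point in `J` has no fat annuli

`geo_out`, `sec2`, `up_end`.
-/

set_option autoImplicit false

open Filter Topology Polynomial Metric Set MeasureTheory

namespace Pool.Agent.H18.UP

open Pool.Agent.H44.Fatou (rat rat_continuous)
open Pool.Agent.H80.AJ (Br KK one_le_KK KK_pos distort distort_lip deriv_ne univ_cover)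
open Pool.Agent.H32.BT (IsCrit)
open Pool.Agent.H61.TT Pool.Agent.H57.CP Pool.Agent.H3.NC

variable {d : ℕ} {a b : Polynomial ℂ} {J : Set ℂ} {δ0 : ℝ}

theorem no_fat (hG : Geo d a b J δ0) {Z : Set ℂ} {c0 : ℂ} {δ1 R C : ℝ} {q r K : ℂ → ℂ → ℂ} {Y : ℂ → ℂ}
    (hK : Pool.Agent.H66.UP.KD a b J Z c0 δ1 R C q r K Y) (hr : Rcr a b c0) : ¬ Fat a b J c0 := by
  intro hF
  obtain ⟨Kc, hKc, hgeo⟩ := geo_out hG
  obtain ⟨η, hη, hend⟩ := Pool.Agent.H43.UP.up_end hKc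
  obtain ⟨M, δ, hM, hδ, hsec⟩ := Pool.Agent.H43.UP.sec2 hG hK η Kc hη hKc
  obtain ⟨ρ, V, ι, hι, W, m, i0, k2, p, q2, z2, α, t1, s1, e2, t2, hDat, hCen, hVδ⟩ :=
    hgeo η M (min δ δ1) hη hM (lt_min hδ hK.hδ) c0 hK.cJ hK.c0c hr hF
  have hV1 : V ⊆ ball c0 δ1 := hVδ.trans (ball_subset_ball (min_le_right _ _))
  have hD := hDat Z hK.Zm (fun y hb hy => hK.Zp ⟨hb, hy⟩) (hV1.trans hK.Zb)
  have hCen' : Cen a b J c0 ρ M Kc Kc δ V (W i0) (m i0) k2 p q2 z2 α t1 s1 e2 t2 :=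
    { hCen with
      hρδ := hCen.hρδ.trans (min_le_left _ _)
      t2δ := hCen.t2δ.trans (min_le_left _ _) }
  obtain ⟨D, P, hDD⟩ := hsec ρ V (W i0) (m i0) k2 p q2 z2 α t1 s1 e2 t2 hD.Vo hD.Vb hD.Vs hV1 (hD.WV i0)
    (hD.Wo i0).measurableSet hCen'
  exact hend hD hDD

end Pool.Agent.H18.UP
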