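import Pool.Agent.H18.UP.BAS
import Pool.Agent.H44.RC.CCO

/-!
# THEOREM UP: the components of `pre^m V` are mapped onto `V`

PROOF. If `V` is empty nothing is to prove. Let `f = rat a b`, `D` = the coercion of `V` (open, preconnected in `OnePoint ℂ`). By `g_fin` (`V ⊆ NJ`) the points of `f^[m]⁻¹ D` are in the plane, and `f^[m]⁻¹ D` = the coercion of `pre^m V` (`g_pre`, `mem_pre`, `g_rat`). The coercion `ℂ → OnePoint ℂ` is an open embedding, so the coercion of `connectedComponentIn (pre^m V) z` is `connectedComponentIn (f^[m]⁻¹ D) z` (`CC f m D z`): the coercion of the first is preconnected, and the preimage of the second under the coercion is preconnected (homeomorphism onto the image; `IsPreconnected.image`, `Topology.IsInducing.isPreconnected_image`). `cc_onto` (H44/RC/CCO; `rat` is continuous and open) gives the claim.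
-/

set_option autoImplicit false

open Filter Topology Polynomial Metric Set MeasureTheory

namespace Pool.Agent.H18.UP

open Pool.Agent.H44.Fatou (rat rat_continuous)
open Pool.Agent.H80.AJ (Br KK one_le_KK KK_pos distort distort_lip deriv_ne univ_cover)
open Pool.Agent.H32.BT (IsCrit)
open Pool.Agent.H61.TT Pool.Agent.H57.CP Pool.Agent.H3.NC

variable {d : ℕ} {a b : Polynomial ℂ} {J : Set ℂ} {δ0 : ℝ}

theorem ont (h : Geo d a b J δ0) {V : Set ℂ} (hV : IsOpen V) (hVc : IsPreconnected V) (hN : V ⊆ NJ J δ0) {m : ℕ} {z : ℂ}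
    (hz : z ∈ (pre a b)^[m] V) : ∀ w ∈ V, ∃ x ∈ connectedComponentIn ((pre a b)^[m] V) z, (gg a b)^[m] x = w := by
  intro w hw
  have hf : Continuous (rat a b) := rat_continuous h.rt.cop
  have hd : 1 ≤ max a.natDegree b.natDegree := by
    have h1 := h.rt.hd
    have h2 := h.rt.deg
    omega
  have ho : IsOpenMap (rat a b) := Pool.Agent.H32.BT.rat_open h.rt.cop hd
  have hemb : Topology.IsOpenEmbedding ((↑) : ℂ → OnePoint ℂ) := OnePoint.isOpenEmbedding_coe
  obtain ⟨D, hD⟩ : ∃ D : Set (OnePoint ℂ), D = ((↑) : ℂ → OnePoint ℂ) '' V := ⟨_, rfl⟩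
  have hDo : IsOpen D := by
    rw [hD]
    exact hemb.isOpenMap V hV
  have hDc : IsPreconnected D := by
    rw [hD]
    exact hVc.image _ hemb.continuous.continuousOn
  have hy : (rat a b)^[m] (z : OnePoint ℂ) ∈ D := by
    rw [g_rat h hz, hD]
    exact mem_image_of_mem _ (mem_pre.1 hz).2
  have honto := Pool.Agent.H44.RC.cc_onto hf ho hDo hDc hy
  -- the points of the component
  have hpt : ∀ y ∈ Pool.Agent.H44.RC.CC (rat a b) m D (z : OnePoint ℂ), ∃ (x v : ℂ), v ∈ V ∧ (x : OnePoint ℂ) = y ∧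
      (rat a b)^[m] y = (v : OnePoint ℂ) ∧ x ∈ (pre a b)^[m] {v} := by
    intro y hyC
    have h1 := Pool.Agent.H44.RC.cc_sub hyC
    rw [hD] at h1
    obtain ⟨v, hv, hve⟩ := h1
    obtain ⟨x, hx⟩ := g_fin h (hN hv) hve.symm 0 (Nat.zero_le _)
    have hx' : y = (x : OnePoint ℂ) := hx
    refine ⟨x, v, hv, hx'.symm, hve.symm, ?_⟩
    rw [← g_pre h (hN hv), ← hx']
    exact hve.symm
  have hS : IsPreconnected (((↑) : ℂ → OnePoint ℂ) ⁻¹' Pool.Agent.H44.RC.CC (rat a b) m D (z : OnePoint ℂ)) := by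
    refine (Pool.Agent.H44.RC.cc_pre m D _).preimage_of_isOpenMap hemb.injective hemb.isOpenMap ?_
    intro y hyC
    obtain ⟨x, v, -, hx, -⟩ := hpt y hyC
    exact ⟨x, hx⟩
  have hSs : (((↑) : ℂ → OnePoint ℂ) ⁻¹' Pool.Agent.H44.RC.CC (rat a b) m D (z : OnePoint ℂ)) ⊆
      connectedComponentIn ((pre a b)^[m] V) z := by
    refine hS.subset_connectedComponentIn (Pool.Agent.H44.RC.cc_mem hy) ?_
    intro x hx
    obtain ⟨x', v, hv, hxx, -, hpre⟩ := hpt _ hx
    have h1 : x' = x := OnePoint.coe_injective hxx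
    rw [← h1]
    exact pre_mono (singleton_subset_iff.2 hv) hpre
  have hwD : (w : OnePoint ℂ) ∈ (rat a b)^[m] '' Pool.Agent.H44.RC.CC (rat a b) m D (z : OnePoint ℂ) := by
    rw [honto, hD]
    exact mem_image_of_mem _ hw
  obtain ⟨y, hyC, hyw⟩ := hwD
  obtain ⟨x, v, hv, hxy, hyv, hpre⟩ := hpt y hyC
  refine ⟨x, hSs ?_, ?_⟩
  · rw [mem_preimage, hxy]
    exact hyC
  · have h1 : v = w := by
      rw [hyw] at hyv
      exact (OnePoint.coe_injective hyv).symm
    rw [← h1]
    exact (mem_pre.1 hpre).2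

end Pool.Agent.H18.UP
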