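import Pool.Agent.H18.UP.SYS

/-!
# THEOREM UP: a branch on `ball q r'` extends over a ring without points of `PJ`

PROOF. Let `T` be the set of the `t ∈ [r', r]` such that there is a branch `φ` on `ball q t` with `φ = ψ` on `ball q r'`. `r' ∈ T`. Let `t* = sSup T`.
(1) `t* ∈ T`: for `t ∈ T`, `t < t*` choose branches; two of them agree on the smaller ball (`b_uni`, both `= ψ` on `ball q r'`); the glued function `φ x = φ_t x` (for some `t ∈ T` with `‖x - q‖ < t`) is a branch on `ball q t*`: locally (near `x`) equal to one `φ_t`.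
(2) if `t* < r`: let `ε = min (t* - e) (r - t*) / 4 > 0` (`e < r' ≤ t*`). For every `w` with `‖w - q‖ = t*` the disc `ball w (2 ε)` is in the ring `e < ‖x - q‖ < r`, so without points of `PJ`. Let `u = w - (ε / t*) (w - q)`: `‖u - q‖ = t* - ε < t*`, `u ∈ ball w (2 ε)`; `sys` on the disc `ball u (2 ε)` (or a disc centred in `u` which contains `ball w ε`; it is in the ring as well) gives a branch `χ_w` on `ball u (2 ε)` with `χ_w u = φ u`.
`χ_w = φ` on `ball u (2 ε) ∩ ball q t*` (convex, `b_uni`). For `w, w'` the intersection of the two discs of radius `2 ε` centred at `u, u'` (`‖u - q‖ = ‖u' - q‖ = t* - ε`), if not empty, contains the midpoint `(u + u') / 2 ∈ ball q t*`, where both are equal to `φ`; so `χ_w = χ_w'` on the intersection (`b_uni`).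
The glued function is a branch on `ball q (t* + ε)`: every `x` with `t* ≤ ‖x - q‖ < t* + ε` is in `ball u (2 ε)` for `u = q + ((t* - ε) / ‖x - q‖) (x - q)`: define the extension by `φ x` for `x ∈ ball q t*` and by `χ_u(x) x` for the others; near `x` it is equal to `χ_u` for this `u` (by the agreement). Contradiction with `sSup`.
-/

set_option autoImplicit false

open Filter Topology Polynomial Metric Set MeasureTheory

namespace Pool.Agent.H18.UP

open Pool.Agent.H44.Fatou (rat rat_continuous)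
open Pool.Agent.H80.AJ (Br KK one_le_KK KK_pos distort distort_lip deriv_ne univ_cover)
open Pool.Agent.H32.BT (IsCrit)
open Pool.Agent.H61.TT Pool.Agent.H57.CP Pool.Agent.H3.NC

variable {d : ℕ} {a b : Polynomial ℂ} {J : Set ℂ} {δ0 : ℝ}

/-- gluing: the union of the radii -/
private theorem rng_glue (h : Geo d a b J δ0) {q : ℂ} {r' r t1 : ℝ} (hr0 : 0 < r') (hq : ball q r ⊆ NJ J δ0) {n : ℕ} {ψ : ℂ → ℂ}
    {T : Set ℝ} (hT : ∀ t ∈ T, r' ≤ t ∧ t ≤ r ∧ ∃ φ : ℂ → ℂ, Br (rat a b) n q t (φ q) φ ∧ EqOn φ ψ (ball q r'))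
    (ht1 : ∀ t < t1, ∃ s ∈ T, t < s) (hle : ∀ t ∈ T, t ≤ t1) (hne : T.Nonempty) :
    ∃ φ : ℂ → ℂ, Br (rat a b) n q t1 (φ q) φ ∧ EqOn φ ψ (ball q r') := by
  classical
  have hch : ∀ t : ℝ, ∃ φ : ℂ → ℂ, t ∈ T → Br (rat a b) n q t (φ q) φ ∧ EqOn φ ψ (ball q r') := by
    intro t
    by_cases ht : t ∈ T
    · obtain ⟨φ, hφ⟩ := (hT t ht).2.2
      exact ⟨φ, fun _ => hφ⟩
    · exact ⟨fun z => z, fun h0 => absurd h0 ht⟩
  choose F hF using hch
  have hτ : ∀ x : ℂ, ∃ t : ℝ, ‖x - q‖ < t1 → t ∈ T ∧ x ∈ ball q t := by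
    intro x
    by_cases hx : ‖x - q‖ < t1
    · obtain ⟨s, hs, hs'⟩ := ht1 _ hx
      exact ⟨s, fun _ => ⟨hs, mem_ball_iff_norm.2 hs'⟩⟩
    · exact ⟨0, fun h0 => absurd h0 hx⟩
  choose τ hτ using hτ
  have hsub : ∀ t ∈ T, ball q t ⊆ NJ J δ0 := fun t ht => (ball_subset_ball (hT t ht).2.1).trans hq
  have hqr : q ∈ ball q r' := mem_ball_self hr0
  have hag : ∀ t ∈ T, ∀ x ∈ ball q t, F (τ x) x = F t x := by
    intro t ht x hx
    have hx1 : ‖x - q‖ < t1 := lt_of_lt_of_le (mem_ball_iff_norm.1 hx) (hle t ht)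
    obtain ⟨h1, h2⟩ := hτ x hx1
    have hS : IsPreconnected (ball q (min (τ x) t)) := (convex_ball q _).isPreconnected
    have hqS : q ∈ ball q (min (τ x) t) := mem_ball_self (lt_min (hr0.trans_le (hT _ h1).1) (hr0.trans_le (hT t ht).1))
    have he : F (τ x) q = F t q := by rw [(hF _ h1).2 hqr, (hF t ht).2 hqr]
    have hxS : x ∈ ball q (min (τ x) t) := by
      rw [mem_ball] at hx h2 ⊢
      exact lt_min h2 hx
    exact b_uni h (hsub _ h1) (hsub t ht) (hF _ h1).1 (hF t ht).1 hS (ball_subset_ball (min_le_left _ _))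
      (ball_subset_ball (min_le_right _ _)) hqS he hxS
  refine ⟨fun x => F (τ x) x, ⟨?_, rfl, ?_⟩, ?_⟩
  · intro x hx
    obtain ⟨s, hs, hs'⟩ := ht1 _ (mem_ball_iff_norm.1 hx)
    have hxs : x ∈ ball q s := mem_ball_iff_norm.2 hs'
    have h1 : DifferentiableAt ℂ (F s) x := (hF s hs).1.diff.differentiableAt (isOpen_ball.mem_nhds hxs)
    refine (h1.congr_of_eventuallyEq ?_).differentiableWithinAt
    filter_upwards [isOpen_ball.mem_nhds hxs] with y hy
    exact hag s hs y hy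
  · intro x hx
    obtain ⟨h1, h2⟩ := hτ x (mem_ball_iff_norm.1 hx)
    exact (hF _ h1).1.inv x h2
  · intro x hx
    obtain ⟨s, hs⟩ := hne
    change F (τ x) x = ψ x
    rw [hag s hs x (ball_subset_ball (hT s hs).1 hx)]
    exact (hF s hs).2 hx

/-- one step beyond the radius `t` -/
private theorem rng_step (h : Geo d a b J δ0) {q : ℂ} {e t r : ℝ} (he : 0 ≤ e) (het : e < t) (htr : t < r)
    (hq : ball q r ⊆ NJ J δ0) (hP : PJ a b J ∩ ball q r ⊆ closedBall q e) {n : ℕ} {φ : ℂ → ℂ}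
    (hφ : Br (rat a b) n q t (φ q) φ) : ∃ s : ℝ, t < s ∧ s ≤ r ∧ ∃ χ : ℂ → ℂ, Br (rat a b) n q s (χ q) χ ∧ EqOn χ φ (ball q t) := by
  classical
  have ht0 : 0 < t := lt_of_le_of_lt he het
  obtain ⟨ε, hε, hε1, hε2⟩ : ∃ ε : ℝ, 0 < ε ∧ 4 * ε ≤ t - e ∧ 4 * ε ≤ r - t := by
    refine ⟨min (t - e) (r - t) / 4, by have := lt_min (sub_pos.2 het) (sub_pos.2 htr); positivity, ?_, ?_⟩
    · have := min_le_left (t - e) (r - t); linarith
    · have := min_le_right (t - e) (r - t); linarith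
  have hqt : ball q t ⊆ NJ J δ0 := (ball_subset_ball htr.le).trans hq
  -- the discs
  have hdisc : ∀ u : ℂ, ‖u - q‖ = t - ε → ball u (2 * ε) ⊆ ball q r ∧ ∀ x ∈ ball u (2 * ε), x ∉ PJ a b J := by
    intro u hu
    have h1 : ball u (2 * ε) ⊆ ball q r := by
      intro x hx
      rw [mem_ball_iff_norm] at hx ⊢
      have := norm_sub_le_norm_sub_add_norm_sub x u q
      linarith
    refine ⟨h1, fun x hx hxP => ?_⟩
    have h2 := hP ⟨hxP, h1 hx⟩
    rw [mem_closedBall_iff_norm] at h2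
    rw [mem_ball_iff_norm] at hx
    have h3 := norm_sub_le_norm_sub_add_norm_sub u x q
    rw [norm_sub_rev u x] at h3
    linarith
  have hin : ∀ u : ℂ, ‖u - q‖ = t - ε → u ∈ ball q t := by
    intro u hu
    rw [mem_ball_iff_norm, hu]
    linarith
  have hch : ∀ u : ℂ, ∃ G : ℂ → ℂ, ‖u - q‖ = t - ε → Br (rat a b) n u (2 * ε) (φ u) G := by
    intro u
    by_cases hu : ‖u - q‖ = t - ε
    · obtain ⟨h1, h2⟩ := hdisc u hu
      obtain ⟨G, hG⟩ := sys h (by positivity : 0 < 2 * ε) (h1.trans hq) h2 (b_pre h hqt hφ (hin u hu))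
      exact ⟨G, fun _ => hG⟩
    · exact ⟨fun z => z, fun h0 => absurd h0 hu⟩
  choose G hG using hch
  have hsubG : ∀ u : ℂ, ‖u - q‖ = t - ε → ball u (2 * ε) ⊆ NJ J δ0 := fun u hu => (hdisc u hu).1.trans hq
  -- agreement with φ
  have hGφ : ∀ u : ℂ, ‖u - q‖ = t - ε → ∀ x ∈ ball u (2 * ε), x ∈ ball q t → G u x = φ x := by
    intro u hu x hx hxt
    have hS : IsPreconnected (ball u (2 * ε) ∩ ball q t) := ((convex_ball u _).inter (convex_ball q t)).isPreconnected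
    exact b_uni h (hsubG u hu) hqt (hG u hu) hφ hS inter_subset_left inter_subset_right
      ⟨mem_ball_self (by positivity), hin u hu⟩ (hG u hu).val ⟨hx, hxt⟩
  have hGG : ∀ u : ℂ, ‖u - q‖ = t - ε → ∀ u' : ℂ, ‖u' - q‖ = t - ε → ∀ x ∈ ball u (2 * ε), x ∈ ball u' (2 * ε) →
      G u x = G u' x := by
    intro u hu u' hu' x hx hx'
    have hS : IsPreconnected (ball u (2 * ε) ∩ ball u' (2 * ε)) :=
      ((convex_ball u _).inter (convex_ball u' _)).isPreconnected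
    have huu : ‖u - u'‖ < 4 * ε := by
      rw [mem_ball_iff_norm] at hx hx'
      have h1 := norm_sub_le_norm_sub_add_norm_sub u x u'
      rw [norm_sub_rev u x] at h1
      linarith
    have hm1 : ((u + u') / 2 : ℂ) ∈ ball u (2 * ε) := by
      rw [mem_ball_iff_norm, show ((u + u') / 2 - u : ℂ) = -((u - u') / 2) by ring, norm_neg, norm_div, Complex.norm_two]
      linarith
    have hm2 : ((u + u') / 2 : ℂ) ∈ ball u' (2 * ε) := by
      rw [mem_ball_iff_norm, show ((u + u') / 2 - u' : ℂ) = (u - u') / 2 by ring, norm_div, Complex.norm_two]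
      linarith
    have hm3 : ((u + u') / 2 : ℂ) ∈ ball q t := by
      have h1 := (convex_ball q t) (hin u hu) (hin u' hu') (by norm_num : (0 : ℝ) ≤ 1 / 2) (by norm_num : (0 : ℝ) ≤ 1 / 2)
        (by norm_num)
      have h2 : (1 / 2 : ℝ) • u + (1 / 2 : ℝ) • u' = (u + u') / 2 := by
        rw [Complex.real_smul, Complex.real_smul]
        push_cast
        ring
      rwa [h2] at h1
    exact b_uni h (hsubG u hu) (hsubG u' hu') (hG u hu) (hG u' hu') hS inter_subset_left inter_subset_right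
      ⟨hm1, hm2⟩ ((hGφ u hu _ hm1 hm3).trans (hGφ u' hu' _ hm2 hm3).symm) ⟨hx, hx'⟩
  -- the radial projection
  obtain ⟨U, hU⟩ : ∃ U : ℂ → ℂ, ∀ x, U x = q + (((t - ε) / ‖x - q‖ : ℝ) : ℂ) * (x - q) := ⟨_, fun _ => rfl⟩
  have hU1 : ∀ x : ℂ, t ≤ ‖x - q‖ → ‖U x - q‖ = t - ε := by
    intro x hx
    have h0 : 0 < ‖x - q‖ := ht0.trans_le hx
    have h1 : 0 ≤ (t - ε) / ‖x - q‖ := div_nonneg (by linarith) h0.le
    rw [hU, add_sub_cancel_left, norm_mul, Complex.norm_real, Real.norm_of_nonneg h1, div_mul_cancel₀ _ h0.ne']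
  have hU2 : ∀ x : ℂ, t ≤ ‖x - q‖ → ‖x - q‖ < t + ε → x ∈ ball (U x) (2 * ε) := by
    intro x hx hx2
    have h0 : 0 < ‖x - q‖ := ht0.trans_le hx
    have h1 : x - U x = (((‖x - q‖ - (t - ε)) / ‖x - q‖ : ℝ) : ℂ) * (x - q) := by
      have h3 : ((‖x - q‖ : ℝ) : ℂ) ≠ 0 := Complex.ofReal_ne_zero.2 h0.ne'
      rw [hU]
      push_cast
      field_simp
      ring
    have h2 : 0 ≤ (‖x - q‖ - (t - ε)) / ‖x - q‖ := div_nonneg (by linarith) h0.le
    rw [mem_ball_iff_norm, h1, norm_mul, Complex.norm_real, Real.norm_of_nonneg h2, div_mul_cancel₀ _ h0.ne']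
    linarith
  obtain ⟨χ, hχ⟩ : ∃ χ : ℂ → ℂ, ∀ x, χ x = if ‖x - q‖ < t then φ x else G (U x) x := ⟨_, fun _ => rfl⟩
  have hχ1 : ∀ x : ℂ, x ∈ ball q t → χ x = φ x := by
    intro x hx
    rw [hχ, if_pos (mem_ball_iff_norm.1 hx)]
  have hχ2 : ∀ u : ℂ, ‖u - q‖ = t - ε → ∀ x ∈ ball u (2 * ε), ‖x - q‖ < t + ε → χ x = G u x := by
    intro u hu x hx hxt
    by_cases h1 : ‖x - q‖ < t
    · rw [hχ, if_pos h1]
      exact (hGφ u hu x hx (mem_ball_iff_norm.2 h1)).symm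
    · rw [hχ, if_neg h1]
      have h2 := not_lt.1 h1
      exact hGG _ (hU1 x h2) u hu x (hU2 x h2 hxt) hx
  refine ⟨t + ε, by linarith, by linarith, χ, ⟨?_, rfl, ?_⟩, fun x hx => hχ1 x hx⟩
  · intro x hx
    rw [mem_ball_iff_norm] at hx
    by_cases h1 : ‖x - q‖ < t
    · have h2 : x ∈ ball q t := mem_ball_iff_norm.2 h1
      have h3 : DifferentiableAt ℂ φ x := hφ.diff.differentiableAt (isOpen_ball.mem_nhds h2)
      refine (h3.congr_of_eventuallyEq ?_).differentiableWithinAt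
      filter_upwards [isOpen_ball.mem_nhds h2] with y hy
      exact hχ1 y hy
    · have h2 := not_lt.1 h1
      have h4 := hU2 x h2 hx
      have h3 : DifferentiableAt ℂ (G (U x)) x := (hG _ (hU1 x h2)).diff.differentiableAt (isOpen_ball.mem_nhds h4)
      refine (h3.congr_of_eventuallyEq ?_).differentiableWithinAt
      filter_upwards [isOpen_ball.mem_nhds h4, isOpen_ball.mem_nhds (mem_ball_iff_norm.2 hx)] with y hy hy2
      exact hχ2 _ (hU1 x h2) y hy (mem_ball_iff_norm.1 hy2)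
  · intro x hx
    rw [mem_ball_iff_norm] at hx
    by_cases h1 : ‖x - q‖ < t
    · have h2 : x ∈ ball q t := mem_ball_iff_norm.2 h1
      rw [hχ1 x h2]
      exact hφ.inv x h2
    · have h2 := not_lt.1 h1
      have h4 := hU2 x h2 hx
      rw [hχ2 _ (hU1 x h2) x h4 hx]
      exact (hG _ (hU1 x h2)).inv x h4

theorem rng (h : Geo d a b J δ0) {q : ℂ} {e r' r : ℝ} (he : 0 ≤ e) (her : e < r') (hr : r' ≤ r)
    (hq : ball q r ⊆ NJ J δ0) (hP : PJ a b J ∩ ball q r ⊆ closedBall q e) {n : ℕ} {ψ : ℂ → ℂ}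
    (hψ : Br (rat a b) n q r' (ψ q) ψ) : ∃ φ : ℂ → ℂ, Br (rat a b) n q r (φ q) φ ∧ EqOn φ ψ (ball q r') := by
  have hr0 : 0 < r' := lt_of_le_of_lt he her
  obtain ⟨T, hT⟩ : ∃ T : Set ℝ, T = {t : ℝ | r' ≤ t ∧ t ≤ r ∧ ∃ φ : ℂ → ℂ, Br (rat a b) n q t (φ q) φ ∧ EqOn φ ψ (ball q r')} :=
    ⟨_, rfl⟩
  have hTm : ∀ t, t ∈ T ↔ r' ≤ t ∧ t ≤ r ∧ ∃ φ : ℂ → ℂ, Br (rat a b) n q t (φ q) φ ∧ EqOn φ ψ (ball q r') := by
    intro t
    rw [hT]
    exact Iff.rfl
  have hne : T.Nonempty := ⟨r', (hTm _).2 ⟨le_rfl, hr, ψ, hψ, fun _ _ => rfl⟩⟩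
  have hbd : BddAbove T := ⟨r, fun t ht => ((hTm t).1 ht).2.1⟩
  obtain ⟨t1, ht1⟩ : ∃ t1, t1 = sSup T := ⟨_, rfl⟩
  have hle : ∀ t ∈ T, t ≤ t1 := fun t ht => by rw [ht1]; exact le_csSup hbd ht
  have hr1 : r' ≤ t1 := hle r' ((hTm _).2 ⟨le_rfl, hr, ψ, hψ, fun _ _ => rfl⟩)
  have ht1r : t1 ≤ r := by rw [ht1]; exact csSup_le hne fun t ht => ((hTm t).1 ht).2.1
  obtain ⟨φ, hφ, hφψ⟩ := rng_glue (t1 := t1) h hr0 hq (fun t ht => (hTm t).1 ht)
    (fun t ht => by rw [ht1] at ht; exact exists_lt_of_lt_csSup hne ht) hle hne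
  rcases ht1r.lt_or_eq with hlt | heq
  · exfalso
    obtain ⟨s, hs1, hs2, χ, hχ, hχφ⟩ := rng_step h he (her.trans_le hr1) hlt hq hP hφ
    have h1 : s ∈ T := (hTm s).2 ⟨hr1.trans hs1.le, hs2, χ, hχ, fun x hx =>
      (hχφ (ball_subset_ball hr1 hx)).trans (hφψ hx)⟩
    exact absurd (hle s h1) (not_le.2 hs1)
  · rw [heq] at hφ
    exact ⟨φ, hφ, hφψ⟩

end Pool.Agent.H18.UP
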