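import Pool.Agent.H18.UP.LRG
import Pool.Agent.H18.UP.JIN
import Pool.Agent.H79.PJ.RIter

/-!
# THEOREM UP: the Julia set is thick (plane)

PROOF. If `J` is empty nothing is to prove (`θ = r1 = 1`). `J` is infinite (`jin`): choose `u1, u2, u3 ∈ J` different, let `4 κ` be the minimum of their distances (also `κ ≤ 1`). `J` is compact (bounded by `NS.bd` with `n = 0`). Choose `δ2 ≤ min δ0 1` with `b ≠ 0` on the closed `δ2`-neighbourhood of `J` (compact, `NS.Jn`), `Lip` a Lipschitz-like constant: `‖gg w - gg w0‖ ≤ Lip ‖w - w0‖` for `w0 ∈ J`, `‖w - w0‖ ≤ δ2` (bound of `dg` on the neighbourhood; segments), `Lip ≥ 1`. `ε0 = min (δ2 / 2) (κ / (2 Lip))`.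
Let `θ` be small (depends on all this), `r1 = ε0`. Suppose `y ∈ J`, `0 < ρ ≤ r1` and no `w ∈ J` has `θ ρ ≤ ‖w - y‖ ≤ ρ / 8`. Let `s = √(θ ρ * (ρ / 8))`.
CLAIM (n): `closedBall y s ⊆ pre^n univ` and `‖gg^[n] z - gg^[n] y‖ ≤ ε0` for `z ∈ closedBall y s`. For all `n` this contradicts `US0.ex` (radius `s`; `rat^[n] z = gg^[n] z` in the plane, in `ball (gg^[n] y) δ0`). `n = 0`: `s ≤ ρ ≤ ε0`.
STEP. `gg^[n] z` is in the `ε0`-neighbourhood of `gg^[n] y ∈ J`, so `b ≠ 0` there: `closedBall y s ⊆ pre^(n+1) univ`; let `F = gg^[n+1]`, holomorphic near `closedBall y s` (`g_diff`), `‖F z - F y‖ ≤ Lip ε0 ≤ κ / 2` there. At least two of the `u_i` are at a distance `≥ κ` from `F (closedBall y s)` (`‖u_i - u_j‖ ≥ 4 κ`, the diameter of the image is `≤ κ`): rename so that `u1` is such a point.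
`rat^[n+1] = rat P Q` with coprime `P, Q` (`rat_iter`). On the ring `A = {θ ρ < ‖z - y‖ < ρ / 8}`: `P z - u_i Q z ≠ 0` (otherwise `Q z ≠ 0` and `rat^[n+1] z = u_i ∈ J`, then the orbit is in the plane (`NS.bd`) and `z ∈ J` by `back`: contradiction with the empty ring). `h z = ((P - u2 Q) z (u3 - u1)) / ((P - u1 Q) z (u3 - u2))` is holomorphic on `A` and `≠ 0, 1` (`h = 1` iff `(P - u3 Q) z (u2 - u1) = 0`). `lrg`: `‖h' z‖ s log (1 / (8 θ)) ≤ C (1 + ‖h z‖ ^ 2)` on the circle `‖z - y‖ = s`.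
On the circle `h = M(F)`, `M w = (w - u2)(u3 - u1) / ((w - u1)(u3 - u2))`, `M' w = (u2 - u1)(u3 - u1) / ((w - u1) ^ 2 (u3 - u2))`, `‖F z - u1‖ ≥ κ`, `‖F‖` bounded (`R0 + 1`): `‖h‖ ≤ C2`, `‖F' z‖ ≤ C3 ‖h' z‖`. So `‖F' z‖ s ≤ C4 / log (1 / (8 θ)) ≤ ε0 / 16` on the circle if `θ` is small (`C4` depends on `κ, R0, u_i` only).
Two points of the circle are joined by an arc of length `≤ π s`: `‖F z - F z'‖ ≤ 4 * ε0 / 16`. (Mean value inequality for `t ↦ F (y + s e^(i t))`.) Fix `z0` on the circle: `‖F z - F z0‖ ≤ ε0 / 4` on the circle, so on `closedBall y s` (maximum principle, `Complex.norm_le_of_forall_mem_frontier_norm_le`), so `‖F z - F y‖ ≤ ε0 / 2`.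
-/

set_option autoImplicit false

open Filter Topology Polynomial Metric Set MeasureTheory

namespace Pool.Agent.H18.UP

open Pool.Agent.H44.Fatou (rat rat_continuous)
open Pool.Agent.H80.AJ (Br KK one_le_KK KK_pos distort distort_lip deriv_ne univ_cover)
open Pool.Agent.H32.BT (IsCrit)
open Pool.Agent.H61.TT Pool.Agent.H57.CP Pool.Agent.H3.NC

variable {d : ℕ} {a b : Polynomial ℂ} {J : Set ℂ} {δ0 : ℝ}

private theorem tJ {D : ℕ} {R0 : ℝ} (h : US0 d D a b J δ0 R0) {m : ℕ} {z u : ℂ} (hu : u ∈ J)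
    (hz : (rat a b)^[m] (z : OnePoint ℂ) = (u : OnePoint ℂ)) : z ∈ J := by
  induction m generalizing z with
  | zero =>
    have h1 : z = u := OnePoint.coe_injective hz
    rw [h1]
    exact hu
  | succ m ih =>
    rw [Function.iterate_succ_apply] at hz
    obtain ⟨z', hz', -⟩ := h.ns.bd m (rat a b z) ⟨u, hu, u, mem_ball_self h.ns.hδ0, hz⟩
    have hb : b.eval z ≠ 0 := by
      intro h0
      rw [Pool.Agent.H44.Fatou.rat_coe, h0] at hz'
      unfold Pool.Agent.H44.Fatou.pt at hz'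
      rw [if_pos rfl] at hz'
      exact OnePoint.infty_ne_coe _ hz'
    have hg : gg a b z = z' := by
      rw [Pool.Agent.H44.Fatou.rat_coe_of_ne hb] at hz'
      exact OnePoint.coe_injective hz'
    rw [hz'] at hz
    exact h.back z hb (hg ▸ ih hz)

private theorem tL {C : ℝ} (hC0 : 0 < C) (hC : ∀ (y : ℂ) (r1 r2 : ℝ) (h : ℂ → ℂ), 0 < r1 → r1 < r2 →
    DifferentiableOn ℂ h {z | r1 < ‖z - y‖ ∧ ‖z - y‖ < r2} → (∀ z, r1 < ‖z - y‖ → ‖z - y‖ < r2 → h z ≠ 0 ∧ h z ≠ 1) →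
    ∀ z, ‖z - y‖ = √(r1 * r2) → ‖deriv h z‖ * ‖z - y‖ * Real.log (r2 / r1) ≤ C * (1 + ‖h z‖ ^ 2))
    {D : ℕ} {R0 : ℝ} (h : US0 d D a b J δ0 R0) {u1 u2 u3 : ℂ} (h1 : u1 ∈ J) (h2 : u2 ∈ J) (h3 : u3 ∈ J) {κ : ℝ}
    (hκ : 0 < κ) (h12 : 4 * κ ≤ ‖u2 - u1‖) (h13 : 4 * κ ≤ ‖u3 - u1‖) (h23 : 4 * κ ≤ ‖u3 - u2‖)
    (hb1 : ‖u1‖ ≤ R0) (hb2 : ‖u2‖ ≤ R0) (hb3 : ‖u3‖ ≤ R0)
    {m : ℕ} {y : ℂ} {r1 r2 : ℝ} (hr1 : 0 < r1) (hr12 : r1 < r2)
    (hemp : ∀ z, r1 < ‖z - y‖ → ‖z - y‖ < r2 → z ∉ J) {z : ℂ} (hz : ‖z - y‖ = √(r1 * r2))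
    (hzm : z ∈ (pre a b)^[m] univ) (hF : κ ≤ ‖(gg a b)^[m] z - u1‖) (hR : ‖(gg a b)^[m] z‖ ≤ R0 + 1) :
    ‖tD a b m z‖ * √(r1 * r2) * Real.log (r2 / r1) ≤
      C * (1 + ((2 * R0 + 1) * (2 * R0) / (κ * (4 * κ))) ^ 2) * ((2 * R0 + 1) ^ 2 * (2 * R0) / (4 * κ * (4 * κ))) := by
  have hR0 : 0 ≤ R0 := (norm_nonneg _).trans hb1
  obtain ⟨P, Q, hPQ, -, hit⟩ := Pool.Agent.H79.PJ.rat_iter h.ns.rt.cop
    (by unfold Pool.Agent.H44.Fatou.dg; rw [h.ns.rt.deg]; have := h.ns.rt.hd; omega) m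
  have hne : ∀ u ∈ J, ∀ z, r1 < ‖z - y‖ → ‖z - y‖ < r2 → P.eval z - u * Q.eval z ≠ 0 := by
    intro u hu z hz1 hz2 h0
    by_cases hQ : Q.eval z = 0
    · rw [hQ, mul_zero, sub_zero] at h0
      rcases Pool.Agent.H44.Fatou.coprime_eval hPQ z with h4 | h4
      · exact h4 h0
      · exact h4 hQ
    · have h4 := hit (z : OnePoint ℂ)
      rw [Pool.Agent.H44.Fatou.rat_coe_of_ne hQ] at h4
      have h5 : P.eval z / Q.eval z = u := by
        rw [div_eq_iff hQ]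
        exact sub_eq_zero.1 h0
      rw [h5] at h4
      exact hemp z hz1 hz2 (tJ h hu h4.symm)
  have hd12 : u2 - u1 ≠ 0 := norm_pos_iff.1 (lt_of_lt_of_le (by positivity) h12)
  have hd13 : u3 - u1 ≠ 0 := norm_pos_iff.1 (lt_of_lt_of_le (by positivity) h13)
  have hd23 : u3 - u2 ≠ 0 := norm_pos_iff.1 (lt_of_lt_of_le (by positivity) h23)
  have hFne : (gg a b)^[m] z - u1 ≠ 0 := norm_pos_iff.1 (lt_of_lt_of_le hκ hF)
  have key := hC y r1 r2 (fun z => ((P.eval z - u2 * Q.eval z) * (u3 - u1)) / ((P.eval z - u1 * Q.eval z) * (u3 - u2)))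
    hr1 hr12 (by
      refine DifferentiableOn.div ?_ ?_ ?_
      · exact ((P.differentiable.sub ((differentiable_const _).mul Q.differentiable)).mul
          (differentiable_const _)).differentiableOn
      · exact ((P.differentiable.sub ((differentiable_const _).mul Q.differentiable)).mul
          (differentiable_const _)).differentiableOn
      · intro z hz
        exact mul_ne_zero (hne u1 h1 z hz.1 hz.2) hd23) (by
      intro z hz1 hz2
      have e1 := hne u1 h1 z hz1 hz2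
      have e2 := hne u2 h2 z hz1 hz2
      have e3 := hne u3 h3 z hz1 hz2
      refine ⟨div_ne_zero (mul_ne_zero e2 hd13) (mul_ne_zero e1 hd23), fun h0 => ?_⟩
      rw [div_eq_one_iff_eq (mul_ne_zero e1 hd23)] at h0
      have h5 : (u2 - u1) * (P.eval z - u3 * Q.eval z) = 0 := by linear_combination h0
      rcases mul_eq_zero.1 h5 with h6 | h6
      · exact hd12 h6
      · exact e3 h6) z hz
  have hO : (pre a b)^[m] univ ∈ 𝓝 z := (pre_open isOpen_univ).mem_nhds hzm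
  have heq : ∀ w ∈ (pre a b)^[m] univ, Q.eval w ≠ 0 ∧ P.eval w = (gg a b)^[m] w * Q.eval w := by
    intro w hw
    have h4 := hit (w : OnePoint ℂ)
    rw [rat_it (mem_pre.1 hw).1 m le_rfl] at h4
    have hQ : Q.eval w ≠ 0 := by
      intro h0
      rw [Pool.Agent.H44.Fatou.rat_coe, h0] at h4
      unfold Pool.Agent.H44.Fatou.pt at h4
      rw [if_pos rfl] at h4
      exact OnePoint.infty_ne_coe _ h4
    refine ⟨hQ, ?_⟩
    rw [Pool.Agent.H44.Fatou.rat_coe_of_ne hQ] at h4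
    exact (div_eq_iff hQ).1 (OnePoint.coe_injective h4)
  have hM : ∀ w ∈ (pre a b)^[m] univ, ((P.eval w - u2 * Q.eval w) * (u3 - u1)) / ((P.eval w - u1 * Q.eval w) * (u3 - u2)) =
      (((gg a b)^[m] w - u2) * (u3 - u1)) / (((gg a b)^[m] w - u1) * (u3 - u2)) := by
    intro w hw
    obtain ⟨hQ, hP⟩ := heq w hw
    rw [hP]
    have e1 : ((gg a b)^[m] w * Q.eval w - u2 * Q.eval w) * (u3 - u1) = ((gg a b)^[m] w - u2) * (u3 - u1) * Q.eval w := by ring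
    have e2 : ((gg a b)^[m] w * Q.eval w - u1 * Q.eval w) * (u3 - u2) = ((gg a b)^[m] w - u1) * (u3 - u2) * Q.eval w := by ring
    rw [e1, e2, mul_div_mul_right _ _ hQ]
  have hFd : HasDerivAt (gg a b)^[m] (tD a b m z) z := g_diff hzm
  have hder : deriv (fun z => ((P.eval z - u2 * Q.eval z) * (u3 - u1)) / ((P.eval z - u1 * Q.eval z) * (u3 - u2))) z =
      tD a b m z * ((u3 - u1) * (u2 - u1)) / (((gg a b)^[m] z - u1) ^ 2 * (u3 - u2)) := by
    have e1 : (fun z => ((P.eval z - u2 * Q.eval z) * (u3 - u1)) / ((P.eval z - u1 * Q.eval z) * (u3 - u2))) =ᶠ[𝓝 z]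
        fun w => (((gg a b)^[m] w - u2) * (u3 - u1)) / (((gg a b)^[m] w - u1) * (u3 - u2)) := by
      filter_upwards [hO] with w hw
      exact hM w hw
    rw [e1.deriv_eq]
    have e2 := ((hFd.sub_const u2).mul_const (u3 - u1)).div ((hFd.sub_const u1).mul_const (u3 - u2))
      (mul_ne_zero hFne hd23)
    refine Eq.trans (b := _) e2.deriv ?_
    field_simp
    ring
  rw [hder, hM z hzm] at key
  rw [hz] at key
  set F := (gg a b)^[m] z with hFdef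
  set s := √(r1 * r2) with hs
  set L := Real.log (r2 / r1) with hL
  have hs0 : 0 ≤ s := Real.sqrt_nonneg _
  have hL0 : 0 ≤ L := Real.log_nonneg (by rw [le_div_iff₀ hr1]; linarith)
  have n1 : ‖F - u1‖ ≤ 2 * R0 + 1 := (norm_sub_le _ _).trans (by linarith)
  have n2 : ‖F - u2‖ ≤ 2 * R0 + 1 := (norm_sub_le _ _).trans (by linarith)
  have n31 : ‖u3 - u1‖ ≤ 2 * R0 := (norm_sub_le _ _).trans (by linarith)
  have n32 : ‖u3 - u2‖ ≤ 2 * R0 := (norm_sub_le _ _).trans (by linarith)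
  have q1 : ‖(F - u2) * (u3 - u1) / ((F - u1) * (u3 - u2))‖ ≤ (2 * R0 + 1) * (2 * R0) / (κ * (4 * κ)) := by
    rw [norm_div, norm_mul, norm_mul]
    gcongr
  have q2 : ‖tD a b m z‖ ≤ ‖tD a b m z * ((u3 - u1) * (u2 - u1)) / ((F - u1) ^ 2 * (u3 - u2))‖ *
      ((2 * R0 + 1) ^ 2 * (2 * R0) / (4 * κ * (4 * κ))) := by
    have e1 : ‖tD a b m z‖ = ‖tD a b m z * ((u3 - u1) * (u2 - u1)) / ((F - u1) ^ 2 * (u3 - u2))‖ *
        (‖F - u1‖ ^ 2 * ‖u3 - u2‖ / (‖u3 - u1‖ * ‖u2 - u1‖)) := by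
      rw [norm_div, norm_mul, norm_mul, norm_mul, norm_pow]
      have g1 := norm_pos_iff.2 hd12
      have g2 := norm_pos_iff.2 hd13
      have g3 := norm_pos_iff.2 hd23
      have g4 := norm_pos_iff.2 hFne
      field_simp
    calc ‖tD a b m z‖ = _ := e1
      _ ≤ _ := by gcongr
  calc ‖tD a b m z‖ * s * L ≤ (‖tD a b m z * ((u3 - u1) * (u2 - u1)) / ((F - u1) ^ 2 * (u3 - u2))‖ *
      ((2 * R0 + 1) ^ 2 * (2 * R0) / (4 * κ * (4 * κ)))) * s * L := by gcongr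
    _ = (‖tD a b m z * ((u3 - u1) * (u2 - u1)) / ((F - u1) ^ 2 * (u3 - u2))‖ * s * L) *
      ((2 * R0 + 1) ^ 2 * (2 * R0) / (4 * κ * (4 * κ))) := by ring
    _ ≤ (C * (1 + ‖(F - u2) * (u3 - u1) / ((F - u1) * (u3 - u2))‖ ^ 2)) *
      ((2 * R0 + 1) ^ 2 * (2 * R0) / (4 * κ * (4 * κ))) := by gcongr
    _ ≤ _ := by gcongr

theorem thk {D : ℕ} {R0 : ℝ} (h : US0 d D a b J δ0 R0) : ∃ θ r1 : ℝ, 0 < θ ∧ 0 < r1 ∧ ∀ y ∈ J, ∀ ρ : ℝ, 0 < ρ → ρ ≤ r1 →
    ∃ w ∈ J, θ * ρ ≤ ‖w - y‖ ∧ ‖w - y‖ ≤ ρ / 8 := by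
  rcases J.eq_empty_or_nonempty with rfl | hne
  · exact ⟨1, 1, one_pos, one_pos, fun y hy => absurd hy (Set.notMem_empty y)⟩
  obtain ⟨C, hC0, hC⟩ := lrg
  have hinf := jin h.ns h.back hne
  obtain ⟨t, htJ, htc⟩ := hinf.exists_subset_card_eq 3
  obtain ⟨u1, u2, u3, h12, h13, h23, ht⟩ := Finset.card_eq_three.1 htc
  have hu1 : u1 ∈ J := htJ (by simp [ht])
  have hu2 : u2 ∈ J := htJ (by simp [ht])
  have hu3 : u3 ∈ J := htJ (by simp [ht])
  have hbd : ∀ z ∈ J, ‖z‖ ≤ R0 := by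
    intro z hz
    obtain ⟨z', hz', hn⟩ := h.ns.bd 0 (z : OnePoint ℂ) ⟨z, hz, z, mem_ball_self h.ns.hδ0, rfl⟩
    rw [OnePoint.coe_injective hz']
    exact hn
  have hR0 : 0 ≤ R0 := (norm_nonneg _).trans (hbd u1 hu1)
  obtain ⟨κ, hκ, hκ1, hk12, hk13, hk23⟩ : ∃ κ : ℝ, 0 < κ ∧ κ ≤ 1 ∧ 4 * κ ≤ ‖u2 - u1‖ ∧ 4 * κ ≤ ‖u3 - u1‖ ∧
      4 * κ ≤ ‖u3 - u2‖ := by
    have g1 := norm_pos_iff.2 (sub_ne_zero.2 h12.symm)
    have g2 := norm_pos_iff.2 (sub_ne_zero.2 h13.symm)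
    have g3 := norm_pos_iff.2 (sub_ne_zero.2 h23.symm)
    refine ⟨min 1 (min ‖u2 - u1‖ (min ‖u3 - u1‖ ‖u3 - u2‖)) / 4, by positivity, ?_, ?_, ?_, ?_⟩
    · have := min_le_left 1 (min ‖u2 - u1‖ (min ‖u3 - u1‖ ‖u3 - u2‖))
      linarith
    · have e1 := min_le_right 1 (min ‖u2 - u1‖ (min ‖u3 - u1‖ ‖u3 - u2‖))
      have e2 := min_le_left ‖u2 - u1‖ (min ‖u3 - u1‖ ‖u3 - u2‖)
      linarith
    · have e1 := min_le_right 1 (min ‖u2 - u1‖ (min ‖u3 - u1‖ ‖u3 - u2‖))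
      have e2 := min_le_right ‖u2 - u1‖ (min ‖u3 - u1‖ ‖u3 - u2‖)
      have e3 := min_le_left ‖u3 - u1‖ ‖u3 - u2‖
      linarith
    · have e1 := min_le_right 1 (min ‖u2 - u1‖ (min ‖u3 - u1‖ ‖u3 - u2‖))
      have e2 := min_le_right ‖u2 - u1‖ (min ‖u3 - u1‖ ‖u3 - u2‖)
      have e3 := min_le_right ‖u3 - u1‖ ‖u3 - u2‖
      linarith
  have hcomp : IsCompact J := Metric.isCompact_of_isClosed_isBounded h.ns.Jc
    (isBounded_iff_forall_norm_le.2 ⟨R0, hbd⟩)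
  have hgc : ∀ z ∈ J, ContinuousAt (gg a b) z := fun z hz =>
    a.continuous.continuousAt.div b.continuous.continuousAt (h.ns.Jn z hz)
  obtain ⟨ε1, hε1, hcont⟩ : ∃ ε1 : ℝ, 0 < ε1 ∧ ∀ w0 ∈ J, ∀ w, dist w0 w < ε1 → dist (gg a b w0) (gg a b w) < κ / 2 := by
    have h1 := hcomp.uniformContinuousAt_of_continuousAt (gg a b) hgc (Metric.dist_mem_uniformity (half_pos hκ))
    obtain ⟨ε, hε, h2⟩ := Metric.mem_uniformity_dist.1 h1
    exact ⟨ε, hε, fun w0 hw0 w hw => h2 hw hw0⟩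
  obtain ⟨ε2, hε2, hb2⟩ : ∃ ε2 : ℝ, 0 < ε2 ∧ ∀ w0 ∈ J, ∀ w, dist w w0 < ε2 → b.eval w ≠ 0 := by
    obtain ⟨ε, hε, h1⟩ := hcomp.exists_thickening_subset_open (t := {z : ℂ | b.eval z ≠ 0})
      (isOpen_ne_fun b.continuous continuous_const) (fun z hz => h.ns.Jn z hz)
    exact ⟨ε, hε, fun w0 hw0 w hw => h1 (Metric.mem_thickening_iff.2 ⟨w0, hw0, hw⟩)⟩
  have hδ := h.ns.hδ0
  obtain ⟨ε0, hε0, he1, he2, he3⟩ : ∃ ε0 : ℝ, 0 < ε0 ∧ ε0 < ε1 ∧ ε0 < ε2 ∧ ε0 < δ0 := by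
    refine ⟨min ε1 (min ε2 δ0) / 2, by positivity, ?_, ?_, ?_⟩
    · have e1 := min_le_left ε1 (min ε2 δ0)
      linarith
    · have e1 := min_le_right ε1 (min ε2 δ0)
      have e2 := min_le_left ε2 δ0
      linarith
    · have e1 := min_le_right ε1 (min ε2 δ0)
      have e2 := min_le_right ε2 δ0
      linarith
  obtain ⟨K0, hK0⟩ : ∃ K0 : ℝ, K0 = C * (1 + ((2 * R0 + 1) * (2 * R0) / (κ * (4 * κ))) ^ 2) *
    ((2 * R0 + 1) ^ 2 * (2 * R0) / (4 * κ * (4 * κ))) := ⟨_, rfl⟩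
  have hK0p : 0 ≤ K0 := by rw [hK0]; positivity
  obtain ⟨L, hL⟩ : ∃ L : ℝ, L = K0 / ε0 + 1 := ⟨_, rfl⟩
  have hLp : 0 < L := by rw [hL]; positivity
  have hKL : K0 ≤ ε0 * L := by
    rw [hL, mul_add, mul_div_cancel₀ _ hε0.ne']
    linarith
  refine ⟨Real.exp (-L) / 8, ε0, by positivity, hε0, fun y hy ρ hρ hρε => ?_⟩
  by_contra hno
  push Not at hno
  obtain ⟨r1, hr1⟩ : ∃ r1 : ℝ, r1 = Real.exp (-L) / 8 * ρ := ⟨_, rfl⟩
  obtain ⟨r2, hr2⟩ : ∃ r2 : ℝ, r2 = ρ / 8 := ⟨_, rfl⟩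
  have hr1p : 0 < r1 := by rw [hr1]; positivity
  have hr2p : 0 < r2 := by rw [hr2]; positivity
  have hexp : Real.exp (-L) < 1 := by
    rw [Real.exp_lt_one_iff]
    linarith
  have hr12 : r1 < r2 := by
    rw [hr1, hr2]
    nlinarith
  have hlog : Real.log (r2 / r1) = L := by
    have e1 : r2 / r1 = Real.exp L := by
      rw [hr1, hr2, Real.exp_neg]
      field_simp
    rw [e1, Real.log_exp]
  have hemp : ∀ z, r1 < ‖z - y‖ → ‖z - y‖ < r2 → z ∉ J := by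
    intro z hz1 hz2 hzJ
    have e1 := hno z hzJ (by rw [← hr1]; exact hz1.le)
    rw [← hr2] at e1
    linarith
  obtain ⟨s, hs⟩ : ∃ s : ℝ, s = √(r1 * r2) := ⟨_, rfl⟩
  have hsp : 0 < s := by rw [hs]; positivity
  have hsr : s < r2 := by
    rw [hs, Real.sqrt_lt' hr2p, sq]
    exact mul_lt_mul_of_pos_right hr12 hr2p
  have hsε : s ≤ ε0 := by
    rw [hr2] at hsr
    linarith
  have hJn : ∀ n, (gg a b)^[n] y ∈ J := by
    intro n
    induction n with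
    | zero => exact hy
    | succ n ih =>
      rw [Function.iterate_succ_apply']
      exact h.ns.Ji _ ih
  have claim : ∀ n : ℕ, ∀ z ∈ closedBall y s, z ∈ (pre a b)^[n] univ ∧ ‖(gg a b)^[n] z - (gg a b)^[n] y‖ ≤ ε0 := by
    intro n
    induction n with
    | zero =>
      intro z hz
      refine ⟨mem_univ _, ?_⟩
      rw [Function.iterate_zero, id, id, ← dist_eq_norm]
      exact (mem_closedBall.1 hz).trans hsε
    | succ n ih =>
      have hpre : ∀ z ∈ closedBall y s, z ∈ (pre a b)^[n + 1] univ := by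
        intro z hz
        obtain ⟨e1, e2⟩ := ih z hz
        refine mem_pre.2 ⟨fun i hi => ?_, mem_univ _⟩
        rcases Nat.lt_succ_iff_lt_or_eq.1 hi with h3 | rfl
        · exact (mem_pre.1 e1).1 i h3
        · exact hb2 _ (hJn i) _ (by rw [dist_eq_norm]; exact lt_of_le_of_lt e2 he2)
      have hFκ : ∀ z ∈ closedBall y s, ‖(gg a b)^[n + 1] z - (gg a b)^[n + 1] y‖ < κ / 2 := by
        intro z hz
        obtain ⟨e1, e2⟩ := ih z hz
        rw [Function.iterate_succ_apply', Function.iterate_succ_apply', ← dist_eq_norm, dist_comm]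
        apply hcont _ (hJn n)
        rw [dist_comm, dist_eq_norm]
        exact lt_of_le_of_lt e2 he1
      have hsph : ∀ z, ‖z - y‖ = s → ‖tD a b (n + 1) z‖ ≤ ε0 / s := by
        intro z hz
        have hzc : z ∈ closedBall y s := by rw [mem_closedBall, dist_eq_norm, hz]
        have hR : ‖(gg a b)^[n + 1] z‖ ≤ R0 + 1 := by
          have e1 := hbd _ (hJn (n + 1))
          have e2 := hFκ z hzc
          have e3 := norm_sub_norm_le ((gg a b)^[n + 1] z) ((gg a b)^[n + 1] y)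
          linarith
        have hz' : ‖z - y‖ = √(r1 * r2) := by rw [hz, hs]
        have hfin : ‖tD a b (n + 1) z‖ * s * L ≤ K0 := by
          have e1 := hFκ z hzc
          rcases le_or_gt (2 * κ) ‖(gg a b)^[n + 1] y - u1‖ with h4 | h4
          · have hF1 : κ ≤ ‖(gg a b)^[n + 1] z - u1‖ := by
              have e3 := norm_sub_le_norm_sub_add_norm_sub ((gg a b)^[n + 1] y) ((gg a b)^[n + 1] z) u1
              rw [norm_sub_rev] at e1
              linarith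
            have e5 := tL hC0 hC h hu1 hu2 hu3 hκ hk12 hk13 hk23 (hbd _ hu1) (hbd _ hu2) (hbd _ hu3)
              hr1p hr12 hemp hz' (hpre z hzc) hF1 hR
            rw [hlog, ← hs, ← hK0] at e5
            exact e5
          · have hF1 : κ ≤ ‖(gg a b)^[n + 1] z - u2‖ := by
              have e3 := norm_sub_le_norm_sub_add_norm_sub u2 ((gg a b)^[n + 1] y) u1
              have e4 := norm_sub_le_norm_sub_add_norm_sub ((gg a b)^[n + 1] y) ((gg a b)^[n + 1] z) u2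
              rw [norm_sub_rev] at e1
              rw [norm_sub_rev u2 ((gg a b)^[n + 1] y)] at e3
              linarith
            have e5 := tL hC0 hC h hu2 hu1 hu3 hκ (by rw [norm_sub_rev]; exact hk12) hk23 hk13
              (hbd _ hu2) (hbd _ hu1) (hbd _ hu3) hr1p hr12 hemp hz' (hpre z hzc) hF1 hR
            rw [hlog, ← hs, ← hK0] at e5
            exact e5
        rw [le_div_iff₀ hsp]
        exact le_of_mul_le_mul_right (hfin.trans hKL) hLp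
      have hO : IsOpen ((pre a b)^[n + 1] (univ : Set ℂ)) := pre_open isOpen_univ
      have hdF : DifferentiableOn ℂ (gg a b)^[n + 1] ((pre a b)^[n + 1] univ) := fun z hz =>
        (g_diff hz).differentiableAt.differentiableWithinAt
      have hddF := hdF.deriv hO
      have hcl : closure (ball y s) = closedBall y s := closure_ball y hsp.ne'
      have hDC : DiffContOnCl ℂ (deriv (gg a b)^[n + 1]) (ball y s) := by
        refine DifferentiableOn.diffContOnCl ?_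
        rw [hcl]
        exact hddF.mono hpre
      have hmax : ∀ z ∈ closedBall y s, ‖deriv (gg a b)^[n + 1] z‖ ≤ ε0 / s := by
        intro z hz
        refine Complex.norm_le_of_forall_mem_frontier_norm_le isBounded_ball hDC (fun w hw => ?_) (hcl ▸ hz)
        rw [frontier_ball y hsp.ne', mem_sphere, dist_eq_norm] at hw
        rw [(g_diff (hpre w (by rw [mem_closedBall, dist_eq_norm, hw]))).deriv]
        exact hsph w hw
      intro z hz
      refine ⟨hpre z hz, ?_⟩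
      have hmv := Convex.norm_image_sub_le_of_norm_hasDerivWithin_le (𝕜 := ℂ) (f := (gg a b)^[n + 1])
        (f' := deriv (gg a b)^[n + 1]) (C := ε0 / s) (s := closedBall y s) (x := y) (y := z)
        (fun w hw => (hdF.differentiableAt (hO.mem_nhds (hpre w hw))).hasDerivAt.hasDerivWithinAt)
        hmax (convex_closedBall y s) (mem_closedBall_self hsp.le) hz
      refine hmv.trans ?_
      rw [mem_closedBall, dist_eq_norm] at hz
      calc ε0 / s * ‖z - y‖ ≤ ε0 / s * s := by gcongr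
        _ = ε0 := div_mul_cancel₀ _ hsp.ne'
  obtain ⟨n, z, hz, hw⟩ := h.ex y hy s hsp
  obtain ⟨e1, e2⟩ := claim n z (ball_subset_closedBall hz)
  exact hw ((gg a b)^[n] z) (by rw [mem_ball, dist_eq_norm]; exact lt_of_le_of_lt e2 he3)
    (rat_it (mem_pre.1 e1).1 n le_rfl)

end Pool.Agent.H18.UP
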