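import Pool.Agent.H18.UP.BAS
import Pool.Agent.H35.NA.Plane

/-!
# THEOREM UP: no trapping disc around a point of `J`

PROOF. Let `F = gg^[N]`, continuous on `closedBall c u` and holomorphic on a neighbourhood of it (`g_diff`, the closed ball is in `pre^[N] univ`, an open set), `F(closedBall c u) ⊆ closedBall c u'`, `u' < u`, `u' ≥ 0`.
(1) F has a fixed point `x` in `closedBall c u'` with `‖F' x‖ < 1`, and `F^[k] z → x` for all `z ∈ closedBall c u`. (Search the library first: H64/MJ `fs_att`, H91/Fatou `Attracting.trap`, H44, H79, H76 and so on: `a disc mapped into a smaller one contains an attracting fixed point` has been used. Otherwise: Earle-Hamilton: for the pseudo hyperbolic distance `p(z, w) = |u (z - w) / (u ^ 2 - (z - c) conj (w - c))|` of the disc of radius `u` Schwarz-Pick for `F / (u' / u)`: since `F` maps `ball c u` into `closedBall c u'`, the map `(u / u') (F - c)` maps it into `closedBall 0 u`, so `|F z - F w| ≤ κ ...`: `p(F z, F w) ≤ κ p(z, w)`, `κ = κ(u'/u) < 1`. So the orbits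 are Cauchy sequences; the limit `x` is a fixed point, and `‖F' x‖ ≤ κ < 1` by letting `w → x`.)
(2) `c ∈ J` and `J` is forward invariant along orbits in the plane (`Ji`), so `F^[k] c ∈ J`, and `x ∈ J` (`Jc`). `F x = x`, `x ∈ pre^[N] univ`, so `(rat a b)^[N] x = x` (`g_rat`) and `F' x = tD a b N x` (`g_diff`): contradiction with `Geo.rep`.
-/

set_option autoImplicit false

open Filter Topology Polynomial Metric Set MeasureTheory

namespace Pool.Agent.H18.UP

open Pool.Agent.H44.Fatou (rat rat_continuous)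
open Pool.Agent.H80.AJ (Br KK one_le_KK KK_pos distort distort_lip deriv_ne univ_cover)
open Pool.Agent.H32.BT (IsCrit)
open Pool.Agent.H61.TT Pool.Agent.H57.CP Pool.Agent.H3.NC

variable {d : ℕ} {a b : Polynomial ℂ} {J : Set ℂ} {δ0 : ℝ}

private theorem trp_mem {m : ℕ} {S : Set ℂ} {z : ℂ} (h : z ∈ (pre a b)^[m] S) : (gg a b)^[m] z ∈ S :=
  (mem_pre.1 h).2

private theorem trp_J (h : Geo d a b J δ0) {c : ℂ} (hc : c ∈ J) {n : ℕ} (hn : c ∈ (pre a b)^[n] univ) :
    (gg a b)^[n] c ∈ J := by
  have h1 := (mem_pre.1 hn).1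
  have h2 : ∀ i ≤ n, (gg a b)^[i] c ∈ J := by
    intro i
    induction i with
    | zero => intro _; exact hc
    | succ i ih =>
      intro hi
      rw [Function.iterate_succ_apply']
      exact h.Ji _ (ih (by omega)) (h1 i (by omega))
  exact h2 n le_rfl

theorem trp (h : Geo d a b J δ0) {c : ℂ} (hc : c ∈ J) {N : ℕ} (hN : 0 < N) {u u' : ℝ} (hu0 : 0 ≤ u') (hu : u' < u)
    (hm : ∀ z ∈ closedBall c u, z ∈ (pre a b)^[N] (closedBall c u')) : False := by
  obtain ⟨F, hF⟩ : ∃ F : ℂ → ℂ, F = (gg a b)^[N] := ⟨_, rfl⟩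
  have hu1 : 0 < u := lt_of_le_of_lt hu0 hu
  have hKW : closedBall c u' ⊆ ball c u := closedBall_subset_ball hu
  have hpre : ∀ z ∈ ball c u, z ∈ (pre a b)^[N] (closedBall c u') := fun z hz => hm z (ball_subset_closedBall hz)
  have hmap : ∀ z ∈ ball c u, F z ∈ closedBall c u' := by
    intro z hz
    rw [hF]
    exact trp_mem (hpre z hz)
  have hFd : DifferentiableOn ℂ F (ball c u) := by
    intro z hz
    rw [hF]
    exact (g_diff (hpre z hz)).differentiableAt.differentiableWithinAt
  have hmapW : ∀ z ∈ ball c u, F z ∈ ball c u := fun z hz => hKW (hmap z hz)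
  -- iterates
  have hit : ∀ (k : ℕ) (z : ℂ), z ∈ ball c u → F^[k] z ∈ ball c u := by
    intro k
    induction k with
    | zero => intro z hz; exact hz
    | succ k ih =>
      intro z hz
      rw [Function.iterate_succ_apply]
      exact ih _ (hmapW z hz)
  have hitd : ∀ k : ℕ, DifferentiableOn ℂ F^[k] (ball c u) := by
    intro k
    induction k with
    | zero => exact differentiableOn_id
    | succ k ih =>
      rw [Function.iterate_succ]
      exact ih.comp hFd hmapW
  have hFk : ∀ k : ℕ, F^[k] = (gg a b)^[N * k] := by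
    intro k
    rw [hF, Function.iterate_mul]
  have hpk : ∀ (k : ℕ) (z : ℂ), z ∈ ball c u → z ∈ (pre a b)^[N * k] univ := by
    intro k
    induction k with
    | zero =>
      intro z _
      rw [Nat.mul_zero]
      exact mem_univ _
    | succ k ih =>
      intro z hz
      rw [Nat.mul_succ, pre_add]
      refine ⟨ih z hz, ?_⟩
      rw [← hFk]
      exact pre_mono (subset_univ _) (hpre _ (hit k z hz))
  obtain ⟨m, N', z, U, hN', hz, hfix, -, -, -, hlim⟩ := Pool.Agent.H35.NA.contr_plane isOpen_ball isBounded_ball hFd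
    (isCompact_closedBall c u') hKW hmap (mem_ball_self hu1)
  -- the limit is in J
  have hJk : ∀ k : ℕ, F^[k] c ∈ J := by
    intro k
    rw [hFk]
    exact trp_J h hc (hpk k c (mem_ball_self hu1))
  have hzJ : z ∈ J := by
    refine h.Jc.mem_of_tendsto hlim (Eventually.of_forall fun k => ?_)
    rw [← Function.iterate_add_apply]
    exact hJk _
  -- the multiplier
  have hp : 0 < N * N' := Nat.mul_pos hN hN'
  have hzp := hpk N' z hz
  rw [hFk] at hfix
  have hrat : (rat a b)^[N * N'] (z : OnePoint ℂ) = (z : OnePoint ℂ) := by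
    rw [g_rat h hzp, hfix]
  have hrep := h.rep z hzJ (N * N') hp hrat
  have hder : HasDerivAt (gg a b)^[N * N'] (tD a b (N * N') z) z := g_diff hzp
  obtain ⟨r, hr, hrW⟩ : ∃ r : ℝ, 0 < r ∧ closedBall z r ⊆ ball c u := by
    obtain ⟨r, hr, hr'⟩ := Metric.isOpen_iff.1 isOpen_ball z hz
    exact ⟨r / 2, by linarith, (closedBall_subset_ball (by linarith)).trans hr'⟩
  have hbd : ∀ k : ℕ, ‖tD a b (N * N') z‖ ^ k ≤ (‖c‖ + u) / r := by
    intro k
    have h1 := (HasDerivAt.iterate z hder hfix k).deriv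
    have h2 : ((gg a b)^[N * N'])^[k] = F^[N' * k] := by
      rw [hF, ← Function.iterate_mul, ← Function.iterate_mul, Nat.mul_assoc]
    rw [h2] at h1
    rw [← norm_pow, ← h1]
    apply Complex.norm_deriv_le_of_forall_mem_sphere_norm_le hr ((hitd _).diffContOnCl_ball hrW)
    intro w hw
    have h3 := hit (N' * k) w (hrW (sphere_subset_closedBall hw))
    rw [mem_ball, dist_eq_norm] at h3
    have h4 : ‖F^[N' * k] w‖ ≤ ‖c‖ + ‖F^[N' * k] w - c‖ := by
      calc ‖F^[N' * k] w‖ = ‖c + (F^[N' * k] w - c)‖ := by rw [add_sub_cancel]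
        _ ≤ _ := norm_add_le _ _
    linarith
  obtain ⟨k, hk⟩ := pow_unbounded_of_one_lt ((‖c‖ + u) / r) hrep
  exact absurd (hbd k) (not_le.2 hk)

end Pool.Agent.H18.UP
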