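import Pool.Agent.H18.UP.DF3
import Pool.Agent.H18.UP.ONT

/-!
# THEOREM UP: the first return domains

PROOF. Let `W = connectedComponentIn (pre^m V) z ∈ WD a b V m`. `V ⊆ ball c0 (2 ρ) ⊆ ball c0 ρ1` (`2 ρ ≤ 2 L ρ ≤ ρ1`), `ball c0 ρ1 ⊆ NJ` (`c0 ∈ J`, `ρ1 ≤ δ ≤ δ0`).
`op`: `pre_open`, `IsOpen.connectedComponentIn`. `con, ne, ret`: clear. `sub`: `W ⊆ pre^m V ⊆ pre^m (ball c0 ρ1)`, preconnected, meets `V` at `z`: `Nic.nic`. `cmp`: `connectedComponentIn_eq`, `IsPreconnected.subset_connectedComponentIn`. `ont`: `ont`.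
`fst`: let `z' ∈ W`, `0 < j < m`, `gg^[j] z' ∈ V`. `gg^[j] '' W` is preconnected, in `pre^(m - j) V ⊆ pre^(m - j) (ball c0 ρ1)` (`pre_add`), meets `V`: so `gg^[j] '' W ⊆ V`, and `gg^[j] z ∈ V`: contradiction.
`small`: `Scl` for `(m, z', W)` (`W ⊆ pre^m (ball c0 (2 ρ))`; `ρ ≤ ‖gg^[j] z' - c0‖` since `gg^[j] z' ∉ V ⊇ ball c0 ρ`): `T` is preconnected, in `pre^m (ball c0 ρ1)`, meets `V` (`z' ∈ W ⊆ T`, `W ⊆ V`): `T ⊆ V`.
`wdd`: if `W, W'` meet at `x` with the times `m, m'`: `m = m'` by `fst`, `ret` (the smaller one is a return time `< ` the other), and then both are the component of `x`. `wdc`: the first return time (`Nat.find`).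
-/

set_option autoImplicit false

open Filter Topology Polynomial Metric Set MeasureTheory

namespace Pool.Agent.H18.UP

open Pool.Agent.H44.Fatou (rat rat_continuous)
open Pool.Agent.H80.AJ (Br KK one_le_KK KK_pos distort distort_lip deriv_ne univ_cover)
open Pool.Agent.H32.BT (IsCrit)
open Pool.Agent.H61.TT Pool.Agent.H57.CP Pool.Agent.H3.NC

variable {d : ℕ} {a b : Polynomial ℂ} {J : Set ℂ} {δ0 : ℝ}

private theorem wd_ball {c0 : ℂ} {e0 ρ ρ1 M L K C1 δ : ℝ} {V : Set ℂ}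
    (hG : GW a b J δ0 c0 e0 ρ ρ1 M L K C1 δ V) : V ⊆ ball c0 ρ1 := by
  have h1 := hG.nic.hρ
  have h2 : 1 * ρ ≤ L * ρ := mul_le_mul_of_nonneg_right (by linarith [hG.hL]) h1.le
  have h3 := hG.ρρ1
  exact hG.nic.out.trans (ball_subset_ball (by linarith))

private theorem wd_N {c0 : ℂ} {e0 ρ ρ1 M L K C1 δ : ℝ} {V : Set ℂ}
    (hG : GW a b J δ0 c0 e0 ρ ρ1 M L K C1 δ V) : V ⊆ NJ J δ0 := fun _ hw =>
  ⟨c0, hG.cJ, ball_subset_ball (hG.ρ1δ.trans hG.δδ0) (wd_ball hG hw)⟩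

theorem wdr (h : Geo d a b J δ0) {c0 : ℂ} {e0 ρ ρ1 M L K C1 δ : ℝ} {V : Set ℂ} (hG : GW a b J δ0 c0 e0 ρ ρ1 M L K C1 δ V) :
    ∀ m, ∀ W ∈ WD a b V m, Ret a b V L m W := by
  rintro m W ⟨z, hzV, hm, hzm, hzj, rfl⟩
  obtain ⟨W, hW⟩ : ∃ W, W = connectedComponentIn ((pre a b)^[m] V) z := ⟨_, rfl⟩
  have hWs : W ⊆ (pre a b)^[m] V := hW ▸ connectedComponentIn_subset _ _
  have hWc : IsPreconnected W := hW ▸ isPreconnected_connectedComponentIn
  have hzW : z ∈ W := hW ▸ mem_connectedComponentIn hzm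
  have hVb := wd_ball hG
  have hWV : W ⊆ V := hG.nic.nic m hm W hWc (hWs.trans (pre_mono hVb)) ⟨z, hzW, hzV⟩
  have hfst : ∀ z' ∈ W, ∀ j, 0 < j → j < m → (gg a b)^[j] z' ∉ V := by
    intro z' hz' j hj hjm hcon
    have hsplit : ∀ x ∈ W, x ∈ (pre a b)^[j] univ ∧ (gg a b)^[j] x ∈ (pre a b)^[m - j] V := by
      intro x hx
      rw [← pre_add, Nat.add_sub_cancel' hjm.le]
      exact hWs hx
    have hc : IsPreconnected ((gg a b)^[j] '' W) := by
      refine hWc.image _ fun x hx => ?_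
      exact (g_diff (hsplit x hx).1).continuousAt.continuousWithinAt
    have hsub : (gg a b)^[j] '' W ⊆ V := by
      refine hG.nic.nic (m - j) (by omega) _ hc ?_ ⟨_, mem_image_of_mem _ hz', hcon⟩
      rintro _ ⟨x, hx, rfl⟩
      exact pre_mono hVb (hsplit x hx).2
    exact hzj j hj hjm (hsub (mem_image_of_mem _ hzW))
  rw [← hW]
  refine ⟨hm, ?_, hWc, ⟨z, hzW⟩, hWV, fun x hx => hWs hx, hfst, ?_, ?_, ?_⟩
  · rw [hW]
    exact (pre_open hG.nic.op).connectedComponentIn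
  · intro z' hz' S hS hz'S hSs
    have h1 : connectedComponentIn ((pre a b)^[m] V) z = connectedComponentIn ((pre a b)^[m] V) z' :=
      connectedComponentIn_eq (by rw [← hW]; exact hz')
    rw [hW, h1]
    exact hS.subset_connectedComponentIn hz'S hSs
  · intro w hw
    rw [hW]
    exact ont h hG.nic.op hG.nic.con (wd_N hG) hzm w hw
  · intro z1 hz1 z2 hz2
    obtain ⟨T, hT, hWT, hTs, hTb, -⟩ := hG.scl m z1 W hm hWc hz1 (hWs.trans (pre_mono hG.nic.out))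
      (fun j hj hjm => by
        by_contra hcon
        rw [not_le] at hcon
        exact hfst z1 hz1 j hj hjm (hG.nic.inn (mem_ball_iff_norm.2 hcon)))
    exact (hTb z1 hz1 z2 hz2).trans (hG.nic.nic m hm T hT hTs ⟨z1, hWT hz1, hWV hz1⟩)

theorem wdd (h : Geo d a b J δ0) {c0 : ℂ} {e0 ρ ρ1 M L K C1 δ : ℝ} {V : Set ℂ} (hG : GW a b J δ0 c0 e0 ρ ρ1 M L K C1 δ V) :
    ∀ m m', ∀ W ∈ WD a b V m, ∀ W' ∈ WD a b V m', (m = m' ∧ W = W') ∨ Disjoint W W' := by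
  intro m m' W hW W' hW'
  by_cases hd : Disjoint W W'
  · exact Or.inr hd
  · left
    obtain ⟨x, hx, hx'⟩ := Set.not_disjoint_iff.1 hd
    have r := wdr h hG m W hW
    have r' := wdr h hG m' W' hW'
    have hmm : m = m' := by
      rcases lt_trichotomy m m' with h1 | h1 | h1
      · exact absurd (mem_pre.1 (r.ret x hx)).2 (r'.fst x hx' m r.pos h1)
      · exact h1
      · exact absurd (mem_pre.1 (r'.ret x hx')).2 (r.fst x hx m' r'.pos h1)
    subst hmm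
    refine ⟨rfl, ?_⟩
    obtain ⟨z, -, -, -, -, rfl⟩ := hW
    obtain ⟨z', -, -, -, -, rfl⟩ := hW'
    rw [connectedComponentIn_eq hx, connectedComponentIn_eq hx']

theorem wdc {V : Set ℂ} : ∀ z ∈ V, (∃ k, 0 < k ∧ z ∈ (pre a b)^[k] V) → ∃ m, ∃ W ∈ WD a b V m, z ∈ W ∧
    W = connectedComponentIn ((pre a b)^[m] V) z := by
  classical
  intro z hz hk
  obtain ⟨hm, hzm⟩ := Nat.find_spec hk
  have hmin : ∀ j, j < Nat.find hk → ¬ (0 < j ∧ z ∈ (pre a b)^[j] V) := fun j hj => Nat.find_min hk hj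
  generalize Nat.find hk = m at hm hzm hmin
  refine ⟨m, _, ⟨z, hz, hm, hzm, fun j hj hjm hcon => ?_, rfl⟩, mem_connectedComponentIn hzm, rfl⟩
  exact hmin j hjm ⟨hj, mem_pre.2 ⟨fun i hi => (mem_pre.1 hzm).1 i (by omega), hcon⟩⟩

end Pool.Agent.H18.UP
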